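import Pool.Agent.Lib.MP_a3a416_nt.NumPow

/-!
An almost-all result, uniform in the range of the indices.
-/

open Finset Filter Topology

namespace Pool.Agent.Lib.MP_a3a416_nt

/-- Double counting: `∑_p #{k ∈ T : p ∣ num B_{2k}} log p ≤ ∑_{k ∈ T} log |num B_{2k}|`. -/
lemma sum_card_mul_log_le (S : Finset ℕ) (hS : ∀ p ∈ S, p.Prime) (T : Finset ℕ) :
    ∑ p ∈ S, ((T.filter (fun k => (p : ℤ) ∣ (bernoulli (2 * k)).num)).card : ℝ) * Real.log (p : ℝ) ≤
      ∑ k ∈ T, Real.log ((bernoulli (2 * k)).num.natAbs : ℝ) := by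
  have h1 : ∀ k ∈ T, ∑ p ∈ S.filter (fun p : ℕ => (p : ℤ) ∣ (bernoulli (2 * k)).num),
      Real.log (p : ℝ) ≤ Real.log ((bernoulli (2 * k)).num.natAbs : ℝ) := by
    intro k _
    have hdvd : ∏ p ∈ S.filter (fun p : ℕ => (p : ℤ) ∣ (bernoulli (2 * k)).num), p ∣
        (bernoulli (2 * k)).num.natAbs := by
      apply Finset.prod_primes_dvd
      · intro p hp
        exact (hS p (mem_filter.mp hp).1).prime
      · intro p hp
        exact Int.natCast_dvd.mp (mem_filter.mp hp).2
    have hle := Nat.le_of_dvd (one_le_bernoulli_num k) hdvd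
    rw [← Real.log_prod]
    · apply Real.log_le_log
      · apply prod_pos
        intro p hp
        exact_mod_cast (hS p (mem_filter.mp hp).1).pos
      · have := (Nat.cast_le (α := ℝ)).mpr hle
        rwa [Nat.cast_prod] at this
    · intro p hp
      exact_mod_cast (hS p (mem_filter.mp hp).1).ne_zero
  refine le_trans (le_of_eq ?_) (sum_le_sum h1)
  simp_rw [sum_filter]
  rw [sum_comm]
  refine sum_congr rfl fun p _ => ?_
  rw [← sum_filter, sum_const, nsmul_eq_mul]

/-- The number of irregular indices `k ≤ N` of `p`. -/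
noncomputable def irr (p N : ℕ) : ℕ :=
  ((Icc 1 N).filter (fun k => (p : ℤ) ∣ (bernoulli (2 * k)).num)).card

lemma irr_mono (p : ℕ) {M N : ℕ} (h : M ≤ N) : irr p M ≤ irr p N :=
  card_le_card (filter_subset_filter _ (Icc_subset_Icc le_rfl h))

lemma irr_le (p N : ℕ) : irr p N ≤ N := by
  refine (card_filter_le _ _).trans ?_
  rw [Nat.card_Icc]; omega

lemma sum_log_dyadic (i : ℕ) :
    ∑ k ∈ Icc 1 (2 ^ i), Real.log ((bernoulli (2 * k)).num.natAbs : ℝ)
      ≤ 2 * 4 ^ i * ((i + 1) * Real.log 2) := by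
  have hlog2 : 0 ≤ Real.log 2 := Real.log_nonneg (by norm_num)
  have h : ∀ k ∈ Icc 1 (2 ^ i), Real.log ((bernoulli (2 * k)).num.natAbs : ℝ)
      ≤ 2 * k * ((i + 1) * Real.log 2) := by
    intro k hk
    rw [mem_Icc] at hk
    refine (log_bernoulli_num_le (by omega)).trans ?_
    have h1 : Real.log (2 * k : ℝ) ≤ (i + 1) * Real.log 2 := by
      have : ((i : ℝ) + 1) * Real.log 2 = Real.log (2 ^ (i + 1)) := by
        rw [Real.log_pow]; push_cast; ring
      rw [this]
      apply Real.log_le_log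
      · have : (1 : ℝ) ≤ k := by exact_mod_cast hk.1
        linarith
      · rw [pow_succ]
        have : (k : ℝ) ≤ 2 ^ i := by exact_mod_cast hk.2
        linarith
    have hk0 : (0 : ℝ) ≤ 2 * k := by positivity
    exact mul_le_mul_of_nonneg_left h1 hk0
  refine (sum_le_sum h).trans ?_
  rw [← sum_mul]
  apply mul_le_mul_of_nonneg_right _ (by positivity)
  have hsum : ∀ M : ℕ, ∑ k ∈ Icc 1 M, (2 * (k : ℝ)) = M * (M + 1) := by
    intro M
    induction M with
    | zero => simp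
    | succ n ih =>
      rw [sum_Icc_succ_top (by omega), ih]; push_cast; ring
  rw [hsum]
  push_cast
  have h1 : (1 : ℝ) ≤ 2 ^ i := one_le_pow₀ (by norm_num)
  have h4 : (4 : ℝ) ^ i = 2 ^ i * 2 ^ i := by
    rw [← mul_pow]; norm_num
  rw [h4]
  nlinarith

/-- Markov inequality for primes with many irregular indices `≤ 2^i`. -/
lemma card_mul_le (S : Finset ℕ) (hS : ∀ p ∈ S, p.Prime) (i : ℕ) (y g : ℝ) (hy : 0 ≤ y)
    (hlog : ∀ p ∈ S, y / 2 ≤ Real.log (p : ℝ)) (hg : ∀ p ∈ S, g ≤ (irr p (2 ^ i) : ℝ)) :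
    (S.card : ℝ) * (g * (y / 2)) ≤ 2 * 4 ^ i * ((i + 1) * Real.log 2) := by
  refine le_trans ?_ ((sum_card_mul_log_le S hS (Icc 1 (2 ^ i))).trans (sum_log_dyadic i))
  rw [← nsmul_eq_mul, ← sum_const]
  refine sum_le_sum fun p hp => ?_
  exact mul_le_mul (hg p hp) (hlog p hp) (by positivity) (by positivity)

/-- The threshold function `w (1 + log⁺ w)^(1+δ)`. -/
noncomputable def G (δ w : ℝ) : ℝ := w * (1 + max 0 (Real.log w)) ^ (1 + δ)

lemma G_mono {δ : ℝ} (hδ : 0 < δ) {a b : ℝ} (ha : 0 < a) (hab : a ≤ b) : G δ a ≤ G δ b := by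
  unfold G
  have h1 : Real.log a ≤ Real.log b := Real.log_le_log ha hab
  have h2 : max 0 (Real.log a) ≤ max 0 (Real.log b) := max_le_max le_rfl h1
  have h3 : 0 ≤ max 0 (Real.log a) := le_max_left _ _
  apply mul_le_mul hab _ (by positivity) (by linarith)
  exact Real.rpow_le_rpow (by positivity) (by linarith) (by linarith)

lemma le_G {δ : ℝ} (hδ : 0 < δ) {a : ℝ} (ha : 0 ≤ a) : a ≤ G δ a := by
  unfold G
  have h3 : 0 ≤ max 0 (Real.log a) := le_max_left _ _
  have h4 : (1 : ℝ) ≤ (1 + max 0 (Real.log a)) ^ (1 + δ) :=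
    Real.one_le_rpow (by linarith) (by linarith)
  nlinarith

/-- The bad primes in `(√x, x]`. -/
lemma main_bound {δ : ℝ} (hδ : 0 < δ) {x l : ℝ} (hx : 2 ≤ x) (hl : 1 ≤ l) (S : Finset ℕ)
    (hS : ∀ p ∈ S, p.Prime ∧ Real.sqrt x < p ∧ (p : ℝ) ≤ x ∧
      ∃ N : ℕ, 1 ≤ N ∧ G δ (l * (N : ℝ) ^ 2 * Real.log p / p) < (irr p N : ℝ)) :
    (S.card : ℝ) ≤ 128 * (1 + ∑' n : ℕ, 1 / ((n : ℝ) + 1) ^ (1 + δ)) * (x / (l * Real.log x)) := by
  classical
  set y := Real.log x with hy
  have hypos : 0 < y := Real.log_pos (by linarith)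
  have hlog2 : (1 : ℝ) / 2 < Real.log 2 := by have := Real.log_two_gt_d9; linarith
  have hlog2' : Real.log 2 ≤ y := Real.log_le_log (by norm_num) hx
  have hlogp : ∀ p ∈ S, y / 2 ≤ Real.log (p : ℝ) := by
    intro p hp
    obtain ⟨-, h1, -, -⟩ := hS p hp
    have h2 : Real.log (Real.sqrt x) = y / 2 := Real.log_sqrt (by linarith)
    rw [← h2]
    exact Real.log_le_log (Real.sqrt_pos.mpr (by linarith)) h1.le
  -- the scales
  set w : ℕ → ℝ := fun i => l * 4 ^ i * y / (8 * x) with hw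
  have hwpos : ∀ i, 0 < w i := fun i => by simp only [hw]; positivity
  obtain ⟨J, hJ1, hJ2⟩ : ∃ J : ℕ, (∀ i : ℕ, (2 : ℝ) ^ i < 4 * x → i < J) ∧ (J : ℝ) * Real.log 2 ≤ 4 * y := by
    refine ⟨⌊y / Real.log 2⌋₊ + 3, ?_, ?_⟩
    · intro i hi
      have h1 : (i : ℝ) * Real.log 2 < 2 * Real.log 2 + y := by
        have := Real.log_lt_log (by positivity) hi
        rw [Real.log_pow, Real.log_mul (by norm_num) (by linarith)] at this
        have h4 : Real.log 4 = 2 * Real.log 2 := by
          rw [show (4 : ℝ) = 2 ^ 2 by norm_num, Real.log_pow]; norm_num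
        linarith
      have h2 : (i : ℝ) < y / Real.log 2 + 2 := by
        rw [← sub_lt_iff_lt_add, lt_div_iff₀ (by linarith)]
        linarith
      have h3 : y / Real.log 2 < ⌊y / Real.log 2⌋₊ + 1 := Nat.lt_floor_add_one _
      have h4 : (i : ℝ) < ((⌊y / Real.log 2⌋₊ + 3 : ℕ) : ℝ) := by push_cast; linarith
      exact_mod_cast h4
    · have h3 : (⌊y / Real.log 2⌋₊ : ℝ) ≤ y / Real.log 2 := Nat.floor_le (by positivity)
      have h4 : (⌊y / Real.log 2⌋₊ : ℝ) * Real.log 2 ≤ y := by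
        rwa [← le_div_iff₀ (by linarith)]
      push_cast
      linarith
  have hScover : ∀ p ∈ S, ∃ i, i < J ∧ G δ (w i) < (irr p (2 ^ i) : ℝ) := by
    intro p hp
    obtain ⟨hpp, h1, h2, N, hN1, hN⟩ := hS p hp
    have hp2 : (2 : ℝ) ≤ p := by exact_mod_cast hpp.two_le
    have hlp : Real.log 2 ≤ Real.log p := Real.log_le_log (by norm_num) hp2
    have hN1' : (1 : ℝ) ≤ N := by exact_mod_cast hN1
    refine ⟨Nat.clog 2 N, ?_, ?_⟩
    · apply hJ1
      -- `N < 2 p`
      have h3 : l * (N : ℝ) ^ 2 * Real.log p / p < N := by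
        calc l * (N : ℝ) ^ 2 * Real.log p / p ≤ G δ (l * (N : ℝ) ^ 2 * Real.log p / p) :=
              le_G hδ (by positivity)
          _ < irr p N := hN
          _ ≤ N := by exact_mod_cast irr_le p N
      have h4 : l * (N : ℝ) ^ 2 * Real.log p < N * p := by
        rwa [div_lt_iff₀ (by linarith)] at h3
      have h5 : (N : ℝ) < 2 * p := by
        have h6 : (N : ℝ) * (N * (1 / 2)) ≤ l * (N : ℝ) ^ 2 * Real.log p := by
          have h7 : (N : ℝ) * (N * (1 / 2)) = 1 * (N : ℝ) ^ 2 * (1 / 2) := by ring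
          rw [h7]
          apply mul_le_mul _ (by linarith) (by norm_num) (by positivity)
          apply mul_le_mul_of_nonneg_right hl (by positivity)
        have h8 : (N : ℝ) * (N * (1 / 2)) < N * p := lt_of_le_of_lt h6 h4
        have := lt_of_mul_lt_mul_left h8 (by linarith)
        linarith
      have h6 : (2 : ℝ) ^ (Nat.clog 2 N) < 2 * N ∨ Nat.clog 2 N = 0 := by
        rcases Nat.eq_zero_or_pos (Nat.clog 2 N) with h | h
        · exact Or.inr h
        · left
          have : 2 ^ (Nat.clog 2 N - 1) < N := by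
            apply Nat.pow_pred_clog_lt_self (by norm_num)
            by_contra hcon
            push Not at hcon
            have : N = 1 := by omega
            rw [this] at h
            simp at h
          have h9 : (2 : ℕ) ^ (Nat.clog 2 N) = 2 * 2 ^ (Nat.clog 2 N - 1) := by
            rw [← pow_succ']; congr 1; omega
          have h10 : (2 : ℕ) ^ (Nat.clog 2 N) < 2 * N := by omega
          exact_mod_cast h10
      rcases h6 with h6 | h6
      · linarith
      · rw [h6]; norm_num; linarith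
    · have h3 : (irr p N : ℝ) ≤ irr p (2 ^ Nat.clog 2 N) := by
        exact_mod_cast irr_mono p (Nat.le_pow_clog (by norm_num) N)
      refine lt_of_le_of_lt (G_mono hδ (hwpos _) ?_) (lt_of_lt_of_le hN h3)
      have h4 : (4 : ℝ) ^ (Nat.clog 2 N) ≤ 4 * (N : ℝ) ^ 2 := by
        have h5 : (2 : ℝ) ^ (Nat.clog 2 N) ≤ 2 * N := by
          rcases Nat.eq_zero_or_pos (Nat.clog 2 N) with h | h
          · rw [h]; norm_num; linarith
          · have : 2 ^ (Nat.clog 2 N - 1) < N := by
              apply Nat.pow_pred_clog_lt_self (by norm_num)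
              by_contra hcon
              push Not at hcon
              have : N = 1 := by omega
              rw [this] at h
              simp at h
            have h9 : (2 : ℕ) ^ (Nat.clog 2 N) = 2 * 2 ^ (Nat.clog 2 N - 1) := by
              rw [← pow_succ']; congr 1; omega
            have h10 : (2 : ℕ) ^ (Nat.clog 2 N) ≤ 2 * N := by omega
            exact_mod_cast h10
        have h6 : (4 : ℝ) ^ (Nat.clog 2 N) = ((2 : ℝ) ^ (Nat.clog 2 N)) ^ 2 := by
          rw [← pow_mul, mul_comm, pow_mul]; norm_num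
        rw [h6]
        have h7 : (0 : ℝ) ≤ 2 ^ (Nat.clog 2 N) := by positivity
        nlinarith
      simp only [hw]
      rw [div_le_div_iff₀ (by positivity) (by linarith)]
      have h8 := hlogp p hp
      calc l * 4 ^ Nat.clog 2 N * y * p ≤ l * (4 * (N : ℝ) ^ 2) * (2 * Real.log p) * x := by
            gcongr
            linarith
        _ = l * (N : ℝ) ^ 2 * Real.log p * (8 * x) := by ring
  -- the first scale with `w ≥ 1`
  have hex : ∃ i, 1 ≤ w i := by
    obtain ⟨n, hn⟩ := pow_unbounded_of_one_lt (8 * x / (l * y)) (show (1 : ℝ) < 4 by norm_num)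
    refine ⟨n, ?_⟩
    simp only [hw]
    rw [le_div_iff₀ (by linarith)]
    rw [div_lt_iff₀ (by positivity)] at hn
    linarith
  set i₁ := Nat.find hex with hi₁
  have hi₁w : 1 ≤ w i₁ := Nat.find_spec hex
  have hi₁lt : ∀ i, i < i₁ → w i < 1 := fun i hi => not_le.mp (Nat.find_min hex hi)
  set a := min i₁ J - 1 with ha
  set S0 := S.filter (fun p => 1 ≤ i₁ ∧ 1 ≤ J ∧ 1 ≤ irr p (2 ^ a)) with hS0
  set Si : ℕ → Finset ℕ := fun t => S.filter (fun p => G δ (w (i₁ + t)) < (irr p (2 ^ (i₁ + t)) : ℝ))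
    with hSi
  have hcov : S ⊆ S0 ∪ (range (J - i₁)).biUnion Si := by
    intro p hp
    obtain ⟨i, hiJ, hi⟩ := hScover p hp
    rw [mem_union]
    rcases lt_or_ge i i₁ with h | h
    · left
      rw [hS0, mem_filter]
      refine ⟨hp, by omega, by omega, ?_⟩
      have h1 : (0 : ℝ) < irr p (2 ^ i) := lt_of_le_of_lt ((hwpos i).le.trans (le_G hδ (hwpos i).le)) hi
      have h2 : 1 ≤ irr p (2 ^ i) := by
        have : 0 < irr p (2 ^ i) := by exact_mod_cast h1
        exact this
      refine h2.trans (irr_mono p ?_)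
      exact Nat.pow_le_pow_right (by norm_num) (by omega)
    · right
      rw [mem_biUnion]
      refine ⟨i - i₁, ?_, ?_⟩
      · rw [mem_range]; omega
      · simp only [hSi]
        rw [mem_filter]
        refine ⟨hp, ?_⟩
        rwa [Nat.add_sub_cancel' h]
  have hC : 0 < x / (l * y) := by positivity
  have hJ2' : ∀ i : ℕ, i < J → ((i : ℝ) + 1) * Real.log 2 ≤ 4 * y := by
    intro i hi
    have : ((i : ℝ) + 1) ≤ J := by exact_mod_cast hi
    refine le_trans ?_ hJ2
    exact mul_le_mul_of_nonneg_right this (by linarith)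
  have hcard0 : (S0.card : ℝ) ≤ 128 * (x / (l * y)) := by
    rcases S0.eq_empty_or_nonempty with h | ⟨p, hp⟩
    · rw [h, card_empty, Nat.cast_zero]; positivity
    · have hp' := (mem_filter.mp hp).2
      have haJ : a < J := by omega
      have hai : a < i₁ := by omega
      have h1 := card_mul_le S0 (fun p hp => (hS p (mem_filter.mp hp).1).1) a y 1 hypos.le
        (fun p hp => hlogp p (mem_filter.mp hp).1)
        (fun p hp => by exact_mod_cast (mem_filter.mp hp).2.2.2)
      have h2 := hJ2' a haJ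
      have h3 := hi₁lt a hai
      have h4 : (4 : ℝ) ^ a ≤ 8 * (x / (l * y)) := by
        simp only [hw] at h3
        rw [div_lt_one (by linarith)] at h3
        rw [mul_div_assoc', le_div_iff₀ (by positivity)]
        nlinarith
      have h5 : (S0.card : ℝ) * (1 * (y / 2)) ≤ 2 * (8 * (x / (l * y))) * (4 * y) := by
        refine h1.trans ?_
        gcongr
      have h6 : (S0.card : ℝ) * (1 * (y / 2)) ≤ (128 * (x / (l * y))) * (1 * (y / 2)) := by
        linarith
      exact le_of_mul_le_mul_right h6 (by positivity)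
  have hcardi : ∀ t ∈ range (J - i₁), ((Si t).card : ℝ) ≤
      128 * (x / (l * y)) * (1 / ((t : ℝ) + 1) ^ (1 + δ)) := by
    intro t ht
    rw [mem_range] at ht
    have hwt : (4 : ℝ) ^ t ≤ w (i₁ + t) := by
      have : w (i₁ + t) = w i₁ * 4 ^ t := by
        simp only [hw]; rw [pow_add]; ring
      rw [this]
      have h4 : (0 : ℝ) ≤ 4 ^ t := by positivity
      nlinarith
    have hlogw : (t : ℝ) ≤ max 0 (Real.log (w (i₁ + t))) := by
      refine le_trans ?_ (le_max_right _ _)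
      have h1 := Real.log_le_log (by positivity) hwt
      rw [Real.log_pow] at h1
      have h4 : (1 : ℝ) ≤ Real.log 4 := by
        have : Real.log 4 = 2 * Real.log 2 := by
          rw [show (4 : ℝ) = 2 ^ 2 by norm_num, Real.log_pow]; norm_num
        linarith
      have : (t : ℝ) * 1 ≤ t * Real.log 4 := mul_le_mul_of_nonneg_left h4 (by positivity)
      linarith
    have hGlow : w (i₁ + t) * ((t : ℝ) + 1) ^ (1 + δ) ≤ G δ (w (i₁ + t)) := by
      unfold G
      apply mul_le_mul_of_nonneg_left _ (hwpos _).le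
      apply Real.rpow_le_rpow (by positivity) (by linarith) (by linarith)
    have h1 := card_mul_le (Si t) (fun p hp => (hS p (mem_filter.mp hp).1).1) (i₁ + t) y
      (w (i₁ + t) * ((t : ℝ) + 1) ^ (1 + δ)) hypos.le
      (fun p hp => hlogp p (mem_filter.mp hp).1)
      (fun p hp => hGlow.trans (mem_filter.mp hp).2.le)
    have h2 := hJ2' (i₁ + t) (by omega)
    have hpw : (0 : ℝ) < ((t : ℝ) + 1) ^ (1 + δ) := Real.rpow_pos_of_pos (by positivity) _
    have h5 : ((Si t).card : ℝ) * (w (i₁ + t) * ((t : ℝ) + 1) ^ (1 + δ) * (y / 2)) ≤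
        2 * 4 ^ (i₁ + t) * (4 * y) := by
      refine h1.trans ?_
      push_cast at h2 ⊢
      gcongr
    have h6 : 2 * (4 : ℝ) ^ (i₁ + t) * (4 * y) =
        (128 * (x / (l * y)) * (1 / ((t : ℝ) + 1) ^ (1 + δ))) *
          (w (i₁ + t) * ((t : ℝ) + 1) ^ (1 + δ) * (y / 2)) := by
      simp only [hw]
      field_simp
      norm_num
    rw [h6] at h5
    have hwt0 := hwpos (i₁ + t)
    exact le_of_mul_le_mul_right h5 (by positivity)
  have hsummable : Summable (fun n : ℕ => 1 / ((n : ℝ) + 1) ^ (1 + δ)) := by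
    have h1 : Summable (fun n : ℕ => 1 / (n : ℝ) ^ (1 + δ)) :=
      Real.summable_one_div_nat_rpow.mpr (by linarith)
    have h2 := (summable_nat_add_iff 1).mpr h1
    simpa using h2
  have hle : (S.card : ℝ) ≤ S0.card + ∑ t ∈ range (J - i₁), ((Si t).card : ℝ) := by
    have h1 := (card_le_card hcov).trans ((card_union_le _ _).trans
      (Nat.add_le_add_left (card_biUnion_le) _))
    exact_mod_cast h1
  calc (S.card : ℝ) ≤ S0.card + ∑ t ∈ range (J - i₁), ((Si t).card : ℝ) := hle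
    _ ≤ 128 * (x / (l * y)) + ∑ t ∈ range (J - i₁),
        128 * (x / (l * y)) * (1 / ((t : ℝ) + 1) ^ (1 + δ)) := add_le_add hcard0 (sum_le_sum hcardi)
    _ = 128 * (x / (l * y)) + 128 * (x / (l * y)) * ∑ t ∈ range (J - i₁),
        (1 / ((t : ℝ) + 1) ^ (1 + δ)) := by rw [mul_sum]
    _ ≤ 128 * (x / (l * y)) + 128 * (x / (l * y)) * ∑' n : ℕ, 1 / ((n : ℝ) + 1) ^ (1 + δ) := by
        gcongr
        exact hsummable.sum_le_tsum _ (fun n _ => by positivity)
    _ = 128 * (1 + ∑' n : ℕ, 1 / ((n : ℝ) + 1) ^ (1 + δ)) * (x / (l * y)) := by ring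

/-- All bad primes up to `x`. -/
theorem almost_all {δ : ℝ} (hδ : 0 < δ) : ∃ C : ℝ, ∀ x l : ℝ, 2 ≤ x → 1 ≤ l →
    (({p : ℕ | p.Prime ∧ (p : ℝ) ≤ x ∧
      ∃ N : ℕ, 1 ≤ N ∧ G δ (l * (N : ℝ) ^ 2 * Real.log p / p) < (irr p N : ℝ)}.ncard : ℕ) : ℝ) ≤
      Real.sqrt x + C * (x / (l * Real.log x)) := by
  classical
  refine ⟨128 * (1 + ∑' n : ℕ, 1 / ((n : ℝ) + 1) ^ (1 + δ)), fun x l hx hl => ?_⟩
  · set B : Finset ℕ := (range (⌊x⌋₊ + 1)).filter (fun p : ℕ => p.Prime ∧
      ∃ N : ℕ, 1 ≤ N ∧ G δ (l * (N : ℝ) ^ 2 * Real.log p / p) < (irr p N : ℝ)) with hB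
    have hBset : {p : ℕ | p.Prime ∧ (p : ℝ) ≤ x ∧
      ∃ N : ℕ, 1 ≤ N ∧ G δ (l * (N : ℝ) ^ 2 * Real.log p / p) < (irr p N : ℝ)} = (B : Set ℕ) := by
      ext p
      rw [hB, Finset.mem_coe, mem_filter, mem_range, Nat.lt_succ_iff, Nat.le_floor_iff (by linarith)]
      constructor
      · rintro ⟨h1, h2, h3⟩; exact ⟨h2, h1, h3⟩
      · rintro ⟨h1, h2, h3⟩; exact ⟨h2, h1, h3⟩
    rw [hBset, Set.ncard_coe_finset]
    have h1 : B ⊆ (Icc 1 ⌊Real.sqrt x⌋₊) ∪ B.filter (fun p : ℕ => Real.sqrt x < p) := by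
      intro p hp
      rw [mem_union, mem_Icc, mem_filter]
      by_cases h : Real.sqrt x < p
      · exact Or.inr ⟨hp, h⟩
      · left
        push Not at h
        refine ⟨?_, Nat.le_floor h⟩
        rw [hB, mem_filter] at hp
        exact hp.2.1.one_le
    have h2 := main_bound hδ hx hl (B.filter (fun p : ℕ => Real.sqrt x < p)) (by
      intro p hp
      rw [mem_filter] at hp
      obtain ⟨hp1, hp2⟩ := hp
      rw [hB, mem_filter, mem_range] at hp1
      refine ⟨hp1.2.1, hp2, ?_, hp1.2.2⟩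
      exact (Nat.le_floor_iff (by linarith)).mp (by omega))
    have h3 : (B.card : ℝ) ≤ (Icc 1 ⌊Real.sqrt x⌋₊).card +
        (B.filter (fun p : ℕ => Real.sqrt x < p)).card := by
      exact_mod_cast (card_le_card h1).trans (card_union_le _ _)
    have h4 : ((Icc 1 ⌊Real.sqrt x⌋₊).card : ℝ) ≤ Real.sqrt x := by
      rw [Nat.card_Icc, Nat.add_sub_cancel]
      exact Nat.floor_le (Real.sqrt_nonneg _)
    exact h3.trans (add_le_add h4 h2)

end Pool.Agent.Lib.MP_a3a416_nt
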