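import Pool.Agent.Lib.MP_a3a416_nt.BernoulliBound

/-!
Gaps between regular indices: for a prime `p`, the Bernoulli numbers `B_0, B_1, ..., B_N` mod `p`
are the values of a polynomial of degree `N`, which vanishes at all irregular indices.
-/

open Finset Polynomial

namespace Pool.Agent.Lib.MP_a3a416_nt

/-- `D * B_n` is an integer, where `D` is the product of the primes below `p`. -/
lemma exists_int_bernoulli (p : ℕ) (hp : 5 ≤ p) (n : ℕ) (hn : n + 2 ≤ p) :
    ∃ z : ℤ, (z : ℚ) = (primorial (p - 1) : ℚ) * _root_.bernoulli n := by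
  have hden : (_root_.bernoulli n).den ∣ primorial (p - 1) := by
    rcases Nat.even_or_odd' n with ⟨k, hk | hk⟩
    · rw [hk]
      refine (bernoulli_den_dvd k).trans ?_
      rw [primorial, primorial]
      refine prod_dvd_prod_of_subset _ _ _ ?_
      intro q hq
      rw [mem_filter, mem_range] at hq ⊢
      exact ⟨by omega, hq.2⟩
    · rcases Nat.eq_zero_or_pos k with rfl | hk0
      · have h2 : (_root_.bernoulli n).den = 2 := by
          rw [hk]
          norm_num
        rw [h2, primorial]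
        apply dvd_prod_of_mem (fun i => i)
        rw [mem_filter, mem_range]
        exact ⟨by omega, Nat.prime_two⟩
      · have h0 : _root_.bernoulli n = 0 := by
          apply bernoulli_eq_zero_of_odd
          · exact ⟨k, hk⟩
          · omega
        rw [h0]; simp
  obtain ⟨m, hm⟩ := hden
  refine ⟨m * (_root_.bernoulli n).num, ?_⟩
  rw [hm]
  push_cast
  rw [mul_comm ((_root_.bernoulli n).den : ℚ) (m : ℚ), mul_assoc, mul_comm ((_root_.bernoulli n).den : ℚ),
    Rat.mul_den_eq_num]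

/-- The integer `D * B_n`. -/
noncomputable def cB (p : ℕ) (n : ℕ) : ℤ := ((primorial (p - 1) : ℚ) * _root_.bernoulli n).num

lemma cB_spec {p : ℕ} (hp : 5 ≤ p) {n : ℕ} (hn : n + 2 ≤ p) :
    (cB p n : ℚ) = (primorial (p - 1) : ℚ) * _root_.bernoulli n := by
  obtain ⟨z, hz⟩ := exists_int_bernoulli p hp n hn
  unfold cB
  rw [← hz, Rat.num_intCast]

lemma not_dvd_primorial {p : ℕ} (hp : p.Prime) : ¬ p ∣ primorial (p - 1) := by
  rw [primorial]
  intro h
  obtain ⟨q, hq, hpq⟩ := (hp.prime.dvd_finsetProd_iff _).mp h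
  rw [mem_filter, mem_range] at hq
  have := (Nat.prime_dvd_prime_iff_eq hp hq.2).mp hpq
  have := hp.pos
  omega

lemma dvd_cB_iff {p : ℕ} (hp : p.Prime) (hp5 : 5 ≤ p) {n : ℕ} (hn : n + 2 ≤ p) :
    (p : ℤ) ∣ cB p n ↔ (p : ℤ) ∣ (_root_.bernoulli n).num := by
  have h := cB_spec hp5 hn
  have h1 : cB p n * (_root_.bernoulli n).den = (primorial (p - 1) : ℤ) * (_root_.bernoulli n).num := by
    have h2 : (cB p n : ℚ) * (_root_.bernoulli n).den = (primorial (p - 1) : ℚ) * (_root_.bernoulli n).num := by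
      rw [h, mul_assoc, Rat.mul_den_eq_num]
    exact_mod_cast h2
  have hpZ : Prime (p : ℤ) := Nat.prime_iff_prime_int.mp hp
  constructor
  · intro hd
    have h3 : (p : ℤ) ∣ (primorial (p - 1) : ℤ) * (_root_.bernoulli n).num := h1 ▸ hd.mul_right _
    rcases hpZ.dvd_or_dvd h3 with h4 | h4
    · exact absurd (Int.natCast_dvd_natCast.mp h4) (not_dvd_primorial hp)
    · exact h4
  · intro hd
    have h3 : (p : ℤ) ∣ cB p n * (_root_.bernoulli n).den := h1 ▸ hd.mul_left _
    rcases hpZ.dvd_or_dvd h3 with h4 | h4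
    · exact h4
    · exfalso
      have hcop : (_root_.bernoulli n).num.natAbs.Coprime (_root_.bernoulli n).den := (_root_.bernoulli n).reduced
      have h5 : p ∣ (_root_.bernoulli n).num.natAbs := Int.natCast_dvd.mp hd
      have h6 : p ∣ (_root_.bernoulli n).den := Int.natCast_dvd_natCast.mp h4
      exact Nat.not_coprime_of_dvd_of_dvd hp.one_lt h5 h6 hcop

/-- Pascal's recurrence for the integers `D * B_n`. -/
lemma sum_choose_cB {p : ℕ} (hp5 : 5 ≤ p) {m : ℕ} (hm : m + 1 ≤ p) (hm2 : 2 ≤ m) :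
    ∑ n ∈ range m, (m.choose n : ℤ) * cB p n = 0 := by
  have h := _root_.sum_bernoulli m
  rw [if_neg (by omega)] at h
  have h2 : ((∑ n ∈ range m, (m.choose n : ℤ) * cB p n : ℤ) : ℚ) = 0 := by
    push_cast
    have h3 : ∀ n ∈ range m, (m.choose n : ℚ) * (cB p n : ℚ)
        = (primorial (p - 1) : ℚ) * ((m.choose n : ℚ) * _root_.bernoulli n) := by
      intro n hn
      rw [mem_range] at hn
      rw [cB_spec hp5 (by omega)]
      ring
    rw [sum_congr rfl h3, ← mul_sum, h, mul_zero]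
  exact_mod_cast h2

variable {p : ℕ} [hpF : Fact p.Prime]

/-- The polynomial `∑_{n ≤ N} D B_n * (x choose n)` over `ZMod p`. -/
noncomputable def FPoly (p N : ℕ) : (ZMod p)[X] :=
  ∑ n ∈ range (N + 1), C ((cB p n : ZMod p) * ((n.factorial : ZMod p))⁻¹) *
    descPochhammer (ZMod p) n

lemma FPoly_eval (N m : ℕ) (hN : N < p) :
    (FPoly p N).eval (m : ZMod p) = ∑ n ∈ range (N + 1), (m.choose n : ZMod p) * (cB p n : ZMod p) := by
  unfold FPoly
  rw [eval_finsetSum]
  refine sum_congr rfl fun n hn => ?_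
  rw [mem_range] at hn
  rw [eval_mul, eval_C, descPochhammer_eval_eq_descFactorial, Nat.descFactorial_eq_factorial_mul_choose]
  have hfac : (n.factorial : ZMod p) ≠ 0 := by
    rw [Ne, ZMod.natCast_eq_zero_iff]
    intro h
    have := (hpF.out.dvd_factorial).mp h
    omega
  push_cast
  field_simp

lemma FPoly_natDegree_le (N : ℕ) : (FPoly p N).natDegree ≤ N := by
  unfold FPoly
  refine natDegree_sum_le_of_forall_le _ _ fun n hn => ?_
  rw [mem_range] at hn
  refine (natDegree_C_mul_le _ _).trans ?_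
  rw [descPochhammer_natDegree]
  omega

lemma FPoly_ne_zero {N : ℕ} (hN : N < p) (h : ¬ (p : ℤ) ∣ cB p N) : FPoly p N ≠ 0 := by
  intro h0
  have hc : (FPoly p N).coeff N = (cB p N : ZMod p) * ((N.factorial : ZMod p))⁻¹ := by
    unfold FPoly
    rw [finsetSum_coeff, sum_range_succ, sum_eq_zero, zero_add, coeff_C_mul]
    · have : (descPochhammer (ZMod p) N).coeff N = 1 := by
        have h1 := monic_descPochhammer (ZMod p) N
        rw [Monic, leadingCoeff, descPochhammer_natDegree] at h1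
        exact h1
      rw [this, mul_one]
    · intro n hn
      rw [mem_range] at hn
      rw [coeff_C_mul, coeff_eq_zero_of_natDegree_lt, mul_zero]
      rw [descPochhammer_natDegree]; exact hn
  rw [h0, coeff_zero] at hc
  have hfac : (N.factorial : ZMod p) ≠ 0 := by
    rw [Ne, ZMod.natCast_eq_zero_iff]
    intro h
    have := (hpF.out.dvd_factorial).mp h
    omega
  have h2 : (cB p N : ZMod p) ≠ 0 := by
    rw [Ne, ZMod.intCast_zmod_eq_zero_iff_dvd]
    exact h
  exact (mul_ne_zero h2 (inv_ne_zero hfac)) hc.symm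

/-- The key bound: if `p` does not divide `B_N`, but all `B_n` with `N < n < N'` vanish mod `p`, then
`N' ≤ N + 1 + #{2 ≤ n ≤ N : p ∤ B_n}`. -/
lemma gap_bound (hp5 : 5 ≤ p) {N N' : ℕ} (hN' : N' + 1 ≤ p) (hNN' : N < N')
    (hreg : ¬ (p : ℤ) ∣ cB p N) (hirr : ∀ n, N < n → n < N' → (p : ℤ) ∣ cB p n) :
    N' ≤ N + 1 + ((Icc 2 N).filter (fun n => ¬ (p : ℤ) ∣ cB p n)).card := by
  classical
  have hNp : N < p := by omega
  -- the roots
  set Z : Finset ℕ := (Icc 2 N').filter (fun m => N < m ∨ (p : ℤ) ∣ cB p m) with hZ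
  have hroot : ∀ m ∈ Z, (FPoly p N).eval (m : ZMod p) = 0 := by
    intro m hm
    rw [hZ, mem_filter, mem_Icc] at hm
    obtain ⟨⟨hm2, hmN'⟩, hm⟩ := hm
    rw [FPoly_eval N m hNp]
    have hrec : ∑ n ∈ range m, (m.choose n : ZMod p) * (cB p n : ZMod p) = 0 := by
      have := sum_choose_cB hp5 (show m + 1 ≤ p by omega) hm2
      have h2 := congrArg (Int.cast : ℤ → ZMod p) this
      push_cast at h2
      exact h2
    rcases lt_or_ge N m with hNm | hmN
    · -- m > N
      rw [← sum_subset (range_subset_range.mpr (show N + 1 ≤ m by omega))] at hrec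
      · exact hrec
      · intro n hn hn'
        rw [mem_range] at hn hn'
        have : (cB p n : ZMod p) = 0 := by
          rw [ZMod.intCast_zmod_eq_zero_iff_dvd]
          exact hirr n (by omega) (by omega)
        rw [this, mul_zero]
    · -- m ≤ N, so B_m = 0
      have hd : (p : ℤ) ∣ cB p m := by
        rcases hm with h | h
        · omega
        · exact h
      have h0 : (cB p m : ZMod p) = 0 := by
        rw [ZMod.intCast_zmod_eq_zero_iff_dvd]; exact hd
      rw [← sum_subset (range_subset_range.mpr (show m + 1 ≤ N + 1 by omega)), sum_range_succ, hrec,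
        h0, mul_zero, add_zero]
      intro n hn hn'
      rw [mem_range] at hn hn'
      rw [Nat.choose_eq_zero_of_lt (by omega), Nat.cast_zero, zero_mul]
  have hne := FPoly_ne_zero hNp hreg
  -- number of roots
  have hinj : Set.InjOn (fun m : ℕ => (m : ZMod p)) (Z : Set ℕ) := by
    intro a ha b hb hab
    rw [Finset.mem_coe, hZ, mem_filter, mem_Icc] at ha hb
    simp only at hab
    rw [ZMod.natCast_eq_natCast_iff'] at hab
    rwa [Nat.mod_eq_of_lt (by omega), Nat.mod_eq_of_lt (by omega)] at hab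
  have hcard : Z.card ≤ N := by
    have h1 : (Z.image (fun m : ℕ => (m : ZMod p))).card = Z.card := card_image_of_injOn hinj
    have h2 : (Z.image (fun m : ℕ => (m : ZMod p))).val ⊆ (FPoly p N).roots := by
      intro x hx
      rw [Finset.mem_val, mem_image] at hx
      obtain ⟨m, hm, rfl⟩ := hx
      rw [mem_roots hne]
      exact hroot m hm
    have h3 := card_le_degree_of_subset_roots h2
    exact (h1 ▸ h3).trans (FPoly_natDegree_le N)
  -- count
  have hcompl : (Icc 2 N').card ≤ Z.card + ((Icc 2 N).filter (fun n => ¬ (p : ℤ) ∣ cB p n)).card := by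
    have hsub : Icc 2 N' ⊆ Z ∪ (Icc 2 N).filter (fun n => ¬ (p : ℤ) ∣ cB p n) := by
      intro m hm
      rw [mem_Icc] at hm
      rw [mem_union, hZ, mem_filter, mem_filter, mem_Icc, mem_Icc]
      by_cases h1 : N < m
      · exact Or.inl ⟨hm, Or.inl h1⟩
      · by_cases h2 : (p : ℤ) ∣ cB p m
        · exact Or.inl ⟨hm, Or.inr h2⟩
        · exact Or.inr ⟨⟨hm.1, by omega⟩, h2⟩
    exact (card_le_card hsub).trans (card_union_le _ _)
  rw [Nat.card_Icc] at hcompl
  omega

omit hpF in
/-- odd indices from `3` on vanish -/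
lemma cB_odd (hp5 : 5 ≤ p) {n : ℕ} (hn : n + 2 ≤ p) (hodd : Odd n) (h1 : 1 < n) : cB p n = 0 := by
  have h := cB_spec hp5 hn
  rw [bernoulli_eq_zero_of_odd hodd h1, mul_zero] at h
  exact_mod_cast h

/-- The set of regular indices up to `k`: those `1 ≤ j ≤ k` such that `p` does not divide the numerator
of `B_{2j}`. -/
noncomputable def regIdx (p k : ℕ) : Finset ℕ :=
  {j ∈ Icc 1 k | ¬ (p : ℤ) ∣ (_root_.bernoulli (2 * j)).num}

omit hpF in
lemma mem_regIdx {k j : ℕ} :
    j ∈ regIdx p k ↔ (1 ≤ j ∧ j ≤ k) ∧ ¬ (p : ℤ) ∣ (_root_.bernoulli (2 * j)).num := by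
  unfold regIdx
  rw [mem_filter, mem_Icc]

lemma card_regular_cB (hp5 : 5 ≤ p) {k : ℕ} (hk : 2 * k + 2 ≤ p) :
    ((Icc 2 (2 * k)).filter (fun n => ¬ (p : ℤ) ∣ cB p n)).card = (regIdx p k).card := by
  classical
  have h : (Icc 2 (2 * k)).filter (fun n => ¬ (p : ℤ) ∣ cB p n) = (regIdx p k).image (fun j => 2 * j) := by
    ext n
    rw [mem_filter, mem_Icc, mem_image]
    constructor
    · rintro ⟨⟨h2, hnk⟩, hn⟩
      rcases Nat.even_or_odd' n with ⟨j, hj | hj⟩
      · refine ⟨j, ?_, hj.symm⟩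
        rw [mem_regIdx]
        refine ⟨⟨by omega, by omega⟩, ?_⟩
        rw [← hj, ← dvd_cB_iff hpF.out hp5 (by omega)]
        exact hn
      · exfalso
        apply hn
        rw [cB_odd hp5 (by omega) ⟨j, hj⟩ (by omega)]
        exact dvd_zero _
    · rintro ⟨j, hj, rfl⟩
      rw [mem_regIdx] at hj
      refine ⟨⟨by omega, by omega⟩, ?_⟩
      rw [dvd_cB_iff hpF.out hp5 (by omega)]
      exact hj.2
  rw [h, card_image_of_injective]
  intro a b hab
  simp only at hab
  omega

/-- **Gap theorem.** -/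
theorem gap_theorem (hp5 : 5 ≤ p) {k : ℕ} (hk1 : 1 ≤ k)
    (hk : ¬ (p : ℤ) ∣ (_root_.bernoulli (2 * k)).num)
    (hlt : 2 * k + (regIdx p k).card + 3 ≤ p) :
    ∃ j, k < j ∧ 2 * j ≤ 2 * k + (regIdx p k).card + 1 ∧
      ¬ (p : ℤ) ∣ (_root_.bernoulli (2 * j)).num := by
  by_contra hcon
  push Not at hcon
  have key := gap_bound (p := p) hp5 (N := 2 * k) (N' := 2 * k + (regIdx p k).card + 2) (by omega)
    (by omega) (by rwa [dvd_cB_iff hpF.out hp5 (by omega)]) (by
      intro n h1 h2
      rcases Nat.even_or_odd' n with ⟨j, hj | hj⟩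
      · rw [dvd_cB_iff hpF.out hp5 (by omega), hj]
        exact hcon j (by omega) (by omega)
      · rw [cB_odd hp5 (by omega) ⟨j, hj⟩ (by omega)]
        exact dvd_zero _)
  rw [card_regular_cB hp5 (by omega)] at key
  omega

omit hpF in
lemma not_dvd_bernoulli_two (hp5 : 5 ≤ p) : ¬ (p : ℤ) ∣ (_root_.bernoulli (2 * 1)).num := by
  have h6 : (_root_.bernoulli (2 * 1)).num = 1 := by
    rw [mul_one, bernoulli_two]; norm_num
  rw [h6]
  intro h
  have := Int.le_of_dvd one_pos h
  omega

omit hpF in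
lemma regIdx_mono {k l : ℕ} (h : k ≤ l) : regIdx p k ⊆ regIdx p l := by
  intro j hj
  rw [mem_regIdx] at hj ⊢
  exact ⟨⟨hj.1.1, hj.1.2.trans h⟩, hj.2⟩

/-- The last regular index `k ≤ K`. -/
lemma exists_last (hp5 : 5 ≤ p) {K : ℕ} (hK1 : 1 ≤ K) (hK : 2 * K + 3 ≤ p) :
    ∃ k, k ∈ regIdx p K ∧ regIdx p K = regIdx p k ∧
      2 * K + 1 ≤ 2 * k + (regIdx p K).card := by
  classical
  have hne : (regIdx p K).Nonempty := ⟨1, by
    rw [mem_regIdx]; exact ⟨⟨le_rfl, hK1⟩, not_dvd_bernoulli_two hp5⟩⟩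
  obtain ⟨k', hk'mem, hk'max⟩ := (regIdx p K).exists_max_image id hne
  have hk' := mem_regIdx.mp hk'mem
  have hset : regIdx p K = regIdx p k' := by
    refine subset_antisymm ?_ (regIdx_mono hk'.1.2)
    intro j hj
    have hj' := mem_regIdx.mp hj
    rw [mem_regIdx]
    exact ⟨⟨hj'.1.1, hk'max j hj⟩, hj'.2⟩
  refine ⟨k', hk'mem, hset, ?_⟩
  by_contra hcon
  push Not at hcon
  rw [hset] at hcon
  obtain ⟨j, hj1, hj2, hj3⟩ := gap_theorem hp5 hk'.1.1 hk'.2 (by omega)
  have := hk'max j (mem_regIdx.mpr ⟨⟨by omega, by omega⟩, hj3⟩)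
  simp only [id] at this
  omega

/-- **Regular indices in intervals.** -/
theorem interval_theorem (hp5 : 5 ≤ p) {M : ℕ} (hM : 1 ≤ M) (K : ℕ) :
    M ≤ K → 2 * K + 3 ≤ p →
    4 * K + 2 + (regIdx p M).card * ((regIdx p M).card + 1) ≤
      4 * M + (regIdx p K).card * ((regIdx p K).card + 3) := by
  classical
  induction K using Nat.strong_induction_on with
  | _ K ih =>
    intro hMK hK
    obtain ⟨k, hkmem, hset, hlast⟩ := exists_last hp5 (hM.trans hMK) hK
    have hk := mem_regIdx.mp hkmem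
    rcases le_or_gt k M with hkM | hkM
    · -- no regular index in `(M, K]`
      have hMset : regIdx p M = regIdx p K :=
        subset_antisymm (regIdx_mono hMK) (hset ▸ regIdx_mono hkM)
      rw [hMset]
      nlinarith
    · have hprev := ih (k - 1) (by omega) (by omega) (by omega)
      have hins : regIdx p K = insert k (regIdx p (k - 1)) := by
        ext j
        rw [hset, mem_insert, mem_regIdx, mem_regIdx]
        constructor
        · rintro ⟨hj1, hj2⟩
          rcases Nat.eq_or_lt_of_le hj1.2 with h | h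
          · exact Or.inl h
          · exact Or.inr ⟨⟨hj1.1, by omega⟩, hj2⟩
        · rintro (rfl | ⟨hj1, hj2⟩)
          · exact ⟨⟨hk.1.1, le_rfl⟩, hk.2⟩
          · exact ⟨⟨hj1.1, by omega⟩, hj2⟩
      have hcard : (regIdx p K).card = (regIdx p (k - 1)).card + 1 := by
        rw [hins, card_insert_of_notMem]
        rw [mem_regIdx]; omega
      obtain ⟨k0, rfl⟩ : ∃ k0, k = k0 + 1 := ⟨k - 1, by omega⟩
      rw [Nat.add_sub_cancel] at hprev hcard
      rw [hcard] at hlast ⊢
      nlinarith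

end Pool.Agent.Lib.MP_a3a416_nt
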