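import Mathlib

/-!
Size bounds for the numerators of the Bernoulli numbers.
-/

open Finset Filter Topology

namespace Pool.Agent.Lib.MP_a3a416_nt

/-- The exact size of `B_{2k}` in terms of the zeta value. -/
lemma bernoulli_zeta {k : ℕ} (hk : k ≠ 0) :
    |(bernoulli (2 * k) : ℝ)| =
      2 * (2 * k).factorial / (2 * Real.pi) ^ (2 * k) * ∑' n : ℕ, 1 / (n : ℝ) ^ (2 * k) := by
  have h := (hasSum_zeta_nat hk).tsum_eq
  have hpos : 0 ≤ ∑' n : ℕ, 1 / (n : ℝ) ^ (2 * k) := tsum_nonneg fun n => by positivity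
  have h2 : (2 : ℝ) ^ (2 * k - 1) = 2 ^ (2 * k) / 2 := by
    rw [eq_div_iff two_ne_zero, ← pow_succ, Nat.sub_add_cancel (by omega)]
  have habs : ∑' n : ℕ, 1 / (n : ℝ) ^ (2 * k) =
      2 ^ (2 * k - 1) * Real.pi ^ (2 * k) * |(bernoulli (2 * k) : ℝ)| / (2 * k).factorial := by
    rw [← abs_of_nonneg hpos, h, abs_div, abs_mul, abs_mul, abs_mul, abs_pow, abs_neg, abs_one,
      one_pow, one_mul, abs_of_pos (by positivity : (0 : ℝ) < 2 ^ (2 * k - 1)),
      abs_of_pos (by positivity : (0 : ℝ) < Real.pi ^ (2 * k)),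
      abs_of_pos (by positivity : (0 : ℝ) < ((2 * k).factorial : ℝ))]
  rw [habs, h2, mul_pow]
  have : ((2 * k).factorial : ℝ) ≠ 0 := by positivity
  field_simp

lemma zeta_le_two {k : ℕ} (hk : k ≠ 0) : ∑' n : ℕ, 1 / (n : ℝ) ^ (2 * k) ≤ 2 := by
  have h2 : ∑' n : ℕ, 1 / (n : ℝ) ^ 2 = Real.pi ^ 2 / 6 := hasSum_zeta_two.tsum_eq
  have hs : Summable (fun n : ℕ => 1 / (n : ℝ) ^ 2) := hasSum_zeta_two.summable
  have hs' : Summable (fun n : ℕ => 1 / (n : ℝ) ^ (2 * k)) := (hasSum_zeta_nat hk).summable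
  have hle : ∀ n : ℕ, 1 / (n : ℝ) ^ (2 * k) ≤ 1 / (n : ℝ) ^ 2 := by
    intro n
    rcases n.eq_zero_or_pos with rfl | hn
    · simp [hk]
    · apply one_div_le_one_div_of_le (by positivity)
      exact pow_le_pow_right₀ (by exact_mod_cast hn) (by omega)
  have hpi : Real.pi ^ 2 / 6 ≤ 2 := by
    have : Real.pi < 3.15 := Real.pi_lt_d2
    have h0 := Real.pi_pos
    nlinarith
  calc _ ≤ ∑' n : ℕ, 1 / (n : ℝ) ^ 2 := hs'.tsum_le_tsum hle hs
    _ ≤ 2 := by rw [h2]; exact hpi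

lemma one_le_zeta {k : ℕ} (hk : k ≠ 0) : 1 ≤ ∑' n : ℕ, 1 / (n : ℝ) ^ (2 * k) := by
  have hs' : Summable (fun n : ℕ => 1 / (n : ℝ) ^ (2 * k)) := (hasSum_zeta_nat hk).summable
  have := hs'.sum_le_tsum {1} (fun n _ => by positivity)
  simpa using this

lemma bernoulli_even_ne_zero (k : ℕ) : bernoulli (2 * k) ≠ 0 := by
  rcases eq_or_ne k 0 with rfl | hk
  · simp
  · intro h0
    have h := bernoulli_zeta hk
    rw [h0, Rat.cast_zero, abs_zero] at h
    have h1 := one_le_zeta hk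
    have : (0 : ℝ) < 2 * (2 * k).factorial / (2 * Real.pi) ^ (2 * k)
        * ∑' n : ℕ, 1 / (n : ℝ) ^ (2 * k) := by positivity
    linarith

/-- The denominator of `B_{2k}` divides the product of the primes up to `2k+1`. -/
lemma bernoulli_den_dvd (k : ℕ) : (bernoulli (2 * k)).den ∣ primorial (2 * k + 1) := by
  obtain ⟨z, hz⟩ := Bernoulli.vonStaudt_clausen k
  set s := (range (2 * k + 2)).filter (fun p : ℕ => p.Prime ∧ (p - 1) ∣ 2 * k) with hs
  have h1 : bernoulli (2 * k) = (z : ℚ) - ∑ p ∈ s, (1 : ℚ) / p := by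
    rw [hz]; ring
  have h2 : (∑ p ∈ s, (1 : ℚ) / p).den ∣ ∏ p ∈ s, ((1 : ℚ) / (p : ℚ)).den :=
    Rat.den_sum_dvd_prod_den _ _
  have h3 : ∏ p ∈ s, ((1 : ℚ) / (p : ℚ)).den = ∏ p ∈ s, p := by
    refine prod_congr rfl fun p hp => ?_
    have hpp : p.Prime := (mem_filter.mp hp).2.1
    rw [one_div, Rat.inv_natCast_den_of_pos hpp.pos]
  have h4 : ∏ p ∈ s, p ∣ primorial (2 * k + 1) := by
    rw [primorial]
    refine prod_dvd_prod_of_subset _ _ _ ?_
    intro p hp
    rw [mem_filter] at hp ⊢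
    refine ⟨?_, hp.2.1⟩
    have := hp.1
    simp only [mem_range] at this
    simp only [mem_range]
    omega
  have h5 : (bernoulli (2 * k)).den ∣ (∑ p ∈ s, (1 : ℚ) / p).den := by
    rw [h1]
    simpa only [Rat.den_intCast, one_mul] using Rat.sub_den_dvd (z : ℚ) (∑ p ∈ s, (1 : ℚ) / p)
  exact h5.trans (h2.trans (h3 ▸ h4))

/-- `|numerator of B_{2k}| ≤ 16 (2k)!` -/
lemma bernoulli_num_le {k : ℕ} (hk : k ≠ 0) :
    ((bernoulli (2 * k)).num.natAbs : ℝ) ≤ 16 * (2 * k).factorial := by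
  have hden : ((bernoulli (2 * k)).den : ℝ) ≤ 4 ^ (2 * k + 1) := by
    have h1 : (bernoulli (2 * k)).den ≤ primorial (2 * k + 1) :=
      Nat.le_of_dvd (primorial_pos _) (bernoulli_den_dvd k)
    have h2 := h1.trans (primorial_le_four_pow (2 * k + 1))
    exact_mod_cast h2
  have hnum : ((bernoulli (2 * k)).num.natAbs : ℝ)
      = |(bernoulli (2 * k) : ℝ)| * (bernoulli (2 * k)).den := by
    have h : ((bernoulli (2 * k)).num : ℝ) = (bernoulli (2 * k) : ℝ) * (bernoulli (2 * k)).den := by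
      exact_mod_cast (Rat.mul_den_eq_num (bernoulli (2 * k))).symm
    rw [Nat.cast_natAbs, Int.cast_abs, h, abs_mul, Nat.abs_cast]
  rw [hnum, bernoulli_zeta hk]
  have hpi : (6 : ℝ) ≤ 2 * Real.pi := by have := Real.pi_gt_three; linarith
  have hpow : (4 : ℝ) ^ (2 * k) ≤ (2 * Real.pi) ^ (2 * k) :=
    pow_le_pow_left₀ (by norm_num) (by linarith) _
  have hz := zeta_le_two hk
  have hfac : (0 : ℝ) < (2 * k).factorial := by positivity
  have hP : (0 : ℝ) < (2 * Real.pi) ^ (2 * k) := by positivity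
  calc 2 * ((2 * k).factorial : ℝ) / (2 * Real.pi) ^ (2 * k) * (∑' n : ℕ, 1 / (n : ℝ) ^ (2 * k))
        * (bernoulli (2 * k)).den
      ≤ 2 * ((2 * k).factorial : ℝ) / (2 * Real.pi) ^ (2 * k) * 2 * 4 ^ (2 * k + 1) := by
        gcongr
    _ = 16 * (2 * k).factorial * (4 ^ (2 * k) / (2 * Real.pi) ^ (2 * k)) := by
        rw [pow_succ]; ring
    _ ≤ 16 * (2 * k).factorial * 1 := by
        gcongr
        rw [div_le_one hP]; exact hpow
    _ = 16 * (2 * k).factorial := by ring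

lemma one_le_bernoulli_num (k : ℕ) : 1 ≤ (bernoulli (2 * k)).num.natAbs := by
  rw [Nat.one_le_iff_ne_zero, Ne, Int.natAbs_eq_zero, Rat.num_eq_zero]
  exact bernoulli_even_ne_zero k

/-- Sum of the logs of the numerators. -/
lemma sum_log_num_le (M : ℕ) :
    ∑ k ∈ Icc 1 M, Real.log ((bernoulli (2 * k)).num.natAbs : ℝ)
      ≤ (M * (M + 1) : ℝ) * Real.log (2 * M) + M * Real.log 16 := by
  have h : ∀ k ∈ Icc 1 M, Real.log ((bernoulli (2 * k)).num.natAbs : ℝ)
      ≤ 2 * k * Real.log (2 * M) + Real.log 16 := by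
    intro k hk
    rw [mem_Icc] at hk
    have hk0 : k ≠ 0 := by omega
    have h1 : (1 : ℝ) ≤ ((bernoulli (2 * k)).num.natAbs : ℝ) := by
      exact_mod_cast one_le_bernoulli_num k
    have h2 : Real.log ((bernoulli (2 * k)).num.natAbs : ℝ) ≤ Real.log (16 * (2 * k).factorial) :=
      Real.log_le_log (by linarith) (bernoulli_num_le hk0)
    have h3 : Real.log (16 * (2 * k).factorial : ℝ) = Real.log 16 + Real.log ((2 * k).factorial : ℝ) :=
      Real.log_mul (by norm_num) (by positivity)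
    have h4 : ((2 * k).factorial : ℝ) ≤ ((2 * M : ℕ) : ℝ) ^ (2 * k) := by
      have := Nat.factorial_le_pow (2 * k)
      calc ((2 * k).factorial : ℝ) ≤ ((2 * k : ℕ) : ℝ) ^ (2 * k) := by exact_mod_cast this
        _ ≤ ((2 * M : ℕ) : ℝ) ^ (2 * k) := by
          apply pow_le_pow_left₀ (by positivity)
          exact_mod_cast (by omega : 2 * k ≤ 2 * M)
    have h5 : Real.log ((2 * k).factorial : ℝ) ≤ 2 * k * Real.log (2 * M) := by
      have := Real.log_le_log (by positivity) h4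
      rw [Real.log_pow] at this
      push_cast at this
      exact this
    linarith
  refine (sum_le_sum h).trans (le_of_eq ?_)
  rw [sum_add_distrib, sum_const, Nat.card_Icc, nsmul_eq_mul, ← sum_mul]
  have hsum : ∑ k ∈ Icc 1 M, (2 * (k : ℝ)) = M * (M + 1) := by
    rw [← mul_sum]
    have : ∑ k ∈ Icc 1 M, (k : ℝ) = (M * (M + 1) : ℝ) / 2 := by
      clear h
      induction M with
      | zero => simp
      | succ n ih =>
        rw [sum_Icc_succ_top (by omega), ih]; push_cast; ring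
    rw [this]; ring
  rw [hsum]
  simp

end Pool.Agent.Lib.MP_a3a416_nt
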