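import Mathlib

open Finset Real

namespace Pool.Agent.Lib.MP_a3a416_nt

lemma eventually_theta_diff :
    ∀ᶠ x : ℝ in Filter.atTop, Real.log (x + 1) + 2 * √x * Real.log x ≤ x / 10 := by
  have h1 : (fun x : ℝ => Real.log x) =o[Filter.atTop] (fun x : ℝ => x ^ (1 / 4 : ℝ)) :=
    isLittleO_log_rpow_atTop (by norm_num)
  have h2 := h1.bound (show (0 : ℝ) < 1 / 100 by norm_num)
  filter_upwards [h2, Filter.eventually_ge_atTop 16] with x hx hx16
  have hx1 : (1 : ℝ) ≤ x := by linarith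
  have hlog0 : 0 ≤ Real.log x := Real.log_nonneg hx1
  rw [Real.norm_of_nonneg hlog0, Real.norm_of_nonneg (Real.rpow_nonneg (by linarith) _)] at hx
  set u : ℝ := x ^ (1 / 4 : ℝ) with hu
  have hu1 : 2 ≤ u := by
    have : (2 : ℝ) = 16 ^ (1 / 4 : ℝ) := by
      rw [show (16 : ℝ) = 2 ^ (4 : ℝ) by norm_num, ← Real.rpow_mul (by norm_num)]
      norm_num
    rw [this]
    exact Real.rpow_le_rpow (by norm_num) hx16 (by norm_num)
  have hu2 : u ^ 2 = √x := by
    rw [hu, Real.sqrt_eq_rpow, ← Real.rpow_natCast, ← Real.rpow_mul (by linarith)]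
    norm_num
  have hu4 : u ^ 4 = x := by
    rw [hu, ← Real.rpow_natCast, ← Real.rpow_mul (by linarith)]
    norm_num
  have hlog2 : Real.log (x + 1) ≤ Real.log x + Real.log 2 := by
    rw [← Real.log_mul (by linarith) (by norm_num)]
    exact Real.log_le_log (by linarith) (by linarith)
  have h3 : Real.log 2 ≤ 7 / 10 := by linarith [Real.log_two_lt_d9]
  rw [← hu2]
  have h4 : 2 * u ^ 2 * Real.log x ≤ 2 * u ^ 2 * (1 / 100 * u) :=
    mul_le_mul_of_nonneg_left hx (by positivity)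
  have h5 : 2 * u ^ 3 ≤ u ^ 4 := by nlinarith [pow_pos (show 0 < u by linarith) 3]
  have h6 : 4 * u ≤ u ^ 3 := by nlinarith [pow_pos (show 0 < u by linarith) 2]
  have h7 : x = u ^ 4 := hu4.symm
  have h8 : 2 * u ^ 2 * (1 / 100 * u) = u ^ 3 / 50 := by ring
  linarith

/-- `∑_{ℓ ≤ M} ℓ ≫ M² / log M` over odd primes. -/
theorem sum_primes_ge : ∃ c : ℝ, 0 < c ∧ ∀ M : ℕ, 3 ≤ M →
    c * ((M : ℝ) ^ 2 / Real.log M) ≤ ∑ l ∈ (Icc 3 M).filter Nat.Prime, ((l : ℝ) - 1) := by
  obtain ⟨x0, hx0⟩ := Filter.eventually_atTop.mp eventually_theta_diff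
  -- large `M`
  have hlarge : ∀ M : ℕ, 40 ≤ M → x0 ≤ M →
      (1 / 100 : ℝ) * ((M : ℝ) ^ 2 / Real.log M) ≤
        ∑ l ∈ (Icc 3 M).filter Nat.Prime, ((l : ℝ) - 1) := by
    intro M hM hMx
    have hM' : (40 : ℝ) ≤ M := by exact_mod_cast hM
    have hlogpos : 0 < Real.log M := Real.log_pos (by linarith)
    have h1 := Chebyshev.theta_ge M
    have h2 := hx0 M hMx
    have h3 := Chebyshev.theta_le_log4_mul_x (x := (M / 4 : ℝ)) (by positivity)
    have h4 : Real.log 4 = 2 * Real.log 2 := by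
      rw [show (4 : ℝ) = 2 ^ 2 by norm_num, Real.log_pow]; norm_num
    have h5 : (M : ℝ) / 5 ≤ Chebyshev.theta M - Chebyshev.theta (M / 4 : ℝ) := by
      rw [h4] at h3
      have h6 : (69 / 100 : ℝ) ≤ Real.log 2 := by linarith [Real.log_two_gt_d9]
      nlinarith
    have h7 : Chebyshev.theta M - Chebyshev.theta (M / 4 : ℝ) =
        ∑ l ∈ (Ioc ⌊(M / 4 : ℝ)⌋₊ M).filter Nat.Prime, Real.log l := by
      unfold Chebyshev.theta
      have hsub : (Ioc 0 ⌊(M / 4 : ℝ)⌋₊).filter Nat.Prime ⊆ (Ioc 0 ⌊(M : ℝ)⌋₊).filter Nat.Prime := by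
        apply filter_subset_filter
        apply Ioc_subset_Ioc_right
        exact Nat.floor_le_floor (by linarith)
      rw [← sum_sdiff hsub, add_sub_cancel_right]
      congr 1
      ext l
      simp only [mem_sdiff, mem_filter, mem_Ioc, Nat.floor_natCast]
      constructor
      · rintro ⟨⟨h1, h2⟩, h3⟩
        refine ⟨⟨?_, h1.2⟩, h2⟩
        by_contra hcon
        exact h3 ⟨⟨h1.1, by omega⟩, h2⟩
      · rintro ⟨⟨h1, h2⟩, h3⟩
        exact ⟨⟨⟨by omega, h2⟩, h3⟩, fun h => by omega⟩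
    have hfl : 10 ≤ ⌊(M / 4 : ℝ)⌋₊ := Nat.le_floor (by push_cast; linarith)
    -- compare the sums
    have h8 : ∀ l ∈ (Ioc ⌊(M / 4 : ℝ)⌋₊ M).filter Nat.Prime,
        Real.log l ≤ ((l : ℝ) - 1) * (Real.log M * (8 / M)) := by
      intro l hl
      rw [mem_filter, mem_Ioc] at hl
      have hl1 : (M : ℝ) / 4 < l := by
        have := (Nat.floor_lt (by positivity)).mp hl.1.1
        exact this
      have hl2 : (l : ℝ) ≤ M := by exact_mod_cast hl.1.2
      have hlog : Real.log l ≤ Real.log M := Real.log_le_log (by linarith) hl2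
      have h9 : 1 ≤ ((l : ℝ) - 1) * (8 / M) := by
        rw [mul_div_assoc', le_div_iff₀ (by linarith)]
        linarith
      calc Real.log l ≤ Real.log M := hlog
        _ = Real.log M * 1 := by ring
        _ ≤ Real.log M * (((l : ℝ) - 1) * (8 / M)) := by gcongr
        _ = _ := by ring
    have h9 := sum_le_sum h8
    rw [← sum_mul, ← h7] at h9
    have h10 : ∑ l ∈ (Ioc ⌊(M / 4 : ℝ)⌋₊ M).filter Nat.Prime, ((l : ℝ) - 1) ≤
        ∑ l ∈ (Icc 3 M).filter Nat.Prime, ((l : ℝ) - 1) := by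
      apply sum_le_sum_of_subset_of_nonneg
      · apply filter_subset_filter
        intro l hl
        rw [mem_Ioc] at hl
        rw [mem_Icc]
        omega
      · intro l hl _
        rw [mem_filter, mem_Icc] at hl
        have : (3 : ℝ) ≤ l := by exact_mod_cast hl.1.1
        linarith
    have h11 : (M : ℝ) / 5 ≤ (∑ l ∈ (Icc 3 M).filter Nat.Prime, ((l : ℝ) - 1)) *
        (Real.log M * (8 / M)) := by
      refine h5.trans (h9.trans ?_)
      exact mul_le_mul_of_nonneg_right h10 (by positivity)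
    have hMpos : (0 : ℝ) < M := by linarith
    rw [mul_div_assoc', div_le_iff₀ hlogpos]
    set S := ∑ l ∈ (Icc 3 M).filter Nat.Prime, ((l : ℝ) - 1) with hS
    have h12 : (M : ℝ) / 5 * M ≤ 8 * (S * Real.log M) := by
      calc (M : ℝ) / 5 * M ≤ (S * (Real.log M * (8 / M))) * M := by gcongr
        _ = 8 * (S * Real.log M) := by field_simp
    nlinarith
  -- small `M`
  set M0 : ℝ := max 40 x0 with hM0
  have hM0pos : (0 : ℝ) < M0 := lt_of_lt_of_le (by norm_num) (le_max_left _ _)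
  refine ⟨min (1 / 100) (1 / M0 ^ 2), by positivity, ?_⟩
  intro M hM
  have hM3 : (3 : ℝ) ≤ M := by exact_mod_cast hM
  have hlog1 : 1 ≤ Real.log M := by
    rw [Real.le_log_iff_exp_le (by linarith)]
    linarith [Real.exp_one_lt_d9]
  have hq : 0 ≤ (M : ℝ) ^ 2 / Real.log M := by positivity
  by_cases h : M0 ≤ M
  · refine le_trans (mul_le_mul_of_nonneg_right (min_le_left _ _) hq) (hlarge M ?_ ?_)
    · have : (40 : ℝ) ≤ M := (le_max_left _ _).trans h
      exact_mod_cast this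
    · exact (le_max_right _ _).trans h
  · push Not at h
    refine le_trans (mul_le_mul_of_nonneg_right (min_le_right _ _) hq) ?_
    have h1 : (M : ℝ) ^ 2 / Real.log M ≤ M0 ^ 2 := by
      refine le_trans (div_le_self (by positivity) hlog1) ?_
      exact pow_le_pow_left₀ (by linarith) h.le 2
    have h2 : 1 / M0 ^ 2 * ((M : ℝ) ^ 2 / Real.log M) ≤ 1 := by
      rw [div_mul_eq_mul_div, one_mul, div_le_one (by positivity)]
      exact h1
    refine h2.trans ?_
    have h3 : ((3 : ℕ) : ℝ) - 1 ≤ ∑ l ∈ (Icc 3 M).filter Nat.Prime, ((l : ℝ) - 1) := by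
      refine single_le_sum (f := fun l : ℕ => (l : ℝ) - 1) ?_ (mem_filter.mpr ⟨mem_Icc.mpr ⟨le_refl 3, hM⟩, Nat.prime_three⟩)
      intro l hl
      rw [mem_filter, mem_Icc] at hl
      have : (3 : ℝ) ≤ l := by exact_mod_cast hl.1.1
      show (0 : ℝ) ≤ (l : ℝ) - 1
      linarith
    push_cast at h3
    linarith

end Pool.Agent.Lib.MP_a3a416_nt
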