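import Mathlib

/-!
The value of the odd Hurwitz zeta function at `s = 1`, and the nonvanishing of the cotangent sums
`∑ χ(j) cot(π j / N)` for odd Dirichlet characters.
-/

open Filter Topology HurwitzZeta Finset Complex

namespace Pool.Agent.Lib.MP_a3a416_nt

lemma rpow_neg_sub_le {n x y s : ℝ} (hn : 1 ≤ n) (hx : n ≤ x) (hx' : x ≤ n + 1) (hy : n ≤ y)
    (hy' : y ≤ n + 1) (hs1 : 1 ≤ s) (hs2 : s ≤ 2) : |x ^ (-s) - y ^ (-s)| ≤ 2 / n ^ 2 := by
  have hconv : Convex ℝ (Set.Icc n (n + 1)) := convex_Icc _ _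
  have h := hconv.norm_image_sub_le_of_norm_hasDerivWithin_le (𝕜 := ℝ)
    (f := fun t : ℝ => t ^ (-s)) (f' := fun t => (-s) * t ^ (-s - 1)) (C := 2 / n ^ 2)
    (fun t ht => ?_) (fun t ht => ?_) (x := y) (y := x) ⟨hy, hy'⟩ ⟨hx, hx'⟩
  · rw [Real.norm_eq_abs, Real.norm_eq_abs] at h
    refine h.trans ?_
    have h1 : |x - y| ≤ 1 := by rw [abs_le]; constructor <;> linarith
    have h2 : 0 ≤ 2 / n ^ 2 := by positivity
    nlinarith
  · have ht0 : t ≠ 0 := by have := ht.1; intro h; linarith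
    exact (Real.hasDerivAt_rpow_const (Or.inl ht0)).hasDerivWithinAt
  · have ht1 : 1 ≤ t := hn.trans ht.1
    have ht0 : 0 < t := by linarith
    rw [norm_mul, Real.norm_eq_abs, Real.norm_eq_abs, abs_neg, abs_of_nonneg (by linarith : 0 ≤ s),
      abs_of_nonneg (Real.rpow_nonneg ht0.le _)]
    have h1 : t ^ (-s - 1) ≤ t ^ (-2 : ℝ) := Real.rpow_le_rpow_of_exponent_le ht1 (by linarith)
    have h2 : t ^ (-2 : ℝ) ≤ n ^ (-2 : ℝ) :=
      Real.rpow_le_rpow_of_nonpos (by linarith) ht.1 (by norm_num)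
    have h3 : n ^ (-2 : ℝ) = 1 / n ^ 2 := by
      rw [Real.rpow_neg (by linarith), one_div]
      norm_num
    have h4 : 0 ≤ t ^ (-s - 1) := Real.rpow_nonneg ht0.le _
    calc s * t ^ (-s - 1) ≤ 2 * (1 / n ^ 2) := by
          rw [← h3]
          exact mul_le_mul hs2 (h1.trans h2) h4 (by norm_num)
      _ = 2 / n ^ 2 := by ring

/-- The terms of the series for the odd Hurwitz zeta function. -/
noncomputable def gterm (a : ℝ) (n : ℕ) (s : ℝ) : ℝ :=
  (((n : ℝ) + a) ^ (-s) - ((n : ℝ) + 1 - a) ^ (-s)) / 2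

/-- The dominating sequence. -/
noncomputable def gbound (a : ℝ) (n : ℕ) : ℝ :=
  if n = 0 then a ^ (-2 : ℝ) + (1 - a) ^ (-2 : ℝ) else 1 / (n : ℝ) ^ 2

lemma summable_gbound (a : ℝ) : Summable (gbound a) := by
  have h : Summable (fun n : ℕ => 1 / (n : ℝ) ^ 2) := by
    simp
  refine (summable_nat_add_iff 1).mp ?_
  have := (summable_nat_add_iff 1).mpr h
  refine this.congr fun n => ?_
  simp [gbound]

lemma gterm_le {a s : ℝ} (ha0 : 0 < a) (ha1 : a < 1) (hs1 : 1 ≤ s) (hs2 : s ≤ 2) (n : ℕ) :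
    ‖gterm a n s‖ ≤ gbound a n := by
  rw [Real.norm_eq_abs, gterm, abs_div, abs_of_pos (by norm_num : (0 : ℝ) < 2), gbound]
  split_ifs with hn
  · subst hn
    simp only [Nat.cast_zero, zero_add]
    have hb0 : 0 < 1 - a := by linarith
    have h1 : a ^ (-s) ≤ a ^ (-2 : ℝ) :=
      Real.rpow_le_rpow_of_exponent_ge ha0 ha1.le (by linarith)
    have h2 : (1 - a) ^ (-s) ≤ (1 - a) ^ (-2 : ℝ) :=
      Real.rpow_le_rpow_of_exponent_ge hb0 (by linarith) (by linarith)
    have h3 : 0 < a ^ (-s) := Real.rpow_pos_of_pos ha0 _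
    have h4 : 0 < (1 - a) ^ (-s) := Real.rpow_pos_of_pos hb0 _
    have h5 : |a ^ (-s) - (1 - a) ^ (-s)| ≤ a ^ (-s) + (1 - a) ^ (-s) := by
      rw [abs_le]; constructor <;> linarith
    linarith [abs_nonneg (a ^ (-s) - (1 - a) ^ (-s))]
  · have hn1 : (1 : ℝ) ≤ n := by exact_mod_cast Nat.one_le_iff_ne_zero.mpr hn
    have := rpow_neg_sub_le (n := n) (x := n + a) (y := n + 1 - a) (s := s) hn1 (by linarith)
      (by linarith) (by linarith) (by linarith) hs1 hs2
    have h2 : 2 / (n : ℝ) ^ 2 = 2 * (1 / (n : ℝ) ^ 2) := by ring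
    rw [h2] at this
    linarith

lemma gterm_ofReal {a s : ℝ} (ha0 : 0 < a) (ha1 : a < 1) (n : ℕ) :
    ((gterm a n s : ℝ) : ℂ) = (1 / ((n : ℂ) + a) ^ (s : ℂ) - 1 / ((n : ℂ) + 1 - a) ^ (s : ℂ)) / 2 := by
  have h1 : (0 : ℝ) ≤ (n : ℝ) + a := by positivity
  have h2 : (0 : ℝ) ≤ (n : ℝ) + 1 - a := by
    have : (0 : ℝ) ≤ n := Nat.cast_nonneg n
    linarith
  have e1 : (n : ℂ) + a = (((n : ℝ) + a : ℝ) : ℂ) := by push_cast; ring
  have e2 : (n : ℂ) + 1 - a = (((n : ℝ) + 1 - a : ℝ) : ℂ) := by push_cast; ring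
  rw [gterm, e1, e2, ← Complex.ofReal_cpow h1, ← Complex.ofReal_cpow h2, Real.rpow_neg h1,
    Real.rpow_neg h2]
  push_cast
  ring

lemma hurwitzZetaOdd_one_eq_tsum {a : ℝ} (ha0 : 0 < a) (ha1 : a < 1) :
    hurwitzZetaOdd a 1 = ((∑' n, gterm a n 1 : ℝ) : ℂ) := by
  have h1 : Tendsto (fun s : ℝ => hurwitzZetaOdd a (s : ℂ)) (𝓝[>] (1 : ℝ))
      (𝓝 (hurwitzZetaOdd a 1)) := by
    have hc : ContinuousAt (fun s : ℝ => hurwitzZetaOdd a (s : ℂ)) 1 :=
      ((differentiable_hurwitzZetaOdd a).continuous.comp Complex.continuous_ofReal).continuousAt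
    have := hc.tendsto
    simp only [Complex.ofReal_one] at this
    exact this.mono_left nhdsWithin_le_nhds
  have h2 : Tendsto (fun s : ℝ => ∑' n, gterm a n s) (𝓝[>] (1 : ℝ)) (𝓝 (∑' n, gterm a n 1)) := by
    refine tendsto_tsum_of_dominated_convergence (summable_gbound a) (fun n => ?_) ?_
    · have hc : ContinuousAt (fun s : ℝ => gterm a n s) 1 := by
        unfold gterm
        have e1 : (n : ℝ) + a ≠ 0 := by positivity
        have e2 : (n : ℝ) + 1 - a ≠ 0 := by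
          have : (0 : ℝ) ≤ n := Nat.cast_nonneg n
          intro h; linarith
        refine ContinuousAt.div_const ?_ _
        refine ContinuousAt.sub ?_ ?_
        · exact (Real.continuousAt_const_rpow e1).comp continuous_neg.continuousAt
        · exact (Real.continuousAt_const_rpow e2).comp continuous_neg.continuousAt
      exact hc.tendsto.mono_left nhdsWithin_le_nhds
    · have : Set.Ioo (1 : ℝ) 2 ∈ 𝓝[>] (1 : ℝ) := Ioo_mem_nhdsGT (by norm_num)
      filter_upwards [this] with s hs n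
      exact gterm_le ha0 ha1 hs.1.le hs.2.le n
  have h3 : Tendsto (fun s : ℝ => ((∑' n, gterm a n s : ℝ) : ℂ)) (𝓝[>] (1 : ℝ))
      (𝓝 ((∑' n, gterm a n 1 : ℝ) : ℂ)) := (Complex.continuous_ofReal.tendsto _).comp h2
  have h4 : (fun s : ℝ => hurwitzZetaOdd a (s : ℂ)) =ᶠ[𝓝[>] (1 : ℝ)]
      (fun s : ℝ => ((∑' n, gterm a n s : ℝ) : ℂ)) := by
    filter_upwards [self_mem_nhdsWithin] with s hs
    have hs' : 1 < (s : ℂ).re := by simpa using hs
    have := hasSum_nat_hurwitzZetaOdd_of_mem_Icc (a := a) ⟨ha0.le, ha1.le⟩ hs'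
    rw [Complex.ofReal_tsum, ← this.tsum_eq]
    exact tsum_congr fun n => (gterm_ofReal ha0 ha1 n).symm
  exact tendsto_nhds_unique (h1.congr' h4) h3

lemma hurwitzZetaOdd_one {a : ℝ} (ha0 : 0 < a) (ha1 : a < 1) :
    hurwitzZetaOdd a 1 = Real.pi * Complex.cot (Real.pi * a) / 2 := by
  rw [hurwitzZetaOdd_one_eq_tsum ha0 ha1]
  have hsum : Summable (fun n => gterm a n 1) :=
    Summable.of_norm_bounded (summable_gbound a) fun n => gterm_le ha0 ha1 le_rfl (by norm_num) n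
  have hz : (a : ℂ) ∈ Complex.integerComplement := by
    rw [Complex.integerComplement, Set.mem_compl_iff]
    rintro ⟨m, hm⟩
    have hm' : (m : ℝ) = a := by exact_mod_cast hm
    have h1 : (0 : ℝ) < m := by rw [hm']; exact ha0
    have h2 : (m : ℝ) < 1 := by rw [hm']; exact ha1
    have h3 : (0 : ℤ) < m := by exact_mod_cast h1
    have h4 : m < (1 : ℤ) := by exact_mod_cast h2
    omega
  have hcot := cot_series_rep' hz
  have hs2 : Summable (fun n : ℕ => (1 / ((a : ℂ) - (n + 1)) + 1 / ((a : ℂ) + (n + 1)))) :=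
    summable_cotTerm hz
  have ht2 := hs2.hasSum.tendsto_sum_nat
  rw [← hcot] at ht2
  have ht1 := hsum.hasSum.tendsto_sum_nat
  have ht1' : Tendsto (fun N => ((∑ n ∈ range N, gterm a n 1 : ℝ) : ℂ)) atTop
      (𝓝 ((∑' n, gterm a n 1 : ℝ) : ℂ)) := (Complex.continuous_ofReal.tendsto _).comp ht1
  have hid : ∀ N : ℕ, ((∑ n ∈ range N, gterm a n 1 : ℝ) : ℂ) =
      (1 / (a : ℂ) + ∑ n ∈ range N, (1 / ((a : ℂ) - (n + 1)) + 1 / ((a : ℂ) + (n + 1))) -
        1 / ((a : ℂ) + N)) / 2 := by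
    intro N
    induction N with
    | zero => simp
    | succ N ih =>
      have e0 : ((∑ n ∈ range (N + 1), gterm a n 1 : ℝ) : ℂ) =
          ((∑ n ∈ range N, gterm a n 1 : ℝ) : ℂ) + ((gterm a N 1 : ℝ) : ℂ) := by
        rw [sum_range_succ]; push_cast; ring
      rw [e0, ih, gterm_ofReal ha0 ha1, sum_range_succ]
      simp only [Complex.ofReal_one, Complex.cpow_one]
      have e3 : (1 : ℂ) / ((a : ℂ) - ((N : ℂ) + 1)) = - (1 / ((N : ℂ) + 1 - a)) := by
        rw [← neg_sub, div_neg]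
      rw [e3]
      push_cast
      rw [show (N : ℂ) + a = a + N by ring]
      ring
  have ht3 : Tendsto (fun N : ℕ => (1 : ℂ) / ((a : ℂ) + N)) atTop (𝓝 0) := by
    have : Tendsto (fun N : ℕ => ((1 / (a + (N : ℝ)) : ℝ) : ℂ)) atTop (𝓝 ((0 : ℝ) : ℂ)) := by
      refine (Complex.continuous_ofReal.tendsto _).comp ?_
      refine Tendsto.const_div_atTop ?_ _
      exact tendsto_atTop_add_const_left _ _ tendsto_natCast_atTop_atTop
    simpa using this
  have ht4 := ((tendsto_const_nhds (x := 1 / (a : ℂ))).add ht2).sub ht3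
  have ht5 := ht4.div_const 2
  have := tendsto_nhds_unique (ht1'.congr hid) ht5
  rw [this]
  ring

/-- Nonvanishing of cotangent sums for odd characters. -/
theorem cot_sum_ne_zero {N : ℕ} [NeZero N] (χ : DirichletCharacter ℂ N) (hχ : χ.Odd) :
    ∑ j : ZMod N, χ j * Complex.cot (Real.pi * ((j.val / N : ℝ) : ℂ)) ≠ 0 := by
  intro h0
  have hne1 : χ ≠ 1 := by
    rintro rfl
    have : (1 : DirichletCharacter ℂ N) (-1) = 1 := MulChar.one_apply (isUnit_one.neg)
    rw [DirichletCharacter.Odd, this] at hχ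
    norm_num at hχ
  have hN1 : N ≠ 1 := by
    rintro rfl
    exact hne1 (Subsingleton.elim _ _)
  have hL := DirichletCharacter.LFunction_apply_one_ne_zero hne1
  apply hL
  have hodd : Function.Odd (χ : ZMod N → ℂ) := fun x => DirichletCharacter.Odd.eval_neg χ x hχ
  rw [DirichletCharacter.LFunction, ZMod.LFunction_def_odd hodd]
  have hz : χ 0 = 0 := by
    have : Nontrivial (ZMod N) := by
      rw [ZMod.nontrivial_iff]; exact hN1
    exact MulChar.map_nonunit χ not_isUnit_zero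
  have h1 : ∑ j : ZMod N, χ j * hurwitzZetaOdd (ZMod.toAddCircle j) 1 =
      (Real.pi / 2) * ∑ j : ZMod N, χ j * Complex.cot (Real.pi * ((j.val / N : ℝ) : ℂ)) := by
    rw [mul_sum]
    refine sum_congr rfl fun j _ => ?_
    by_cases hj : j = 0
    · rw [hj, hz]; ring
    · have hNpos : (0 : ℝ) < N := by exact_mod_cast NeZero.pos N
      have hv : 0 < j.val := by
        rcases Nat.eq_zero_or_pos j.val with h | h
        · exact absurd ((ZMod.val_eq_zero j).mp h) hj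
        · exact h
      rw [ZMod.toAddCircle_apply, hurwitzZetaOdd_one (a := (j.val / N : ℝ))]
      · ring
      · exact div_pos (by exact_mod_cast hv) hNpos
      · rw [div_lt_one hNpos]
        exact_mod_cast ZMod.val_lt j
  rw [h1, h0, mul_zero, mul_zero]

end Pool.Agent.Lib.MP_a3a416_nt
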