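import Pool.Agent.Lib.MP_a3a416_nt.PrimesAP
import Pool.Agent.Lib.MP_a3a416_nt.BernoulliBound

/-!
Counting irregular pairs `(p, 2k)` with small second member.
-/

open Finset Filter Topology

namespace Pool.Agent.Lib.MP_a3a416_nt

/-- Double counting: if every prime of a finite set `S` divides at least `A` of the numerators of
`B_2, B_4, ..., B_{2M}`, then `A * ∑ log p ≤ ∑ log |num B_{2k}|`. -/
lemma mul_sum_log_le (S : Finset ℕ) (hS : ∀ p ∈ S, p.Prime) (M A : ℕ)
    (h : ∀ p ∈ S, A ≤ ((Icc 1 M).filter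
      (fun k => (p : ℤ) ∣ (bernoulli (2 * k)).num)).card) :
    (A : ℝ) * ∑ p ∈ S, Real.log (p : ℝ) ≤
      ∑ k ∈ Icc 1 M, Real.log ((bernoulli (2 * k)).num.natAbs : ℝ) := by
  have h1 : ∀ k ∈ Icc 1 M, ∑ p ∈ S.filter (fun p : ℕ => (p : ℤ) ∣ (bernoulli (2 * k)).num),
      Real.log (p : ℝ) ≤ Real.log ((bernoulli (2 * k)).num.natAbs : ℝ) := by
    intro k _
    have hdvd : ∏ p ∈ S.filter (fun p : ℕ => (p : ℤ) ∣ (bernoulli (2 * k)).num), p ∣
        (bernoulli (2 * k)).num.natAbs := by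
      apply Finset.prod_primes_dvd
      · intro p hp
        exact (hS p (mem_filter.mp hp).1).prime
      · intro p hp
        exact Int.natCast_dvd.mp (mem_filter.mp hp).2
    have hle := Nat.le_of_dvd (one_le_bernoulli_num k) hdvd
    rw [← Real.log_prod]
    · apply Real.log_le_log
      · apply prod_pos
        intro p hp
        exact_mod_cast (hS p (mem_filter.mp hp).1).pos
      · have := (Nat.cast_le (α := ℝ)).mpr hle
        rwa [Nat.cast_prod] at this
    · intro p hp
      exact_mod_cast (hS p (mem_filter.mp hp).1).ne_zero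
  refine le_trans ?_ (sum_le_sum h1)
  have h2 : ∑ k ∈ Icc 1 M, ∑ p ∈ S.filter (fun p : ℕ => (p : ℤ) ∣ (bernoulli (2 * k)).num),
      Real.log (p : ℝ) = ∑ p ∈ S, (((Icc 1 M).filter
      (fun k => (p : ℤ) ∣ (bernoulli (2 * k)).num)).card : ℝ) * Real.log (p : ℝ) := by
    simp_rw [sum_filter]
    rw [sum_comm]
    refine sum_congr rfl fun p _ => ?_
    rw [← sum_filter, sum_const, nsmul_eq_mul]
  rw [h2, mul_sum]
  refine sum_le_sum fun p hp => ?_
  apply mul_le_mul_of_nonneg_right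
  · exact_mod_cast h p hp
  · exact Real.log_nonneg (by exact_mod_cast (hS p hp).one_le)

/-- The cut-off function `c * √(x / log x)`. -/
noncomputable def cut (c x : ℝ) : ℝ := c * √(x / Real.log x)

lemma cut_mono {c : ℝ} (hc : 0 ≤ c) {x y : ℝ} (hx : 3 ≤ x) (hxy : x ≤ y) : cut c x ≤ cut c y := by
  unfold cut
  apply mul_le_mul_of_nonneg_left _ hc
  apply Real.sqrt_le_sqrt
  have he : Real.exp 1 ≤ x := by have := Real.exp_one_lt_d9; linarith
  have hx0 : 0 < x := by linarith
  have hlx : 0 < Real.log x := Real.log_pos (by linarith)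
  have hly : 0 < Real.log y := Real.log_pos (by linarith)
  have := Real.log_div_self_antitoneOn (Set.mem_ofPred.mpr he)
    (Set.mem_ofPred.mpr (he.trans hxy)) hxy
  simp only at this
  rw [div_le_div_iff₀ (by linarith) hx0] at this
  rw [div_le_div_iff₀ hlx hly]
  linarith

/-- the main asymptotic bound -/
lemma eventually_bound {c : ℝ} (hc : 0 < c) {ε : ℝ} (hε : 0 < ε) :
    ∀ᶠ x : ℝ in atTop, ∀ M : ℕ, (M : ℝ) ≤ cut c x / 2 →
      (M * (M + 1) : ℝ) * Real.log (2 * M) + M * Real.log 16 ≤ (c ^ 2 / 8 + ε) * x := by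
  have t1 : Tendsto (fun x : ℝ => c ^ 2 / 8 + c ^ 2 * |Real.log c| / 4 * (Real.log x)⁻¹
      + ((c / 4) * (Real.log x / √x) + (c / 2) * (|Real.log c| + Real.log 16) * (√x)⁻¹)) atTop
      (𝓝 (c ^ 2 / 8 + c ^ 2 * |Real.log c| / 4 * 0
        + ((c / 4) * 0 + (c / 2) * (|Real.log c| + Real.log 16) * 0))) := by
    have l1 : Tendsto (fun x : ℝ => (Real.log x)⁻¹) atTop (𝓝 0) :=
      Real.tendsto_log_atTop.inv_tendsto_atTop
    have l2 : Tendsto (fun x : ℝ => (√x)⁻¹) atTop (𝓝 0) :=
      Real.tendsto_sqrt_atTop.inv_tendsto_atTop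
    have l3 : Tendsto (fun x : ℝ => Real.log x / √x) atTop (𝓝 0) := by
      have := (isLittleO_log_rpow_atTop (show (0 : ℝ) < 1 / 2 by norm_num)).tendsto_div_nhds_zero
      refine this.congr' ?_
      filter_upwards with x
      rw [Real.sqrt_eq_rpow]
    exact ((l1.const_mul _).const_add _).add ((l3.const_mul _).add (l2.const_mul _))
  simp only [mul_zero, add_zero] at t1
  have e1 := (tendsto_order.mp t1).2 (c ^ 2 / 8 + ε) (by linarith)
  filter_upwards [e1, eventually_ge_atTop (3 : ℝ)] with x hx hx3 M hM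
  have hx0 : 0 < x := by linarith
  have hlog1 : 1 ≤ Real.log x := by
    rw [Real.le_log_iff_exp_le hx0]
    have := Real.exp_one_lt_d9; linarith
  have hlogpos : 0 < Real.log x := by linarith
  have hsx : 0 < √x := Real.sqrt_pos.mpr hx0
  set K := cut c x with hK
  have hKsq : K ^ 2 = c ^ 2 * x / Real.log x := by
    rw [hK, cut, mul_pow, Real.sq_sqrt (by positivity)]; ring
  have hKpos : 0 < K := by
    rw [hK, cut]; positivity
  have hKle : K ≤ c * √x := by
    rw [hK, cut]
    apply mul_le_mul_of_nonneg_left _ hc.le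
    apply Real.sqrt_le_sqrt
    exact div_le_self hx0.le hlog1
  have hlogK : Real.log K ≤ Real.log x / 2 + |Real.log c| := by
    have h1 : Real.log K ≤ Real.log (c * √x) := Real.log_le_log hKpos hKle
    rw [Real.log_mul hc.ne' hsx.ne', Real.log_sqrt hx0.le] at h1
    have := le_abs_self (Real.log c)
    linarith
  set L := Real.log x / 2 + |Real.log c| with hL
  have hLnn : 0 ≤ L := by positivity
  have hlogM : Real.log (2 * M) ≤ L := by
    rcases Nat.eq_zero_or_pos M with rfl | hMpos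
    · simpa using hLnn
    · have : (2 * M : ℝ) ≤ K := by linarith
      exact (Real.log_le_log (by positivity) this).trans hlogK
  have hMM : (M * (M + 1) : ℝ) ≤ K ^ 2 / 4 + K / 2 := by
    have hM0 : (0 : ℝ) ≤ M := Nat.cast_nonneg M
    nlinarith
  have h16 : 0 ≤ Real.log 16 := Real.log_nonneg (by norm_num)
  have step1 : (M * (M + 1) : ℝ) * Real.log (2 * M) + M * Real.log 16
      ≤ (K ^ 2 / 4 + K / 2) * L + K / 2 * Real.log 16 := by
    have a1 : (M * (M + 1) : ℝ) * Real.log (2 * M) ≤ (M * (M + 1) : ℝ) * L :=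
      mul_le_mul_of_nonneg_left hlogM (by positivity)
    have a2 : (M * (M + 1) : ℝ) * L ≤ (K ^ 2 / 4 + K / 2) * L :=
      mul_le_mul_of_nonneg_right hMM hLnn
    have a3 : (M : ℝ) * Real.log 16 ≤ K / 2 * Real.log 16 :=
      mul_le_mul_of_nonneg_right hM h16
    linarith
  have step2 : (K ^ 2 / 4 + K / 2) * L + K / 2 * Real.log 16
      ≤ (K ^ 2 / 4) * L + (c * √x / 2) * (L + Real.log 16) := by
    have : K / 2 * (L + Real.log 16) ≤ (c * √x / 2) * (L + Real.log 16) :=
      mul_le_mul_of_nonneg_right (by linarith) (by linarith)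
    nlinarith
  have step3 : (K ^ 2 / 4) * L + (c * √x / 2) * (L + Real.log 16)
      = (c ^ 2 / 8 + c ^ 2 * |Real.log c| / 4 * (Real.log x)⁻¹
      + ((c / 4) * (Real.log x / √x) + (c / 2) * (|Real.log c| + Real.log 16) * (√x)⁻¹)) * x := by
    have hsq : √x * √x = x := Real.mul_self_sqrt hx0.le
    rw [hKsq, hL]
    have h1 : c ^ 2 * x / Real.log x / 4 * (Real.log x / 2 + |Real.log c|)
        = (c ^ 2 / 8 + c ^ 2 * |Real.log c| / 4 * (Real.log x)⁻¹) * x := by
      field_simp
      ring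
    have h2' : ∀ l a b : ℝ, c * √x / 2 * (l / 2 + a + b)
        = ((c / 4) * (l / √x) + (c / 2) * (a + b) * (√x)⁻¹) * (√x * √x) := by
      intro l a b
      field_simp
      ring
    have h2 : c * √x / 2 * (Real.log x / 2 + |Real.log c| + Real.log 16)
        = ((c / 4) * (Real.log x / √x) + (c / 2) * (|Real.log c| + Real.log 16) * (√x)⁻¹) * x := by
      rw [h2', hsq]
    rw [h1, h2]; ring
  calc _ ≤ _ := step1
    _ ≤ _ := step2
    _ = _ := step3
    _ ≤ (c ^ 2 / 8 + ε) * x := mul_le_mul_of_nonneg_right hx.le hx0.le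

end Pool.Agent.Lib.MP_a3a416_nt
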