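import Mathlib

/-!
The identity `∑_n (m choose n) 2^n B_n = (2 - 2^m) B_m`, i.e. `B_m(1/2) = (2^(1-m) - 1) B_m`.
-/

open Finset PowerSeries

namespace Pool.Agent.Lib.MP_a3a416_nt

lemma exp_sub_one_ne_zero : (exp ℚ - 1 : ℚ⟦X⟧) ≠ 0 := by
  intro h
  have h2 := congrArg (coeff 1) h
  simp [coeff_exp, coeff_one] at h2

lemma exp_mul_rescale_two :
    exp ℚ * rescale (2 : ℚ) (bernoulliPowerSeries ℚ) =
      C (2 : ℚ) * bernoulliPowerSeries ℚ - rescale (2 : ℚ) (bernoulliPowerSeries ℚ) := by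
  have h1 : bernoulliPowerSeries ℚ * (exp ℚ - 1) = X := bernoulliPowerSeries_mul_exp_sub_one ℚ
  have hE : rescale (2 : ℚ) (exp ℚ) = exp ℚ ^ 2 := by
    have := exp_pow_eq_rescale_exp (A := ℚ) 2
    rw [this]; norm_num
  have h2 : rescale (2 : ℚ) (bernoulliPowerSeries ℚ) * (exp ℚ ^ 2 - 1) = C (2 : ℚ) * X := by
    have := congrArg (rescale (2 : ℚ)) h1
    rw [map_mul, map_sub, hE, map_one, rescale_X] at this
    exact this
  have h3 : (exp ℚ * rescale (2 : ℚ) (bernoulliPowerSeries ℚ) -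
      (C (2 : ℚ) * bernoulliPowerSeries ℚ - rescale (2 : ℚ) (bernoulliPowerSeries ℚ))) *
        (exp ℚ - 1) = 0 := by
    linear_combination h2 - C (2 : ℚ) * h1
  rcases mul_eq_zero.mp h3 with h | h
  · exact sub_eq_zero.mp h
  · exact absurd h exp_sub_one_ne_zero

lemma sum_choose_two_pow_bernoulli (m : ℕ) :
    ∑ n ∈ range (m + 1), (m.choose n : ℚ) * ((2 : ℚ) ^ n * bernoulli n) =
      (2 - 2 ^ m) * bernoulli m := by
  have h := congrArg (coeff m) exp_mul_rescale_two
  rw [mul_comm (exp ℚ), coeff_mul, Nat.sum_antidiagonal_eq_sum_range_succ_mk] at h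
  simp only [coeff_rescale, map_sub, coeff_C_mul, bernoulliPowerSeries, coeff_mk, coeff_exp,
    eq_ratCast, Rat.cast_id] at h
  have hm : (m.factorial : ℚ) ≠ 0 := by positivity
  have h2 : ∑ n ∈ range (m + 1), (m.choose n : ℚ) * ((2 : ℚ) ^ n * bernoulli n) =
      m.factorial * ∑ n ∈ range (m + 1), 2 ^ n * (bernoulli n / n.factorial) *
        (1 / (m - n).factorial) := by
    rw [mul_sum]
    refine sum_congr rfl fun n hn => ?_
    rw [mem_range] at hn
    rw [Nat.choose_eq_factorial_div_factorial (by omega : n ≤ m),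
      Nat.cast_div (Nat.factorial_mul_factorial_dvd_factorial (by omega)) (by positivity)]
    push_cast
    have h1 : ((m - n).factorial : ℚ) ≠ 0 := by positivity
    have h3 : (n.factorial : ℚ) ≠ 0 := by positivity
    field_simp
  rw [h2, h]
  field_simp

end Pool.Agent.Lib.MP_a3a416_nt
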