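import Pool.Agent.Lib.MP_a3a416_nt.Gap
import Pool.Agent.Lib.MP_a3a416_nt.Half

/-!
Two consecutive gaps between regular indices.
-/

open Finset Polynomial

namespace Pool.Agent.Lib.MP_a3a416_nt

/-- The relation at `1/2` for the integers `D * B_n`. -/
lemma sum_choose_two_pow_cB {p : ℕ} (hp5 : 5 ≤ p) {m : ℕ} (hm : m + 2 ≤ p) :
    ∑ n ∈ range (m + 1), (m.choose n : ℤ) * (2 ^ n * cB p n) = (2 - 2 ^ m) * cB p m := by
  have h := sum_choose_two_pow_bernoulli m
  have h2 : ((∑ n ∈ range (m + 1), (m.choose n : ℤ) * (2 ^ n * cB p n) : ℤ) : ℚ) =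
      (((2 - 2 ^ m) * cB p m : ℤ) : ℚ) := by
    push_cast
    have h3 : ∀ n ∈ range (m + 1), (m.choose n : ℚ) * ((2 : ℚ) ^ n * (cB p n : ℚ))
        = (primorial (p - 1) : ℚ) * ((m.choose n : ℚ) * ((2 : ℚ) ^ n * _root_.bernoulli n)) := by
      intro n hn
      rw [mem_range] at hn
      rw [cB_spec hp5 (by omega)]
      ring
    rw [sum_congr rfl h3, ← mul_sum, h, cB_spec hp5 hm]
    ring
  exact_mod_cast h2

variable {p : ℕ} [hpF : Fact p.Prime]

/-- The polynomial `∑_{n ≤ N} w_n (x choose n)` over `ZMod p`. -/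
noncomputable def WPoly (p : ℕ) (w : ℕ → ZMod p) (N : ℕ) : (ZMod p)[X] :=
  ∑ n ∈ range (N + 1), C (w n * ((n.factorial : ZMod p))⁻¹) * descPochhammer (ZMod p) n

lemma fac_ne_zero {n : ℕ} (hn : n < p) : (n.factorial : ZMod p) ≠ 0 := by
  rw [Ne, ZMod.natCast_eq_zero_iff]
  intro h
  have := (hpF.out.dvd_factorial).mp h
  omega

lemma WPoly_eval (w : ℕ → ZMod p) (N m : ℕ) (hN : N < p) :
    (WPoly p w N).eval (m : ZMod p) = ∑ n ∈ range (N + 1), (m.choose n : ZMod p) * w n := by
  unfold WPoly
  rw [eval_finsetSum]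
  refine sum_congr rfl fun n hn => ?_
  rw [mem_range] at hn
  rw [eval_mul, eval_C, descPochhammer_eval_eq_descFactorial, Nat.descFactorial_eq_factorial_mul_choose]
  have hfac := fac_ne_zero (p := p) (show n < p by omega)
  push_cast
  field_simp

/-- If the last nonzero weight is at `d ≤ N` then the degree is `d`. -/
lemma WPoly_natDegree_le (w : ℕ → ZMod p) (N d : ℕ) (h : ∀ n, d < n → n ≤ N → w n = 0) :
    (WPoly p w N).natDegree ≤ d := by
  unfold WPoly
  refine natDegree_sum_le_of_forall_le _ _ fun n hn => ?_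
  rw [mem_range] at hn
  rcases le_or_gt n d with hnd | hnd
  · refine (natDegree_C_mul_le _ _).trans ?_
    rw [descPochhammer_natDegree]
    exact hnd
  · rw [h n hnd (by omega), zero_mul, C_0, zero_mul, natDegree_zero]
    exact Nat.zero_le _

lemma WPoly_ne_zero (w : ℕ → ZMod p) (N d : ℕ) (hN : N < p) (hd : d ≤ N)
    (h : ∀ n, d < n → n ≤ N → w n = 0) (hwd : w d ≠ 0) : WPoly p w N ≠ 0 := by
  intro h0
  have hc : (WPoly p w N).coeff d = w d * ((d.factorial : ZMod p))⁻¹ := by
    unfold WPoly
    rw [finsetSum_coeff, sum_eq_single d]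
    · rw [coeff_C_mul]
      have : (descPochhammer (ZMod p) d).coeff d = 1 := by
        have h1 := monic_descPochhammer (ZMod p) d
        rw [Monic, leadingCoeff, descPochhammer_natDegree] at h1
        exact h1
      rw [this, mul_one]
    · intro n hn hne
      rw [mem_range] at hn
      rcases lt_or_ge d n with hnd | hnd
      · rw [h n hnd (by omega), zero_mul, C_0, zero_mul, coeff_zero]
      · rw [coeff_C_mul, coeff_eq_zero_of_natDegree_lt, mul_zero]
        rw [descPochhammer_natDegree]; omega
    · intro hn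
      rw [mem_range] at hn
      omega
  rw [h0, coeff_zero] at hc
  exact (mul_ne_zero hwd (inv_ne_zero (fac_ne_zero (by omega)))) hc.symm

/-- Key bound for two consecutive gaps: if `B_n = 0` mod `p` for all `A < n < N'` except possibly
`n = N`, then `N' ≤ A + 2 + #{2 ≤ n ≤ N : p ∤ B_n}`. -/
lemma gap_two (hp5 : 5 ≤ p) {A N N' : ℕ} (hN2 : 2 ≤ N) (hAN : A < N) (hNN' : N < N')
    (hN' : N' + 1 ≤ p) (hirr : ∀ n, A < n → n < N' → n ≠ N → (p : ℤ) ∣ cB p n) :
    N' ≤ A + 2 + ((Icc 2 N).filter (fun n => ¬ (p : ℤ) ∣ cB p n)).card := by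
  classical
  have hNp : N < p := by omega
  set c : ℕ → ZMod p := fun n => (cB p n : ZMod p) with hc
  have hc0 : ∀ n, (p : ℤ) ∣ cB p n → c n = 0 := fun n h => by
    simp only [hc]; rw [ZMod.intCast_zmod_eq_zero_iff_dvd]; exact h
  -- the weights of the combination
  set w : ℕ → ZMod p := fun n => (2 ^ N - 2 ^ n) * c n with hw
  -- `w 0` or `w 1` is nonzero
  have h0 : c 0 ≠ 0 := by
    simp only [hc]
    rw [Ne, ZMod.intCast_zmod_eq_zero_iff_dvd, dvd_cB_iff hpF.out hp5 (by omega)]
    rw [_root_.bernoulli_zero]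
    intro h
    have := Int.le_of_dvd (by norm_num) h
    norm_num at this
    omega
  have h1 : c 1 ≠ 0 := by
    simp only [hc]
    rw [Ne, ZMod.intCast_zmod_eq_zero_iff_dvd, dvd_cB_iff hpF.out hp5 (by omega)]
    rw [_root_.bernoulli_one]
    have : ((-1 / 2 : ℚ)).num = -1 := by norm_num
    rw [this, Int.dvd_neg]
    intro h
    have := Int.le_of_dvd (by norm_num) h
    omega
  have hw01 : w 0 ≠ 0 ∨ w 1 ≠ 0 := by
    by_contra hcon
    push Not at hcon
    obtain ⟨ha, hb⟩ := hcon
    simp only [hw, pow_zero, pow_one] at ha hb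
    have ha' : (2 : ZMod p) ^ N - 1 = 0 := (mul_eq_zero.mp ha).resolve_right h0
    have hb' : (2 : ZMod p) ^ N - 2 = 0 := (mul_eq_zero.mp hb).resolve_right h1
    have : (1 : ZMod p) = 0 := by linear_combination ha' - hb'
    exact one_ne_zero this
  -- the last nonzero weight
  have hex : ∃ d, d ≤ N ∧ w d ≠ 0 := by
    rcases hw01 with h | h
    · exact ⟨0, by omega, h⟩
    · exact ⟨1, by omega, h⟩
  obtain ⟨d, ⟨hdN, hwd⟩, hdmax⟩ : ∃ d, (d ≤ N ∧ w d ≠ 0) ∧ ∀ n, d < n → n ≤ N → w n = 0 := by
    obtain ⟨d0, hd0⟩ := hex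
    have hne : ((range (N + 1)).filter (fun n => w n ≠ 0)).Nonempty :=
      ⟨d0, by rw [mem_filter, mem_range]; exact ⟨by omega, hd0.2⟩⟩
    obtain ⟨d, hd, hdm⟩ := exists_max_image _ id hne
    rw [mem_filter, mem_range] at hd
    refine ⟨d, ⟨by omega, hd.2⟩, fun n hn hnN => ?_⟩
    by_contra hcon
    have := hdm n (by rw [mem_filter, mem_range]; exact ⟨by omega, hcon⟩)
    simp only [id] at this
    omega
  have hdA : d ≤ A := by
    by_contra hcon
    push Not at hcon
    apply hwd
    rcases eq_or_ne d N with h | h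
    · rw [h]; simp only [hw]; rw [sub_self, zero_mul]
    · simp only [hw]
      rw [hc0 d (hirr d hcon (by omega) h), mul_zero]
  -- the roots
  set Z : Finset ℕ := (Icc 2 (N' - 1)).filter (fun m => N < m ∨ (p : ℤ) ∣ cB p m) with hZ
  have hroot : ∀ m ∈ Z, (WPoly p w N).eval (m : ZMod p) = 0 := by
    intro m hm
    rw [hZ, mem_filter, mem_Icc] at hm
    obtain ⟨⟨hm2, hmN'⟩, hm⟩ := hm
    have hmp : m + 2 ≤ p := by omega
    have hcm : c m = 0 := by
      rcases hm with h | h
      · exact hc0 m (hirr m (by omega) (by omega) (by omega))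
      · exact hc0 m h
    -- the two relations
    have r1 : ∑ n ∈ range (m + 1), (m.choose n : ZMod p) * c n = 0 := by
      have := sum_choose_cB hp5 (show m + 1 ≤ p by omega) hm2
      have h2 := congrArg (Int.cast : ℤ → ZMod p) this
      push_cast at h2
      rw [sum_range_succ, hcm, mul_zero, add_zero]
      exact h2
    have r2 : ∑ n ∈ range (m + 1), (m.choose n : ZMod p) * (2 ^ n * c n) = 0 := by
      have := sum_choose_two_pow_cB hp5 hmp
      have h2 := congrArg (Int.cast : ℤ → ZMod p) this
      push_cast at h2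
      rw [h2]
      have h3 : (cB p m : ZMod p) = 0 := hcm
      rw [h3, mul_zero]
    have r3 : ∑ n ∈ range (m + 1), (m.choose n : ZMod p) * w n = 0 := by
      have : ∀ n ∈ range (m + 1), (m.choose n : ZMod p) * w n =
          2 ^ N * ((m.choose n : ZMod p) * c n) - (m.choose n : ZMod p) * (2 ^ n * c n) := by
        intro n _
        simp only [hw]; ring
      rw [sum_congr rfl this, sum_sub_distrib, ← mul_sum, r1, r2, mul_zero, sub_zero]
    rw [WPoly_eval w N m hNp]
    rcases lt_or_ge N m with hNm | hmN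
    · rw [← r3]
      refine sum_subset (range_subset_range.mpr (by omega)) fun n hn hn' => ?_
      rw [mem_range] at hn hn'
      have : c n = 0 := hc0 n (hirr n (by omega) (by omega) (by omega))
      simp only [hw]
      rw [this, mul_zero, mul_zero]
    · rw [← r3]
      symm
      refine sum_subset (range_subset_range.mpr (by omega)) fun n hn hn' => ?_
      rw [mem_range] at hn hn'
      rw [Nat.choose_eq_zero_of_lt (by omega), Nat.cast_zero, zero_mul]
  have hne := WPoly_ne_zero w N d hNp hdN hdmax hwd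
  have hinj : Set.InjOn (fun m : ℕ => (m : ZMod p)) (Z : Set ℕ) := by
    intro a ha b hb hab
    rw [Finset.mem_coe, hZ, mem_filter, mem_Icc] at ha hb
    simp only at hab
    rw [ZMod.natCast_eq_natCast_iff'] at hab
    rwa [Nat.mod_eq_of_lt (by omega), Nat.mod_eq_of_lt (by omega)] at hab
  have hcard : Z.card ≤ d := by
    have h1 : (Z.image (fun m : ℕ => (m : ZMod p))).card = Z.card := card_image_of_injOn hinj
    have h2 : (Z.image (fun m : ℕ => (m : ZMod p))).val ⊆ (WPoly p w N).roots := by
      intro x hx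
      rw [Finset.mem_val, mem_image] at hx
      obtain ⟨m, hm, rfl⟩ := hx
      rw [mem_roots hne]
      exact hroot m hm
    have h3 := card_le_degree_of_subset_roots h2
    exact (h1 ▸ h3).trans (WPoly_natDegree_le w N d hdmax)
  have hcompl : (Icc 2 (N' - 1)).card ≤
      Z.card + ((Icc 2 N).filter (fun n => ¬ (p : ℤ) ∣ cB p n)).card := by
    have hsub : Icc 2 (N' - 1) ⊆ Z ∪ (Icc 2 N).filter (fun n => ¬ (p : ℤ) ∣ cB p n) := by
      intro m hm
      rw [mem_Icc] at hm
      rw [mem_union, hZ, mem_filter, mem_filter, mem_Icc, mem_Icc]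
      by_cases h1 : N < m
      · exact Or.inl ⟨hm, Or.inl h1⟩
      · by_cases h2 : (p : ℤ) ∣ cB p m
        · exact Or.inl ⟨hm, Or.inr h2⟩
        · exact Or.inr ⟨⟨hm.1, by omega⟩, h2⟩
    exact (card_le_card hsub).trans (card_union_le _ _)
  rw [Nat.card_Icc] at hcompl
  omega

/-- **Two-step gap theorem**: an interval `(M, K]` containing at most one regular index has length at
most `R(K) / 2`. -/
theorem two_step (hp5 : 5 ≤ p) {M K : ℕ} (hM : 1 ≤ M) (hMK : M ≤ K) (hK : 2 * K + 3 ≤ p)
    (hR : (regIdx p K).card ≤ (regIdx p M).card + 1) :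
    2 * (K - M) ≤ (regIdx p K).card := by
  classical
  rcases Nat.eq_or_lt_of_le hMK with h | hlt
  · subst h; simp
  -- the exceptional index
  obtain ⟨b, hbM, hbK, hb⟩ : ∃ b, M < b ∧ b ≤ K ∧ ∀ j, M < j → j ≤ K → j ≠ b → j ∉ regIdx p K := by
    by_contra hcon
    push Not at hcon
    obtain ⟨j1, hj1, hj1', hj1'', hj1m⟩ := hcon (M + 1) (by omega) (by omega)
    obtain ⟨j2, hj2, hj2', hj2'', hj2m⟩ := hcon j1 hj1 hj1'
    have h3 : insert j1 (insert j2 (regIdx p M)) ⊆ regIdx p K := by
      intro j hj
      rw [mem_insert, mem_insert] at hj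
      rcases hj with rfl | rfl | hj
      · exact hj1m
      · exact hj2m
      · exact regIdx_mono hMK hj
    have h4 := card_le_card h3
    rw [card_insert_of_notMem, card_insert_of_notMem] at h4
    · omega
    · rw [mem_regIdx]; omega
    · rw [mem_insert, mem_regIdx]; omega
  have key := gap_two (p := p) hp5 (A := 2 * M) (N := 2 * b) (N' := 2 * K + 2) (by omega) (by omega)
    (by omega) (by omega) (by
      intro n h1 h2 h3
      rcases Nat.even_or_odd' n with ⟨j, hj | hj⟩
      · rw [dvd_cB_iff hpF.out hp5 (by omega), hj]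
        have := hb j (by omega) (by omega) (by omega)
        rw [mem_regIdx] at this
        by_contra hcon
        exact this ⟨⟨by omega, by omega⟩, hcon⟩
      · rw [cB_odd hp5 (by omega) ⟨j, hj⟩ (by omega)]
        exact dvd_zero _)
  rw [card_regular_cB hp5 (by omega)] at key
  have h5 : (regIdx p b).card ≤ (regIdx p K).card := card_le_card (regIdx_mono hbK)
  omega

/-- **Count**: `8 (K + 1) ≤ (R(K) + 3)²`. -/
theorem two_step_count (hp5 : 5 ≤ p) (K : ℕ) : 2 * K + 3 ≤ p → 1 ≤ K →
    8 * (K + 1) ≤ ((regIdx p K).card + 3) ^ 2 := by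
  classical
  induction K using Nat.strong_induction_on with
  | _ K ih =>
    intro hK hK1
    have h1mem : 1 ∈ regIdx p K := by
      rw [mem_regIdx]; exact ⟨⟨le_rfl, hK1⟩, not_dvd_bernoulli_two hp5⟩
    -- last regular index `b`
    obtain ⟨b, hb, hbmax⟩ := (regIdx p K).exists_max_image id ⟨1, h1mem⟩
    have hb' := mem_regIdx.mp hb
    rcases Nat.eq_or_lt_of_le hb'.1.1 with h1 | h1
    · -- only the index `1` is regular
      have hR : regIdx p K = {1} := by
        ext j
        rw [mem_singleton]
        constructor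
        · intro hj
          have h2 := hbmax j hj
          simp only [id] at h2
          have h3 := (mem_regIdx.mp hj).1.1
          omega
        · rintro rfl; exact h1mem
      have h2 := two_step hp5 le_rfl hK1 hK (by rw [hR, card_singleton]; omega)
      rw [hR, card_singleton] at h2 ⊢
      have : K = 1 := by omega
      subst this
      norm_num
    · have h1mem' : 1 ∈ (regIdx p K).erase b := by
        rw [mem_erase]; exact ⟨by omega, h1mem⟩
      -- the previous regular index `M`
      obtain ⟨M, hM, hMmax⟩ := ((regIdx p K).erase b).exists_max_image id ⟨1, h1mem'⟩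
      have hM1 := mem_erase.mp hM
      have hM2 := mem_regIdx.mp hM1.2
      have hMb : M < b := by
        have := hbmax M hM1.2
        simp only [id] at this
        have := hM1.1
        omega
      have hRM : (regIdx p K).card ≤ (regIdx p M).card + 1 := by
        have : regIdx p K ⊆ insert b (regIdx p M) := by
          intro j hj
          rw [mem_insert]
          rcases eq_or_ne j b with h | h
          · exact Or.inl h
          · right
            have h2 := hMmax j (mem_erase.mpr ⟨h, hj⟩)
            simp only [id] at h2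
            have h3 := mem_regIdx.mp hj
            exact mem_regIdx.mpr ⟨⟨h3.1.1, h2⟩, h3.2⟩
        exact (card_le_card this).trans (card_insert_le _ _)
      have h2 := two_step hp5 hM2.1.1 (by omega) hK hRM
      have hsub : insert b (insert M (regIdx p (M - 1))) ⊆ regIdx p K := by
        intro j hj
        rw [mem_insert, mem_insert] at hj
        rcases hj with rfl | rfl | hj
        · exact hb
        · exact hM1.2
        · exact regIdx_mono (by omega) hj
      have h3 := card_le_card hsub
      rw [card_insert_of_notMem, card_insert_of_notMem] at h3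
      · rcases Nat.eq_or_lt_of_le hM2.1.1 with h4 | h4
        · subst h4
          have h6 : (2 : ℕ) ≤ (regIdx p K).card := by omega
          have h7 : 2 * K ≤ (regIdx p K).card + 2 := by omega
          nlinarith
        · have h5 := ih (M - 1) (by omega) (by omega) (by omega)
          obtain ⟨M', rfl⟩ : ∃ M', M = M' + 1 := ⟨M - 1, by omega⟩
          rw [Nat.add_sub_cancel] at h3 h5
          have h6 : ((regIdx p M').card + 3) ^ 2 ≤ ((regIdx p K).card + 1) ^ 2 :=
            Nat.pow_le_pow_left (by omega) 2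
          have h7 : 2 * K ≤ 2 * (M' + 1) + (regIdx p K).card := by omega
          nlinarith
      · rw [mem_regIdx]; omega
      · rw [mem_insert, mem_regIdx]; omega

end Pool.Agent.Lib.MP_a3a416_nt
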