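import Pool.Agent.Lib.MP_a3a416_nt.CotSum

/-!
The Maillet matrix `(2 (c t mod ℓ) - ℓ)` of a prime `ℓ`: nonsingular over `ℚ`, and of rank at least
`(ℓ-1)/4` modulo every prime `p > (ℓ/2)^2`.
-/

open Finset

namespace Pool.Agent.Lib.MP_a3a416_nt

section Odd

variable {l : ℕ} [hl : Fact l.Prime]

/-- `2 u - ℓ` for the representative `0 < u < ℓ`, and `0` at `0`. -/
def sfun (l : ℕ) (u : ZMod l) : ℤ := if u = 0 then 0 else 2 * (u.val : ℤ) - l

lemma sfun_zero : sfun l 0 = 0 := by simp [sfun]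

lemma sfun_neg (u : ZMod l) : sfun l (-u) = - sfun l u := by
  unfold sfun
  by_cases hu : u = 0
  · simp [hu]
  · have : NeZero u := ⟨hu⟩
    rw [if_neg (neg_ne_zero.mpr hu), if_neg hu, ZMod.val_neg_of_ne_zero, Nat.cast_sub (ZMod.val_lt u).le]
    ring

lemma sfun_add {u v : ZMod l} (hu : u ≠ 0) (hv : v ≠ 0) (huv : u + v ≠ 0) :
    sfun l (u + v) - sfun l u - sfun l v = l ∨ sfun l (u + v) - sfun l u - sfun l v = - l := by
  unfold sfun
  rw [if_neg hu, if_neg hv, if_neg huv]
  rcases Nat.lt_or_ge (u.val + v.val) l with h | h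
  · left
    rw [ZMod.val_add_of_lt h]
    push_cast
    ring
  · right
    have h1 := ZMod.val_add_val_of_le h
    have h2 : ((u + v).val : ℤ) = u.val + v.val - l := by
      have := congrArg (Nat.cast : ℕ → ℤ) h1
      push_cast at this
      linarith
    rw [h2]
    ring

lemma geom_aux (z : ℂ) (n : ℕ) :
    (∑ k ∈ range n, (k : ℂ) * z ^ k) * (z - 1) = n * z ^ n - z * ∑ k ∈ range n, z ^ k := by
  induction n with
  | zero => simp
  | succ n ih =>
    rw [sum_range_succ, add_mul, ih, sum_range_succ]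
    push_cast
    ring

/-- The discrete Fourier transform of `sfun`. -/
lemma sum_sfun_stdAddChar (b : ZMod l) (hb : b ≠ 0) :
    ∑ u : ZMod l, (sfun l u : ℂ) * ZMod.stdAddChar (b * u) =
      - Complex.I * l * Complex.cot (Real.pi * ((b.val / l : ℝ) : ℂ)) := by
  set z : ℂ := ZMod.stdAddChar b with hz
  have hlpos : 0 < l := hl.out.pos
  have hl0 : (l : ℂ) ≠ 0 := by exact_mod_cast hlpos.ne'
  have hz1 : z ≠ 1 := by
    intro h
    apply hb
    apply ZMod.injective_stdAddChar
    rw [← hz, h, AddChar.map_zero_eq_one]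
  have hzl : z ^ l = 1 := by
    rw [hz, ← AddChar.map_nsmul_eq_pow, nsmul_eq_mul, CharP.cast_eq_zero, zero_mul,
      AddChar.map_zero_eq_one]
  have hpow : ∀ u : ZMod l, ZMod.stdAddChar (b * u) = z ^ u.val := by
    intro u
    rw [hz, ← AddChar.map_nsmul_eq_pow, nsmul_eq_mul, ZMod.natCast_zmod_val, mul_comm]
  have hgeom : ∑ k ∈ range l, z ^ k = 0 := by
    have := geom_sum_mul z l
    rw [hzl, sub_self] at this
    exact (mul_eq_zero.mp this).resolve_right (sub_ne_zero.mpr hz1)
  have hsum : ∑ u : ZMod l, (sfun l u : ℂ) * ZMod.stdAddChar (b * u) =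
      ∑ k ∈ range l, (if k = 0 then (0 : ℂ) else 2 * (k : ℂ) - l) * z ^ k := by
    rw [← Fin.sum_univ_eq_sum_range (fun k => (if k = 0 then (0 : ℂ) else 2 * (k : ℂ) - l) * z ^ k) l]
    have : NeZero l := ⟨hlpos.ne'⟩
    refine (Fintype.sum_equiv (ZMod.finEquiv l).toEquiv _ _ fun k => ?_).symm
    have hv : ((ZMod.finEquiv l).toEquiv k).val = (k : ℕ) := by
      obtain ⟨m, rfl⟩ : ∃ m, l = m + 1 := ⟨l - 1, by omega⟩
      rfl
    rw [hpow, hv]
    unfold sfun
    by_cases hk : (k : ℕ) = 0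
    · have : (ZMod.finEquiv l).toEquiv k = 0 := by
        rw [← ZMod.val_eq_zero, hv, hk]
      rw [if_pos hk, if_pos this]
      simp
    · have : (ZMod.finEquiv l).toEquiv k ≠ 0 := by
        intro h
        apply hk
        rw [← hv, h, ZMod.val_zero]
      rw [if_neg hk, if_neg this, hv]
      push_cast
      ring
  have hsum2 : ∑ k ∈ range l, (if k = 0 then (0 : ℂ) else 2 * (k : ℂ) - l) * z ^ k =
      2 * ∑ k ∈ range l, (k : ℂ) * z ^ k - l * ∑ k ∈ range l, z ^ k + l := by
    have e : ∀ k ∈ range l, (if k = 0 then (0 : ℂ) else 2 * (k : ℂ) - l) * z ^ k =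
        2 * ((k : ℂ) * z ^ k) - l * z ^ k + (if k = 0 then (l : ℂ) else 0) := by
      intro k _
      by_cases hk : k = 0
      · subst hk; simp
      · rw [if_neg hk, if_neg hk]; ring
    rw [sum_congr rfl e, sum_add_distrib, sum_sub_distrib, ← mul_sum, ← mul_sum, sum_ite_eq',
      if_pos (mem_range.mpr hlpos)]
  have haux := geom_aux z l
  rw [hzl, hgeom, mul_zero, sub_zero, mul_one] at haux
  have hz1' : z - 1 ≠ 0 := sub_ne_zero.mpr hz1
  have hA : ∑ k ∈ range l, (k : ℂ) * z ^ k = l / (z - 1) := by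
    rw [eq_div_iff hz1', haux]
  rw [hsum, hsum2, hgeom, hA]
  -- the cotangent
  have hcot : Complex.cot (Real.pi * ((b.val / l : ℝ) : ℂ)) = (z + 1) / (Complex.I * (1 - z)) := by
    have hz2 : z = Complex.exp (2 * Real.pi * Complex.I * ((b.val / l : ℝ) : ℂ)) := by
      have h1 := ZMod.stdAddChar_coe (N := l) (b.val : ℤ)
      have h2 : (((b.val : ℤ)) : ZMod l) = b := by
        rw [Int.cast_natCast, ZMod.natCast_zmod_val]
      rw [h2] at h1
      rw [hz, h1]
      congr 1
      push_cast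
      ring
    rw [hz2, ← Complex.cot_pi_eq_exp_ratio]
  rw [hcot]
  have h1z : (1 - z) ≠ 0 := by
    intro h; apply hz1'; linear_combination -h
  have hI := Complex.I_ne_zero
  have e1 : (1 - z) = -(z - 1) := by ring
  rw [e1]
  field_simp
  ring_nf

/-- The kernel of the (full) Maillet matrix on odd functions is trivial. -/
theorem odd_kernel_trivial (lam : ZMod l → ℂ) (h0 : lam 0 = 0) (hodd : ∀ c, lam (-c) = - lam c)
    (hker : ∀ t : ZMod l, ∑ c, lam c * (sfun l (c * t) : ℂ) = 0) : ∀ c, lam c = 0 := by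
  classical
  set K : ZMod l → ℂ := fun b => ∑ u : ZMod l, (sfun l u : ℂ) * ZMod.stdAddChar (b * u) with hK
  -- the kernel relation for `K`
  have hker2 : ∀ b : ZMod l, ∑ c, lam c * K (b * c⁻¹) = 0 := by
    intro b
    have h1 : ∑ t : ZMod l, ZMod.stdAddChar (b * t) * ∑ c, lam c * (sfun l (c * t) : ℂ) = 0 :=
      sum_eq_zero fun t _ => by rw [hker t, mul_zero]
    rw [← h1]
    simp only [mul_sum]
    rw [sum_comm]
    refine sum_congr rfl fun c _ => ?_
    by_cases hc : c = 0
    · subst hc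
      rw [h0, zero_mul]
      symm
      exact sum_eq_zero fun t _ => by rw [zero_mul, mul_zero]
    · simp only [hK, mul_sum]
      refine (Fintype.sum_equiv (Equiv.mulLeft₀ c hc) _ _ fun t => ?_).symm
      simp only [Equiv.mulLeft₀_apply]
      have e1 : b * c⁻¹ * (c * t) = b * t := by field_simp
      rw [e1]
      ring
  -- all character sums vanish
  have hchar : ∀ χ : DirichletCharacter ℂ l, ∑ c, lam c * χ c = 0 := by
    intro χ
    rcases χ.even_or_odd with hχ | hχ
    · have h1 : ∑ c, lam c * χ c = ∑ c, lam (-c) * χ (-c) :=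
        (Fintype.sum_equiv (Equiv.neg (ZMod l)) _ _ fun c => by simp)
      have h2 : ∑ c, lam (-c) * χ (-c) = - ∑ c, lam c * χ c := by
        rw [← sum_neg_distrib]
        refine sum_congr rfl fun c _ => ?_
        rw [hodd c, DirichletCharacter.Even.eval_neg χ c hχ]
        ring
      rw [h2] at h1
      have h3 : (2 : ℂ) * ∑ c, lam c * χ c = 0 := by linear_combination h1
      exact (mul_eq_zero.mp h3).resolve_left two_ne_zero
    · have hne : ∑ b, χ b * K b ≠ 0 := by
        have h1 : ∑ b, χ b * K b = (- Complex.I * l) *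
            ∑ j : ZMod l, χ j * Complex.cot (Real.pi * ((j.val / l : ℝ) : ℂ)) := by
          rw [mul_sum]
          refine sum_congr rfl fun j _ => ?_
          by_cases hj : j = 0
          · subst hj
            have hz : χ 0 = 0 := MulChar.map_nonunit χ not_isUnit_zero
            rw [hz]; ring
          · simp only [hK]
            rw [sum_sfun_stdAddChar j hj]
            ring
        rw [h1]
        have : NeZero l := ⟨hl.out.ne_zero⟩
        refine mul_ne_zero (mul_ne_zero (neg_ne_zero.mpr Complex.I_ne_zero) ?_) (cot_sum_ne_zero χ hχ)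
        exact_mod_cast hl.out.ne_zero
      have h2 : (∑ c, lam c * χ c) * ∑ b, χ b * K b = 0 := by
        have h3 : ∑ b, χ b * ∑ c, lam c * K (b * c⁻¹) = 0 :=
          sum_eq_zero fun b _ => by rw [hker2 b, mul_zero]
        rw [← h3, sum_mul]
        simp only [mul_sum]
        rw [sum_comm (s := univ) (t := univ) (f := fun b c => χ b * (lam c * K (b * c⁻¹)))]
        refine sum_congr rfl fun c _ => ?_
        by_cases hc : c = 0
        · subst hc
          rw [h0]
          symm
          rw [sum_eq_zero (fun b _ => by ring), sum_eq_zero (fun b _ => by ring)]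
        · refine Fintype.sum_equiv (Equiv.mulRight₀ c hc) _ _ fun b => ?_
          simp only [Equiv.mulRight₀_apply]
          have e1 : b * c * c⁻¹ = b := by field_simp
          rw [e1, map_mul]
          ring
      exact (mul_eq_zero.mp h2).resolve_right hne
  -- orthogonality
  intro a
  by_cases ha : a = 0
  · rw [ha, h0]
  · have h1 : ∑ χ : DirichletCharacter ℂ l, χ a⁻¹ * ∑ c, lam c * χ c = 0 :=
      sum_eq_zero fun χ _ => by rw [hchar χ, mul_zero]
    have : NeZero l := ⟨hl.out.ne_zero⟩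
    have h2 : ∑ χ : DirichletCharacter ℂ l, χ a⁻¹ * ∑ c, lam c * χ c = lam a * l.totient := by
      simp only [mul_sum]
      rw [sum_comm]
      have e1 : ∀ c : ZMod l, ∑ χ : DirichletCharacter ℂ l, χ a⁻¹ * (lam c * χ c) =
          lam c * (if a = c then (l.totient : ℂ) else 0) := by
        intro c
        rw [← DirichletCharacter.sum_char_inv_mul_char_eq ℂ (isUnit_iff_ne_zero.mpr ha) c, mul_sum]
        refine sum_congr rfl fun χ _ => ?_
        ring
      rw [sum_congr rfl fun c _ => e1 c]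
      simp
    rw [h2] at h1
    have h3 : (l.totient : ℂ) ≠ 0 := by
      exact_mod_cast (Nat.totient_pos.mpr hl.out.pos).ne'
    exact (mul_eq_zero.mp h1).resolve_right h3

end Odd

section Matrix

variable {l : ℕ} [hl : Fact l.Prime]

lemma natCast_ne_zero_of_lt {c : ℕ} (h0 : 0 < c) (h1 : c < l) : (c : ZMod l) ≠ 0 := by
  rw [Ne, ZMod.natCast_eq_zero_iff]
  exact Nat.not_dvd_of_pos_of_lt h0 h1

/-- The `±1` matrix. -/
def Emat (l n : ℕ) : Matrix (Fin n) (Fin n) ℤ := Matrix.of fun c t =>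
  (sfun l (((c : ℕ) + 2 : ℕ) * ((t : ℕ) + 1 : ℕ)) - sfun l (((c : ℕ) + 1 : ℕ) * ((t : ℕ) + 1 : ℕ)) -
    sfun l ((t : ℕ) + 1 : ℕ)) / l

lemma Emat_spec {n : ℕ} (hn : l = 2 * n + 1) (c t : Fin n) :
    (l * Emat l n c t = sfun l (((c : ℕ) + 2 : ℕ) * ((t : ℕ) + 1 : ℕ)) -
      sfun l (((c : ℕ) + 1 : ℕ) * ((t : ℕ) + 1 : ℕ)) - sfun l ((t : ℕ) + 1 : ℕ)) ∧
    |Emat l n c t| ≤ 1 := by
  have hc := c.2
  have ht := t.2
  have hl0 : (l : ℤ) ≠ 0 := by exact_mod_cast hl.out.ne_zero
  have h1 : ((((c : ℕ) + 1 : ℕ) : ZMod l) * (((t : ℕ) + 1 : ℕ) : ZMod l)) ≠ 0 :=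
    mul_ne_zero (natCast_ne_zero_of_lt (by omega) (by omega)) (natCast_ne_zero_of_lt (by omega) (by omega))
  have h2 : (((t : ℕ) + 1 : ℕ) : ZMod l) ≠ 0 := natCast_ne_zero_of_lt (by omega) (by omega)
  have h3 : ((((c : ℕ) + 2 : ℕ) : ZMod l) * (((t : ℕ) + 1 : ℕ) : ZMod l)) ≠ 0 :=
    mul_ne_zero (natCast_ne_zero_of_lt (by omega) (by omega)) h2
  have h4 : ((((c : ℕ) + 1 : ℕ) : ZMod l) * (((t : ℕ) + 1 : ℕ) : ZMod l)) + (((t : ℕ) + 1 : ℕ) : ZMod l) =
      ((((c : ℕ) + 2 : ℕ) : ZMod l) * (((t : ℕ) + 1 : ℕ) : ZMod l)) := by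
    push_cast; ring
  have h5 := sfun_add h1 h2 (by rw [h4]; exact h3)
  rw [h4] at h5
  unfold Emat
  rw [Matrix.of_apply]
  rcases h5 with h5 | h5
  · rw [h5, Int.ediv_self hl0]
    norm_num
  · rw [h5, Int.neg_ediv_of_dvd (dvd_refl _), Int.ediv_self hl0]
    norm_num

/-- The `±1` matrix is nonsingular over `ℚ`. -/
theorem det_Emat_ne_zero {n : ℕ} (hn : l = 2 * n + 1) (hn1 : 1 ≤ n) : (Emat l n).det ≠ 0 := by
  classical
  intro hdet
  obtain ⟨x, hx0, hx⟩ := Matrix.exists_mulVec_eq_zero_iff.mpr hdet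
  apply hx0
  -- the sums `S c = ∑ s(c t) x_t`
  set S : ZMod l → ℤ := fun c => ∑ t : Fin n, sfun l (c * ((t : ℕ) + 1 : ℕ)) * x t with hS
  have hSneg : ∀ c, S (-c) = - S c := by
    intro c
    simp only [hS]
    rw [← sum_neg_distrib]
    refine sum_congr rfl fun t _ => ?_
    rw [neg_mul, sfun_neg]
    ring
  have hstep : ∀ c : ℕ, c < n → S ((c + 2 : ℕ) : ZMod l) = S ((c + 1 : ℕ) : ZMod l) + S 1 := by
    intro c hc
    have h1 := congrFun hx ⟨c, hc⟩
    rw [Matrix.mulVec, dotProduct, Pi.zero_apply] at h1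
    have h2 : (l : ℤ) * ∑ t, Emat l n ⟨c, hc⟩ t * x t = S ((c + 2 : ℕ) : ZMod l) -
        S ((c + 1 : ℕ) : ZMod l) - S 1 := by
      simp only [hS]
      rw [mul_sum, ← sum_sub_distrib, ← sum_sub_distrib]
      refine sum_congr rfl fun t _ => ?_
      rw [← mul_assoc, (Emat_spec hn ⟨c, hc⟩ t).1, one_mul]
      ring
    rw [h1, mul_zero] at h2
    linarith
  have hlin : ∀ c : ℕ, c ≤ n → S ((c + 1 : ℕ) : ZMod l) = (c + 1) * S 1 := by
    intro c
    induction c with
    | zero => intro _; simp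
    | succ c ih =>
      intro hc
      have := hstep c (by omega)
      rw [show c + 1 + 1 = c + 2 by ring, this, ih (by omega)]
      push_cast
      ring
  have hS1 : S 1 = 0 := by
    have h1 := hlin n le_rfl
    obtain ⟨m, rfl⟩ : ∃ m, n = m + 1 := ⟨n - 1, by omega⟩
    have h2 := hlin m (by omega)
    have h3 : ((m + 1 + 1 : ℕ) : ZMod l) = - ((m + 1 : ℕ) : ZMod l) := by
      have : ((l : ℕ) : ZMod l) = 0 := CharP.cast_eq_zero _ _
      have h4 : ((m + 1 + 1 : ℕ) : ZMod l) + ((m + 1 : ℕ) : ZMod l) = ((l : ℕ) : ZMod l) := by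
        rw [← Nat.cast_add]; congr 1; omega
      rw [this] at h4
      exact eq_neg_of_add_eq_zero_left h4
    rw [h3, hSneg, h2] at h1
    push_cast at h1
    have h5 : (2 * (m : ℤ) + 3) * S 1 = 0 := by linarith
    rcases mul_eq_zero.mp h5 with h6 | h6
    · omega
    · exact h6
  have hSall : ∀ c : ZMod l, S c = 0 := by
    intro c
    have hcn : ∀ m : ℕ, 1 ≤ m → m ≤ n → S (m : ZMod l) = 0 := by
      intro m hm1 hmn
      obtain ⟨k, rfl⟩ : ∃ k, m = k + 1 := ⟨m - 1, by omega⟩
      rw [hlin k (by omega), hS1, mul_zero]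
    by_cases hc : c = 0
    · subst hc
      simp [hS, sfun_zero]
    · have hv : 0 < c.val := by
        rcases Nat.eq_zero_or_pos c.val with h | h
        · exact absurd ((ZMod.val_eq_zero c).mp h) hc
        · exact h
      have hvl := ZMod.val_lt c
      rcases Nat.lt_or_ge n c.val with h | h
      · have hne : NeZero c := ⟨hc⟩
        have h2 : ((-c).val : ZMod l) = -c := ZMod.natCast_zmod_val _
        have h3 : (-c).val = l - c.val := ZMod.val_neg_of_ne_zero c
        have h4 := hcn (-c).val (by omega) (by omega)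
        rw [h2, hSneg] at h4
        linarith
      · have h2 : (c.val : ZMod l) = c := ZMod.natCast_zmod_val _
        rw [← h2]
        exact hcn c.val hv h
  -- the odd function
  set lam : ZMod l → ℂ := fun u => ∑ t : Fin n, (x t : ℂ) *
    ((if u = ((t : ℕ) + 1 : ℕ) then 1 else 0) - (if u = -((t : ℕ) + 1 : ℕ) then 1 else 0)) with hlam
  have hne : ∀ t : Fin n, (((t : ℕ) + 1 : ℕ) : ZMod l) ≠ 0 := fun t =>
    natCast_ne_zero_of_lt (by omega) (by have := t.2; omega)
  have hl0 : lam 0 = 0 := by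
    simp only [hlam]
    refine sum_eq_zero fun t _ => ?_
    rw [if_neg (hne t).symm, if_neg (neg_ne_zero.mpr (hne t)).symm]
    ring
  have hlodd : ∀ c, lam (-c) = - lam c := by
    intro c
    simp only [hlam]
    rw [← sum_neg_distrib]
    refine sum_congr rfl fun t _ => ?_
    simp only [neg_eq_iff_eq_neg, neg_neg]
    ring
  have hlker : ∀ t' : ZMod l, ∑ c, lam c * (sfun l (c * t') : ℂ) = 0 := by
    intro t'
    have h1 : ∑ c, lam c * (sfun l (c * t') : ℂ) = 2 * (S t' : ℂ) := by
      simp only [hlam, hS, sum_mul]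
      rw [sum_comm, Int.cast_sum, mul_sum]
      refine sum_congr rfl fun t _ => ?_
      have e1 : ∀ c : ZMod l, (x t : ℂ) * ((if c = ((t : ℕ) + 1 : ℕ) then 1 else 0) -
          (if c = -((t : ℕ) + 1 : ℕ) then 1 else 0)) * (sfun l (c * t') : ℂ) =
          (if c = ((t : ℕ) + 1 : ℕ) then (x t : ℂ) * (sfun l (c * t') : ℂ) else 0) -
          (if c = -((t : ℕ) + 1 : ℕ) then (x t : ℂ) * (sfun l (c * t') : ℂ) else 0) := by
        intro c
        split_ifs <;> ring
      rw [sum_congr rfl fun c _ => e1 c, sum_sub_distrib, sum_ite_eq', sum_ite_eq',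
        if_pos (mem_univ _), if_pos (mem_univ _), neg_mul, sfun_neg, mul_comm t', Int.cast_mul,
        Int.cast_neg]
      ring
    rw [h1, hSall t']
    simp
  have hz := odd_kernel_trivial lam hl0 hlodd hlker
  ext t0
  have h1 := hz (((t0 : ℕ) + 1 : ℕ) : ZMod l)
  simp only [hlam] at h1
  rw [Finset.sum_eq_single t0] at h1
  · rw [if_pos rfl, if_neg, sub_zero, mul_one] at h1
    · exact_mod_cast h1
    · intro h
      have h2 : (((t0 : ℕ) + 1 + ((t0 : ℕ) + 1) : ℕ) : ZMod l) = 0 := by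
        push_cast
        push_cast at h
        linear_combination h
      exact natCast_ne_zero_of_lt (by omega) (by have := t0.2; omega) h2
  · intro t _ ht
    have ht2 : (t : ℕ) ≠ (t0 : ℕ) := fun h => ht (Fin.ext h)
    rw [if_neg, if_neg, sub_zero, mul_zero]
    · intro h
      have h2 : (((t0 : ℕ) + 1 + ((t : ℕ) + 1) : ℕ) : ZMod l) = 0 := by
        push_cast
        push_cast at h
        linear_combination h
      exact natCast_ne_zero_of_lt (by omega) (by have := t0.2; have := t.2; omega) h2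
    · intro h
      rw [ZMod.natCast_eq_natCast_iff', Nat.mod_eq_of_lt (by have := t0.2; omega),
        Nat.mod_eq_of_lt (by have := t.2; omega)] at h
      omega
  · intro h; exact absurd (mem_univ _) h

end Matrix

section ModP

variable {p : ℕ} [hpF : Fact p.Prime]

lemma sumExtend_inl {ι K V : Type*} [DivisionRing K] [AddCommGroup V] [Module K V] {v : ι → V}
    (hs : LinearIndependent K v) (i : ι) : Module.Basis.sumExtend hs (Sum.inl i) = v i := by
  classical
  simp [Module.Basis.sumExtend]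
  rfl

/-- The corank mod `p` of an integer matrix is at most the `p`-adic valuation of its determinant. -/
theorem pow_dvd_det {n k : ℕ} (M : Matrix (Fin n) (Fin n) ℤ)
    (hk : k + (M.map (Int.cast : ℤ → ZMod p)).rank = n) : (p : ℤ) ^ k ∣ M.det := by
  classical
  set Mb : Matrix (Fin n) (Fin n) (ZMod p) := M.map (Int.cast : ℤ → ZMod p) with hMb
  set V := LinearMap.ker Mb.mulVecLin with hV
  have hfin : Module.finrank (ZMod p) V = k := by
    have h1 := LinearMap.finrank_range_add_finrank_ker Mb.mulVecLin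
    rw [Module.finrank_fin_fun, ← hV] at h1
    have h2 : Mb.rank = Module.finrank (ZMod p) (LinearMap.range Mb.mulVecLin) := rfl
    rw [← h2] at h1
    omega
  set b := Module.finBasisOfFinrankEq (ZMod p) V hfin with hb
  have hli : LinearIndependent (ZMod p) (fun i => (b i : Fin n → ZMod p)) :=
    b.linearIndependent.map' V.subtype (Submodule.ker_subtype V)
  set B0 := Module.Basis.sumExtend hli with hB0
  have : Finite (Fin k ⊕ Module.Basis.sumExtendIndex hli) := Module.Finite.finite_basis B0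
  have : Fintype (Fin k ⊕ Module.Basis.sumExtendIndex hli) := Fintype.ofFinite _
  have hcard : Fintype.card (Fin k ⊕ Module.Basis.sumExtendIndex hli) = Fintype.card (Fin n) := by
    rw [← Module.finrank_eq_card_basis B0, Module.finrank_fin_fun, Fintype.card_fin]
  set e := Fintype.equivOfCardEq hcard with he
  set B := B0.reindex e with hB
  have hBker : ∀ i : Fin k, Mb.mulVec (B (e (Sum.inl i))) = 0 := by
    intro i
    have h1 : B (e (Sum.inl i)) = (b i : Fin n → ZMod p) := by
      rw [hB, Module.Basis.reindex_apply, Equiv.symm_apply_apply, hB0, sumExtend_inl]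
    rw [h1]
    have h2 : Mb.mulVecLin (b i : Fin n → ZMod p) = 0 := LinearMap.mem_ker.mp (b i).2
    exact h2
  set P : Matrix (Fin n) (Fin n) ℤ := Matrix.of fun i j => (((B j i).val : ℕ) : ℤ) with hP
  have hPmap : P.map (Int.cast : ℤ → ZMod p) = Matrix.of fun i j => B j i := by
    ext i j
    simp [hP]
  have hPdet : ((P.det : ℤ) : ZMod p) ≠ 0 := by
    have h1 : ((P.det : ℤ) : ZMod p) = (P.map (Int.cast : ℤ → ZMod p)).det := by
      have := RingHom.map_det (Int.castRingHom (ZMod p)) P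
      simpa using this
    rw [h1, hPmap]
    have h2 := (Pi.basisFun (ZMod p) (Fin n)).isUnit_det B
    rw [Module.Basis.det_apply] at h2
    have h3 : (Pi.basisFun (ZMod p) (Fin n)).toMatrix B = Matrix.of fun i j => B j i := by
      ext i j
      simp [Module.Basis.toMatrix_apply]
    rw [h3] at h2
    exact h2.ne_zero
  set K : Finset (Fin n) := univ.image (fun i : Fin k => e (Sum.inl i)) with hK
  have hKcard : K.card = k := by
    rw [hK, card_image_of_injective _ (fun a b h => Sum.inl_injective (e.injective h)), card_univ,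
      Fintype.card_fin]
  have hdiv : ∀ j ∈ K, ∀ i, (p : ℤ) ∣ (M * P) i j := by
    intro j hj i
    obtain ⟨a, -, rfl⟩ := mem_image.mp hj
    rw [← ZMod.intCast_zmod_eq_zero_iff_dvd]
    have h1 := congrFun (hBker a) i
    rw [Matrix.mulVec, dotProduct, Pi.zero_apply] at h1
    rw [Matrix.mul_apply, Int.cast_sum, ← h1]
    refine sum_congr rfl fun t _ => ?_
    simp [hMb, hP]
  set Q : Matrix (Fin n) (Fin n) ℤ := Matrix.of fun i j => if j ∈ K then (M * P) i j / p else (M * P) i j
    with hQ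
  have hMP : M * P = Matrix.of fun i j => (if j ∈ K then (p : ℤ) else 1) * Q i j := by
    ext i j
    simp only [hQ, Matrix.of_apply]
    split_ifs with h
    · rw [Int.mul_ediv_cancel' (hdiv j h i)]
    · rw [one_mul]
  have hdet : M.det * P.det = (p : ℤ) ^ k * Q.det := by
    rw [← Matrix.det_mul, hMP, Matrix.det_mul_row, prod_ite_mem, univ_inter, prod_const, hKcard]
  have hcop : IsCoprime ((p : ℤ) ^ k) P.det := by
    apply IsCoprime.pow_left
    rw [(Nat.prime_iff_prime_int.mp hpF.out).coprime_iff_not_dvd]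
    rwa [Ne, ZMod.intCast_zmod_eq_zero_iff_dvd] at hPdet
  exact hcop.dvd_of_dvd_mul_right ⟨Q.det, hdet⟩

variable {l : ℕ} [hl : Fact l.Prime]

/-- **The Maillet matrix mod `p`**: at least half of the rows, chosen suitably, are independent. -/
theorem maillet_mod {n : ℕ} (hn : l = 2 * n + 1) (hn1 : 1 ≤ n) (hnp : n ^ 2 < p) (hlp : l ≠ p) :
    ∃ B ⊆ Icc 1 n, n ≤ 2 * B.card ∧ ∀ μ : ℕ → ZMod p,
      (∀ t : ZMod l, ∑ b ∈ B, μ b * ((sfun l ((b : ZMod l)⁻¹ * t) : ℤ) : ZMod p) = 0) →
        ∀ b ∈ B, μ b = 0 := by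
  classical
  have hl0 : (l : ZMod p) ≠ 0 := by
    rw [Ne, ZMod.natCast_eq_zero_iff]
    intro h
    exact hlp ((Nat.prime_dvd_prime_iff_eq hpF.out hl.out).mp h).symm
  set v : (Icc 1 n : Finset ℕ) → (ZMod l → ZMod p) :=
    fun b t => ((sfun l (((b : ℕ) : ZMod l)⁻¹ * t) : ℤ) : ZMod p) with hv
  set W := Submodule.span (ZMod p) (Set.range v) with hW
  -- all rows lie in `W`
  have hA : ∀ c : ZMod l, (fun t : ZMod l => ((sfun l (c * t) : ℤ) : ZMod p)) ∈ W := by
    intro c
    by_cases hc : c = 0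
    · have : (fun t : ZMod l => ((sfun l (c * t) : ℤ) : ZMod p)) = 0 := by
        ext t
        simp [hc, sfun_zero]
      rw [this]
      exact W.zero_mem
    · have hb0 : c⁻¹ ≠ 0 := inv_ne_zero hc
      have hne : NeZero c⁻¹ := ⟨hb0⟩
      have hvpos : 0 < (c⁻¹).val := by
        rcases Nat.eq_zero_or_pos (c⁻¹).val with h | h
        · exact absurd ((ZMod.val_eq_zero _).mp h) hb0
        · exact h
      have hvl := ZMod.val_lt c⁻¹
      rcases Nat.lt_or_ge n (c⁻¹).val with h | h
      · have h3 : (-c⁻¹).val = l - (c⁻¹).val := ZMod.val_neg_of_ne_zero _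
        have h4 : v ⟨(-c⁻¹).val, mem_Icc.mpr (by omega)⟩ ∈ W := Submodule.subset_span ⟨_, rfl⟩
        have h5 : (fun t : ZMod l => ((sfun l (c * t) : ℤ) : ZMod p)) =
            - v ⟨(-c⁻¹).val, mem_Icc.mpr (by omega)⟩ := by
          ext t
          simp only [hv, Pi.neg_apply]
          rw [ZMod.natCast_zmod_val, inv_neg, inv_inv, neg_mul, sfun_neg]
          push_cast
          ring
        rw [h5]
        exact W.neg_mem h4
      · have h4 : v ⟨(c⁻¹).val, mem_Icc.mpr (by omega)⟩ ∈ W := Submodule.subset_span ⟨_, rfl⟩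
        have h5 : (fun t : ZMod l => ((sfun l (c * t) : ℤ) : ZMod p)) =
            v ⟨(c⁻¹).val, mem_Icc.mpr (by omega)⟩ := by
          ext t
          simp only [hv]
          rw [ZMod.natCast_zmod_val, inv_inv]
        rw [h5]
        exact h4
  -- the restriction map
  set R : (ZMod l → ZMod p) →ₗ[ZMod p] (Fin n → ZMod p) :=
    LinearMap.funLeft (ZMod p) (ZMod p) (fun t : Fin n => (((t : ℕ) + 1 : ℕ) : ZMod l)) with hR
  set Eb : Matrix (Fin n) (Fin n) (ZMod p) := (Emat l n).map (Int.cast : ℤ → ZMod p) with hEb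
  have hrow : ∀ c : Fin n, Eb c ∈ Submodule.map R W := by
    intro c
    refine ⟨(l : ZMod p)⁻¹ • ((fun t : ZMod l => ((sfun l ((((c : ℕ) + 2 : ℕ) : ZMod l) * t) : ℤ) : ZMod p)) -
      (fun t : ZMod l => ((sfun l ((((c : ℕ) + 1 : ℕ) : ZMod l) * t) : ℤ) : ZMod p)) -
      (fun t : ZMod l => ((sfun l (1 * t) : ℤ) : ZMod p))),
      W.smul_mem _ (W.sub_mem (W.sub_mem (hA _) (hA _)) (hA _)), ?_⟩
    ext t
    have h1 := (Emat_spec hn c t).1
    have h2 := congrArg (Int.cast : ℤ → ZMod p) h1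
    simp only [hR, LinearMap.funLeft_apply, Pi.smul_apply, Pi.sub_apply, smul_eq_mul, one_mul, hEb,
      Matrix.map_apply]
    rw [Int.cast_mul, Int.cast_sub, Int.cast_sub, Int.cast_natCast] at h2
    rw [← h2, inv_mul_cancel_left₀ hl0]
  have hrank : Eb.rank ≤ Module.finrank (ZMod p) W := by
    rw [Matrix.rank_eq_finrank_span_row]
    have h1 : Submodule.span (ZMod p) (Set.range Eb.row) ≤ Submodule.map R W := by
      rw [Submodule.span_le]
      rintro _ ⟨c, rfl⟩
      exact hrow c
    exact (Submodule.finrank_mono h1).trans (Submodule.finrank_map_le R W)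
  -- the corank is at most `n / 2`
  have hrk : Eb.rank ≤ n := by
    have := Matrix.rank_le_width Eb
    simpa using this
  have hdvd : (p : ℤ) ^ (n - Eb.rank) ∣ (Emat l n).det := pow_dvd_det (Emat l n) (by
    rw [← hEb]; omega)
  have hdet0 := det_Emat_ne_zero hn hn1
  have hdetle : |(Emat l n).det| ≤ (n.factorial : ℤ) := by
    have h1 := Matrix.det_le (A := Emat l n) (abv := AbsoluteValue.abs) (x := 1)
      (fun i j => (Emat_spec hn i j).2)
    simpa using h1
  have hle : p ^ (n - Eb.rank) ≤ n ^ n := by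
    have h1 := Int.le_of_dvd (abs_pos.mpr hdet0) ((dvd_abs _ _).mpr hdvd)
    have h2 : ((p ^ (n - Eb.rank) : ℕ) : ℤ) ≤ ((n.factorial : ℕ) : ℤ) := by
      push_cast
      exact h1.trans hdetle
    exact (Int.ofNat_le.mp h2).trans (Nat.factorial_le_pow n)
  have hcorank : 2 * (n - Eb.rank) ≤ n := by
    by_contra hcon
    push Not at hcon
    rcases Nat.eq_or_lt_of_le hn1 with h1 | h1
    · have h2 : 2 ≤ p := hpF.out.two_le
      have h4 : 1 ≤ n - Eb.rank := by omega
      have h5 : p ^ 1 ≤ p ^ (n - Eb.rank) := Nat.pow_le_pow_right (by omega) h4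
      rw [pow_one] at h5
      have h6 : n ^ n = 1 := by rw [← h1, one_pow]
      omega
    · have h2 : n ^ (n + 1) ≤ n ^ (2 * (n - Eb.rank)) := Nat.pow_le_pow_right (by omega) (by omega)
      have h3 : n ^ (2 * (n - Eb.rank)) ≤ p ^ (n - Eb.rank) := by
        rw [pow_mul]
        exact Nat.pow_le_pow_left hnp.le _
      have h4 : n ^ n < n ^ (n + 1) := Nat.pow_lt_pow_right h1 (by omega)
      omega
  -- choose independent rows
  obtain ⟨κ, a, hainj, hspan, hli⟩ := exists_linearIndependent' (ZMod p) v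
  have hfinκ : Finite κ := Finite.of_injective a hainj
  have : Fintype κ := Fintype.ofFinite κ
  have hinj : Function.Injective (fun k : κ => ((a k : (Icc 1 n : Finset ℕ)) : ℕ)) :=
    fun x y h => hainj (Subtype.ext h)
  refine ⟨univ.image (fun k : κ => ((a k : (Icc 1 n : Finset ℕ)) : ℕ)), ?_, ?_, ?_⟩
  · intro b hb
    obtain ⟨k, -, rfl⟩ := mem_image.mp hb
    exact (a k).2
  · rw [card_image_of_injective _ hinj, card_univ]
    have h1 : Module.finrank (ZMod p) W = Fintype.card κ := by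
      rw [hW, ← hspan]
      exact finrank_span_eq_card hli
    omega
  · intro μ hμ b hb
    obtain ⟨k, -, rfl⟩ := mem_image.mp hb
    have h1 := (Fintype.linearIndependent_iff.mp hli) (fun k => μ (a k)) (by
      ext t
      have h2 := hμ t
      rw [sum_image (fun x _ y _ h => hinj h)] at h2
      rw [Finset.sum_apply, Pi.zero_apply, ← h2]
      refine sum_congr rfl fun k _ => ?_
      rfl)
    exact h1 k

end ModP

end Pool.Agent.Lib.MP_a3a416_nt
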