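import Pool.Agent.Lib.MP_a3a416_nt.BernoulliBound

/-!
The clean bound `|num B_{2k}| ≤ (2k)^(2k)`.
-/

open Finset Filter Topology

namespace Pool.Agent.Lib.MP_a3a416_nt

lemma sixteen_mul_factorial_le {n : ℕ} (hn : 6 ≤ n) : 16 * n.factorial ≤ n ^ n := by
  induction n, hn using Nat.le_induction with
  | base => decide
  | succ n hn ih =>
    rw [Nat.factorial_succ, pow_succ]
    have h1 : n ^ n ≤ (n + 1) ^ n := Nat.pow_le_pow_left (Nat.le_succ n) n
    calc 16 * ((n + 1) * n.factorial) = (16 * n.factorial) * (n + 1) := by ring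
      _ ≤ n ^ n * (n + 1) := Nat.mul_le_mul_right _ ih
      _ ≤ (n + 1) ^ n * (n + 1) := Nat.mul_le_mul_right _ h1

lemma bernoulli_num_le_pow {k : ℕ} (hk : k ≠ 0) :
    (bernoulli (2 * k)).num.natAbs ≤ (2 * k) ^ (2 * k) := by
  rcases lt_or_ge k 3 with h3 | h3
  · have h12 : k = 1 ∨ k = 2 := by omega
    rcases h12 with rfl | rfl
    · have : bernoulli (2 * 1) = 1 / 6 := by
        rw [bernoulli_eq_bernoulli'_of_ne_one (by norm_num), mul_one, bernoulli'_two]
      rw [this]
      norm_num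
    · have : bernoulli (2 * 2) = -1 / 30 := by
        rw [bernoulli_eq_bernoulli'_of_ne_one (by norm_num)]
        exact bernoulli'_four
      rw [this]
      norm_num
  · have h1 := bernoulli_num_le hk
    have h2 := sixteen_mul_factorial_le (show 6 ≤ 2 * k by omega)
    have h3 : (((bernoulli (2 * k)).num.natAbs : ℕ) : ℝ) ≤ ((2 * k) ^ (2 * k) : ℕ) :=
      h1.trans (by exact_mod_cast h2)
    exact_mod_cast h3

lemma log_bernoulli_num_le {k : ℕ} (hk : k ≠ 0) :
    Real.log ((bernoulli (2 * k)).num.natAbs : ℝ) ≤ 2 * k * Real.log (2 * k) := by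
  have h1 : (1 : ℝ) ≤ ((bernoulli (2 * k)).num.natAbs : ℝ) := by
    exact_mod_cast one_le_bernoulli_num k
  have h2 : ((bernoulli (2 * k)).num.natAbs : ℝ) ≤ (2 * k : ℝ) ^ (2 * k) := by
    exact_mod_cast bernoulli_num_le_pow hk
  have h3 := Real.log_le_log (by linarith) h2
  rw [Real.log_pow] at h3
  push_cast at h3
  exact h3

/-- Double counting over an arbitrary finite set `T` of indices. -/
lemma mul_sum_log_le' (S : Finset ℕ) (hS : ∀ p ∈ S, p.Prime) (T : Finset ℕ) (A : ℕ)
    (h : ∀ p ∈ S, A ≤ (T.filter (fun k => (p : ℤ) ∣ (bernoulli (2 * k)).num)).card) :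
    (A : ℝ) * ∑ p ∈ S, Real.log (p : ℝ) ≤
      ∑ k ∈ T, Real.log ((bernoulli (2 * k)).num.natAbs : ℝ) := by
  have h1 : ∀ k ∈ T, ∑ p ∈ S.filter (fun p : ℕ => (p : ℤ) ∣ (bernoulli (2 * k)).num),
      Real.log (p : ℝ) ≤ Real.log ((bernoulli (2 * k)).num.natAbs : ℝ) := by
    intro k _
    have hdvd : ∏ p ∈ S.filter (fun p : ℕ => (p : ℤ) ∣ (bernoulli (2 * k)).num), p ∣
        (bernoulli (2 * k)).num.natAbs := by
      apply Finset.prod_primes_dvd
      · intro p hp
        exact (hS p (mem_filter.mp hp).1).prime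
      · intro p hp
        exact Int.natCast_dvd.mp (mem_filter.mp hp).2
    have hle := Nat.le_of_dvd (one_le_bernoulli_num k) hdvd
    rw [← Real.log_prod]
    · apply Real.log_le_log
      · apply prod_pos
        intro p hp
        exact_mod_cast (hS p (mem_filter.mp hp).1).pos
      · have := (Nat.cast_le (α := ℝ)).mpr hle
        rwa [Nat.cast_prod] at this
    · intro p hp
      exact_mod_cast (hS p (mem_filter.mp hp).1).ne_zero
  refine le_trans ?_ (sum_le_sum h1)
  have h2 : ∑ k ∈ T, ∑ p ∈ S.filter (fun p : ℕ => (p : ℤ) ∣ (bernoulli (2 * k)).num),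
      Real.log (p : ℝ) = ∑ p ∈ S, ((T.filter
      (fun k => (p : ℤ) ∣ (bernoulli (2 * k)).num)).card : ℝ) * Real.log (p : ℝ) := by
    simp_rw [sum_filter]
    rw [sum_comm]
    refine sum_congr rfl fun p _ => ?_
    rw [← sum_filter, sum_const, nsmul_eq_mul]
  rw [h2, mul_sum]
  refine sum_le_sum fun p hp => ?_
  apply mul_le_mul_of_nonneg_right
  · exact_mod_cast h p hp
  · exact Real.log_nonneg (by exact_mod_cast (hS p hp).one_le)

end Pool.Agent.Lib.MP_a3a416_nt
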