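import Mathlib

/-!
Primes in arithmetic progressions: the limsup of `theta(N; q, a) / N` is at least `1 / phi(q)`.
-/

open Finset Filter Topology

namespace Pool.Agent.Lib.MP_a3a416_nt

/-- Abel summation bound for nonnegative sequences with linearly bounded partial sums. -/
lemma sum_div_rpow_le {f : ℕ → ℝ} (hf0 : f 0 = 0) {l C : ℝ}
    (h : ∀ n : ℕ, ∑ k ∈ range (n + 1), f k ≤ l * n + C) {s : ℝ} (hs : 1 < s) (N : ℕ) :
    ∑ k ∈ range (N + 2), f k / (k : ℝ) ^ s ≤
      l * ∑ k ∈ range (N + 2), 1 / (k : ℝ) ^ s + C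
        - (l * (N + 1 : ℕ) + C - ∑ k ∈ range (N + 2), f k) / ((N + 1 : ℕ) : ℝ) ^ s := by
  induction N with
  | zero =>
    have h0 : ((0 : ℕ) : ℝ) ^ s = 0 := by
      rw [Nat.cast_zero]; exact Real.zero_rpow (by linarith)
    simp only [zero_add, sum_range_succ, range_zero, sum_empty, hf0, h0, Nat.cast_one,
      Real.one_rpow, div_one, div_zero]
    linarith
  | succ N ih =>
    rw [sum_range_succ, sum_range_succ (fun k => 1 / (k : ℝ) ^ s) (N + 2),
      sum_range_succ f (N + 2)]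
    have hN := h (N + 1)
    have e : N + 1 + 1 = N + 2 := rfl
    rw [e] at *
    set F := ∑ k ∈ range (N + 2), f k with hF
    set w1 := ((N + 1 : ℕ) : ℝ) ^ s with hw1
    set w2 := ((N + 2 : ℕ) : ℝ) ^ s with hw2
    have hw1pos : 0 < w1 := Real.rpow_pos_of_pos (by positivity) _
    have hw12 : w1 ≤ w2 := by
      apply Real.rpow_le_rpow (by positivity) _ (by linarith)
      exact_mod_cast Nat.le_succ _
    have hw2pos : 0 < w2 := lt_of_lt_of_le hw1pos hw12
    have hnonneg : 0 ≤ l * (N + 1 : ℕ) + C - F := by linarith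
    have hcmp : (l * (N + 1 : ℕ) + C - F) / w2 ≤ (l * (N + 1 : ℕ) + C - F) / w1 :=
      div_le_div_of_nonneg_left hnonneg hw1pos hw12
    have key : (l * (N + 2 : ℕ) + C - (F + f (N + 2))) / w2
        = (l * (N + 1 : ℕ) + C - F) / w2 + l * (1 / w2) - f (N + 2) / w2 := by
      push_cast
      ring
    rw [key]
    have : l * (∑ k ∈ range (N + 2), 1 / (k : ℝ) ^ s + 1 / w2)
        = l * ∑ k ∈ range (N + 2), 1 / (k : ℝ) ^ s + l * (1 / w2) := by ring
    rw [this]
    linarith

lemma tsum_div_rpow_le {f : ℕ → ℝ} (hf : ∀ n, 0 ≤ f n) (hf0 : f 0 = 0) {l C : ℝ}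
    (hl : 0 ≤ l) (h : ∀ n : ℕ, ∑ k ∈ range (n + 1), f k ≤ l * n + C) {s : ℝ} (hs : 1 < s) :
    Summable (fun k : ℕ => f k / (k : ℝ) ^ s) ∧
    ∑' k : ℕ, f k / (k : ℝ) ^ s ≤ l * ∑' k : ℕ, 1 / (k : ℝ) ^ s + C := by
  have hsum : Summable (fun k : ℕ => 1 / (k : ℝ) ^ s) := by
    simpa using Real.summable_one_div_nat_rpow.mpr hs
  have hnn : ∀ k : ℕ, 0 ≤ f k / (k : ℝ) ^ s := fun k =>
    div_nonneg (hf k) (Real.rpow_nonneg (Nat.cast_nonneg _) _)
  have hb : ∀ N : ℕ, ∑ k ∈ range N, f k / (k : ℝ) ^ s ≤ l * ∑' k : ℕ, 1 / (k : ℝ) ^ s + C := by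
    intro N
    have h1 : ∑ k ∈ range N, f k / (k : ℝ) ^ s ≤ ∑ k ∈ range (N + 2), f k / (k : ℝ) ^ s :=
      sum_le_sum_of_subset_of_nonneg (range_subset_range.mpr (by omega)) (fun k _ _ => hnn k)
    have h2 := sum_div_rpow_le hf0 h hs N
    have h3 : ∑ k ∈ range (N + 2), 1 / (k : ℝ) ^ s ≤ ∑' k : ℕ, 1 / (k : ℝ) ^ s :=
      hsum.sum_le_tsum _ (fun k _ => by positivity)
    have h4 : 0 ≤ (l * (N + 1 : ℕ) + C - ∑ k ∈ range (N + 2), f k) / ((N + 1 : ℕ) : ℝ) ^ s := by
      apply div_nonneg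
      · have := h (N + 1)
        have e : N + 1 + 1 = N + 2 := rfl
        rw [e] at this
        linarith
      · positivity
    have h5 := mul_le_mul_of_nonneg_left h3 hl
    linarith
  refine ⟨summable_of_sum_range_le hnn hb, ?_⟩
  exact Real.tsum_le_of_sum_range_le hnn hb

open ArithmeticFunction ArithmeticFunction.vonMangoldt in
/-- If the log-weighted count of the primes in a reduced residue class `a` mod `q` is bounded by
`l * n + C` for all `n`, then `l ≥ 1 / phi(q)`. -/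
theorem inv_totient_le_of_theta_le {q : ℕ} [NeZero q] {a : ZMod q} (ha : IsUnit a) {l C : ℝ}
    (hl : 0 ≤ l)
    (h : ∀ n : ℕ, ∑ p ∈ (range (n + 1)).filter (fun p : ℕ => p.Prime ∧ (p : ZMod q) = a),
      Real.log (p : ℝ) ≤ l * n + C) :
    (q.totient : ℝ)⁻¹ ≤ l := by
  set f : ℕ → ℝ := fun n => if n.Prime then residueClass a n else 0 with hfdef
  set g : ℕ → ℝ := fun n => if n.Prime then 0 else residueClass a n with hgdef
  have hfg : ∀ n, residueClass a n = f n + g n := by
    intro n; by_cases hn : n.Prime <;> simp [hfdef, hgdef, hn]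
  have hf : ∀ n, 0 ≤ f n := by
    intro n; simp only [hfdef]; split_ifs
    · exact residueClass_nonneg a n
    · exact le_rfl
  have hg : ∀ n, 0 ≤ g n := by
    intro n; simp only [hgdef]; split_ifs
    · exact le_rfl
    · exact residueClass_nonneg a n
  have hf0 : f 0 = 0 := by simp [hfdef]
  have hpart : ∀ n : ℕ, ∑ k ∈ range (n + 1), f k ≤ l * n + C := by
    intro n
    refine le_trans (le_of_eq ?_) (h n)
    rw [sum_filter]
    refine sum_congr rfl fun k _ => ?_
    by_cases hk : k.Prime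
    · by_cases hka : (k : ZMod q) = a
      · simp only [hfdef, hk, hka, if_true, and_self]
        rw [show residueClass a k = vonMangoldt k from Set.indicator_of_mem (by simpa using hka) _,
          ArithmeticFunction.vonMangoldt_apply_prime hk]
      · simp only [hfdef, hk, hka, if_true, and_false, if_false]
        exact Set.indicator_of_notMem (by simpa using hka) _
    · simp [hfdef, hk]
  have hgs := summable_residueClass_non_primes_div a
  obtain ⟨C', hC'⟩ := LSeries_residueClass_lower_bound ha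
  set D := ∑' n : ℕ, g n / n with hD
  -- for all s in (1,2]: 1/phi/(s-1) - C' ≤ l * zeta(s) + C + D
  have key : ∀ s : ℝ, s ∈ Set.Ioc (1 : ℝ) 2 →
      (q.totient : ℝ)⁻¹ ≤ l * ((s - 1) * ∑' k : ℕ, 1 / (k : ℝ) ^ s) + (C + D + C') * (s - 1) := by
    intro s hs
    have hs1 : 0 < s - 1 := sub_pos.mpr hs.1
    obtain ⟨hsf, hbf⟩ := tsum_div_rpow_le hf hf0 hl hpart hs.1
    have hglt : ∀ n : ℕ, g n / (n : ℝ) ^ s ≤ g n / n := by
      intro n
      rcases n.eq_zero_or_pos with rfl | hn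
      · simp [hgdef]
      · refine div_le_div_of_nonneg_left (hg n) (mod_cast hn) ?_
        conv_lhs => rw [← Real.rpow_one n]
        exact Real.rpow_le_rpow_of_exponent_le (by exact_mod_cast hn) hs.1.le
    have hgs' : Summable (fun n : ℕ => g n / (n : ℝ) ^ s) :=
      Summable.of_nonneg_of_le (fun n => div_nonneg (hg n) (by positivity)) hglt hgs
    have hsplit : ∑' n : ℕ, residueClass a n / (n : ℝ) ^ s
        = ∑' n : ℕ, f n / (n : ℝ) ^ s + ∑' n : ℕ, g n / (n : ℝ) ^ s := by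
      rw [← hsf.tsum_add hgs']
      refine tsum_congr fun n => ?_
      rw [hfg n, add_div]
    have hgD : ∑' n : ℕ, g n / (n : ℝ) ^ s ≤ D := hgs'.tsum_le_tsum hglt hgs
    have hlow := hC' hs
    rw [hsplit] at hlow
    have h1 : (q.totient : ℝ)⁻¹ / (s - 1) ≤ l * ∑' k : ℕ, 1 / (k : ℝ) ^ s + C + D + C' := by
      linarith
    rw [div_le_iff₀ hs1] at h1
    refine h1.trans (le_of_eq ?_)
    ring
  have htend : Tendsto (fun s : ℝ => l * ((s - 1) * ∑' k : ℕ, 1 / (k : ℝ) ^ s)
      + (C + D + C') * (s - 1)) (𝓝[>] 1) (𝓝 (l * 1 + (C + D + C') * (1 - 1))) := by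
    refine (tendsto_sub_mul_tsum_nat_rpow.const_mul l).add ?_
    refine Tendsto.const_mul _ ?_
    exact tendsto_nhdsWithin_of_tendsto_nhds
      ((continuous_id.sub continuous_const).tendsto' _ _ (by simp))
  rw [mul_one, sub_self, mul_zero, add_zero] at htend
  refine ge_of_tendsto htend ?_
  filter_upwards [Ioc_mem_nhdsGT (show (1 : ℝ) < 2 by norm_num)] with s hs
  exact key s hs

end Pool.Agent.Lib.MP_a3a416_nt
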