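import Pool.Agent.Lib.MP_a3a416_nt.SumsetDim

/-!
Runs of irregular indices are short: the powers `(x / (e^{2x} - 1))^k e^{a x}`, `0 ≤ a ≤ 2k`, satisfy
linear relations with the derivatives of `1 / (e^{2x} - 1)` and `1 / (e^x - 1)`; so a run of
irregular indices gives zeros of high multiplicity of a polynomial over `ZMod p` (a Bernoulli
polynomial of order `k`), which has too small a degree if the run is long.
-/

open Finset

namespace Pool.Agent.Lib.MP_a3a416_nt

section Series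

open PowerSeries

variable {p : ℕ} [hpF : Fact p.Prime]

lemma coeff_X_mul_derivative (φ : (ZMod p)⟦X⟧) (n : ℕ) :
    coeff n (X * d⁄dX (ZMod p) φ) = (n : ZMod p) * coeff n φ := by
  cases n with
  | zero => simp
  | succ n =>
    rw [coeff_succ_X_mul, coeff_derivative]
    push_cast
    ring

/-- `(e^{2x} - 1) / x` -/
noncomputable def UU (p : ℕ) [Fact p.Prime] : (ZMod p)⟦X⟧ :=
  PowerSeries.mk fun n => coeff (n + 1) (EE p ^ 2)

lemma EE_constantCoeff : constantCoeff (EE p) = 1 := by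
  rw [← coeff_zero_eq_constantCoeff_apply, EE, coeff_mk]
  simp

lemma X_mul_UU : X * UU p = EE p ^ 2 - 1 := by
  ext n
  cases n with
  | zero =>
    rw [coeff_zero_X_mul, map_sub, coeff_zero_eq_constantCoeff_apply,
      coeff_zero_eq_constantCoeff_apply, map_pow, EE_constantCoeff]
    simp
  | succ n =>
    rw [coeff_succ_X_mul, UU, coeff_mk, map_sub, coeff_one, if_neg (by omega), sub_zero]

lemma UU_constantCoeff : constantCoeff (UU p) = 2 := by
  rw [← coeff_zero_eq_constantCoeff_apply, UU, coeff_mk, sq, coeff_mul,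
    Nat.sum_antidiagonal_eq_sum_range_succ_mk]
  simp [sum_range_succ, EE]
  norm_num

lemma two_ne_zero' (hp5 : 5 ≤ p) : (2 : ZMod p) ≠ 0 := by
  have h : ((2 : ℕ) : ZMod p) ≠ 0 := by
    rw [Ne, ZMod.natCast_eq_zero_iff]
    intro h
    have := Nat.le_of_dvd (by norm_num) h
    omega
  exact_mod_cast h

/-- `x / (e^{2x} - 1)` -/
noncomputable def WW (p : ℕ) [Fact p.Prime] : (ZMod p)⟦X⟧ := (UU p)⁻¹

lemma WW_mul_UU (hp5 : 5 ≤ p) : WW p * UU p = 1 := by
  rw [WW, PowerSeries.inv_mul_cancel]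
  rw [UU_constantCoeff]
  exact two_ne_zero' hp5

lemma WW_rel (hp5 : 5 ≤ p) : WW p * (EE p ^ 2 - 1) = X := by
  rw [← X_mul_UU, mul_left_comm, WW_mul_UU hp5, mul_one]

lemma WW_constantCoeff (hp5 : 5 ≤ p) : constantCoeff (WW p) ≠ 0 := by
  intro h
  have h1 := congrArg constantCoeff (WW_mul_UU (p := p) hp5)
  rw [map_mul, h, zero_mul, map_one] at h1
  exact zero_ne_one h1

lemma derivative_EE : (X ^ (p - 1) : (ZMod p)⟦X⟧) ∣ d⁄dX (ZMod p) (EE p) - EE p := by
  rw [X_pow_dvd_iff]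
  intro m hm
  rw [map_sub, coeff_derivative, EE, coeff_mk, coeff_mk, sub_eq_zero, Nat.factorial_succ]
  have h1 : ((m + 1 : ℕ) : ZMod p) ≠ 0 := by
    rw [Ne, ZMod.natCast_eq_zero_iff]
    intro h
    have := Nat.le_of_dvd (by omega) h
    omega
  have h2 : ((m.factorial : ℕ) : ZMod p) ≠ 0 := fac_ne_zero (by omega)
  push_cast at h1 ⊢
  field_simp

lemma derivative_EE_pow (a : ℕ) :
    (X ^ (p - 1) : (ZMod p)⟦X⟧) ∣ d⁄dX (ZMod p) (EE p ^ a) - (a : (ZMod p)⟦X⟧) * EE p ^ a := by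
  induction a with
  | zero => simp
  | succ a ih =>
    have h1 := derivative_EE (p := p)
    have h2 := dvd_add (h1.mul_left (EE p ^ a)) (ih.mul_left (EE p))
    refine h2.trans (dvd_of_eq ?_)
    rw [pow_succ, Derivation.leibniz, smul_eq_mul, smul_eq_mul]
    push_cast
    ring

lemma derivative_WW (hp5 : 5 ≤ p) :
    (X ^ (p - 1) : (ZMod p)⟦X⟧) ∣
      X * d⁄dX (ZMod p) (WW p) - (WW p - 2 * EE p ^ 2 * WW p ^ 2) := by
  have h1 := congrArg (d⁄dX (ZMod p)) (WW_rel (p := p) hp5)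
  rw [derivative_X, Derivation.leibniz, smul_eq_mul, smul_eq_mul, map_sub, derivative_one,
    sub_zero] at h1
  have h2 := (derivative_EE_pow (p := p) 2).mul_left (- WW p ^ 2)
  refine h2.trans (dvd_of_eq ?_)
  have h3 := WW_rel (p := p) hp5
  push_cast
  linear_combination (-WW p) * h1 + (d⁄dX (ZMod p) (WW p)) * h3

lemma derivative_WW_pow (hp5 : 5 ≤ p) (k : ℕ) :
    (X ^ (p - 1) : (ZMod p)⟦X⟧) ∣
      X * d⁄dX (ZMod p) (WW p ^ k) - (k : (ZMod p)⟦X⟧) * (WW p ^ k - 2 * EE p ^ 2 * WW p ^ (k + 1)) := by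
  induction k with
  | zero => simp
  | succ k ih =>
    have h1 := derivative_WW (p := p) hp5
    have h2 := dvd_add (h1.mul_left (WW p ^ k)) (ih.mul_left (WW p))
    refine h2.trans (dvd_of_eq ?_)
    rw [pow_succ (WW p) k, Derivation.leibniz, smul_eq_mul, smul_eq_mul]
    push_cast
    ring

lemma derivative_FF (hp5 : 5 ≤ p) (k a : ℕ) :
    (X ^ (p - 1) : (ZMod p)⟦X⟧) ∣
      X * d⁄dX (ZMod p) (WW p ^ k * EE p ^ a) - ((k : (ZMod p)⟦X⟧) * (WW p ^ k * EE p ^ a)
        - 2 * (k : (ZMod p)⟦X⟧) * (WW p ^ (k + 1) * EE p ^ (a + 2))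
        + (a : (ZMod p)⟦X⟧) * (X * (WW p ^ k * EE p ^ a))) := by
  have h1 := (derivative_WW_pow (p := p) hp5 k).mul_left (EE p ^ a)
  have h2 := (derivative_EE_pow (p := p) a).mul_left (X * WW p ^ k)
  refine (dvd_add h1 h2).trans (dvd_of_eq ?_)
  rw [Derivation.leibniz, smul_eq_mul, smul_eq_mul]
  ring

lemma coeff_FF_succ (hp5 : 5 ≤ p) (k a N : ℕ) (hN : N + 3 ≤ p) :
    2 * (k : ZMod p) * coeff (N + 1) (WW p ^ (k + 1) * EE p ^ (a + 2)) =
      ((k : ZMod p) - (N + 1 : ℕ)) * coeff (N + 1) (WW p ^ k * EE p ^ a)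
        + (a : ZMod p) * coeff N (WW p ^ k * EE p ^ a) := by
  have h := derivative_FF (p := p) hp5 k a
  rw [X_pow_dvd_iff] at h
  have h1 := h (N + 1) (by omega)
  have e : ∀ (c : ℕ) (φ : (ZMod p)⟦X⟧), coeff (N + 1) ((c : (ZMod p)⟦X⟧) * φ) =
      (c : ZMod p) * coeff (N + 1) φ := by
    intro c φ
    rw [show (c : (ZMod p)⟦X⟧) = C (c : ZMod p) from (map_natCast C c).symm, coeff_C_mul]
  have e2 : ((2 : (ZMod p)⟦X⟧) * (k : (ZMod p)⟦X⟧)) = ((2 * k : ℕ) : (ZMod p)⟦X⟧) := by push_cast; ring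
  rw [map_sub, map_add, map_sub, coeff_X_mul_derivative, e2, e, e, e, coeff_succ_X_mul] at h1
  push_cast at h1 ⊢
  linear_combination h1

lemma coeff_FF_shift (hp5 : 5 ≤ p) (k b N : ℕ) :
    coeff (N + 1) (WW p ^ (k + 1) * EE p ^ b) =
      coeff (N + 1) (WW p ^ (k + 1) * EE p ^ (b + 2)) - coeff N (WW p ^ k * EE p ^ b) := by
  have h : WW p ^ (k + 1) * EE p ^ (b + 2) = WW p ^ (k + 1) * EE p ^ b + X * (WW p ^ k * EE p ^ b) := by
    have := WW_rel (p := p) hp5
    linear_combination (WW p ^ k * EE p ^ b) * this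
  rw [h, map_add, coeff_succ_X_mul]
  ring

/-- the constant `D` -/
lemma primorial_ne_zero : (primorial (p - 1) : ZMod p) ≠ 0 := by
  rw [Ne, ZMod.natCast_eq_zero_iff]
  exact not_dvd_primorial hpF.out

lemma WW_base_zero (hp5 : 5 ≤ p) :
    (X ^ (p - 1) : (ZMod p)⟦X⟧) ∣
      rescale (2 : ZMod p) (BB p) - C (2 * (primorial (p - 1) : ZMod p)) * WW p := by
  have h1 := rescale_dvd (a := (2 : ZMod p)) (BB_rel (p := p) hp5)
  have h2 := (rescale_EE_natCast (p := p) 2).mul_left (rescale (2 : ZMod p) (BB p))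
  rw [map_sub, map_mul, map_sub, map_one, map_mul, rescale_X] at h1
  have e2 : rescale (2 : ZMod p) (C (primorial (p - 1) : ZMod p)) =
      C (primorial (p - 1) : ZMod p) := by
    ext n
    rw [coeff_rescale, coeff_C]
    split_ifs with h
    · subst h; simp
    · simp
  rw [e2] at h1
  have h3 := ((dvd_sub h1 h2).mul_right (WW p))
  have e3 : (X ^ p : (ZMod p)⟦X⟧) = X * X ^ (p - 1) := by
    rw [← pow_succ']
    congr 1
    omega
  rw [e3] at h3
  rw [← mul_dvd_mul_iff_left (X_ne_zero (R := ZMod p))]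
  refine h3.trans (dvd_of_eq ?_)
  have := WW_rel (p := p) hp5
  rw [map_mul]
  push_cast
  linear_combination (rescale (2 : ZMod p) (BB p)) * this

lemma WW_base_one (hp5 : 5 ≤ p) :
    (X ^ (p - 1) : (ZMod p)⟦X⟧) ∣
      BB p - C (primorial (p - 1) : ZMod p) * (WW p * EE p + WW p) := by
  have h1 := ((BB_rel (p := p) hp5).mul_right ((EE p + 1) * WW p))
  have e3 : (X ^ p : (ZMod p)⟦X⟧) = X * X ^ (p - 1) := by
    rw [← pow_succ']
    congr 1
    omega
  rw [e3] at h1
  rw [← mul_dvd_mul_iff_left (X_ne_zero (R := ZMod p))]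
  refine h1.trans (dvd_of_eq ?_)
  have := WW_rel (p := p) hp5
  linear_combination (BB p) * this

lemma base_vanish (hp5 : 5 ≤ p) {N : ℕ} (hN2 : 2 ≤ N) (hNp : N + 2 ≤ p)
    (h0 : (cB p N : ZMod p) = 0) (a : ℕ) (ha : a ≤ 2) :
    coeff N (WW p ^ 1 * EE p ^ a) = 0 := by
  have hD := primorial_ne_zero (p := p)
  have hBB : coeff N (BB p) = 0 := by
    rw [BB, coeff_mk, if_pos hNp, h0, zero_mul]
  have hW : coeff N (WW p) = 0 := by
    have h1 := WW_base_zero (p := p) hp5
    rw [X_pow_dvd_iff] at h1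
    have h2 := h1 N (by omega)
    rw [map_sub, coeff_rescale, hBB, mul_zero, zero_sub, neg_eq_zero, coeff_C_mul] at h2
    rcases mul_eq_zero.mp h2 with h3 | h3
    · exact absurd h3 (mul_ne_zero (two_ne_zero' hp5) hD)
    · exact h3
  interval_cases a
  · rw [pow_one, pow_zero, mul_one]; exact hW
  · have h1 := WW_base_one (p := p) hp5
    rw [X_pow_dvd_iff] at h1
    have h2 := h1 N (by omega)
    rw [map_sub, hBB, zero_sub, neg_eq_zero, coeff_C_mul, map_add, hW, add_zero] at h2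
    rcases mul_eq_zero.mp h2 with h3 | h3
    · exact absurd h3 hD
    · rw [pow_one, pow_one]; exact h3
  · have h : WW p ^ 1 * EE p ^ 2 = WW p + X := by
      have := WW_rel (p := p) hp5
      linear_combination this
    rw [h, map_add, hW, coeff_X, if_neg (by omega), add_zero]

/-- If `B_n = 0` mod `p` for `N - k < n ≤ N`, then the coefficients of `x^N` in
`(x / (e^{2x} - 1))^k e^{a x}` vanish for `0 ≤ a ≤ 2 k`. -/
lemma vanish (hp5 : 5 ≤ p) (k : ℕ) : ∀ N : ℕ, k + 2 ≤ N → N + 2 ≤ p →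
    (∀ n, N < n + (k + 1) → n ≤ N → (cB p n : ZMod p) = 0) →
    ∀ a ≤ 2 * (k + 1), coeff N (WW p ^ (k + 1) * EE p ^ a) = 0 := by
  induction k with
  | zero =>
    intro N hN hNp h a ha
    exact base_vanish hp5 (by omega) hNp (h N (by omega) le_rfl) a (by omega)
  | succ k ih =>
    intro N hN hNp h
    obtain ⟨N, rfl⟩ : ∃ N', N = N' + 1 := ⟨N - 1, by omega⟩
    have h1 : ∀ a ≤ 2 * (k + 1), coeff (N + 1) (WW p ^ (k + 1) * EE p ^ a) = 0 :=
      ih (N + 1) (by omega) hNp fun n hn hn' => h n (by omega) hn'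
    have h2 : ∀ a ≤ 2 * (k + 1), coeff N (WW p ^ (k + 1) * EE p ^ a) = 0 :=
      ih N (by omega) (by omega) fun n hn hn' => h n (by omega) (by omega)
    have hk : 2 * ((k + 1 : ℕ) : ZMod p) ≠ 0 := by
      refine mul_ne_zero (two_ne_zero' hp5) ?_
      rw [Ne, ZMod.natCast_eq_zero_iff]
      intro h
      have := Nat.le_of_dvd (by omega) h
      omega
    have h3 : ∀ a ≤ 2 * (k + 1), coeff (N + 1) (WW p ^ (k + 2) * EE p ^ (a + 2)) = 0 := by
      intro a ha
      have := coeff_FF_succ (p := p) hp5 (k + 1) a N (by omega)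
      rw [h1 a ha, h2 a ha, mul_zero, mul_zero, add_zero] at this
      exact (mul_eq_zero.mp this).resolve_left hk
    intro a ha
    rcases Nat.lt_or_ge a 2 with ha2 | ha2
    · have := coeff_FF_shift (p := p) hp5 (k + 1) a N
      rw [show k + 1 + 1 = k + 2 from rfl] at this ⊢
      rw [this, h3 a (by omega), h2 a (by omega), sub_zero]
    · obtain ⟨a, rfl⟩ : ∃ a', a = a' + 2 := ⟨a - 2, by omega⟩
      exact h3 a (by omega)

end Series

section Poly

open Polynomial

variable {p : ℕ} [hpF : Fact p.Prime]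

/-- The polynomial with generating function `(x / (e^{2x} - 1))^k e^{y x}`. -/
noncomputable def QQ (p : ℕ) [Fact p.Prime] (k N : ℕ) : (ZMod p)[X] :=
  ∑ j ∈ range (N + 1), C (PowerSeries.coeff (N - j) (WW p ^ k) * ((j.factorial : ZMod p))⁻¹) * X ^ j

lemma QQ_coeff (k N j : ℕ) : (QQ p k N).coeff j =
    if j ≤ N then PowerSeries.coeff (N - j) (WW p ^ k) * ((j.factorial : ZMod p))⁻¹ else 0 := by
  unfold QQ
  rw [finsetSum_coeff]
  simp only [coeff_C_mul, coeff_X_pow, mul_ite, mul_one, mul_zero]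
  rw [sum_ite_eq]
  simp only [mem_range, Nat.lt_succ_iff]

lemma QQ_derivative (k N : ℕ) (hN : N + 1 < p) : derivative (QQ p k (N + 1)) = QQ p k N := by
  ext j
  rw [coeff_derivative, QQ_coeff, QQ_coeff]
  by_cases hj : j ≤ N
  · rw [if_pos (by omega), if_pos hj, Nat.add_sub_add_right, Nat.factorial_succ]
    have h1 : ((j + 1 : ℕ) : ZMod p) ≠ 0 := by
      rw [Ne, ZMod.natCast_eq_zero_iff]
      intro h
      have := Nat.le_of_dvd (by omega) h
      omega
    have h2 : ((j.factorial : ℕ) : ZMod p) ≠ 0 := fac_ne_zero (by omega)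
    push_cast at h1 ⊢
    field_simp
  · rw [if_neg (by omega), if_neg hj, zero_mul]

lemma QQ_iterate_derivative (k i N : ℕ) (hN : N + i < p) :
    derivative^[i] (QQ p k (N + i)) = QQ p k N := by
  induction i with
  | zero => rfl
  | succ i ih =>
    rw [Function.iterate_succ_apply, ← add_assoc, QQ_derivative k (N + i) (by omega)]
    exact ih (by omega)

lemma QQ_eval (k N a : ℕ) (hN : N < p) :
    (QQ p k N).eval (a : ZMod p) = PowerSeries.coeff N (WW p ^ k * EE p ^ a) := by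
  have h1 := (rescale_EE_natCast (p := p) a).mul_left (WW p ^ k)
  rw [PowerSeries.X_pow_dvd_iff] at h1
  have h2 := h1 N hN
  rw [mul_sub, map_sub, sub_eq_zero] at h2
  rw [← h2, PowerSeries.coeff_mul, ← Finset.Nat.sum_antidiagonal_swap,
    Nat.sum_antidiagonal_eq_sum_range_succ_mk]
  unfold QQ
  rw [eval_finsetSum]
  refine sum_congr rfl fun j hj => ?_
  simp only [Prod.swap]
  rw [eval_mul, eval_C, eval_pow, eval_X, PowerSeries.coeff_rescale, EE, PowerSeries.coeff_mk]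
  ring

lemma QQ_ne_zero (hp5 : 5 ≤ p) (k N : ℕ) (hN : N < p) : QQ p k N ≠ 0 := by
  intro h
  have h1 : (QQ p k N).coeff N = 0 := by rw [h, coeff_zero]
  rw [QQ_coeff, if_pos le_rfl, Nat.sub_self, PowerSeries.coeff_zero_eq_constantCoeff_apply,
    map_pow] at h1
  rcases mul_eq_zero.mp h1 with h2 | h2
  · exact pow_ne_zero k (WW_constantCoeff hp5) h2
  · exact inv_ne_zero (fac_ne_zero hN) h2

lemma QQ_natDegree_le (k N : ℕ) : (QQ p k N).natDegree ≤ N := by
  rw [natDegree_le_iff_coeff_eq_zero]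
  intro j hj
  rw [QQ_coeff, if_neg (by omega)]

/-- If `B_n = 0` mod `p` for the `k + m` consecutive numbers `n ≤ N` ending at `N`, then
`(2k+1)(m+1) ≤ N`. -/
theorem run_bound (hp5 : 5 ≤ p) (k m N : ℕ) (hk : 1 ≤ k) (h2k : 2 * k < p) (hN : k + m + 1 ≤ N)
    (hNp : N + 2 ≤ p) (h : ∀ n, N < n + (k + m) → n ≤ N → (p : ℤ) ∣ cB p n) :
    (2 * k + 1) * (m + 1) ≤ N := by
  classical
  have hne := QQ_ne_zero (p := p) hp5 k N (by omega)
  have hz : ∀ n, N < n + (k + m) → n ≤ N → (cB p n : ZMod p) = 0 := by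
    intro n h1 h2
    rw [ZMod.intCast_zmod_eq_zero_iff_dvd]
    exact h n h1 h2
  obtain ⟨k', rfl⟩ : ∃ k', k = k' + 1 := ⟨k - 1, by omega⟩
  have hroot : ∀ a ≤ 2 * (k' + 1), m + 1 ≤ (QQ p (k' + 1) N).rootMultiplicity (a : ZMod p) := by
    intro a ha
    refine Polynomial.lt_rootMultiplicity_of_isRoot_iterate_derivative_of_mem_nonZeroDivisors hne ?_ ?_
    · intro i hi
      obtain ⟨N', rfl⟩ : ∃ N', N = N' + i := ⟨N - i, by omega⟩
      rw [QQ_iterate_derivative _ _ _ (by omega), IsRoot.def, QQ_eval _ _ _ (by omega)]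
      exact vanish hp5 k' N' (by omega) (by omega)
        (fun n hn hn' => hz n (by omega) (by omega)) a ha
    · rw [mem_nonZeroDivisors_iff_ne_zero]
      exact fac_ne_zero (by omega)
  have hinj : Set.InjOn (fun a : ℕ => (a : ZMod p)) (range (2 * (k' + 1) + 1) : Finset ℕ) := by
    intro a ha b hb hab
    rw [Finset.mem_coe, mem_range] at ha hb
    simp only at hab
    rw [ZMod.natCast_eq_natCast_iff'] at hab
    rwa [Nat.mod_eq_of_lt (by omega), Nat.mod_eq_of_lt (by omega)] at hab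
  have hsum : ∑ a ∈ range (2 * (k' + 1) + 1), (QQ p (k' + 1) N).rootMultiplicity (a : ZMod p) ≤ N := by
    have h1 : ∑ a ∈ range (2 * (k' + 1) + 1), (QQ p (k' + 1) N).rootMultiplicity (a : ZMod p) =
        ∑ x ∈ (range (2 * (k' + 1) + 1)).image (fun a : ℕ => (a : ZMod p)),
          (QQ p (k' + 1) N).rootMultiplicity x := by
      rw [sum_image hinj]
    rw [h1]
    have h2 : ∑ x ∈ (range (2 * (k' + 1) + 1)).image (fun a : ℕ => (a : ZMod p)),
          (QQ p (k' + 1) N).rootMultiplicity x ≤ Multiset.card (QQ p (k' + 1) N).roots := by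
      simp_rw [← count_roots]
      rw [← Multiset.toFinset_sum_count_eq]
      refine sum_le_sum_of_subset ?_
      intro x hx
      rw [mem_image] at hx
      obtain ⟨a, ha, rfl⟩ := hx
      rw [mem_range] at ha
      rw [Multiset.mem_toFinset, ← Multiset.count_pos, count_roots]
      have := hroot a (by omega)
      omega
    exact h2.trans ((card_roots' _).trans (QQ_natDegree_le _ _))
  have hsum2 : ∑ a ∈ range (2 * (k' + 1) + 1), (m + 1) ≤
      ∑ a ∈ range (2 * (k' + 1) + 1), (QQ p (k' + 1) N).rootMultiplicity (a : ZMod p) :=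
    sum_le_sum fun a ha => hroot a (by rw [mem_range] at ha; omega)
  rw [sum_const, card_range, smul_eq_mul] at hsum2
  exact hsum2.trans hsum

/-- **Runs of irregular indices.** -/
theorem irregular_run (hp5 : 5 ≤ p) {K L : ℕ} (hL : 1 ≤ L) (hp : 2 * (K + L) + 3 ≤ p)
    (h : ∀ j, K < j → j ≤ K + L → (p : ℤ) ∣ (_root_.bernoulli (2 * j)).num) :
    (L + 1) * (2 * L + 1) < 2 * K := by
  rcases Nat.eq_zero_or_pos K with rfl | hK
  · exact absurd (h 1 (by omega) (by omega)) (not_dvd_bernoulli_two hp5)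
  have key := run_bound (p := p) hp5 (L + 1) L (2 * K + 2 * L + 1) (by omega) (by omega) (by omega)
    (by omega) (by
      intro n h1 h2
      rcases Nat.even_or_odd' n with ⟨j, hj | hj⟩
      · rw [dvd_cB_iff hpF.out hp5 (by omega), hj]
        exact h j (by omega) (by omega)
      · rw [cB_odd hp5 (by omega) ⟨j, hj⟩ (by omega)]
        exact dvd_zero _)
  nlinarith

end Poly

end Pool.Agent.Lib.MP_a3a416_nt
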