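import Mathlib

/-!
A lower bound for the number of terms of a polynomial satisfying the three-term relation of period
polynomials, valid in characteristic `0` and in characteristic larger than the degree. The proof
uses Wronskians of the functions `X^a (1+X)^b`.
-/

open Polynomial Finset

namespace Pool.Agent.Lib.MP_a3a416_nt

section Wronskian

variable {F : Type*} [Field F]

/-- The derivation `X (1 + X) d/dX`. -/
noncomputable def th (F : Type*) [Field F] : F[X] →ₗ[F] F[X] :=
  (LinearMap.mulLeft F (X * (1 + X))).comp (Polynomial.derivative)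

lemma th_apply (f : F[X]) : th F f = X * (1 + X) * derivative f := rfl

lemma th_mul (f g : F[X]) : th F (f * g) = th F f * g + f * th F g := by
  simp only [th_apply, derivative_mul]; ring

lemma th_natDegree_le {f : F[X]} {d : ℕ} (hf : f.natDegree ≤ d) : (th F f).natDegree ≤ d + 1 := by
  rw [th_apply]
  rcases Nat.eq_zero_or_pos d with h | h
  · have : f.natDegree = 0 := by omega
    rw [natDegree_eq_zero] at this
    obtain ⟨c, rfl⟩ := this
    simp
  · refine natDegree_mul_le.trans ?_
    have h1 : (X * (1 + X) : F[X]).natDegree ≤ 2 := by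
      refine natDegree_mul_le.trans ?_
      have : (1 + X : F[X]).natDegree ≤ 1 := by
        refine (natDegree_add_le _ _).trans ?_
        simp
      have h2 : (X : F[X]).natDegree ≤ 1 := natDegree_X_le
      omega
    have h2 := natDegree_derivative_le f
    omega

lemma th_coeff {f : F[X]} {d : ℕ} (hf : f.natDegree ≤ d) :
    (th F f).coeff (d + 1) = (d : F) * f.coeff d := by
  have h1 : th F f = X * derivative f + X * (X * derivative f) := by rw [th_apply]; ring
  rw [h1, coeff_add, coeff_X_mul, coeff_X_mul]
  have h2 : (derivative f).coeff d = 0 := by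
    rw [coeff_derivative, coeff_eq_zero_of_natDegree_lt (by omega), zero_mul]
  rw [h2, zero_add]
  rcases Nat.eq_zero_or_pos d with h | h
  · subst h
    simp
  · obtain ⟨e, rfl⟩ : ∃ e, d = e + 1 := ⟨d - 1, by omega⟩
    rw [coeff_X_mul, coeff_derivative]
    push_cast
    ring

lemma th_pow_natDegree_le {f : F[X]} {d : ℕ} (hf : f.natDegree ≤ d) (i : ℕ) :
    ((th F ^ i) f).natDegree ≤ i + d := by
  induction i with
  | zero => simpa using hf
  | succ i ih =>
    rw [pow_succ', Module.End.mul_apply]
    have := th_natDegree_le ih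
    omega

lemma th_pow_coeff {f : F[X]} {d : ℕ} (hf : f.natDegree ≤ d) (i : ℕ) :
    ((th F ^ i) f).coeff (i + d) = (ascPochhammer F i).eval (d : F) * f.coeff d := by
  induction i with
  | zero => simp
  | succ i ih =>
    rw [pow_succ', Module.End.mul_apply, show i + 1 + d = (i + d) + 1 by ring,
      th_coeff (th_pow_natDegree_le hf i), ih, ascPochhammer_succ_right, eval_mul, eval_add, eval_X,
      eval_natCast]
    push_cast
    ring

lemma coeff_prod_top {ι : Type*} (s : Finset ι) (f : ι → F[X]) (n : ι → ℕ)
    (h : ∀ i ∈ s, (f i).natDegree ≤ n i) :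
    (∏ i ∈ s, f i).natDegree ≤ ∑ i ∈ s, n i ∧
    (∏ i ∈ s, f i).coeff (∑ i ∈ s, n i) = ∏ i ∈ s, (f i).coeff (n i) := by
  classical
  induction s using Finset.induction_on with
  | empty => simp
  | insert a s ha ih =>
    have ih' := ih (fun i hi => h i (mem_insert_of_mem hi))
    rw [prod_insert ha, sum_insert ha, prod_insert ha]
    refine ⟨natDegree_mul_le_of_le (h a (mem_insert_self a s)) ih'.1, ?_⟩
    rw [coeff_mul_add_eq_of_natDegree_le (h a (mem_insert_self a s)) ih'.1, ih'.2]

lemma coeff_det_top {m : ℕ} (M : Matrix (Fin m) (Fin m) F[X]) (e d : Fin m → ℕ)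
    (h : ∀ i j, (M i j).natDegree ≤ e i + d j) :
    M.det.natDegree ≤ ∑ i, e i + ∑ j, d j ∧
    M.det.coeff (∑ i, e i + ∑ j, d j) = Matrix.det (Matrix.of fun i j => (M i j).coeff (e i + d j)) := by
  classical
  have hs : ∀ σ : Equiv.Perm (Fin m), ∑ i, (e (σ i) + d i) = ∑ i, e i + ∑ j, d j := by
    intro σ
    rw [sum_add_distrib, Equiv.sum_comp σ e]
  constructor
  · rw [Matrix.det_apply]
    refine natDegree_sum_le_of_forall_le _ _ fun σ _ => ?_
    refine (natDegree_smul_le _ _).trans ?_
    have := (coeff_prod_top univ (fun i => M (σ i) i) (fun i => e (σ i) + d i)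
      (fun i _ => h (σ i) i)).1
    rw [hs σ] at this
    exact this
  · rw [Matrix.det_apply, Matrix.det_apply, finsetSum_coeff]
    refine sum_congr rfl fun σ _ => ?_
    have := (coeff_prod_top univ (fun i => M (σ i) i) (fun i => e (σ i) + d i)
      (fun i _ => h (σ i) i)).2
    rw [hs σ] at this
    rw [coeff_smul, this]
    rfl

lemma det_th_ne_zero_of_injective {m : ℕ} (g : Fin m → F[X]) {P : ℕ}
    (hP : ∀ a b : ℕ, a < P → b < P → (a : F) = (b : F) → a = b)
    (hne : ∀ j, g j ≠ 0) (hdeg : ∀ j, (g j).natDegree < P)
    (hinj : Function.Injective fun j => (g j).natDegree) :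
    Matrix.det (Matrix.of fun (i j : Fin m) => (th F ^ (i : ℕ)) (g j)) ≠ 0 := by
  classical
  intro h0
  have hc := (coeff_det_top (Matrix.of fun (i j : Fin m) => (th F ^ (i : ℕ)) (g j))
    (fun i => (i : ℕ)) (fun j => (g j).natDegree) (fun i j => by
      simpa using th_pow_natDegree_le (le_refl (g j).natDegree) (i : ℕ))).2
  rw [h0, coeff_zero] at hc
  have h1 : (Matrix.of fun (i j : Fin m) =>
      ((Matrix.of fun (i j : Fin m) => (th F ^ (i : ℕ)) (g j)) i j).coeff
        ((i : ℕ) + (g j).natDegree)) =
      Matrix.of fun (i j : Fin m) => (g j).leadingCoeff *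
        (Matrix.of fun (i j : Fin m) => (ascPochhammer F (i : ℕ)).eval ((g j).natDegree : F)) i j := by
    ext i j
    simp only [Matrix.of_apply]
    rw [th_pow_coeff (le_refl (g j).natDegree) (i : ℕ), mul_comm]
    rfl
  rw [h1, Matrix.det_mul_row] at hc
  have h2 : (Matrix.of fun (i j : Fin m) => (ascPochhammer F (i : ℕ)).eval ((g j).natDegree : F)) =
      (Matrix.of fun (i j : Fin m) => (ascPochhammer F (j : ℕ)).eval ((g i).natDegree : F)).transpose := by
    ext i j; rfl
  rw [h2, Matrix.det_transpose, ← Matrix.det_eval_matrixOfPolynomials_eq_det_vandermonde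
    (fun i => ((g i).natDegree : F)) (fun j => ascPochhammer F (j : ℕ))
    (fun i => ascPochhammer_natDegree _ _) (fun i => monic_ascPochhammer _ _)] at hc
  have h3 : (Matrix.vandermonde fun i : Fin m => ((g i).natDegree : F)).det ≠ 0 := by
    rw [Matrix.det_vandermonde_ne_zero_iff]
    intro a b hab
    exact hinj (hP _ _ (hdeg a) (hdeg b) hab)
  have h4 : ∏ i : Fin m, (g i).leadingCoeff ≠ 0 :=
    prod_ne_zero_iff.mpr fun i _ => leadingCoeff_ne_zero.mpr (hne i)
  exact mul_ne_zero h4 h3 hc.symm

/-- Nonvanishing of the Wronskian (for the derivation `X (1+X) d/dX`). -/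
theorem det_th_ne_zero {P : ℕ}
    (hP : ∀ a b : ℕ, a < P → b < P → (a : F) = (b : F) → a = b) (s : ℕ) :
    ∀ {m : ℕ} (g : Fin m → F[X]), LinearIndependent F g → (∀ j, (g j).natDegree < P) →
      ∑ j, (g j).natDegree = s →
      Matrix.det (Matrix.of fun (i j : Fin m) => (th F ^ (i : ℕ)) (g j)) ≠ 0 := by
  classical
  induction s using Nat.strong_induction_on with
  | _ s ih =>
    intro m g hli hdeg hs
    by_cases hinj : Function.Injective fun j => (g j).natDegree
    · exact det_th_ne_zero_of_injective g hP (fun j => hli.ne_zero j) hdeg hinj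
    · simp only [Function.Injective, not_forall] at hinj
      obtain ⟨j, l, hjl, hne⟩ := hinj
      set c : F := (g j).leadingCoeff / (g l).leadingCoeff with hc
      have hl0 : (g l).leadingCoeff ≠ 0 := leadingCoeff_ne_zero.mpr (hli.ne_zero l)
      set h : F[X] := g j - c • g l with hh
      have hcoeff : h.coeff (g j).natDegree = 0 := by
        rw [hh, coeff_sub, coeff_smul, smul_eq_mul]
        have : (g l).coeff (g j).natDegree = (g l).leadingCoeff := by rw [hjl]; rfl
        rw [this, hc, div_mul_cancel₀ _ hl0]
        exact sub_self _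
      have hdegh : h.natDegree ≤ (g j).natDegree := by
        refine (natDegree_sub_le _ _).trans ?_
        refine max_le le_rfl ?_
        refine (natDegree_smul_le _ _).trans ?_
        exact hjl.ge
      have hdpos : 0 < (g j).natDegree := by
        rcases Nat.eq_zero_or_pos (g j).natDegree with h0 | h0
        · exfalso
          have e1 := eq_C_of_natDegree_eq_zero h0
          have e2 := eq_C_of_natDegree_eq_zero (hjl ▸ h0 : (g l).natDegree = 0)
          have e3 : h = 0 := by
            have h5 : h.natDegree = 0 := by omega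
            rw [eq_C_of_natDegree_eq_zero h5]
            rw [h0] at hcoeff
            rw [hcoeff, C_0]
          have := (Fintype.linearIndependent_iff.mp hli) (Pi.single j 1 - c • Pi.single l 1) (by
            simp only [Pi.sub_apply, Pi.smul_apply, sub_smul, sum_sub_distrib, smul_eq_mul, mul_smul]
            rw [← smul_sum]
            simp only [Pi.single_apply, ite_smul, one_smul, zero_smul, sum_ite_eq', mem_univ, if_true]
            exact e3) j
          simp [hne] at this
        · exact h0
      have hlt : h.natDegree < (g j).natDegree := by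
        rcases Nat.lt_or_ge h.natDegree (g j).natDegree with h1 | h1
        · exact h1
        · exfalso
          have h2 : h.natDegree = (g j).natDegree := le_antisymm hdegh h1
          have h3 : h.leadingCoeff = 0 := by rw [leadingCoeff, h2, hcoeff]
          rw [leadingCoeff_eq_zero] at h3
          rw [h3, natDegree_zero] at h2
          omega
      -- the new family
      set g' : Fin m → F[X] := Function.update g j h with hg'
      have hli' : LinearIndependent F g' := by
        rw [Fintype.linearIndependent_iff]
        intro a ha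
        have h1 : ∑ i, (Function.update a l (a l - c * a j)) i • g i = 0 := by
          rw [← ha]
          have e1 : ∀ i, (Function.update a l (a l - c * a j)) i • g i =
              a i • g i - (if i = l then (c * a j) • g l else 0) := by
            intro i
            by_cases hi : i = l
            · subst hi
              rw [Function.update_self, if_pos rfl, sub_smul]
            · rw [Function.update_of_ne hi, if_neg hi, sub_zero]
          have e2 : ∀ i, a i • g' i = a i • g i - (if i = j then (c * a j) • g l else 0) := by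
            intro i
            by_cases hi : i = j
            · subst hi
              rw [hg', Function.update_self, if_pos rfl, hh, smul_sub, smul_smul, mul_comm c]
            · rw [hg', Function.update_of_ne hi, if_neg hi, sub_zero]
          rw [sum_congr rfl (fun i _ => e1 i), sum_congr rfl (fun i _ => e2 i), sum_sub_distrib,
            sum_sub_distrib, sum_ite_eq', sum_ite_eq', if_pos (mem_univ _), if_pos (mem_univ _)]
        have h2 := (Fintype.linearIndependent_iff.mp hli) _ h1
        have hj0 : a j = 0 := by
          have := h2 j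
          rwa [Function.update_of_ne hne] at this
        intro i
        by_cases hi : i = l
        · subst hi
          have := h2 i
          rw [Function.update_self, hj0, mul_zero, sub_zero] at this
          exact this
        · have := h2 i
          rwa [Function.update_of_ne hi] at this
      have hdeg' : ∀ i, (g' i).natDegree < P := by
        intro i
        by_cases hi : i = j
        · subst hi
          rw [hg', Function.update_self]
          exact hlt.trans (hdeg i)
        · rw [hg', Function.update_of_ne hi]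
          exact hdeg i
      have hsum : ∑ i, (g' i).natDegree < s := by
        rw [← hs]
        refine sum_lt_sum (fun i _ => ?_) ⟨j, mem_univ _, ?_⟩
        · by_cases hi : i = j
          · subst hi
            rw [hg', Function.update_self]
            exact hlt.le
          · rw [hg', Function.update_of_ne hi]
        · rw [hg', Function.update_self]
          exact hlt
      have key := ih _ hsum g' hli' hdeg' rfl
      have hdet : Matrix.det (Matrix.of fun (i k : Fin m) => (th F ^ (i : ℕ)) (g' k)) =
          Matrix.det (Matrix.of fun (i k : Fin m) => (th F ^ (i : ℕ)) (g k)) := by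
        rw [← Matrix.det_updateCol_add_smul_self
          (Matrix.of fun (i k : Fin m) => (th F ^ (i : ℕ)) (g k)) hne (-C c)]
        congr 1
        ext1 i k
        rw [Matrix.updateCol_apply]
        by_cases hk : k = j
        · subst hk
          rw [if_pos rfl]
          simp only [Matrix.of_apply, hg', Function.update_self, hh, map_sub, map_smul, smul_eq_mul]
          rw [smul_eq_C_mul]
          ring
        · rw [if_neg hk]
          simp only [Matrix.of_apply, hg', Function.update_of_ne hk]
      rwa [hdet] at key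

end Wronskian

section Circuits

variable {F : Type*} [Field F]

/-- The polynomial `X^a (1+X)^b`. -/
noncomputable def mon (F : Type*) [Field F] (a b : ℕ) : F[X] := X ^ a * (1 + X) ^ b

lemma one_add_X_ne_zero : (1 + X : F[X]) ≠ 0 := by
  rw [add_comm]; exact X_add_C_ne_zero (1 : F)

lemma mon_ne_zero (a b : ℕ) : mon F a b ≠ 0 :=
  mul_ne_zero (pow_ne_zero _ X_ne_zero) (pow_ne_zero _ one_add_X_ne_zero)

lemma natDegree_one_add_X : (1 + X : F[X]).natDegree = 1 := by
  rw [add_comm]; exact natDegree_X_add_C (1 : F)

lemma mon_natDegree (a b : ℕ) : (mon F a b).natDegree = a + b := by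
  rw [mon, natDegree_mul (pow_ne_zero _ X_ne_zero) (pow_ne_zero _ one_add_X_ne_zero),
    natDegree_X_pow, natDegree_pow, natDegree_one_add_X, mul_one]

lemma th_mon (a b : ℕ) :
    th F (mon F a b) = mon F a b * ((a : F[X]) * (1 + X) + (b : F[X]) * X) := by
  have hX : ∀ a : ℕ, X * derivative (X ^ a : F[X]) = (a : F[X]) * X ^ a := by
    intro a
    rcases Nat.eq_zero_or_pos a with h | h
    · subst h; simp
    · obtain ⟨c, rfl⟩ : ∃ c, a = c + 1 := ⟨a - 1, by omega⟩
      rw [derivative_X_pow]
      simp only [Nat.add_sub_cancel]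
      rw [map_natCast]
      ring
  have hY : ∀ b : ℕ, (1 + X) * derivative ((1 + X) ^ b : F[X]) = (b : F[X]) * (1 + X) ^ b := by
    intro b
    rcases Nat.eq_zero_or_pos b with h | h
    · subst h; simp
    · obtain ⟨c, rfl⟩ : ∃ c, b = c + 1 := ⟨b - 1, by omega⟩
      rw [derivative_pow]
      simp only [Nat.add_sub_cancel, derivative_add, derivative_one, derivative_X, zero_add, mul_one]
      rw [map_natCast]
      ring
  rw [th_apply, mon, derivative_mul]
  linear_combination (1 + X) * (1 + X) ^ b * hX a + X * X ^ a * hY b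

/-- The polynomials `P_i` with `ϑ^i (X^a (1+X)^b) = X^a (1+X)^b P_i`. -/
noncomputable def Pp (F : Type*) [Field F] (a b : ℕ) : ℕ → F[X]
  | 0 => 1
  | i + 1 => th F (Pp F a b i) + ((a : F[X]) * (1 + X) + (b : F[X]) * X) * Pp F a b i

lemma th_pow_mon (a b i : ℕ) : (th F ^ i) (mon F a b) = mon F a b * Pp F a b i := by
  induction i with
  | zero => simp [Pp]
  | succ i ih =>
    rw [pow_succ', Module.End.mul_apply, ih, th_mul, th_mon, Pp]
    ring

lemma Pp_natDegree_le (a b i : ℕ) : (Pp F a b i).natDegree ≤ i := by
  induction i with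
  | zero => simp [Pp]
  | succ i ih =>
    rw [Pp]
    refine natDegree_add_le_of_degree_le (th_natDegree_le ih) ?_
    refine natDegree_mul_le.trans ?_
    have h1 : ((a : F[X]) * (1 + X) + (b : F[X]) * X).natDegree ≤ 1 := by
      refine natDegree_add_le_of_degree_le ?_ ?_
      · refine natDegree_mul_le.trans ?_
        rw [natDegree_natCast, natDegree_one_add_X]
      · refine natDegree_mul_le.trans ?_
        rw [natDegree_natCast, natDegree_X]
    omega

/-- The height bound for a minimal relation between `m + 1` polynomials `X^a (1+X)^b`. -/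
theorem circuit_height {P : ℕ}
    (hP : ∀ a b : ℕ, a < P → b < P → (a : F) = (b : F) → a = b)
    {m : ℕ} (α β : Fin (m + 1) → ℕ) (v : Fin (m + 1) → F) (hv : ∀ j, v j ≠ 0)
    (hdeg : ∀ j, α j + β j < P)
    (hsum : ∑ j, v j • mon F (α j) (β j) = 0)
    (hli : ∀ l : Fin (m + 1), LinearIndependent F
      (fun j : Fin m => mon F (α (l.succAbove j)) (β (l.succAbove j)))) (i l k : Fin (m + 1)) :
    α i + β i ≤ α l + β k + ∑ i : Fin m, (i : ℕ) := by
  classical
  set M : Matrix (Fin (m + 1)) (Fin (m + 1)) F[X] :=
    Matrix.of fun (i j : Fin (m + 1)) => Pp F (α j) (β j) (i : ℕ) with hM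
  set D : Fin (m + 1) → F[X] := fun l => M.adjugate l (Fin.last m) with hD
  set y : Fin (m + 1) → F[X] := fun j => v j • mon F (α j) (β j) with hy
  -- the kernel vector
  have hker : ∀ i : Fin (m + 1), ∑ j, M i j * y j = 0 := by
    intro i
    have h1 : ∑ j, M i j * y j = (th F ^ (i : ℕ)) (∑ j, v j • mon F (α j) (β j)) := by
      rw [map_sum]
      refine sum_congr rfl fun j _ => ?_
      rw [map_smul, th_pow_mon]
      simp only [hM, hy, Matrix.of_apply, smul_eq_C_mul]
      ring
    rw [h1, hsum, map_zero]
  -- the cofactor relations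
  have hrel : ∀ j l, D j * y l = D l * y j := by
    intro j l
    set M' := M.updateRow (Fin.last m) (Pi.single j 1) with hM'
    have hmv : M'.mulVec y = Pi.single (Fin.last m) (y j) := by
      ext1 i
      rw [Matrix.mulVec, dotProduct]
      by_cases hi : i = Fin.last m
      · subst hi
        rw [Pi.single_eq_same]
        simp only [hM', Matrix.updateRow_self]
        rw [Finset.sum_eq_single j]
        · rw [Pi.single_eq_same, one_mul]
        · intro b _ hb
          rw [Pi.single_eq_of_ne hb, zero_mul]
        · intro h; exact absurd (mem_univ _) h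
      · rw [Pi.single_eq_of_ne hi]
        simp only [hM', Matrix.updateRow_ne hi]
        exact hker i
    have hadj : M'.adjugate.mulVec (M'.mulVec y) = M'.det • y := by
      rw [Matrix.mulVec_mulVec, Matrix.adjugate_mul, Matrix.smul_mulVec, Matrix.one_mulVec]
    have h1 := congrFun hadj l
    rw [hmv, Matrix.mulVec, dotProduct, Finset.sum_eq_single (Fin.last m)] at h1
    · rw [Pi.single_eq_same, Pi.smul_apply, smul_eq_mul] at h1
      have h2 : M'.det = D j := by
        simp only [hD, hM', Matrix.adjugate_apply]
      have h3 : M'.adjugate l (Fin.last m) = D l := by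
        simp only [hD, hM', Matrix.adjugate_apply, Matrix.updateRow_idem]
      rw [h2, h3] at h1
      exact h1.symm
    · intro b _ hb
      rw [Pi.single_eq_of_ne hb, mul_zero]
    · intro h; exact absurd (mem_univ _) h
  -- the cofactors as determinants
  have hDdet : ∀ l, D l = (-1) ^ ((Fin.last m : ℕ) + (l : ℕ)) *
      Matrix.det (Matrix.of fun (i j : Fin m) =>
        Pp F (α (l.succAbove j)) (β (l.succAbove j)) (i : ℕ)) := by
    intro l
    simp only [hD]
    rw [Matrix.adjugate_fin_succ_eq_det_submatrix]
    congr 2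
    ext1 i j
    simp [hM, Matrix.submatrix_apply]
  have hDne : ∀ l, D l ≠ 0 := by
    intro l
    rw [hDdet l]
    refine mul_ne_zero (pow_ne_zero _ (neg_ne_zero.mpr one_ne_zero)) ?_
    intro h0
    have h1 := det_th_ne_zero hP _ (fun j : Fin m => mon F (α (l.succAbove j)) (β (l.succAbove j)))
      (hli l) (fun j => by rw [mon_natDegree]; exact hdeg _) rfl
    apply h1
    have h2 : (Matrix.of fun (i j : Fin m) =>
        (th F ^ (i : ℕ)) (mon F (α (l.succAbove j)) (β (l.succAbove j)))) =
        Matrix.of fun (i j : Fin m) => mon F (α (l.succAbove j)) (β (l.succAbove j)) *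
          (Matrix.of fun (i j : Fin m) =>
            Pp F (α (l.succAbove j)) (β (l.succAbove j)) (i : ℕ)) i j := by
      ext1 i j
      simp only [Matrix.of_apply]
      rw [th_pow_mon]
    rw [h2, Matrix.det_mul_row, h0, mul_zero]
  have hDdeg : ∀ l, (D l).natDegree ≤ ∑ i : Fin m, (i : ℕ) := by
    intro l
    rw [hDdet l]
    refine natDegree_mul_le.trans ?_
    have h1 : ((-1 : F[X]) ^ ((Fin.last m : ℕ) + (l : ℕ))).natDegree = 0 := by
      rw [natDegree_pow, natDegree_neg, natDegree_one, mul_zero]
    have h2 := (coeff_det_top (Matrix.of fun (i j : Fin m) =>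
      Pp F (α (l.succAbove j)) (β (l.succAbove j)) (i : ℕ)) (fun i => (i : ℕ)) (fun _ => 0)
      (fun i j => by simpa using Pp_natDegree_le _ _ _)).1
    simp only [sum_const_zero, add_zero] at h2
    omega
  -- coprimality
  have hcop : IsCoprime (X : F[X]) (1 + X) := ⟨-1, 1, by ring⟩
  -- divisibility by the power of `X`
  have hX : X ^ (α i - α l) ∣ D i := by
    rcases Nat.le_total (α i) (α l) with h | h
    · rw [Nat.sub_eq_zero_of_le h, pow_zero]; exact one_dvd _
    · have h1 := hrel i l
      -- D i * y l = D l * y i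
      have h2 : X ^ (α l) * X ^ (α i - α l) ∣ X ^ (α l) * (C (v l) * (1 + X) ^ (β l) * D i) := by
        rw [← pow_add, Nat.add_sub_cancel' h]
        refine ⟨C (v i) * (1 + X) ^ (β i) * D l, ?_⟩
        simp only [hy, smul_eq_C_mul, mon] at h1
        linear_combination h1
      have h3 := (mul_dvd_mul_iff_left (pow_ne_zero (α l) (X_ne_zero (R := F)))).mp h2
      have h4 : IsCoprime ((X : F[X]) ^ (α i - α l)) (C (v l) * (1 + X) ^ (β l)) := by
        exact (isCoprime_mul_unit_left_right (isUnit_C.mpr (isUnit_iff_ne_zero.mpr (hv l))) _ _).mpr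
          hcop.pow
      exact h4.dvd_of_dvd_mul_left h3
  have hY : (1 + X) ^ (β i - β k) ∣ D i := by
    rcases Nat.le_total (β i) (β k) with h | h
    · rw [Nat.sub_eq_zero_of_le h, pow_zero]; exact one_dvd _
    · have h1 := hrel i k
      have h2 : (1 + X) ^ (β k) * (1 + X) ^ (β i - β k) ∣
          (1 + X) ^ (β k) * (C (v k) * X ^ (α k) * D i) := by
        rw [← pow_add, Nat.add_sub_cancel' h]
        refine ⟨C (v i) * X ^ (α i) * D k, ?_⟩
        simp only [hy, smul_eq_C_mul, mon] at h1
        linear_combination h1
      have h3 := (mul_dvd_mul_iff_left (pow_ne_zero (β k) (one_add_X_ne_zero (F := F)))).mp h2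
      have h4 : IsCoprime ((1 + X : F[X]) ^ (β i - β k)) (C (v k) * X ^ (α k)) := by
        exact (isCoprime_mul_unit_left_right (isUnit_C.mpr (isUnit_iff_ne_zero.mpr (hv k))) _ _).mpr
          hcop.symm.pow
      exact h4.dvd_of_dvd_mul_left h3
  have hXY : mon F (α i - α l) (β i - β k) ∣ D i :=
    (hcop.pow (m := α i - α l) (n := β i - β k)).mul_dvd hX hY
  have h5 := natDegree_le_of_dvd hXY (hDne i)
  rw [mon_natDegree] at h5
  have h6 := hDdeg i
  omega

end Circuits

section Minimal

variable {F V ι : Type*} [Field F] [AddCommGroup V] [Module F V] [Fintype ι]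

/-- `u` is a minimal relation between the vectors `f i`. -/
def IsMinRel (f : ι → V) (u : ι → F) : Prop :=
  ∑ i, u i • f i = 0 ∧ u ≠ 0 ∧
    ∀ w : ι → F, ∑ i, w i • f i = 0 → (∀ i, u i = 0 → w i = 0) → (∃ i, u i ≠ 0 ∧ w i = 0) → w = 0

lemma exists_isMinRel (f : ι → V) (v : ι → F) (hv : ∑ i, v i • f i = 0) (hne : v ≠ 0) :
    ∃ u : ι → F, IsMinRel f u ∧ ∀ i, v i = 0 → u i = 0 := by
  classical
  -- strong induction on the size of the support
  have key : ∀ (s : ℕ) (v : ι → F), ({i | v i ≠ 0} : Finset ι).card = s →
      ∑ i, v i • f i = 0 → v ≠ 0 → ∃ u : ι → F, IsMinRel f u ∧ ∀ i, v i = 0 → u i = 0 := by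
    intro s
    induction s using Nat.strong_induction_on with
    | _ s ih =>
      intro v hs hv hne
      by_cases hmin : IsMinRel f v
      · exact ⟨v, hmin, fun _ h => h⟩
      · unfold IsMinRel at hmin
        push Not at hmin
        obtain ⟨w, hw1, hw2, ⟨i0, hi0, hi0'⟩, hw3⟩ := hmin hv hne
        have hlt : ({i | w i ≠ 0} : Finset ι).card < s := by
          rw [← hs]
          apply card_lt_card
          rw [ssubset_iff_of_subset]
          · refine ⟨i0, ?_, ?_⟩
            · simpa using hi0
            · simpa using hi0'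
          · intro i hi
            simp only [mem_filter, mem_univ, true_and] at hi ⊢
            exact fun h => hi (hw2 i h)
        obtain ⟨u, hu1, hu2⟩ := ih _ hlt w rfl hw1 hw3
        exact ⟨u, hu1, fun i hi => hu2 i (hw2 i hi)⟩
  exact key _ v rfl hv hne

/-- If every minimal relation is supported inside `A` or outside `A`, then the restriction to `A` of
any relation is a relation. -/
lemma restrict_relation (f : ι → V) (A : Finset ι)
    (H : ∀ u : ι → F, IsMinRel f u → (∀ i, u i ≠ 0 → i ∈ A) ∨ (∀ i ∈ A, u i = 0))
    (v : ι → F) (hv : ∑ i, v i • f i = 0) : ∑ i ∈ A, v i • f i = 0 := by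
  classical
  have key : ∀ (s : ℕ) (v : ι → F), ({i | v i ≠ 0} : Finset ι).card = s →
      ∑ i, v i • f i = 0 → ∑ i ∈ A, v i • f i = 0 := by
    intro s
    induction s using Nat.strong_induction_on with
    | _ s ih =>
      intro v hs hv
      by_cases hne : v = 0
      · subst hne; simp
      · obtain ⟨u, hu, hu2⟩ := exists_isMinRel f v hv hne
        obtain ⟨i0, hi0⟩ : ∃ i, u i ≠ 0 := by
          by_contra hcon
          push Not at hcon
          exact hu.2.1 (funext hcon)
        set t : F := v i0 / u i0 with ht
        have hw : ∑ i, (v i - t * u i) • f i = 0 := by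
          simp only [sub_smul, mul_smul, sum_sub_distrib]
          rw [hv, ← smul_sum, hu.1, smul_zero, sub_zero]
        have hlt : ({i | (fun i => v i - t * u i) i ≠ 0} : Finset ι).card < s := by
          rw [← hs]
          apply card_lt_card
          rw [ssubset_iff_of_subset]
          · refine ⟨i0, ?_, ?_⟩
            · simp only [mem_filter, mem_univ, true_and]
              exact fun h => hi0 (hu2 i0 h)
            · simp only [mem_filter, mem_univ, true_and, not_not]
              rw [ht, div_mul_cancel₀ _ hi0, sub_self]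
          · intro i hi
            simp only [mem_filter, mem_univ, true_and] at hi ⊢
            intro h
            apply hi
            rw [h, hu2 i h, mul_zero, sub_zero]
        have h1 := ih _ hlt (fun i => v i - t * u i) rfl hw
        have h2 : ∑ i ∈ A, u i • f i = 0 := by
          rcases H u hu with h | h
          · rw [← hu.1]
            refine sum_subset (subset_univ A) fun i _ hi => ?_
            have : u i = 0 := by
              by_contra hc
              exact hi (h i hc)
            rw [this, zero_smul]
          · exact sum_eq_zero fun i hi => by rw [h i hi, zero_smul]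
        simp only [sub_smul, mul_smul, sum_sub_distrib] at h1
        rw [← smul_sum, h2, smul_zero, sub_zero] at h1
        exact h1
  exact key _ v rfl hv

end Minimal

section MinMon

variable {F ι : Type*} [Field F] [Fintype ι] [DecidableEq ι]

lemma min_height {P : ℕ}
    (hP : ∀ a b : ℕ, a < P → b < P → (a : F) = (b : F) → a = b)
    (α β : ι → ℕ) (hdeg : ∀ j, α j + β j < P) (u : ι → F)
    (hu : IsMinRel (fun i => mon F (α i) (β i)) u) (i l k : ι) (hi : u i ≠ 0) (hl : u l ≠ 0)
    (hk : u k ≠ 0) :
    2 * (α i + β i) ≤ 2 * (α l + β k) + (Fintype.card ι - 1) * (Fintype.card ι - 2) := by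
  classical
  obtain ⟨hu1, hu2, hu3⟩ := hu
  set J : Finset ι := {i | u i ≠ 0} with hJ
  have hJne : J.Nonempty := ⟨i, by simp [hJ, hi]⟩
  obtain ⟨m, hm⟩ : ∃ m, J.card = m + 1 := ⟨J.card - 1, by have := hJne.card_pos; omega⟩
  set e : J ≃ Fin (m + 1) := J.equivFinOfCardEq hm with he
  set a : Fin (m + 1) → ι := fun j => (e.symm j : ι) with ha
  have hainj : Function.Injective a := fun x y hxy => e.symm.injective (Subtype.ext hxy)
  have hamem : ∀ j, u (a j) ≠ 0 := by
    intro j
    exact (mem_filter.mp (e.symm j).2).2
  have hasurj : ∀ i, u i ≠ 0 → ∃ j, a j = i := by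
    intro i hi
    refine ⟨e ⟨i, by simp [hJ, hi]⟩, ?_⟩
    simp [ha]
  have hsum : ∑ j, u (a j) • mon F (α (a j)) (β (a j)) = 0 := by
    rw [← hu1]
    have h1 : ∑ j, u (a j) • mon F (α (a j)) (β (a j)) =
        ∑ i ∈ univ.image a, u i • mon F (α i) (β i) := by
      rw [sum_image (fun x _ y _ h => hainj h)]
    rw [h1]
    refine sum_subset (subset_univ _) fun i _ hi => ?_
    have : u i = 0 := by
      by_contra hc
      obtain ⟨j, hj⟩ := hasurj i hc
      exact hi (mem_image.mpr ⟨j, mem_univ _, hj⟩)
    rw [this, zero_smul]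
  have hli : ∀ l : Fin (m + 1), LinearIndependent F
      (fun j : Fin m => mon F (α (a (l.succAbove j))) (β (a (l.succAbove j)))) := by
    intro l
    rw [Fintype.linearIndependent_iff]
    intro c hc j0
    set w : ι → F := fun i => ∑ j : Fin m, if a (l.succAbove j) = i then c j else 0 with hw
    have hw1 : ∑ i, w i • mon F (α i) (β i) = 0 := by
      rw [← hc]
      simp only [hw, sum_smul]
      rw [sum_comm]
      refine sum_congr rfl fun j _ => ?_
      rw [Finset.sum_eq_single (a (l.succAbove j))]
      · rw [if_pos rfl]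
      · intro b _ hb
        rw [if_neg (Ne.symm hb), zero_smul]
      · intro h; exact absurd (mem_univ _) h
    have hw2 : ∀ i, u i = 0 → w i = 0 := by
      intro i hi
      refine sum_eq_zero fun j _ => ?_
      rw [if_neg]
      rintro rfl
      exact hamem _ hi
    have hw3 : w (a l) = 0 := by
      refine sum_eq_zero fun j _ => ?_
      rw [if_neg]
      intro h
      exact Fin.succAbove_ne l j (hainj h)
    have hw0 := hu3 w hw1 hw2 ⟨a l, hamem l, hw3⟩
    have h1 := congrFun hw0 (a (l.succAbove j0))
    simp only [hw, Pi.zero_apply] at h1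
    rw [Finset.sum_eq_single j0] at h1
    · rwa [if_pos rfl] at h1
    · intro b _ hb
      rw [if_neg]
      intro h
      exact hb (Fin.succAbove_right_injective (hainj h))
    · intro h; exact absurd (mem_univ _) h
  obtain ⟨i', rfl⟩ := hasurj i hi
  obtain ⟨l', rfl⟩ := hasurj l hl
  obtain ⟨k', rfl⟩ := hasurj k hk
  have h := circuit_height hP (fun j => α (a j)) (fun j => β (a j)) (fun j => u (a j)) hamem
    (fun j => hdeg _) hsum hli i' l' k'
  have hg : 2 * ∑ i : Fin m, (i : ℕ) = m * (m - 1) := by
    rw [Fin.sum_univ_eq_sum_range (fun i => i) m, mul_comm, Finset.sum_range_id_mul_two]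
  have hcard : m + 1 ≤ Fintype.card ι := by
    rw [← hm]; exact card_le_univ J
  have hle : m * (m - 1) ≤ (Fintype.card ι - 1) * (Fintype.card ι - 2) :=
    Nat.mul_le_mul (by omega) (by omega)
  omega

end MinMon

section Period

variable {F : Type*} [Field F]

/-- exponent of `X` in the three groups of functions -/
def alp (w : ℕ) (g : Fin 3) (i : ℕ) : ℕ := if g = 0 then i else if g = 1 then 0 else w - i

/-- exponent of `1 + X` in the three groups of functions -/
def bet (g : Fin 3) (i : ℕ) : ℕ := if g = 0 then 0 else i

lemma sum_X_pow_eq_zero (S : Finset ℕ) (u : ℕ → F) (h : ∑ i ∈ S, u i • (X : F[X]) ^ i = 0) :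
    ∀ i ∈ S, u i = 0 := by
  classical
  intro i hi
  have h1 := congrArg (fun q => q.coeff i) h
  simp only [finsetSum_coeff, coeff_smul, coeff_X_pow, smul_eq_mul, mul_ite, mul_one, mul_zero,
    coeff_zero, sum_ite_eq, hi, if_true] at h1
  exact h1

lemma sum_one_add_X_pow_eq_zero (S : Finset ℕ) (u : ℕ → F)
    (h : ∑ i ∈ S, u i • (1 + X : F[X]) ^ i = 0) : ∀ i ∈ S, u i = 0 := by
  apply sum_X_pow_eq_zero S u
  have h1 := congrArg (fun q => q.comp (X - 1)) h
  simp only [zero_comp, Polynomial.sum_comp, smul_comp, pow_comp, add_comp, one_comp, X_comp] at h1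
  rw [← h1]
  refine sum_congr rfl fun i _ => ?_
  congr 2
  ring

/-- A sparse solution of the three-term relation: a nonzero solution of degree `w` with `r` terms
satisfies `w ≤ 9 r²`. -/
theorem period_bound {P : ℕ}
    (hP : ∀ a b : ℕ, a < P → b < P → (a : F) = (b : F) → a = b) {w : ℕ} (hw : w < P)
    (S : Finset ℕ) (hS : ∀ i ∈ S, 1 ≤ i ∧ i ≤ w) (hsymm : ∀ i ∈ S, w - i ∈ S)
    (a : ℕ → F) (ha : ∀ i ∈ S, a i ≠ 0)
    (hrel : ∑ i ∈ S, a i • ((X : F[X]) ^ i - (1 + X) ^ i - X ^ (w - i) * (1 + X) ^ i) = 0)
    (hne : S.Nonempty) : w ≤ 9 * S.card ^ 2 := by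
  classical
  by_contra hcon
  push Not at hcon
  set r := S.card with hr
  have hr1 : 1 ≤ r := hne.card_pos
  set h := w / 2 with hh
  have hsmall : (3 * r - 1) * (3 * r - 2) < 2 * h := by
    obtain ⟨t, ht⟩ : ∃ t, r = t + 1 := ⟨r - 1, by omega⟩
    have e1 : 3 * (t + 1) - 1 = 3 * t + 2 := by omega
    have e2 : 3 * (t + 1) - 2 = 3 * t + 1 := by omega
    rw [ht] at hcon ⊢
    rw [e1, e2]
    have e3 : (3 * t + 2) * (3 * t + 1) + 1 < 9 * (t + 1) ^ 2 := by nlinarith
    omega
  -- the functions
  set f : Fin 3 × S → F[X] := fun q => mon F (alp w q.1 q.2) (bet q.1 q.2) with hf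
  set v : Fin 3 × S → F := fun q => if q.1 = 0 then a q.2 else - a q.2 with hv
  have hcard : Fintype.card (Fin 3 × S) = 3 * r := by
    rw [Fintype.card_prod, Fintype.card_fin, Fintype.card_coe]
  have hdeg : ∀ q : Fin 3 × S, alp w q.1 q.2 + bet q.1 q.2 < P := by
    rintro ⟨g, i, hi⟩
    have := hS i hi
    simp only [alp, bet]
    split_ifs <;> omega
  have hsplit : ∀ (u : Fin 3 × S → F), ∑ q, u q • f q =
      ∑ i : S, u (0, i) • (X : F[X]) ^ (i : ℕ) + ∑ i : S, u (1, i) • (1 + X : F[X]) ^ (i : ℕ) +
        ∑ i : S, u (2, i) • ((X : F[X]) ^ (w - (i : ℕ)) * (1 + X) ^ (i : ℕ)) := by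
    intro u
    rw [Fintype.sum_prod_type, Fin.sum_univ_three]
    simp [hf, mon, alp, bet]
  have hvrel : ∑ q, v q • f q = 0 := by
    rw [hsplit v, ← hrel]
    simp only [hv]
    rw [← Finset.sum_coe_sort S (fun i => a i • ((X : F[X]) ^ i - (1 + X) ^ i - X ^ (w - i) * (1 + X) ^ i))]
    rw [← sum_add_distrib, ← sum_add_distrib]
    refine sum_congr rfl fun i _ => ?_
    simp only [if_true, one_ne_zero, if_false, Fin.reduceEq, smul_sub, neg_smul]
    ring
  -- heights in minimal relations
  have hht : ∀ u : Fin 3 × S → F, IsMinRel f u → ∀ q l k, u q ≠ 0 → u l ≠ 0 → u k ≠ 0 →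
      alp w q.1 q.2 + bet q.1 q.2 < alp w l.1 l.2 + bet k.1 k.2 + h := by
    intro u hu q l k hq hl hk
    have := min_height hP (fun q : Fin 3 × S => alp w q.1 q.2) (fun q : Fin 3 × S => bet q.1 q.2)
      hdeg u hu q l k hq hl hk
    rw [hcard] at this
    omega
  have h2h : 2 * h ≤ w := by omega
  -- relations with only the first group
  have honly0 : ∀ u : Fin 3 × S → F, IsMinRel f u → (∀ i, u (1, i) = 0) → (∀ i, u (2, i) = 0) →
      False := by
    intro u hu h1 h2
    apply hu.2.1
    have h3 := hu.1
    rw [hsplit u] at h3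
    simp only [h1, h2, zero_smul, sum_const_zero, add_zero] at h3
    have h4 := sum_X_pow_eq_zero S (fun i => if hi : i ∈ S then u (0, ⟨i, hi⟩) else 0) (by
      rw [← h3, ← Finset.sum_coe_sort S]
      refine sum_congr rfl fun i _ => ?_
      rw [dif_pos i.2])
    ext ⟨g, i⟩
    fin_cases g
    · have := h4 i i.2
      rw [dif_pos i.2] at this
      exact this
    · exact h1 i
    · exact h2 i
  have honly1 : ∀ u : Fin 3 × S → F, IsMinRel f u → (∀ i, u (0, i) = 0) → (∀ i, u (2, i) = 0) →
      False := by
    intro u hu h1 h2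
    apply hu.2.1
    have h3 := hu.1
    rw [hsplit u] at h3
    simp only [h1, h2, zero_smul, sum_const_zero, add_zero, zero_add] at h3
    have h4 := sum_one_add_X_pow_eq_zero S (fun i => if hi : i ∈ S then u (1, ⟨i, hi⟩) else 0) (by
      rw [← h3, ← Finset.sum_coe_sort S]
      refine sum_congr rfl fun i _ => ?_
      rw [dif_pos i.2])
    ext ⟨g, i⟩
    fin_cases g
    · exact h1 i
    · have := h4 i i.2
      rw [dif_pos i.2] at this
      exact this
    · exact h2 i
  -- structure of minimal relations
  have hstruct : ∀ u : Fin 3 × S → F, IsMinRel f u →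
      (∀ q, u q ≠ 0 → q.1 ≠ 2 ∧ (q.2 : ℕ) < h) ∨
      (∀ i : S, u (0, i) ≠ 0 → w < (i : ℕ) + h) ∧ (∀ i : S, u (1, i) ≠ 0 → w < (i : ℕ) + h) := by
    intro u hu
    by_cases h0 : ∃ i, u (0, i) ≠ 0
    · obtain ⟨i0, hi0⟩ := h0
      by_cases h1 : ∃ i, u (1, i) ≠ 0
      · obtain ⟨i1, hi1⟩ := h1
        left
        rintro ⟨g, i⟩ hq
        have := hht u hu (g, i) (1, i1) (0, i0) hq hi1 hi0
        have hSi := hS i i.2
        fin_cases g
        · simp [alp, bet] at this ⊢; omega
        · simp [alp, bet] at this ⊢; omega
        · simp [alp, bet] at this; omega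
      · push Not at h1
        by_cases h2 : ∃ i, u (2, i) ≠ 0
        · obtain ⟨i2, hi2⟩ := h2
          right
          refine ⟨fun i hi => ?_, fun i hi => absurd (h1 i) hi⟩
          have := hht u hu (2, i2) (0, i) (0, i0) hi2 hi hi0
          have hSi := hS i2 i2.2
          simp [alp, bet] at this
          omega
        · push Not at h2
          exact (honly0 u hu h1 h2).elim
    · push Not at h0
      by_cases h1 : ∃ i, u (1, i) ≠ 0
      · obtain ⟨i1, hi1⟩ := h1
        by_cases h2 : ∃ i, u (2, i) ≠ 0
        · obtain ⟨i2, hi2⟩ := h2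
          right
          refine ⟨fun i hi => absurd (h0 i) hi, fun i hi => ?_⟩
          have := hht u hu (2, i2) (1, i1) (1, i) hi2 hi1 hi
          have hSi := hS i2 i2.2
          simp [alp, bet] at this
          omega
        · push Not at h2
          exact (honly1 u hu h0 h2).elim
      · push Not at h1
        right
        exact ⟨fun i hi => absurd (h0 i) hi, fun i hi => absurd (h1 i) hi⟩
  -- no element of `S` is below `h`
  have hlow : ∀ i ∈ S, ¬ i < h := by
    set A : Finset (Fin 3 × S) := {q | q.1 ≠ 2 ∧ (q.2 : ℕ) < h} with hA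
    have hres := restrict_relation f A (by
      intro u hu
      rcases hstruct u hu with h1 | ⟨h1, h2⟩
      · left
        intro q hq
        rw [hA, mem_filter]
        exact ⟨mem_univ _, h1 q hq⟩
      · right
        rintro ⟨g, i⟩ hq
        rw [hA, mem_filter] at hq
        obtain ⟨-, hg, hi⟩ := hq
        by_contra hc
        fin_cases g
        · have := h1 i hc
          simp only at hi
          omega
        · have := h2 i hc
          simp only at hi
          omega
        · exact hg rfl) v hvrel
    -- the low part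
    set q : F[X] := ∑ i ∈ S with i < h, a i • (X : F[X]) ^ i with hq
    have hqrel : q - q.comp (1 + X) = 0 := by
      rw [← hres]
      have h1 : ∑ q ∈ A, v q • f q = ∑ q, (if q.1 ≠ 2 ∧ (q.2 : ℕ) < h then v q else 0) • f q := by
        rw [hA, sum_filter]
        refine sum_congr rfl fun q _ => ?_
        split_ifs <;> simp
      rw [h1, hsplit (fun q => if q.1 ≠ 2 ∧ (q.2 : ℕ) < h then v q else 0)]
      simp only [hv, ne_eq, Fin.reduceEq, not_false_eq_true, true_and, not_true_eq_false, false_and,
        if_false, zero_smul, sum_const_zero, add_zero, if_true, one_ne_zero]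
      rw [hq, sum_filter]
      simp only [Polynomial.sum_comp]
      rw [Finset.sum_coe_sort S (fun i => (if i < h then a i else 0) • (X : F[X]) ^ i),
        Finset.sum_coe_sort S (fun i => (if i < h then - a i else 0) • (1 + X : F[X]) ^ i),
        ← sum_sub_distrib, ← sum_add_distrib]
      refine sum_congr rfl fun i _ => ?_
      split_ifs
      · rw [smul_comp, pow_comp, X_comp, neg_smul, sub_eq_add_neg]
      · simp
    have heval : ∀ n : ℕ, q.eval (n : F) = 0 := by
      intro n
      induction n with
      | zero =>
        rw [Nat.cast_zero, hq, eval_finsetSum]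
        refine sum_eq_zero fun i hi => ?_
        rw [mem_filter] at hi
        have := (hS i hi.1).1
        rw [eval_smul, eval_pow, eval_X, zero_pow (by omega), smul_zero]
      | succ n ih =>
        have h1 := congrArg (fun z => z.eval (n : F)) hqrel
        simp only [eval_sub, eval_comp, eval_add, eval_one, eval_X, eval_zero] at h1
        rw [ih, zero_sub, neg_eq_zero] at h1
        rw [Nat.cast_succ, add_comm]
        exact h1
    have hq0 : q = 0 := by
      have hinj : Set.InjOn (fun n : ℕ => (n : F)) (range P : Finset ℕ) := by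
        intro x hx y hy hxy
        rw [Finset.mem_coe, mem_range] at hx hy
        exact hP x y hx hy hxy
      refine eq_zero_of_natDegree_lt_card_of_eval_eq_zero' q ((range P).image (fun n : ℕ => (n : F)))
        ?_ ?_
      · intro x hx
        obtain ⟨n, -, rfl⟩ := mem_image.mp hx
        exact heval n
      · rw [card_image_of_injOn hinj, card_range]
        refine lt_of_le_of_lt ?_ hw
        rw [hq]
        refine natDegree_sum_le_of_forall_le _ _ fun i hi => ?_
        rw [mem_filter] at hi
        refine (natDegree_smul_le _ _).trans ?_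
        rw [natDegree_X_pow]
        omega
    intro i hi hih
    rw [hq] at hq0
    exact ha i hi (sum_X_pow_eq_zero _ a hq0 i (mem_filter.mpr ⟨hi, hih⟩))
  -- no element of `S` in the middle
  have hmid : ∀ i ∈ S, ¬ (h ≤ i ∧ i + h ≤ w) := by
    intro i hi hc
    have hres := restrict_relation f {((0 : Fin 3), (⟨i, hi⟩ : S))} (by
      intro u hu
      right
      intro q hq
      rw [mem_singleton] at hq
      subst hq
      by_contra hne
      rcases hstruct u hu with h1 | ⟨h1, h2⟩
      · have := (h1 _ hne).2
        simp only at this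
        omega
      · have := h1 _ hne
        simp only at this
        omega) v hvrel
    rw [sum_singleton] at hres
    have h1 : f ((0 : Fin 3), (⟨i, hi⟩ : S)) ≠ 0 := mon_ne_zero _ _
    have h2 : v ((0 : Fin 3), (⟨i, hi⟩ : S)) = a i := by simp [hv]
    rw [h2] at hres
    exact (smul_ne_zero (ha i hi) h1) hres
  obtain ⟨i, hi⟩ := hne
  have h1 := hlow i hi
  have h2 := hmid i hi
  have h3 := hlow (w - i) (hsymm i hi)
  have h4 := hS i hi
  omega

end Period

end Pool.Agent.Lib.MP_a3a416_nt
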