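import Pool.Agent.Lib.MP_a3a416_nt.GapTwo
import Pool.Agent.Lib.MP_a3a416_nt.Maillet

/-!
The sums of two regular indices: at least `∑_{ℓ ≤ √N} (ℓ-1)/4` of them are below `N`.
-/

open Finset

namespace Pool.Agent.Lib.MP_a3a416_nt

section Series

open PowerSeries

variable {p : ℕ} [hpF : Fact p.Prime]

/-- The truncated exponential series `∑_{i<p} x^i / i!` over `ZMod p`. -/
noncomputable def EE (p : ℕ) [Fact p.Prime] : (ZMod p)⟦X⟧ :=
  PowerSeries.mk fun i => ((i.factorial : ZMod p))⁻¹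

/-- `∑ D B_i x^i / i!`, truncated below `p - 1`. -/
noncomputable def BB (p : ℕ) [Fact p.Prime] : (ZMod p)⟦X⟧ :=
  PowerSeries.mk fun i => if i + 2 ≤ p then (cB p i : ZMod p) * ((i.factorial : ZMod p))⁻¹ else 0

/-- The even part. -/
noncomputable def CC (p : ℕ) [Fact p.Prime] : (ZMod p)⟦X⟧ :=
  PowerSeries.mk fun i => if Even i ∧ i + 2 ≤ p then (cB p i : ZMod p) * ((i.factorial : ZMod p))⁻¹ else 0

lemma inv_fac_mul {m i : ℕ} (hm : m < p) (hi : i ≤ m) :
    ((i.factorial : ZMod p))⁻¹ * (((m - i).factorial : ZMod p))⁻¹ =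
      (m.choose i : ZMod p) * ((m.factorial : ZMod p))⁻¹ := by
  have h1 : (m.factorial : ZMod p) ≠ 0 := fac_ne_zero hm
  have h2 : (i.factorial : ZMod p) ≠ 0 := fac_ne_zero (by omega)
  have h3 : ((m - i).factorial : ZMod p) ≠ 0 := fac_ne_zero (by omega)
  have h4 : (m.choose i : ZMod p) * i.factorial * (m - i).factorial = m.factorial := by
    exact_mod_cast congrArg (Nat.cast : ℕ → ZMod p) (Nat.choose_mul_factorial_mul_factorial hi)
  field_simp
  rw [← h4]
  ring

lemma BB_rel (hp5 : 5 ≤ p) :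
    (X ^ p : (ZMod p)⟦X⟧) ∣ BB p * (EE p - 1) - C (primorial (p - 1) : ZMod p) * X := by
  rw [X_pow_dvd_iff]
  intro m hm
  rw [map_sub, coeff_mul, Nat.sum_antidiagonal_eq_sum_range_succ_mk, sum_range_succ]
  have h0 : coeff (m - m) (EE p - 1 : (ZMod p)⟦X⟧) = 0 := by
    simp [EE]
  rw [h0, mul_zero, add_zero]
  have h1 : ∀ i ∈ range m, coeff i (BB p) * coeff (m - i) (EE p - 1 : (ZMod p)⟦X⟧) =
      ((m.factorial : ZMod p))⁻¹ * ((m.choose i : ZMod p) * (cB p i : ZMod p)) := by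
    intro i hi
    rw [mem_range] at hi
    rw [BB, coeff_mk, if_pos (by omega), map_sub, EE, coeff_mk, coeff_one, if_neg (by omega), sub_zero,
      mul_assoc, inv_fac_mul hm hi.le]
    ring
  rw [sum_congr rfl h1, ← mul_sum]
  have h2 : ∑ i ∈ range m, (m.choose i : ZMod p) * (cB p i : ZMod p) =
      ((∑ i ∈ range m, (m.choose i : ℤ) * cB p i : ℤ) : ZMod p) := by
    push_cast
    rfl
  rw [h2]
  rcases Nat.lt_or_ge m 2 with h | h
  · interval_cases m
    · simp
    · have h3 : cB p 0 = (primorial (p - 1) : ℤ) := by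
        have := cB_spec hp5 (n := 0) (by omega)
        rw [_root_.bernoulli_zero, mul_one] at this
        exact_mod_cast this
      simp [h3]
  · rw [sum_choose_cB hp5 (by omega) h, Int.cast_zero, mul_zero, zero_sub, coeff_C_mul, coeff_X,
      if_neg (by omega), mul_zero, neg_zero]

lemma two_CC (hp5 : 5 ≤ p) : 2 * CC p = 2 * BB p + C (primorial (p - 1) : ZMod p) * X := by
  ext m
  have h2 : ∀ φ : (ZMod p)⟦X⟧, coeff m (2 * φ) = 2 * coeff m φ := by
    intro φ
    rw [show (2 : (ZMod p)⟦X⟧) = C 2 from (map_ofNat C 2).symm, coeff_C_mul]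
  rw [map_add, h2, h2, coeff_C_mul, coeff_X, CC, BB, coeff_mk, coeff_mk]
  by_cases h1 : m = 1
  · subst h1
    have h3 : 2 * cB p 1 = - (primorial (p - 1) : ℤ) := by
      have := cB_spec hp5 (n := 1) (by omega)
      rw [_root_.bernoulli_one] at this
      have h4 : ((2 * cB p 1 : ℤ) : ℚ) = ((- (primorial (p - 1) : ℤ) : ℤ) : ℚ) := by
        push_cast
        rw [this]
        ring
      exact_mod_cast h4
    have h5 : (2 : ZMod p) * (cB p 1 : ZMod p) = - (primorial (p - 1) : ZMod p) := by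
      exact_mod_cast congrArg (Int.cast : ℤ → ZMod p) h3
    rw [if_neg (by simp), if_pos (by omega), if_pos rfl]
    simp only [Nat.factorial_one, Nat.cast_one, inv_one, mul_one, mul_zero]
    rw [h5]
    ring
  · rw [if_neg h1, mul_zero, add_zero]
    by_cases hm : m + 2 ≤ p
    · by_cases he : Even m
      · rw [if_pos ⟨he, hm⟩, if_pos hm]
      · rw [if_neg (fun h => he h.1), if_pos hm,
          cB_odd hp5 hm (Nat.not_even_iff_odd.mp he) (by
            rcases Nat.eq_zero_or_pos m with h | h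
            · subst h; simp at he
            · omega)]
        simp
    · rw [if_neg (fun h => hm h.2), if_neg hm]

lemma CC_rel (hp5 : 5 ≤ p) :
    (X ^ p : (ZMod p)⟦X⟧) ∣ 2 * CC p * (EE p - 1) - C (primorial (p - 1) : ZMod p) * X * (EE p + 1) := by
  rw [two_CC hp5]
  have h := (BB_rel hp5).mul_left (2 : (ZMod p)⟦X⟧)
  refine h.trans (dvd_of_eq ?_)
  ring

lemma rescale_EE_add (a b : ZMod p) :
    (X ^ p : (ZMod p)⟦X⟧) ∣ rescale (a + b) (EE p) - rescale a (EE p) * rescale b (EE p) := by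
  rw [X_pow_dvd_iff]
  intro m hm
  rw [map_sub, coeff_mul, Nat.sum_antidiagonal_eq_sum_range_succ_mk, sub_eq_zero]
  simp only [coeff_rescale, EE, coeff_mk]
  rw [add_pow, sum_mul]
  refine sum_congr rfl fun i hi => ?_
  rw [mem_range] at hi
  have := inv_fac_mul hm (show i ≤ m by omega)
  linear_combination (- a ^ i * b ^ (m - i)) * this

lemma rescale_EE_natCast (a : ℕ) :
    (X ^ p : (ZMod p)⟦X⟧) ∣ rescale (a : ZMod p) (EE p) - EE p ^ a := by
  induction a with
  | zero =>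
    rw [X_pow_dvd_iff]
    intro m _
    rw [map_sub, Nat.cast_zero, coeff_rescale, pow_zero, coeff_one, EE, coeff_mk]
    rcases Nat.eq_zero_or_pos m with h | h
    · subst h; simp
    · rw [zero_pow (by omega), if_neg (by omega)]; simp
  | succ a ih =>
    have h1 := rescale_EE_add (p := p) (a : ZMod p) 1
    have h2 := ih.mul_right (EE p)
    rw [rescale_one, RingHom.id_apply] at h1
    have h3 := dvd_add h1 h2
    refine h3.trans (dvd_of_eq ?_)
    push_cast
    ring

lemma rescale_dvd {a : ZMod p} {n : ℕ} {φ : (ZMod p)⟦X⟧} (h : (X ^ n : (ZMod p)⟦X⟧) ∣ φ) :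
    (X ^ n : (ZMod p)⟦X⟧) ∣ rescale a φ := by
  rw [X_pow_dvd_iff] at h ⊢
  intro m hm
  rw [coeff_rescale, h m hm, mul_zero]

lemma CC_rel_rescale (hp5 : 5 ≤ p) (a : ℕ) :
    (X ^ p : (ZMod p)⟦X⟧) ∣ 2 * rescale (a : ZMod p) (CC p) * (EE p ^ a - 1) -
      C ((primorial (p - 1) : ZMod p) * a) * X * (EE p ^ a + 1) := by
  have h1 := rescale_dvd (a := (a : ZMod p)) (CC_rel hp5)
  rw [map_sub, map_mul, map_mul, map_mul, map_mul, map_sub, map_add, map_one, rescale_X] at h1
  have h2 := rescale_EE_natCast (p := p) a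
  have h3 := (h2.mul_left (C ((primorial (p - 1) : ZMod p) * a) * X - 2 * rescale (a : ZMod p) (CC p)))
  have h4 := dvd_add h1 h3
  refine h4.trans (dvd_of_eq ?_)
  have e1 : rescale (a : ZMod p) (2 : (ZMod p)⟦X⟧) = 2 := map_ofNat _ 2
  have e2 : rescale (a : ZMod p) (C (primorial (p - 1) : ZMod p)) = C (primorial (p - 1) : ZMod p) := by
    ext n
    rw [coeff_rescale, coeff_C]
    split_ifs with h
    · subst h; simp
    · simp
  rw [e1, e2, map_mul]
  ring

end Series

section Poly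

open Polynomial

variable {p : ℕ} [hpF : Fact p.Prime]

/-- `∏ (q^d - 1)` over `1 ≤ d ≤ m`, `d ≠ l, b`. -/
noncomputable def MMp (p m l b : ℕ) : (ZMod p)[X] := ∏ d ∈ (Icc 1 m \ {l, b}), (X ^ d - 1)

/-- The whole product. -/
noncomputable def LLp (p m : ℕ) : (ZMod p)[X] := ∏ d ∈ Icc 1 m, (X ^ d - 1)

lemma LLp_eq {m l b : ℕ} (hb : 1 ≤ b) (hbl : b < l) (hl : l ≤ m) :
    LLp p m = (X ^ l - 1) * (X ^ b - 1) * MMp p m l b := by
  have hsub : ({l, b} : Finset ℕ) ⊆ Icc 1 m := by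
    intro x hx
    rw [mem_insert, mem_singleton] at hx
    rw [mem_Icc]
    omega
  rw [LLp, ← prod_sdiff hsub, prod_pair (by omega), MMp]
  ring

lemma order_bound (P : (ZMod p)[X]) (hP : P ≠ 0) {k : ℕ}
    (h : (PowerSeries.X ^ k : PowerSeries (ZMod p)) ∣ aeval (EE p) P) : k ≤ P.natDegree := by
  obtain ⟨Q, hQ, hQ1⟩ := Polynomial.exists_eq_pow_rootMultiplicity_mul_and_not_dvd P hP (1 : ZMod p)
  set v := rootMultiplicity 1 P with hv
  have hQ0 : Q ≠ 0 := by
    rintro rfl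
    exact hQ1 (dvd_zero _)
  have hdeg : P.natDegree = v + Q.natDegree := by
    conv_lhs => rw [hQ]
    rw [natDegree_mul (pow_ne_zero _ (X_sub_C_ne_zero 1)) hQ0, natDegree_pow, natDegree_X_sub_C, mul_one]
  have hU : EE p - 1 = PowerSeries.X * PowerSeries.mk fun i => (((i + 1).factorial : ZMod p))⁻¹ := by
    ext n
    cases n with
    | zero => simp [EE]
    | succ n =>
      rw [PowerSeries.coeff_succ_X_mul, map_sub, PowerSeries.coeff_one, if_neg (by omega), EE,
        PowerSeries.coeff_mk, PowerSeries.coeff_mk, sub_zero]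
  have hcE : PowerSeries.constantCoeff (EE p) = 1 := by
    rw [← PowerSeries.coeff_zero_eq_constantCoeff_apply, EE, PowerSeries.coeff_mk]
    simp
  have hcQ : PowerSeries.constantCoeff (aeval (EE p) Q) = Q.eval 1 := by
    rw [Polynomial.aeval_def, Polynomial.hom_eval₂, hcE]
    have : (PowerSeries.constantCoeff (R := ZMod p)).comp (algebraMap (ZMod p) (PowerSeries (ZMod p))) =
        RingHom.id _ := by
      ext x
      rw [RingHom.comp_apply, PowerSeries.algebraMap_apply]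
      simp
    rw [this, Polynomial.eval₂_id]
  by_contra hcon
  push Not at hcon
  have hvk : v + 1 ≤ k := by omega
  have h1 : aeval (EE p) P = PowerSeries.X ^ v *
      ((PowerSeries.mk fun i => (((i + 1).factorial : ZMod p))⁻¹) ^ v * aeval (EE p) Q) := by
    conv_lhs => rw [hQ]
    rw [map_mul, map_pow, map_sub, aeval_X, map_one (C : ZMod p →+* _), map_one, hU, mul_pow, mul_assoc]
  have h2 := (pow_dvd_pow (PowerSeries.X : PowerSeries (ZMod p)) hvk).trans h
  rw [h1, pow_succ] at h2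
  have h3 := (mul_dvd_mul_iff_left (pow_ne_zero v PowerSeries.X_ne_zero)).mp h2
  rw [PowerSeries.X_dvd_iff, map_mul, map_pow, hcQ] at h3
  have h4 : PowerSeries.constantCoeff
      (PowerSeries.mk fun i => (((i + 1).factorial : ZMod p))⁻¹ : PowerSeries (ZMod p)) = 1 := by
    rw [← PowerSeries.coeff_zero_eq_constantCoeff_apply, PowerSeries.coeff_mk]
    simp
  rw [h4, one_pow, one_mul] at h3
  exact hQ1 (dvd_iff_isRoot.mpr h3)

/-- The polynomial attached to a combination of the products `C(ℓ x) C(b x)`. -/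
noncomputable def PPp (p m : ℕ) (S : Finset (ℕ × ℕ)) (lam : ℕ × ℕ → ZMod p) : (ZMod p)[X] :=
  ∑ s ∈ S, C (lam s * s.1 * s.2) * ((X ^ s.1 + 1) * (X ^ s.2 + 1) * MMp p m s.1 s.2)

lemma PPp_natDegree (m : ℕ) (S : Finset (ℕ × ℕ)) (lam : ℕ × ℕ → ZMod p)
    (hS : ∀ s ∈ S, 1 ≤ s.2 ∧ s.2 < s.1 ∧ s.1 ≤ m) :
    (PPp p m S lam).natDegree ≤ ∑ d ∈ Icc 1 m, d := by
  refine natDegree_sum_le_of_forall_le _ _ fun s hs => ?_
  obtain ⟨h1, h2, h3⟩ := hS s hs
  refine (natDegree_C_mul_le _ _).trans ?_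
  have hsub : ({s.1, s.2} : Finset ℕ) ⊆ Icc 1 m := by
    intro x hx
    rw [mem_insert, mem_singleton] at hx
    rw [mem_Icc]
    omega
  rw [← sum_sdiff hsub, sum_pair (by omega)]
  have h4 : (MMp p m s.1 s.2).natDegree ≤ ∑ d ∈ Icc 1 m \ {s.1, s.2}, d := by
    refine (natDegree_prod_le _ _).trans (sum_le_sum fun d _ => ?_)
    compute_degree
  have h5 : ((X : (ZMod p)[X]) ^ s.1 + 1).natDegree ≤ s.1 := by compute_degree
  have h6 : ((X : (ZMod p)[X]) ^ s.2 + 1).natDegree ≤ s.2 := by compute_degree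
  have h7 := natDegree_mul_le (p := (X : (ZMod p)[X]) ^ s.1 + 1) (q := (X : (ZMod p)[X]) ^ s.2 + 1)
  have h8 := natDegree_mul_le (p := ((X : (ZMod p)[X]) ^ s.1 + 1) * (X ^ s.2 + 1))
    (q := MMp p m s.1 s.2)
  omega

lemma PPp_vanish (hp5 : 5 ≤ p) {m N : ℕ} (hN : N ≤ p) (S : Finset (ℕ × ℕ)) (lam : ℕ × ℕ → ZMod p)
    (hS : ∀ s ∈ S, 1 ≤ s.2 ∧ s.2 < s.1 ∧ s.1 ≤ m)
    (hH : (PowerSeries.X ^ N : PowerSeries (ZMod p)) ∣ ∑ s ∈ S, PowerSeries.C (lam s) *
      (PowerSeries.rescale (s.1 : ZMod p) (CC p) * PowerSeries.rescale (s.2 : ZMod p) (CC p))) :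
    (PowerSeries.X ^ N : PowerSeries (ZMod p)) ∣ PowerSeries.X ^ 2 * aeval (EE p) (PPp p m S lam) := by
  set D : ZMod p := (primorial (p - 1) : ZMod p) with hD
  have hD0 : D ≠ 0 := by
    rw [hD, Ne, ZMod.natCast_eq_zero_iff]
    exact not_dvd_primorial hpF.out
  have hdvdC : ∀ s ∈ S, (PowerSeries.X ^ p : PowerSeries (ZMod p)) ∣
      aeval (EE p) (LLp p m) * (4 * (PowerSeries.C (lam s) *
        (PowerSeries.rescale (s.1 : ZMod p) (CC p) * PowerSeries.rescale (s.2 : ZMod p) (CC p)))) -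
      PowerSeries.C (D ^ 2) * (PowerSeries.X ^ 2 * aeval (EE p)
        (C (lam s * s.1 * s.2) * ((X ^ s.1 + 1) * (X ^ s.2 + 1) * MMp p m s.1 s.2))) := by
    intro s hs
    obtain ⟨h1, h2, h3⟩ := hS s hs
    have r1 := CC_rel_rescale (p := p) hp5 s.1
    have r2 := CC_rel_rescale (p := p) hp5 s.2
    rw [← hD] at r1 r2
    set c1 := PowerSeries.rescale (s.1 : ZMod p) (CC p)
    set c2 := PowerSeries.rescale (s.2 : ZMod p) (CC p)
    have r3 := dvd_add (r1.mul_left (2 * c2 * (EE p ^ s.2 - 1)))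
      (r2.mul_left (PowerSeries.C (D * s.1) * PowerSeries.X * (EE p ^ s.1 + 1)))
    have r4 := r3.mul_left (PowerSeries.C (lam s) * aeval (EE p) (MMp p m s.1 s.2))
    refine r4.trans (dvd_of_eq ?_)
    rw [LLp_eq h1 h2 h3]
    have hC : ∀ x : ZMod p, aeval (EE p) (C x) = (PowerSeries.C x : PowerSeries (ZMod p)) := by
      intro x
      rw [aeval_C]
      rfl
    simp only [map_mul, map_sub, map_add, map_pow, aeval_X, map_one, hC]
    ring
  have hsum := dvd_sum hdvdC
  rw [sum_sub_distrib, ← mul_sum, ← mul_sum, ← mul_sum, ← mul_sum] at hsum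
  have h2 := (pow_dvd_pow (PowerSeries.X : PowerSeries (ZMod p)) hN).trans hsum
  have h3 : (PowerSeries.X ^ N : PowerSeries (ZMod p)) ∣ aeval (EE p) (LLp p m) * (4 *
      ∑ s ∈ S, PowerSeries.C (lam s) * (PowerSeries.rescale (s.1 : ZMod p) (CC p) *
        PowerSeries.rescale (s.2 : ZMod p) (CC p))) := (hH.mul_left 4).mul_left _
  have h4 := (dvd_sub_right h3).mp h2
  have h5 : PowerSeries.C (D⁻¹ ^ 2) * (PowerSeries.C (D ^ 2) * (PowerSeries.X ^ 2 *
      aeval (EE p) (PPp p m S lam))) = PowerSeries.X ^ 2 * aeval (EE p) (PPp p m S lam) := by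
    rw [← mul_assoc, ← map_mul, ← mul_pow, inv_mul_cancel₀ hD0, one_pow, map_one, one_mul]
  rw [← h5]
  refine Dvd.dvd.mul_left ?_ _
  rw [PPp, map_sum]
  exact h4

lemma PPp_eq_zero (hp5 : 5 ≤ p) {m N : ℕ} (hN : N ≤ p) (hm : 3 ≤ m) (hmN : m ^ 2 ≤ N)
    (S : Finset (ℕ × ℕ)) (lam : ℕ × ℕ → ZMod p)
    (hS : ∀ s ∈ S, 1 ≤ s.2 ∧ s.2 < s.1 ∧ s.1 ≤ m)
    (hH : (PowerSeries.X ^ N : PowerSeries (ZMod p)) ∣ ∑ s ∈ S, PowerSeries.C (lam s) *
      (PowerSeries.rescale (s.1 : ZMod p) (CC p) * PowerSeries.rescale (s.2 : ZMod p) (CC p))) :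
    PPp p m S lam = 0 := by
  by_contra hP
  have h1 := PPp_vanish hp5 hN S lam hS hH
  obtain ⟨k, hk⟩ : ∃ k, N = 2 + k := ⟨N - 2, by nlinarith [Nat.sub_add_cancel (show 2 ≤ N by nlinarith)]⟩
  rw [hk, pow_add] at h1
  have h2 := (mul_dvd_mul_iff_left (pow_ne_zero 2 PowerSeries.X_ne_zero)).mp h1
  have h3 := order_bound _ hP h2
  have h4 := h3.trans (PPp_natDegree m S lam hS)
  have h5 : (∑ d ∈ Icc 1 m, d) * 2 = m * (m + 1) := by
    have : ∑ d ∈ Icc 1 m, d = ∑ d ∈ range (m + 1), d := by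
      rw [range_eq_Ico, sum_eq_sum_Ico_succ_bot (by omega : 0 < m + 1), zero_add]
      rfl
    rw [this, sum_range_id_mul_two, Nat.add_sub_cancel, mul_comm]
  nlinarith

end Poly

section Roots

open Polynomial

variable {p : ℕ} [hpF : Fact p.Prime] {K : Type*} [Field K] [Algebra (ZMod p) K]

lemma prod_insert_eval {m b : ℕ} (hb : 1 ≤ b) (hbm : b < m) {z : K} :
    aeval z (MMp p m m b) * (z ^ b - 1) = ∏ d ∈ Icc 1 (m - 1), (z ^ d - 1) := by
  have h1 : (Icc 1 m \ {m, b} : Finset ℕ) = (Icc 1 (m - 1)).erase b := by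
    ext x
    simp only [mem_sdiff, mem_Icc, mem_insert, mem_singleton, mem_erase]
    omega
  rw [MMp, map_prod, h1]
  simp only [map_sub, map_pow, aeval_X, map_one]
  exact prod_erase_mul _ _ (mem_Icc.mpr (by omega))

/-- The relation at a primitive `m`-th root of unity. -/
lemma root_relation (hp5 : 5 ≤ p) {m : ℕ} (hm : 3 ≤ m) (hmp : m < p) {z : K} (hz : IsPrimitiveRoot z m)
    (S : Finset (ℕ × ℕ)) (lam : ℕ × ℕ → ZMod p) (hS : ∀ s ∈ S, 1 ≤ s.2 ∧ s.2 < s.1 ∧ s.1 ≤ m)
    (hP : PPp p m S lam = 0) :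
    ∑ s ∈ S.filter (fun s => s.1 = m), algebraMap (ZMod p) K (lam s * s.2) *
      ((z ^ s.2 + 1) / (z ^ s.2 - 1)) = 0 := by
  have hzd : ∀ d, 1 ≤ d → d < m → z ^ d - 1 ≠ 0 := by
    intro d h1 h2 h3
    have h4 := (hz.pow_eq_one_iff_dvd d).mp (sub_eq_zero.mp h3)
    exact absurd (Nat.le_of_dvd h1 h4) (by omega)
  set W : K := ∏ d ∈ Icc 1 (m - 1), (z ^ d - 1) with hW
  have hW0 : W ≠ 0 := by
    rw [hW, prod_ne_zero_iff]
    intro d hd
    rw [mem_Icc] at hd
    exact hzd d hd.1 (by omega)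
  have hinj := (algebraMap (ZMod p) K).injective
  have hm0 : (algebraMap (ZMod p) K (m : ZMod p)) ≠ 0 := by
    rw [Ne, map_eq_zero, ZMod.natCast_eq_zero_iff]
    intro h
    exact absurd (Nat.le_of_dvd (by omega) h) (by omega)
  have h20 : (2 : K) ≠ 0 := by
    have h : (2 : ZMod p) ≠ 0 := by
      have : ((2 : ℕ) : ZMod p) ≠ 0 := by
        rw [Ne, ZMod.natCast_eq_zero_iff]
        intro h
        exact absurd (Nat.le_of_dvd (by omega) h) (by omega)
      exact_mod_cast this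
    have h' : algebraMap (ZMod p) K 2 ≠ 0 := by
      rw [Ne, map_eq_zero]; exact h
    rwa [map_ofNat] at h'
  have h1 : aeval z (PPp p m S lam) = 0 := by rw [hP, map_zero]
  rw [PPp, map_sum] at h1
  have h2 : ∑ s ∈ S, aeval z (C (lam s * s.1 * s.2) * ((X ^ s.1 + 1) * (X ^ s.2 + 1) * MMp p m s.1 s.2)) =
      ∑ s ∈ S.filter (fun s => s.1 = m), (algebraMap (ZMod p) K (m : ZMod p) * 2 * W) *
        (algebraMap (ZMod p) K (lam s * s.2) * ((z ^ s.2 + 1) / (z ^ s.2 - 1))) := by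
    rw [sum_filter]
    refine sum_congr rfl fun s hs => ?_
    obtain ⟨g1, g2, g3⟩ := hS s hs
    split_ifs with h
    · have h3 := prod_insert_eval (p := p) g1 (show s.2 < m by omega) (z := z)
      rw [← hW] at h3
      have h4 := hzd s.2 g1 (by omega)
      rw [← h3, h]
      simp only [map_mul, map_add, map_pow, aeval_X, map_one, aeval_C]
      rw [hz.pow_eq_one]
      field_simp
      ring
    · have h3 : aeval z (MMp p m s.1 s.2) = 0 := by
        rw [MMp, map_prod]
        apply prod_eq_zero (i := m)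
        · rw [mem_sdiff, mem_Icc, mem_insert, mem_singleton]
          omega
        · simp only [map_sub, map_pow, aeval_X, map_one]
          rw [hz.pow_eq_one, sub_self]
      simp only [map_mul, h3, mul_zero]
  rw [h2, ← mul_sum] at h1
  exact (mul_eq_zero.mp h1).resolve_left (mul_ne_zero (mul_ne_zero hm0 h20) hW0)

lemma geom_aux' (z : K) (n : ℕ) :
    (∑ k ∈ range n, (k : K) * z ^ k) * (z - 1) = n * z ^ n - z * ∑ k ∈ range n, z ^ k := by
  induction n with
  | zero => simp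
  | succ n ih =>
    rw [sum_range_succ, add_mul, ih, sum_range_succ]
    push_cast
    ring

/-- The Fourier expansion of `(ω+1)/(ω-1)` at an `l`-th root of unity `ω ≠ 1`. -/
lemma cot_expansion {l : ℕ} [hl : Fact l.Prime] {z : K} (hz1 : z ≠ 1) (hzl : z ^ l = 1) :
    ∑ u : ZMod l, (sfun l u : K) * z ^ u.val = l * ((z + 1) / (z - 1)) := by
  have hlpos : 0 < l := hl.out.pos
  have hgeom : ∑ k ∈ range l, z ^ k = 0 := by
    have := geom_sum_mul z l
    rw [hzl, sub_self] at this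
    exact (mul_eq_zero.mp this).resolve_right (sub_ne_zero.mpr hz1)
  have hsum : ∑ u : ZMod l, (sfun l u : K) * z ^ u.val =
      ∑ k ∈ range l, (if k = 0 then (0 : K) else 2 * (k : K) - l) * z ^ k := by
    rw [← Fin.sum_univ_eq_sum_range (fun k => (if k = 0 then (0 : K) else 2 * (k : K) - l) * z ^ k) l]
    have : NeZero l := ⟨hlpos.ne'⟩
    refine (Fintype.sum_equiv (ZMod.finEquiv l).toEquiv _ _ fun k => ?_).symm
    have hv : ((ZMod.finEquiv l).toEquiv k).val = (k : ℕ) := by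
      obtain ⟨m, rfl⟩ : ∃ m, l = m + 1 := ⟨l - 1, by omega⟩
      rfl
    rw [hv]
    unfold sfun
    by_cases hk : (k : ℕ) = 0
    · have : (ZMod.finEquiv l).toEquiv k = 0 := by
        rw [← ZMod.val_eq_zero, hv, hk]
      rw [if_pos hk, if_pos this]
      simp
    · have : (ZMod.finEquiv l).toEquiv k ≠ 0 := by
        intro h
        apply hk
        rw [← hv, h, ZMod.val_zero]
      rw [if_neg hk, if_neg this, hv]
      push_cast
      ring
  have hsum2 : ∑ k ∈ range l, (if k = 0 then (0 : K) else 2 * (k : K) - l) * z ^ k =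
      2 * ∑ k ∈ range l, (k : K) * z ^ k - l * ∑ k ∈ range l, z ^ k + l := by
    have e : ∀ k ∈ range l, (if k = 0 then (0 : K) else 2 * (k : K) - l) * z ^ k =
        2 * ((k : K) * z ^ k) - l * z ^ k + (if k = 0 then (l : K) else 0) := by
      intro k _
      by_cases hk : k = 0
      · subst hk; simp
      · rw [if_neg hk, if_neg hk]; ring
    rw [sum_congr rfl e, sum_add_distrib, sum_sub_distrib, ← mul_sum, ← mul_sum, sum_ite_eq',
      if_pos (mem_range.mpr hlpos)]
  have haux := geom_aux' z l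
  rw [hzl, hgeom, mul_zero, sub_zero, mul_one] at haux
  have hz1' : z - 1 ≠ 0 := sub_ne_zero.mpr hz1
  have hA : ∑ k ∈ range l, (k : K) * z ^ k = l / (z - 1) := by
    rw [eq_div_iff hz1', haux]
  rw [hsum, hsum2, hgeom, hA]
  field_simp
  ring

lemma sum_sfun_zero {l : ℕ} [hl : Fact l.Prime] (b : ZMod l) :
    ∑ t : ZMod l, sfun l (b * t) = 0 := by
  have h1 : ∑ t : ZMod l, sfun l (b * t) = ∑ t : ZMod l, sfun l (b * (-t)) :=
    (Equiv.sum_comp (Equiv.neg (ZMod l)) (fun t => sfun l (b * t))).symm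
  have h2 : ∑ t : ZMod l, sfun l (b * (-t)) = - ∑ t : ZMod l, sfun l (b * t) := by
    rw [← sum_neg_distrib]
    refine sum_congr rfl fun t _ => ?_
    rw [mul_neg, sfun_neg]
  omega

/-- A function on `ZMod l` whose Fourier transform over `K` vanishes is zero. -/
lemma fourier_injective {l : ℕ} [hl : Fact l.Prime] (f : ZMod l → ZMod p)
    {z : K} (hz : IsPrimitiveRoot z l)
    (h : ∀ k, k < l → ∑ t : ZMod l, algebraMap (ZMod p) K (f t) * (z ^ k) ^ t.val = 0) : ∀ t, f t = 0 := by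
  set G : K[X] := ∑ t : ZMod l, C (algebraMap (ZMod p) K (f t)) * X ^ t.val with hG
  have hdeg : G.natDegree < l := by
    have h1 : G.natDegree ≤ l - 1 := by
      refine natDegree_sum_le_of_forall_le _ _ fun t _ => ?_
      refine (natDegree_C_mul_X_pow_le _ _).trans ?_
      have := ZMod.val_lt t
      omega
    have := hl.out.pos
    omega
  have hG0 : G = 0 := by
    refine Polynomial.eq_zero_of_natDegree_lt_card_of_eval_eq_zero G (f := fun k : Fin l => z ^ (k : ℕ))
      ?_ ?_ ?_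
    · intro a b hab
      exact Fin.ext (hz.pow_inj a.2 b.2 hab)
    · intro k
      rw [hG, eval_finsetSum]
      simp only [eval_mul, eval_C, eval_pow, eval_X]
      exact h k k.2
    · rw [Fintype.card_fin]; exact hdeg
  intro t
  have h1 : G.coeff t.val = algebraMap (ZMod p) K (f t) := by
    rw [hG, finsetSum_coeff]
    simp only [coeff_C_mul, coeff_X_pow]
    rw [sum_eq_single t]
    · rw [if_pos rfl, mul_one]
    · intro s _ hs
      rw [if_neg, mul_zero]
      intro h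
      exact hs (ZMod.val_injective l h.symm)
    · intro h; exact absurd (mem_univ t) h
  rw [hG0, coeff_zero] at h1
  exact (map_eq_zero _).mp h1.symm

/-- From the relation at the roots of unity to the relation for the Maillet matrix. -/
lemma maillet_relation {l : ℕ} [hl : Fact l.Prime] {z : K} (hz : IsPrimitiveRoot z l)
    (B : Finset ℕ) (hB : ∀ b ∈ B, 1 ≤ b ∧ b < l) (μ : ℕ → ZMod p)
    (h : ∀ w : K, IsPrimitiveRoot w l →
      ∑ b ∈ B, algebraMap (ZMod p) K (μ b) * ((w ^ b + 1) / (w ^ b - 1)) = 0) :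
    ∀ t : ZMod l, ∑ b ∈ B, μ b * ((sfun l ((b : ZMod l)⁻¹ * t) : ℤ) : ZMod p) = 0 := by
  have hint : ∀ x : ℤ, algebraMap (ZMod p) K (x : ZMod p) = (x : K) := fun x => by simp
  apply fourier_injective (K := K) (l := l) _ hz
  intro k hk
  have hexp : ∑ t : ZMod l, algebraMap (ZMod p) K
      (∑ b ∈ B, μ b * ((sfun l ((b : ZMod l)⁻¹ * t) : ℤ) : ZMod p)) * (z ^ k) ^ t.val =
      ∑ b ∈ B, algebraMap (ZMod p) K (μ b) * ∑ t : ZMod l, (sfun l ((b : ZMod l)⁻¹ * t) : K) *
        (z ^ k) ^ t.val := by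
    simp only [map_sum, map_mul, hint, sum_mul, mul_sum]
    rw [sum_comm]
    refine sum_congr rfl fun b _ => sum_congr rfl fun t _ => ?_
    ring
  rw [hexp]
  rcases Nat.eq_zero_or_pos k with hk0 | hk0
  · subst hk0
    refine sum_eq_zero fun b _ => ?_
    simp only [pow_zero, one_pow, mul_one]
    rw [← Int.cast_sum, sum_sfun_zero, Int.cast_zero, mul_zero]
  · have hw : IsPrimitiveRoot (z ^ k) l := by
      apply hz.pow_of_coprime
      exact (Nat.coprime_of_lt_prime (by omega) hk hl.out).symm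
    rw [← mul_zero (l : K), ← h _ hw, mul_sum]
    refine sum_congr rfl fun b hb => ?_
    obtain ⟨hb1, hb2⟩ := hB b hb
    have hb0 : (b : ZMod l) ≠ 0 := natCast_ne_zero_of_lt hb1 hb2
    have hwb : (z ^ k) ^ b ≠ 1 := by
      intro h1
      have := (hw.pow_eq_one_iff_dvd b).mp h1
      exact absurd (Nat.le_of_dvd hb1 this) (by omega)
    have hwbl : ((z ^ k) ^ b) ^ l = 1 := by
      rw [← pow_mul, mul_comm, pow_mul, hw.pow_eq_one, one_pow]
    have h1 := cot_expansion (K := K) (l := l) hwb hwbl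
    have h2 : ∑ t : ZMod l, (sfun l ((b : ZMod l)⁻¹ * t) : K) * (z ^ k) ^ t.val =
        ∑ u : ZMod l, (sfun l u : K) * ((z ^ k) ^ b) ^ u.val := by
      rw [← Equiv.sum_comp (Equiv.mulLeft₀ (b : ZMod l) hb0)
        (fun t => (sfun l ((b : ZMod l)⁻¹ * t) : K) * (z ^ k) ^ t.val)]
      refine sum_congr rfl fun u _ => ?_
      rw [show (Equiv.mulLeft₀ (b : ZMod l) hb0) u = (b : ZMod l) * u from rfl, inv_mul_cancel_left₀ hb0]
      congr 1
      have h3 : ((b : ZMod l) * u).val % l = (b * u.val) % l := by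
        have h4 : ((b : ZMod l) * u) = ((b * u.val : ℕ) : ZMod l) := by
          push_cast
          rw [ZMod.natCast_zmod_val]
        rw [h4, ZMod.val_natCast, Nat.mod_mod]
      have h5 : ∀ n : ℕ, (z ^ k) ^ n = (z ^ k) ^ (n % l) := by
        intro n
        have := pow_mod_orderOf (z ^ k) n
        rw [← hw.eq_orderOf] at this
        exact this.symm
      rw [h5, h3, ← h5, pow_mul]
    rw [h2, h1]
    ring

end Roots

section Sumset

variable {p : ℕ} [hpF : Fact p.Prime]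

/-- The sums `n < N` of two even indices `i, j ≥ 0` with `p ∤ B_i B_j`. -/
noncomputable def XX (p N : ℕ) : Finset ℕ :=
  {n ∈ range N | ∃ i ≤ n, Even i ∧ Even (n - i) ∧ ¬ (p : ℤ) ∣ cB p i ∧ ¬ (p : ℤ) ∣ cB p (n - i)}

lemma coeff_CC_mul {N n : ℕ} (hn : n < N) (hX : n ∉ XX p N) (a b : ZMod p) :
    PowerSeries.coeff n (PowerSeries.rescale a (CC p) * PowerSeries.rescale b (CC p)) = 0 := by
  rw [PowerSeries.coeff_mul, Nat.sum_antidiagonal_eq_sum_range_succ_mk]
  refine sum_eq_zero fun i hi => ?_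
  rw [mem_range] at hi
  simp only [PowerSeries.coeff_rescale, CC, PowerSeries.coeff_mk]
  by_cases h1 : Even i ∧ i + 2 ≤ p
  · by_cases h2 : Even (n - i) ∧ n - i + 2 ≤ p
    · rw [if_pos h1, if_pos h2]
      have h3 : (p : ℤ) ∣ cB p i ∨ (p : ℤ) ∣ cB p (n - i) := by
        by_contra hcon
        push Not at hcon
        exact hX (mem_filter.mpr ⟨mem_range.mpr hn, i, by omega, h1.1, h2.1, hcon.1, hcon.2⟩)
      rcases h3 with h | h
      · rw [(ZMod.intCast_zmod_eq_zero_iff_dvd _ p).mpr h]; ring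
      · rw [(ZMod.intCast_zmod_eq_zero_iff_dvd _ p).mpr h]; ring
    · rw [if_neg h2]; ring
  · rw [if_neg h1]; ring

/-- **Many sums.** -/
theorem sumset_large (hp5 : 5 ≤ p) {N M : ℕ} (hN : N + 1 ≤ p) (hM : M ^ 2 ≤ N) :
    ∑ l ∈ (Icc 3 M).filter Nat.Prime, (l - 1) ≤ 4 * (XX p N).card := by
  classical
  set s := (Icc 3 M).filter Nat.Prime with hs
  have hex : ∀ l ∈ s, ∃ B : Finset ℕ, ∃ _ : Fact l.Prime, B ⊆ Icc 1 ((l - 1) / 2) ∧
      (l - 1) / 2 ≤ 2 * B.card ∧ ∀ μ : ℕ → ZMod p,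
      (∀ t : ZMod l, ∑ b ∈ B, μ b * ((sfun l ((b : ZMod l)⁻¹ * t) : ℤ) : ZMod p) = 0) →
        ∀ b ∈ B, μ b = 0 := by
    intro l hl
    rw [hs, mem_filter, mem_Icc] at hl
    have : Fact l.Prime := ⟨hl.2⟩
    have hodd : l % 2 = 1 := by
      rcases hl.2.eq_two_or_odd with h | h
      · omega
      · exact h
    have hlM : l * l ≤ M ^ 2 := by nlinarith
    obtain ⟨B, h1, h2, h3⟩ := maillet_mod (p := p) (l := l) (n := (l - 1) / 2) (by omega) (by omega)
      (by
        have h0 : (l - 1) / 2 ≤ l := by omega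
        have h1 := Nat.pow_le_pow_left h0 2
        nlinarith) (by
        rintro rfl
        nlinarith)
    exact ⟨B, this, h1, h2, h3⟩
  choose! Bf hBf using hex
  have hBf1 : ∀ l ∈ s, Bf l ⊆ Icc 1 ((l - 1) / 2) := fun l hl => (hBf l hl).choose_spec.1
  have hBf2 : ∀ l ∈ s, (l - 1) / 2 ≤ 2 * (Bf l).card := fun l hl => (hBf l hl).choose_spec.2.1
  set P : Finset (ℕ × ℕ) := s.biUnion fun l => (Bf l).image fun b => (l, b) with hP
  have hPmem : ∀ x, x ∈ P ↔ x.1 ∈ s ∧ x.2 ∈ Bf x.1 := by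
    rintro ⟨l, b⟩
    simp only [hP, mem_biUnion, mem_image, Prod.mk.injEq]
    constructor
    · rintro ⟨l', h1, b', h2, rfl, rfl⟩
      exact ⟨h1, h2⟩
    · rintro ⟨h1, h2⟩
      exact ⟨l, h1, b, h2, rfl, rfl⟩
  have hPcard : P.card = ∑ l ∈ s, (Bf l).card := by
    rw [hP, card_biUnion]
    · refine sum_congr rfl fun l _ => card_image_of_injective _ fun a b h => (Prod.mk.inj h).2
    · intro a _ b _ hab
      show Disjoint ((Bf a).image fun c => (a, c)) ((Bf b).image fun c => (b, c))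
      rw [disjoint_left]
      rintro ⟨x, y⟩ h1 h2
      simp only [mem_image, Prod.mk.injEq] at h1 h2
      obtain ⟨_, _, rfl, _⟩ := h1
      obtain ⟨_, _, rfl, _⟩ := h2
      exact hab rfl
  -- the linearly independent family
  set v : P → (XX p N → ZMod p) := fun x n => PowerSeries.coeff (n : ℕ)
    (PowerSeries.rescale ((x : ℕ × ℕ).1 : ZMod p) (CC p) *
      PowerSeries.rescale ((x : ℕ × ℕ).2 : ZMod p) (CC p)) with hv
  have hli : LinearIndependent (ZMod p) v := by
    rw [Fintype.linearIndependent_iff]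
    intro g hg
    set lam : ℕ × ℕ → ZMod p := fun x => if h : x ∈ P then g ⟨x, h⟩ else 0 with hlam
    by_contra hcon
    push Not at hcon
    obtain ⟨x0, hx0⟩ := hcon
    have hne : (P.filter fun x => lam x ≠ 0).Nonempty :=
      ⟨x0, mem_filter.mpr ⟨x0.2, by simp only [hlam]; rw [dif_pos x0.2]; exact hx0⟩⟩
    obtain ⟨x1, hx1, hmax⟩ := exists_max_image (P.filter fun x => lam x ≠ 0) (fun x => x.1) hne
    rw [mem_filter] at hx1
    set m := x1.1 with hm
    have hms : m ∈ s := ((hPmem _).mp hx1.1).1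
    obtain ⟨hFm, -, -, hBm⟩ := hBf m hms
    have hms' := hms
    rw [hs, mem_filter, mem_Icc] at hms'
    have hmM : m * m ≤ M ^ 2 := by nlinarith
    set S := P.filter fun x => x.1 ≤ m with hS
    have hSprop : ∀ x ∈ S, 1 ≤ x.2 ∧ x.2 < x.1 ∧ x.1 ≤ m := by
      intro x hx
      rw [hS, mem_filter] at hx
      obtain ⟨h1, h2⟩ := (hPmem _).mp hx.1
      have h3 := mem_Icc.mp (hBf1 _ h1 h2)
      rw [hs, mem_filter, mem_Icc] at h1
      omega
    have hdvd : (PowerSeries.X ^ N : PowerSeries (ZMod p)) ∣ ∑ x ∈ S, PowerSeries.C (lam x) *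
        (PowerSeries.rescale (x.1 : ZMod p) (CC p) * PowerSeries.rescale (x.2 : ZMod p) (CC p)) := by
      rw [PowerSeries.X_pow_dvd_iff]
      intro n hn
      rw [map_sum]
      simp only [PowerSeries.coeff_C_mul]
      by_cases hX : n ∈ XX p N
      · have h1 := congrFun hg ⟨n, hX⟩
        rw [Finset.sum_apply, Pi.zero_apply] at h1
        rw [← h1]
        have h2 : ∑ x ∈ S, lam x * PowerSeries.coeff n (PowerSeries.rescale (x.1 : ZMod p) (CC p) *
            PowerSeries.rescale (x.2 : ZMod p) (CC p)) =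
            ∑ x ∈ P, lam x * PowerSeries.coeff n (PowerSeries.rescale (x.1 : ZMod p) (CC p) *
            PowerSeries.rescale (x.2 : ZMod p) (CC p)) := by
          refine sum_subset (filter_subset _ _) fun x hx hxS => ?_
          have : lam x = 0 := by
            by_contra h
            have h3 := hmax x (mem_filter.mpr ⟨hx, h⟩)
            exact hxS (mem_filter.mpr ⟨hx, h3⟩)
          rw [this, zero_mul]
        rw [h2, ← sum_coe_sort P]
        refine sum_congr rfl fun x _ => ?_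
        simp only [hlam, hv, Pi.smul_apply, smul_eq_mul]
        rw [dif_pos x.2]
      · refine sum_eq_zero fun x _ => ?_
        rw [coeff_CC_mul hn hX, mul_zero]
    have hP0 := PPp_eq_zero hp5 (show N ≤ p by omega) hms'.1.1 (by nlinarith : m ^ 2 ≤ N) S lam hSprop hdvd
    -- primitive roots of unity
    have hmp : m < p := by nlinarith
    have hmK : NeZero ((m : ℕ) : AlgebraicClosure (ZMod p)) := by
      refine ⟨?_⟩
      rw [Ne, CharP.cast_eq_zero_iff (AlgebraicClosure (ZMod p)) p]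
      intro h
      exact absurd (Nat.le_of_dvd (by omega) h) (by omega)
    obtain ⟨z, hz⟩ := HasEnoughRootsOfUnity.exists_primitiveRoot (AlgebraicClosure (ZMod p)) m
    have hfilter : S.filter (fun x => x.1 = m) = (Bf m).image fun b => (m, b) := by
      ext ⟨l, b⟩
      rw [mem_filter, hS, mem_filter, hPmem, mem_image]
      constructor
      · rintro ⟨⟨⟨h1, h2⟩, h3⟩, h4⟩
        simp only at h4 h2
        subst h4
        exact ⟨b, h2, rfl⟩
      · rintro ⟨b', h1, h2⟩
        rw [Prod.mk.injEq] at h2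
        obtain ⟨rfl, rfl⟩ := h2
        exact ⟨⟨⟨hms, h1⟩, le_refl _⟩, rfl⟩
    have hrel : ∀ w : AlgebraicClosure (ZMod p), IsPrimitiveRoot w m →
        ∑ b ∈ Bf m, algebraMap (ZMod p) (AlgebraicClosure (ZMod p)) (lam (m, b) * (b : ZMod p)) *
          ((w ^ b + 1) / (w ^ b - 1)) = 0 := by
      intro w hw
      have h1 := root_relation hp5 hms'.1.1 hmp hw S lam hSprop hP0
      rw [hfilter, sum_image (fun a _ b _ h => (Prod.mk.inj h).2)] at h1
      exact h1
    have hB := hBm _ (maillet_relation hz (Bf m) (fun b hb => by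
      have h3 := mem_Icc.mp (hBf1 _ hms hb)
      omega) (fun b : ℕ => lam (m, b) * (b : ZMod p)) hrel)
    have h4 : x1.2 ∈ Bf m := ((hPmem _).mp hx1.1).2
    have h5 := hB _ h4
    have h6 := mem_Icc.mp (hBf1 _ hms h4)
    have h7 : ((x1.2 : ℕ) : ZMod p) ≠ 0 := by
      rw [Ne, ZMod.natCast_eq_zero_iff]
      intro h
      exact absurd (Nat.le_of_dvd h6.1 h) (by omega)
    exact hx1.2 ((mul_eq_zero.mp h5).resolve_right h7)
  have h1 := hli.fintype_card_le_finrank
  rw [Module.finrank_fintype_fun_eq_card, Fintype.card_coe, Fintype.card_coe, hPcard] at h1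
  calc ∑ l ∈ s, (l - 1) ≤ ∑ l ∈ s, 4 * (Bf l).card := by
        refine sum_le_sum fun l hl => ?_
        have h2 := hBf2 l hl
        rw [hs, mem_filter, mem_Icc] at hl
        have hodd : l % 2 = 1 := by
          rcases hl.2.eq_two_or_odd with h | h
          · omega
          · exact h
        omega
    _ = 4 * ∑ l ∈ s, (Bf l).card := by rw [mul_sum]
    _ ≤ _ := by omega

end Sumset

end Pool.Agent.Lib.MP_a3a416_nt
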