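import Pool.Agent.Lib.MP_a3a416_nt.Gap
import Pool.Agent.Lib.MP_a3a416_nt.Sparse

/-!
The three-term relation for products of Bernoulli numbers, and a lower bound for the number of ways
to write an irregular index as a sum of two regular ones.
-/

open Finset

namespace Pool.Agent.Lib.MP_a3a416_nt

section Rational

open PowerSeries

lemma rescale_exp_sub_one_ne_zero {x : ℚ} (hx : x ≠ 0) : (rescale x (exp ℚ) - 1 : ℚ⟦X⟧) ≠ 0 := by
  intro h
  have h2 := congrArg (coeff 1) h
  simp [coeff_exp, coeff_one, coeff_rescale] at h2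
  exact hx h2

/-- `(1+x) f(xt) f(t) = f((1+x)t) (f(xt) + x f(t) + x t)` with `f(t) = t/(e^t-1)`. -/
lemma three_term_series {x : ℚ} (hx : x ≠ 0) (hx1 : 1 + x ≠ 0) :
    C (1 + x) * (rescale x (bernoulliPowerSeries ℚ) * bernoulliPowerSeries ℚ) =
      rescale (1 + x) (bernoulliPowerSeries ℚ) *
        (rescale x (bernoulliPowerSeries ℚ) + C x * bernoulliPowerSeries ℚ + C x * X) := by
  set b := bernoulliPowerSeries ℚ with hb
  have h1 : b * (exp ℚ - 1) = X := bernoulliPowerSeries_mul_exp_sub_one ℚ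
  have h2 : rescale x b * (rescale x (exp ℚ) - 1) = C x * X := by
    have := congrArg (rescale x) h1
    rw [map_mul, map_sub, map_one, rescale_X] at this
    exact this
  have h3 : rescale (1 + x) b * (rescale (1 + x) (exp ℚ) - 1) = C (1 + x) * X := by
    have := congrArg (rescale (1 + x)) h1
    rw [map_mul, map_sub, map_one, rescale_X] at this
    exact this
  have hE : rescale (1 + x) (exp ℚ) = exp ℚ * rescale x (exp ℚ) := by
    have := exp_mul_exp_eq_exp_add (A := ℚ) 1 x
    rw [rescale_one, RingHom.id_apply] at this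
    exact this.symm
  have hne1 : (exp ℚ - 1 : ℚ⟦X⟧) ≠ 0 := by
    have := rescale_exp_sub_one_ne_zero (x := 1) one_ne_zero
    rwa [rescale_one, RingHom.id_apply] at this
  have hne2 := rescale_exp_sub_one_ne_zero hx
  have hne3 := rescale_exp_sub_one_ne_zero hx1
  rw [hE] at h3 hne3
  set E := rescale x (exp ℚ) with hEdef
  set G := exp ℚ with hG
  set a := rescale x b with ha
  set c := rescale (1 + x) b with hc
  have hkey : (C (1 + x) * (a * b) - c * (a + C x * b + C x * X)) *
      ((E - 1) * (G - 1) * (G * E - 1)) = 0 := by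
    have e1 : C (1 + x) * (a * b) * ((E - 1) * (G - 1) * (G * E - 1)) =
        C (1 + x) * (a * (E - 1)) * (b * (G - 1)) * (G * E - 1) := by ring
    have e2 : c * (a + C x * b + C x * X) * ((E - 1) * (G - 1) * (G * E - 1)) =
        (c * (G * E - 1)) * ((a * (E - 1)) * (G - 1) + C x * (b * (G - 1)) * (E - 1) +
          C x * X * ((E - 1) * (G - 1))) := by ring
    rw [sub_mul, e1, e2, h2, h1, h3]
    ring
  rcases mul_eq_zero.mp hkey with h | h
  · exact sub_eq_zero.mp h
  · exact absurd h (mul_ne_zero (mul_ne_zero hne2 hne1) hne3)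

lemma three_term_eval {x : ℚ} (hx : x ≠ 0) (hx1 : 1 + x ≠ 0) {n : ℕ} (hn : 1 ≤ n) :
    (1 + x) * ∑ i ∈ range (n + 1), (n.choose i : ℚ) * (bernoulli i * bernoulli (n - i)) * x ^ i =
      ∑ i ∈ range (n + 1), (n.choose i : ℚ) * (bernoulli i * bernoulli (n - i)) *
        ((1 + x) ^ i * (x ^ (n - i) + x)) + n * (x * (bernoulli (n - 1) * (1 + x) ^ (n - 1))) := by
  have h := congrArg (coeff n) (three_term_series hx hx1)
  rw [coeff_C_mul, mul_add, map_add, mul_left_comm (rescale (1 + x) (bernoulliPowerSeries ℚ)) (C x) X,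
    coeff_C_mul] at h
  obtain ⟨k, rfl⟩ : ∃ k, n = k + 1 := ⟨n - 1, by omega⟩
  rw [coeff_succ_mul_X, coeff_mul, coeff_mul, Nat.sum_antidiagonal_eq_sum_range_succ_mk,
    Nat.sum_antidiagonal_eq_sum_range_succ_mk] at h
  simp only [coeff_rescale, map_add, coeff_C_mul, bernoulliPowerSeries, coeff_mk, eq_ratCast,
    Rat.cast_id] at h
  have hm : ((k + 1).factorial : ℚ) ≠ 0 := by positivity
  have hch : ∀ i ∈ range (k + 1 + 1), ((k + 1).choose i : ℚ) =
      (k + 1).factorial / (i.factorial * (k + 1 - i).factorial) := by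
    intro i hi
    rw [mem_range] at hi
    rw [Nat.choose_eq_factorial_div_factorial (by omega : i ≤ k + 1),
      Nat.cast_div (Nat.factorial_mul_factorial_dvd_factorial (by omega)) (by positivity)]
    push_cast
    rfl
  have h2 : ∑ i ∈ range (k + 1 + 1), ((k + 1).choose i : ℚ) * (bernoulli i * bernoulli (k + 1 - i)) * x ^ i
      = (k + 1).factorial * ∑ i ∈ range (k + 1 + 1), x ^ i * (bernoulli i / i.factorial) *
        (bernoulli (k + 1 - i) / (k + 1 - i).factorial) := by
    rw [mul_sum]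
    refine sum_congr rfl fun i hi => ?_
    rw [hch i hi]
    ring
  have h3 : ∑ i ∈ range (k + 1 + 1), ((k + 1).choose i : ℚ) * (bernoulli i * bernoulli (k + 1 - i)) *
      ((1 + x) ^ i * (x ^ (k + 1 - i) + x))
      = (k + 1).factorial * ∑ i ∈ range (k + 1 + 1), (1 + x) ^ i * (bernoulli i / i.factorial) *
        (x ^ (k + 1 - i) * (bernoulli (k + 1 - i) / (k + 1 - i).factorial) +
          x * (bernoulli (k + 1 - i) / (k + 1 - i).factorial)) := by
    rw [mul_sum]
    refine sum_congr rfl fun i hi => ?_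
    rw [hch i hi]
    ring
  rw [h2, h3]
  have h4 : ((k + 1 : ℕ) : ℚ) * (x * (bernoulli (k + 1 - 1) * (1 + x) ^ (k + 1 - 1))) =
      (k + 1).factorial * (x * ((1 + x) ^ k * (bernoulli k / k.factorial))) := by
    rw [Nat.add_sub_cancel, Nat.factorial_succ]
    have : (k.factorial : ℚ) ≠ 0 := by positivity
    push_cast
    field_simp
  rw [h4]
  linear_combination ((k + 1).factorial : ℚ) * h

end Rational

section Mod

open Polynomial

/-- The three-term relation for the integers `D B_i`, as an identity in `ℤ[X]`. -/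
lemma three_term_int {p : ℕ} (hp5 : 5 ≤ p) {n : ℕ} (hn4 : 4 ≤ n) (hev : Even n) (hnp : n + 2 ≤ p) :
    (1 + X : ℤ[X]) * ∑ i ∈ range (n + 1), C ((n.choose i : ℤ) * (cB p i * cB p (n - i))) * X ^ i =
      ∑ i ∈ range (n + 1), C ((n.choose i : ℤ) * (cB p i * cB p (n - i))) *
        ((1 + X) ^ i * (X ^ (n - i) + X)) := by
  apply map_injective (Int.castRingHom ℚ) Int.cast_injective
  apply Polynomial.eq_of_infinite_eval_eq
  have hinf : Set.Infinite (Set.range (fun k : ℕ => ((k : ℚ) + 1))) :=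
    Set.infinite_range_of_injective (fun a b h => by simpa using h)
  refine hinf.mono ?_
  rintro x ⟨k, hk⟩
  rw [Set.mem_ofPred_eq]
  have hx0 : x ≠ 0 := by rw [← hk]; positivity
  have hx1 : 1 + x ≠ 0 := by rw [← hk]; positivity
  have h := three_term_eval hx0 hx1 (show 1 ≤ n by omega)
  have hB : _root_.bernoulli (n - 1) = 0 := by
    apply bernoulli_eq_zero_of_odd
    · obtain ⟨j, hj⟩ := hev
      exact ⟨j - 1, by omega⟩
    · omega
  rw [hB, zero_mul, mul_zero, mul_zero, add_zero] at h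
  set D : ℚ := (primorial (p - 1) : ℚ) with hD
  have hc : ∀ i ∈ range (n + 1), ((cB p i : ℚ)) * (cB p (n - i) : ℚ) =
      D ^ 2 * (_root_.bernoulli i * _root_.bernoulli (n - i)) := by
    intro i hi
    rw [mem_range] at hi
    rw [cB_spec hp5 (by omega), cB_spec hp5 (by omega)]
    ring
  simp only [Polynomial.map_mul, Polynomial.map_add, Polynomial.map_one, map_X, Polynomial.map_sum,
    Polynomial.map_pow, map_C, eval_mul, eval_add, eval_one, eval_X, eval_finsetSum, eval_C, eval_pow,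
    Int.coe_castRingHom, Int.cast_mul, Int.cast_natCast]
  have e1 : ∑ i ∈ range (n + 1), (n.choose i : ℚ) * ((cB p i : ℚ) * (cB p (n - i) : ℚ)) * x ^ i =
      D ^ 2 * ∑ i ∈ range (n + 1), (n.choose i : ℚ) * (_root_.bernoulli i * _root_.bernoulli (n - i)) * x ^ i := by
    rw [mul_sum]
    refine sum_congr rfl fun i hi => ?_
    rw [hc i hi]; ring
  have e2 : ∑ i ∈ range (n + 1), (n.choose i : ℚ) * ((cB p i : ℚ) * (cB p (n - i) : ℚ)) *
      ((1 + x) ^ i * (x ^ (n - i) + x)) =
      D ^ 2 * ∑ i ∈ range (n + 1), (n.choose i : ℚ) * (_root_.bernoulli i * _root_.bernoulli (n - i)) *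
        ((1 + x) ^ i * (x ^ (n - i) + x)) := by
    rw [mul_sum]
    refine sum_congr rfl fun i hi => ?_
    rw [hc i hi]; ring
  rw [e1, e2]
  linear_combination D ^ 2 * h

variable {p : ℕ} [hpF : Fact p.Prime]

/-- The set of `i` such that `p` divides neither `B_i` nor `B_(n-i)`. -/
noncomputable def SS (p n : ℕ) : Finset ℕ :=
  {i ∈ Icc 2 (n - 2) | ¬ (p : ℤ) ∣ cB p i ∧ ¬ (p : ℤ) ∣ cB p (n - i)}

lemma natCast_inj_of_lt {a b : ℕ} (ha : a < p) (hb : b < p) (h : (a : ZMod p) = (b : ZMod p)) :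
    a = b := by
  rw [ZMod.natCast_eq_natCast_iff'] at h
  rwa [Nat.mod_eq_of_lt ha, Nat.mod_eq_of_lt hb] at h

/-- **Many representations.** If `p ∣ B_n` and `n` is a sum of two regular indices, then it is in at
least `√(n-2) / 3` ways. -/
theorem many_representations (hp5 : 5 ≤ p) {n : ℕ} (hn4 : 4 ≤ n) (hev : Even n) (hnp : n + 2 ≤ p)
    (hirr : (p : ℤ) ∣ cB p n) (hne : (SS p n).Nonempty) : n ≤ 9 * (SS p n).card ^ 2 + 2 := by
  classical
  set a : ℕ → ZMod p := fun i => (n.choose i : ZMod p) * ((cB p i : ZMod p) * (cB p (n - i) : ZMod p))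
    with ha
  have hZ : ∀ z : ℤ, (z : ZMod p) = 0 ↔ (p : ℤ) ∣ z := fun z => ZMod.intCast_zmod_eq_zero_iff_dvd z p
  -- the identity mod `p`
  have h1 : (1 + X : (ZMod p)[X]) * ∑ i ∈ range (n + 1), a i • X ^ i =
      ∑ i ∈ range (n + 1), a i • ((1 + X) ^ i * (X ^ (n - i) + X)) := by
    have := congrArg (Polynomial.map (Int.castRingHom (ZMod p))) (three_term_int hp5 hn4 hev hnp)
    simp only [Polynomial.map_mul, Polynomial.map_add, Polynomial.map_one, map_X, Polynomial.map_sum,
      Polynomial.map_pow, map_C, Int.coe_castRingHom, Int.cast_mul, Int.cast_natCast] at this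
    simp only [ha, smul_eq_C_mul]
    exact this
  -- vanishing outside `SS`
  have hz : ∀ i ∈ range (n + 1), i ∉ SS p n → a i = 0 := by
    intro i hi hiS
    rw [mem_range] at hi
    simp only [ha]
    by_cases hi2 : 2 ≤ i ∧ i ≤ n - 2
    · have : (p : ℤ) ∣ cB p i ∨ (p : ℤ) ∣ cB p (n - i) := by
        by_contra hcon
        push Not at hcon
        exact hiS (mem_filter.mpr ⟨mem_Icc.mpr hi2, hcon⟩)
      rcases this with h | h
      · rw [(hZ _).mpr h, zero_mul, mul_zero]
      · rw [(hZ _).mpr h, mul_zero, mul_zero]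
    · have : i = 0 ∨ i = 1 ∨ i = n - 1 ∨ i = n := by omega
      have hodd : Odd (n - 1) := by
        obtain ⟨j, hj⟩ := hev
        exact ⟨j - 1, by omega⟩
      have hB : cB p (n - 1) = 0 := cB_odd hp5 (by omega) hodd (by omega)
      rcases this with rfl | rfl | rfl | rfl
      · rw [Nat.sub_zero, (hZ _).mpr hirr, mul_zero, mul_zero]
      · rw [hB, Int.cast_zero, mul_zero, mul_zero]
      · rw [hB, Int.cast_zero, zero_mul, mul_zero]
      · rw [(hZ _).mpr hirr, zero_mul, mul_zero]
  have hsub : SS p n ⊆ range (n + 1) := by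
    intro i hi
    have := (mem_Icc.mp (mem_filter.mp hi).1)
    rw [mem_range]; omega
  have hsum : ∀ g : ℕ → (ZMod p)[X], ∑ i ∈ range (n + 1), a i • g i = ∑ i ∈ SS p n, a i • g i := by
    intro g
    symm
    refine sum_subset hsub fun i hi hiS => ?_
    rw [hz i hi hiS, zero_smul]
  rw [hsum, hsum] at h1
  -- the reindexed set
  have hmem : ∀ i ∈ SS p n, 2 ≤ i ∧ i ≤ n - 2 := fun i hi => mem_Icc.mp (mem_filter.mp hi).1
  set S : Finset ℕ := (SS p n).image (fun i => i - 1) with hS
  have hinj : Set.InjOn (fun i => i - 1) (SS p n : Set ℕ) := by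
    intro x hx y hy hxy
    have h2 := hmem x hx
    have h3 := hmem y hy
    simp only at hxy
    omega
  have hcard : S.card = (SS p n).card := card_image_of_injOn hinj
  have hfac : ∀ i ≤ n, (n.choose i : ZMod p) ≠ 0 := by
    intro i hi
    rw [Ne, ZMod.natCast_eq_zero_iff]
    intro hd
    have hlt := Nat.choose_pos hi
    have h2 : p ∣ n.factorial := by
      rw [← Nat.choose_mul_factorial_mul_factorial hi]
      exact (hd.mul_right _).mul_right _
    have := (hpF.out.dvd_factorial).mp h2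
    omega
  have key := period_bound (F := ZMod p) (P := p) (fun a b ha hb h => natCast_inj_of_lt ha hb h)
    (w := n - 2) (by omega) S ?_ ?_ (fun i => a (i + 1)) ?_ ?_ (hne.image _)
  · rw [hcard] at key
    omega
  · intro i hi
    obtain ⟨j, hj, rfl⟩ := mem_image.mp hi
    have := hmem j hj
    omega
  · intro i hi
    obtain ⟨j, hj, rfl⟩ := mem_image.mp hi
    have h2 := hmem j hj
    refine mem_image.mpr ⟨n - j, ?_, by omega⟩
    have h3 := (mem_filter.mp hj).2
    refine mem_filter.mpr ⟨mem_Icc.mpr (by omega), h3.2, ?_⟩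
    rw [Nat.sub_sub_self (by omega)]
    exact h3.1
  · intro i hi
    obtain ⟨j, hj, rfl⟩ := mem_image.mp hi
    have h2 := hmem j hj
    have h3 := (mem_filter.mp hj).2
    have e1 : j - 1 + 1 = j := by omega
    simp only [e1, ha]
    refine mul_ne_zero (hfac j (by omega)) (mul_ne_zero ?_ ?_)
    · rw [Ne, hZ]; exact h3.1
    · rw [Ne, hZ]; exact h3.2
  · rw [hS, sum_image hinj]
    have hXX : (X * (1 + X) : (ZMod p)[X]) ≠ 0 := mul_ne_zero X_ne_zero one_add_X_ne_zero
    apply mul_left_cancel₀ hXX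
    rw [mul_zero, mul_sum]
    have h2 : ∑ i ∈ SS p n, a i • ((1 + X : (ZMod p)[X]) * X ^ i - (1 + X) ^ i * (X ^ (n - i) + X)) = 0 := by
      simp only [smul_sub, sum_sub_distrib]
      rw [← h1, mul_sum, sub_eq_zero]
      refine sum_congr rfl fun i _ => ?_
      rw [mul_smul_comm]
    rw [← h2]
    refine sum_congr rfl fun j hj => ?_
    have h3 := hmem j hj
    obtain ⟨t, rfl⟩ : ∃ t, j = t + 1 := ⟨j - 1, by omega⟩
    obtain ⟨s, hs⟩ : ∃ s, n = s + (t + 1) + 1 := ⟨n - (t + 1) - 1, by omega⟩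
    have e2 : n - 2 - (t + 1 - 1) = s := by omega
    have e3 : n - (t + 1) = s + 1 := by omega
    rw [Nat.add_sub_cancel, mul_smul_comm]
    simp only [Nat.add_sub_cancel] at e2
    rw [e2, e3]
    congr 1
    ring

end Mod

end Pool.Agent.Lib.MP_a3a416_nt
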