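import Pool.Agent.Lib.MP_a3a416_nt.SumsetDim
import Pool.Agent.Lib.MP_a3a416_nt.ThreeTerm
import Pool.Agent.Lib.MP_a3a416_nt.ChebLower

/-!
Counting: the number of regular indices up to `K` is at least `c (K / log K)^(3/4)`.
-/

open Finset

namespace Pool.Agent.Lib.MP_a3a416_nt

variable {p : ℕ} [hpF : Fact p.Prime]

omit hpF in
lemma mem_XX {N n : ℕ} : n ∈ XX p N ↔ n < N ∧ ∃ i ≤ n, Even i ∧ Even (n - i) ∧ ¬ (p : ℤ) ∣ cB p i ∧
    ¬ (p : ℤ) ∣ cB p (n - i) := by
  rw [XX, mem_filter, mem_range]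

/-- Counting representations. -/
lemma energy (hp5 : 5 ≤ p) {K : ℕ} (hK : 2 * K + 3 ≤ p) (n0 : ℕ) :
    (((XX p (2 * K + 1)).card : ℝ) - ((regIdx p K).card + 1) - n0) * √((n0 - 2) / 9) ≤
      ((regIdx p K).card : ℝ) ^ 2 := by
  classical
  set R := (regIdx p K).card with hR
  set X := XX p (2 * K + 1) with hX
  set Rg := (Icc 2 (2 * K)).filter (fun n => ¬ (p : ℤ) ∣ cB p n) with hRg
  have hRgc : Rg.card = R := card_regular_cB hp5 (by omega)
  set X2 := X.filter (fun n => (p : ℤ) ∣ cB p n ∧ n0 ≤ n) with hX2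
  have hcard : X.card ≤ (R + 1) + n0 + X2.card := by
    have hsub : X ⊆ (insert 0 Rg ∪ range n0) ∪ X2 := by
      intro n hn
      have hn' := hn
      rw [hX, mem_XX] at hn'
      obtain ⟨hnN, i, hi, he1, he2, h1, h2⟩ := hn'
      by_cases hd : (p : ℤ) ∣ cB p n
      · by_cases hn0 : n0 ≤ n
        · exact mem_union_right _ (mem_filter.mpr ⟨hn, hd, hn0⟩)
        · exact mem_union_left _ (mem_union_right _ (mem_range.mpr (by omega)))
      · apply mem_union_left
        apply mem_union_left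
        have hev : Even n := by
          have := he1.add he2
          rwa [Nat.add_sub_cancel' hi] at this
        rcases Nat.eq_zero_or_pos n with h0 | h0
        · exact mem_insert.mpr (Or.inl h0)
        · refine mem_insert.mpr (Or.inr (mem_filter.mpr ⟨mem_Icc.mpr ⟨?_, by omega⟩, hd⟩))
          obtain ⟨j, hj⟩ := hev
          omega
    refine (card_le_card hsub).trans ?_
    refine (card_union_le _ _).trans ?_
    have h1 := card_union_le (insert 0 Rg) (range n0)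
    have h2 := card_insert_le 0 Rg
    rw [card_range] at h1
    omega
  have hSS : ∀ n ∈ X2, √(((n0 : ℝ) - 2) / 9) ≤ ((SS p n).card : ℝ) := by
    intro n hn
    rw [hX2, mem_filter, hX, mem_XX] at hn
    obtain ⟨⟨hnN, i, hi, he1, he2, h1, h2⟩, hd, hn0⟩ := hn
    have hev : Even n := by
      have := he1.add he2
      rwa [Nat.add_sub_cancel' hi] at this
    have hi0 : i ≠ 0 := by
      rintro rfl
      rw [Nat.sub_zero] at h2
      exact h2 hd
    have hin : i ≠ n := by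
      rintro rfl
      exact h1 hd
    have hi2 : 2 ≤ i := by
      obtain ⟨j, hj⟩ := he1
      omega
    have hni2 : 2 ≤ n - i := by
      obtain ⟨j, hj⟩ := he2
      omega
    have hne : (SS p n).Nonempty := ⟨i, mem_filter.mpr ⟨mem_Icc.mpr (by omega), h1, h2⟩⟩
    have h3 := many_representations (p := p) hp5 (by omega) hev (by omega) hd hne
    apply Real.sqrt_le_iff.mpr
    refine ⟨by positivity, ?_⟩
    have h4 : (n0 : ℝ) ≤ 9 * ((SS p n).card : ℝ) ^ 2 + 2 := by
      exact_mod_cast hn0.trans h3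
    linarith
  have hsum : ∑ n ∈ X2, (SS p n).card ≤ R ^ 2 := by
    rw [← card_sigma, pow_two, ← hRgc, ← card_product]
    apply card_le_card_of_injOn (fun x => (x.2, x.1 - x.2))
    · rintro ⟨n, i⟩ hx
      have hx := mem_sigma.mp (mem_coe.mp hx)
      simp only at hx
      obtain ⟨hn, hi⟩ := hx
      rw [hX2, mem_filter, hX, mem_XX] at hn
      obtain ⟨⟨hnN, i', hi', he1, he2, h1, h2⟩, hd, hn0⟩ := hn
      rw [SS, mem_filter, mem_Icc] at hi
      rw [mem_coe, mem_product, hRg, mem_filter, mem_filter, mem_Icc, mem_Icc]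
      simp only
      refine ⟨⟨by omega, hi.2.1⟩, ⟨by omega, hi.2.2⟩⟩
    · rintro ⟨n, i⟩ hx ⟨m, j⟩ hy hxy
      have hx := (mem_sigma.mp (mem_coe.mp hx)).2
      have hy := (mem_sigma.mp (mem_coe.mp hy)).2
      simp only at hx hy
      rw [SS, mem_filter, mem_Icc] at hx hy
      simp only [Prod.mk.injEq] at hxy
      obtain ⟨rfl, h2⟩ := hxy
      have : n = m := by omega
      subst this
      rfl
  have h1 : (X2.card : ℝ) * √(((n0 : ℝ) - 2) / 9) ≤ (R : ℝ) ^ 2 := by
    calc (X2.card : ℝ) * √(((n0 : ℝ) - 2) / 9) = ∑ n ∈ X2, √(((n0 : ℝ) - 2) / 9) := by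
          rw [sum_const, nsmul_eq_mul]
      _ ≤ ∑ n ∈ X2, ((SS p n).card : ℝ) := sum_le_sum hSS
      _ ≤ (R : ℝ) ^ 2 := by exact_mod_cast hsum
  refine le_trans (mul_le_mul_of_nonneg_right ?_ (Real.sqrt_nonneg _)) h1
  have h2 : (X.card : ℝ) ≤ ((R : ℝ) + 1) + n0 + X2.card := by exact_mod_cast hcard
  linarith

/-- `R ≥ |T+T|^(3/4) / 7`. -/
lemma card_rpow_le (hp5 : 5 ≤ p) {K : ℕ} (hK1 : 1 ≤ K) (hK : 2 * K + 3 ≤ p) :
    ((XX p (2 * K + 1)).card : ℝ) ^ (3 / 4 : ℝ) ≤ 7 * ((regIdx p K).card : ℝ) := by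
  set R : ℝ := ((regIdx p K).card : ℝ) with hR
  set d : ℝ := ((XX p (2 * K + 1)).card : ℝ) with hd
  have hd0 : 0 ≤ d := Nat.cast_nonneg _
  have hR1 : 1 ≤ R := by
    have : 1 ≤ (regIdx p K).card := by
      rw [Nat.one_le_iff_ne_zero, ← Nat.pos_iff_ne_zero, card_pos]
      exact ⟨1, mem_regIdx.mpr ⟨⟨le_rfl, hK1⟩, not_dvd_bernoulli_two hp5⟩⟩
    rw [hR]
    exact_mod_cast this
  set u : ℝ := d ^ (1 / 4 : ℝ) with hu
  have hu0 : 0 ≤ u := Real.rpow_nonneg hd0 _
  have hu4 : u ^ 4 = d := by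
    rw [hu, ← Real.rpow_natCast, ← Real.rpow_mul hd0]
    norm_num
  have hu3 : d ^ (3 / 4 : ℝ) = u ^ 3 := by
    rw [hu, ← Real.rpow_natCast, ← Real.rpow_mul hd0]
    norm_num
  rw [hu3]
  rcases lt_or_ge d 12 with h12 | h12
  · -- small
    have : u ^ 3 ≤ 7 := by
      by_contra hcon
      push Not at hcon
      have h1 : (19 / 10 : ℝ) < u := by
        by_contra h
        push Not at h
        have := pow_le_pow_left₀ hu0 h 3
        norm_num at this
        linarith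
      have h2 : u ^ 4 = u ^ 3 * u := by ring
      nlinarith
    linarith
  · have hu1 : 1 ≤ u := by
      by_contra h
      push Not at h
      have := pow_lt_one₀ hu0 h (by norm_num : (4 : ℕ) ≠ 0)
      linarith
    rcases lt_or_ge (d / 4) (R + 1) with h | h
    · -- `R` is large
      have h1 : d / 6 ≤ R := by linarith
      have h2 : u ^ 3 ≤ d := by
        rw [← hu4]
        exact pow_le_pow_right₀ hu1 (by norm_num)
      linarith
    · have hen := energy (p := p) hp5 hK ⌊d / 2⌋₊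
      rw [← hd, ← hR] at hen
      have hfl1 : (⌊d / 2⌋₊ : ℝ) ≤ d / 2 := Nat.floor_le (by positivity)
      have hfl2 : d / 2 < ⌊d / 2⌋₊ + 1 := Nat.lt_floor_add_one _
      have h1 : u ^ 2 / 6 ≤ √(((⌊d / 2⌋₊ : ℝ) - 2) / 9) := by
        apply Real.le_sqrt_of_sq_le
        have : (u ^ 2 / 6) ^ 2 = d / 36 := by rw [← hu4]; ring
        rw [this]
        linarith
      have h2 : d / 4 ≤ d - (R + 1) - ⌊d / 2⌋₊ := by linarith
      have h3 : (d / 4) * (u ^ 2 / 6) ≤ R ^ 2 :=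
        (mul_le_mul h2 h1 (by positivity) (by linarith)).trans hen
      have h4 : (u ^ 3 / 7) ^ 2 ≤ R ^ 2 := by
        refine le_trans ?_ h3
        rw [← hu4]
        have : 0 ≤ u ^ 6 := by positivity
        nlinarith
      have h5 := (pow_le_pow_iff_left₀ (by positivity) (by linarith) two_ne_zero).mp h4
      linarith

/-- **Main theorem.** -/
theorem three_quarters : ∃ c : ℝ, 0 < c ∧ ∀ p : ℕ, p.Prime → ∀ K : ℕ, 2 ≤ K → 2 * K + 3 ≤ p →
    c * ((K : ℝ) / Real.log K) ^ (3 / 4 : ℝ) ≤ ((regIdx p K).card : ℝ) := by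
  obtain ⟨c, hc, hsum⟩ := sum_primes_ge
  refine ⟨min (1 / 3) ((c / 8) ^ (3 / 4 : ℝ) / 7), by positivity, ?_⟩
  intro p hp K hK2 hK
  have hpF : Fact p.Prime := ⟨hp⟩
  have hp5 : 5 ≤ p := by omega
  have hK2' : (2 : ℝ) ≤ K := by exact_mod_cast hK2
  have hlogK : 0 < Real.log K := Real.log_pos (by linarith)
  have hq : 0 ≤ (K : ℝ) / Real.log K := by positivity
  set R : ℝ := ((regIdx p K).card : ℝ) with hR
  have hR1 : 1 ≤ R := by
    have : 1 ≤ (regIdx p K).card := by
      rw [Nat.one_le_iff_ne_zero, ← Nat.pos_iff_ne_zero, card_pos]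
      exact ⟨1, mem_regIdx.mpr ⟨⟨le_rfl, by omega⟩, not_dvd_bernoulli_two hp5⟩⟩
    rw [hR]
    exact_mod_cast this
  rcases Nat.lt_or_ge K 4 with h4 | h4
  · -- `K ≤ 3`
    have h1 : (K : ℝ) / Real.log K ≤ 3 := by
      rw [div_le_iff₀ hlogK]
      have h2 : (69 / 100 : ℝ) ≤ Real.log 2 := by linarith [Real.log_two_gt_d9]
      have h3 : (1 : ℝ) ≤ Real.log 3 := by
        rw [Real.le_log_iff_exp_le (by norm_num)]
        linarith [Real.exp_one_lt_d9]
      interval_cases K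
      · push_cast; linarith
      · push_cast; linarith
    have h2 : ((K : ℝ) / Real.log K) ^ (3 / 4 : ℝ) ≤ 3 := by
      calc ((K : ℝ) / Real.log K) ^ (3 / 4 : ℝ) ≤ (3 : ℝ) ^ (3 / 4 : ℝ) :=
            Real.rpow_le_rpow hq h1 (by norm_num)
        _ ≤ (3 : ℝ) ^ (1 : ℝ) := Real.rpow_le_rpow_of_exponent_le (by norm_num) (by norm_num)
        _ = 3 := Real.rpow_one 3
    have h3 : (min (1 / 3) ((c / 8) ^ (3 / 4 : ℝ) / 7)) * ((K : ℝ) / Real.log K) ^ (3 / 4 : ℝ) ≤
        1 / 3 * 3 := by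
      apply mul_le_mul (min_le_left _ _) h2 (Real.rpow_nonneg hq _) (by norm_num)
    linarith
  · -- `K ≥ 4`
    set M := Nat.sqrt (2 * K + 1) with hM
    have hM1 : M ^ 2 ≤ 2 * K + 1 := Nat.sqrt_le' _
    have hM2 : 2 * K + 1 < (M + 1) ^ 2 := Nat.lt_succ_sqrt' _
    have hM3 : 3 ≤ M := by
      by_contra h
      push Not at h
      have := Nat.pow_le_pow_left (show M + 1 ≤ 3 by omega) 2
      omega
    have hMK : M ≤ K := by
      by_contra h
      push Not at h
      have := Nat.pow_le_pow_left (show K + 1 ≤ M by omega) 2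
      nlinarith
    have hM3' : (3 : ℝ) ≤ M := by exact_mod_cast hM3
    have h1 := hsum M hM3
    have h2 := sumset_large (p := p) hp5 (N := 2 * K + 1) (M := M) (by omega) hM1
    set d : ℝ := ((XX p (2 * K + 1)).card : ℝ) with hd
    have h3 : ∑ l ∈ (Icc 3 M).filter Nat.Prime, ((l : ℝ) - 1) ≤ 4 * d := by
      have h4 : ∑ l ∈ (Icc 3 M).filter Nat.Prime, ((l : ℝ) - 1) =
          ((∑ l ∈ (Icc 3 M).filter Nat.Prime, (l - 1) : ℕ) : ℝ) := by
        push_cast
        refine sum_congr rfl fun l hl => ?_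
        rw [mem_filter, mem_Icc] at hl
        rw [Nat.cast_sub (by omega), Nat.cast_one]
      rw [h4, hd]
      exact_mod_cast h2
    have h5 : (K : ℝ) / 2 ≤ (M : ℝ) ^ 2 := by
      have h6 : (2 * (K : ℝ) + 1) < ((M : ℝ) + 1) ^ 2 := by exact_mod_cast hM2
      nlinarith
    have hlogM : 0 < Real.log M := Real.log_pos (by linarith)
    have hlogMK : Real.log M ≤ Real.log K := Real.log_le_log (by linarith) (by exact_mod_cast hMK)
    have h7 : (K : ℝ) / Real.log K / 2 ≤ (M : ℝ) ^ 2 / Real.log M := by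
      rw [div_div, mul_comm, ← div_div]
      exact div_le_div₀ (by positivity) h5 hlogM hlogMK
    have h8 : c / 8 * ((K : ℝ) / Real.log K) ≤ d := by
      have := mul_le_mul_of_nonneg_left h7 hc.le
      linarith
    have h9 := Real.rpow_le_rpow (by positivity) h8 (show (0 : ℝ) ≤ 3 / 4 by norm_num)
    rw [Real.mul_rpow (by positivity) hq] at h9
    have h10 := card_rpow_le (p := p) hp5 (K := K) (by omega) hK
    rw [← hd, ← hR] at h10
    have h11 : min (1 / 3) ((c / 8) ^ (3 / 4 : ℝ) / 7) * ((K : ℝ) / Real.log K) ^ (3 / 4 : ℝ) ≤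
        ((c / 8) ^ (3 / 4 : ℝ) / 7) * ((K : ℝ) / Real.log K) ^ (3 / 4 : ℝ) :=
      mul_le_mul_of_nonneg_right (min_le_right _ _) (Real.rpow_nonneg hq _)
    linarith

end Pool.Agent.Lib.MP_a3a416_nt
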