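import Pool.Agent.Lib.MP_a3a416_nt.TwoSumNonvan

/-!
Fourier analysis modulo `3^n`: if all the sums `∑ c(z^b) ψ(z)` vanish then `ψ` is invariant under
multiplication by a cube root of unity, on primitive `3^n`-th roots of unity.
-/

open Finset

namespace Pool.Agent.Lib.MP_a3a416_nt

section Shift

variable {p : ℕ} [hpF : Fact p.Prime] {K : Type*} [Field K] [CharP K p]

omit hpF in
omit [CharP K p] in
lemma SD_eq_sum {N : ℕ} [NeZero N] {ζ : K} (hζ : IsPrimitiveRoot ζ N) (ψ : K → K) (b : ZMod N) :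
    SD ψ b.val N = ∑ a : ZMod N, cc (AddChar.zmodChar N hζ.pow_eq_one (b * a)) *
      ψ (AddChar.zmodChar N hζ.pow_eq_one a) := by
  set e := AddChar.zmodChar N hζ.pow_eq_one with he
  have hN : 0 < N := Nat.pos_of_ne_zero (NeZero.ne N)
  rw [SD]
  symm
  apply Finset.sum_bij (fun a _ => e a)
  · intro a _
    rw [Polynomial.mem_nthRootsFinset hN, ← AddChar.map_nsmul_eq_pow, nsmul_eq_mul, ZMod.natCast_self,
      zero_mul, AddChar.map_zero_eq_one]
  · intro a _ a' _ h
    simp only [he, AddChar.zmodChar_apply] at h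
    exact ZMod.val_injective N (hζ.pow_inj (ZMod.val_lt a) (ZMod.val_lt a') h)
  · intro z hz
    rw [Polynomial.mem_nthRootsFinset hN] at hz
    obtain ⟨i, hi, hi2⟩ := hζ.eq_pow_of_pow_eq_one hz
    refine ⟨(i : ZMod N), mem_univ _, ?_⟩
    rw [he, AddChar.zmodChar_apply', hi2]
  · intro a _
    congr 2
    rw [← AddChar.map_nsmul_eq_pow, nsmul_eq_mul, ZMod.natCast_zmod_val]

omit hpF in
omit [CharP K p] in
lemma char_inv_unit {N : ℕ} (χ : DirichletCharacter K N) (w : (ZMod N)ˣ) :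
    χ ((w⁻¹ : (ZMod N)ˣ) : ZMod N) = χ⁻¹ (w : ZMod N) := by
  rw [MulChar.inv_apply_eq_inv']
  apply eq_inv_of_mul_eq_one_left
  rw [← map_mul, Units.inv_mul, map_one]

omit hpF in
omit [CharP K p] in
lemma nonunit_three {n : ℕ} {a : ZMod (3 ^ n)} (ha : ¬ IsUnit a) : ∃ s : ZMod (3 ^ n), a = 3 * s := by
  have h1 : ¬ IsUnit ((a.val : ℕ) : ZMod (3 ^ n)) := by rwa [ZMod.natCast_zmod_val]
  rw [ZMod.isUnit_iff_coprime] at h1
  have h2 : 3 ∣ a.val := by
    by_contra h
    apply h1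
    apply Nat.Coprime.pow_right
    rw [Nat.coprime_comm]
    exact (Nat.Prime.coprime_iff_not_dvd Nat.prime_three).mpr h
  obtain ⟨s, hs⟩ := h2
  refine ⟨(s : ZMod (3 ^ n)), ?_⟩
  rw [← ZMod.natCast_zmod_val a, hs]
  push_cast
  rfl

omit hpF in
omit [CharP K p] in
lemma shift_char {n : ℕ} (hn : 2 ≤ n) (χ : DirichletCharacter K (3 ^ n))
    (hχ : χ (1 + 3 ^ (n - 1)) ≠ 1) (e : AddChar (ZMod (3 ^ n)) K) (a : ZMod (3 ^ n)) :
    ∑ u : ZMod (3 ^ n), χ u * cc (e (u * a)) = χ⁻¹ a * ∑ u : ZMod (3 ^ n), χ u * cc (e u) := by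
  by_cases ha : IsUnit a
  · obtain ⟨w, rfl⟩ := ha
    have h1 := Equiv.sum_comp (Units.mulRight w)
      (fun u : ZMod (3 ^ n) => χ (u * ((w⁻¹ : (ZMod (3 ^ n))ˣ) : ZMod (3 ^ n))) * cc (e u))
    have h2 : ∀ u : ZMod (3 ^ n), χ u * cc (e (u * w)) =
        χ ((Units.mulRight w u) * ((w⁻¹ : (ZMod (3 ^ n))ˣ) : ZMod (3 ^ n))) *
          cc (e (Units.mulRight w u)) := by
      intro u
      rw [Units.mulRight_apply, Units.mul_inv_cancel_right]
    rw [sum_congr rfl fun u _ => h2 u, h1, mul_sum]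
    refine sum_congr rfl fun u _ => ?_
    rw [map_mul, char_inv_unit]
    ring
  · rw [MulChar.map_nonunit _ ha, zero_mul]
    obtain ⟨s, rfl⟩ := nonunit_three ha
    set y : ZMod (3 ^ n) := 3 ^ (n - 1) with hy
    have hyy : y * y = 0 := by
      rw [hy, ← pow_add]
      exact three_pow_ge (by omega)
    have h3y : (3 : ZMod (3 ^ n)) * y = 0 := by
      rw [hy, ← pow_succ']
      exact three_pow_ge (by omega)
    have hu : IsUnit (1 + y) := IsUnit.of_mul_eq_one (1 - y) (by linear_combination (-1 : ZMod (3 ^ n)) * hyy)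
    obtain ⟨w, hw⟩ := hu
    have h1 := Equiv.sum_comp (Units.mulRight w)
      (fun u : ZMod (3 ^ n) => χ u * cc (e (u * (3 * s))))
    have h2 : ∀ u : ZMod (3 ^ n), χ (Units.mulRight w u) * cc (e ((Units.mulRight w u) * (3 * s))) =
        χ (1 + y) * (χ u * cc (e (u * (3 * s)))) := by
      intro u
      rw [Units.mulRight_apply, hw, map_mul]
      have h3 : u * (1 + y) * (3 * s) = u * (3 * s) := by linear_combination (u * s) * h3y
      rw [h3]
      ring
    rw [sum_congr rfl fun u _ => h2 u, ← mul_sum] at h1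
    have h4 : (χ (1 + y) - 1) * ∑ u : ZMod (3 ^ n), χ u * cc (e (u * (3 * s))) = 0 := by
      linear_combination h1
    exact (mul_eq_zero.mp h4).resolve_left (sub_ne_zero.mpr hχ)

theorem psi_shift (hp5 : 5 ≤ p) {n v r : ℕ} (hv : 1 ≤ v) (hvn : 2 * v ≤ n)
    (hP : p ^ 2 = 2 * 3 ^ v * r + 1) (hr : ¬ 3 ∣ r)
    [HasEnoughRootsOfUnity K (Monoid.exponent (ZMod (3 ^ n))ˣ)]
    {ζ : K} (hζ : IsPrimitiveRoot ζ (3 ^ n)) (ψ : K → K) (hψ : ∀ z, z ≠ 0 → ψ z⁻¹ = - ψ z)
    (hR : ∀ b : ℕ, b.Coprime (3 ^ n) → SD ψ b (3 ^ n) = 0) :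
    ψ ζ = ψ (ζ * ζ ^ 3 ^ (n - 1)) := by
  classical
  set e := AddChar.zmodChar (3 ^ n) hζ.pow_eq_one with he
  have h20 : (2 : K) ≠ 0 := by
    intro h
    have : ((2 : ℕ) : K) = 0 := by exact_mod_cast h
    rw [CharP.cast_eq_zero_iff K p] at this
    exact absurd (Nat.le_of_dvd (by norm_num) this) (by omega)
  have h30 : (3 : K) ≠ 0 := by
    intro h
    have : ((3 : ℕ) : K) = 0 := by exact_mod_cast h
    rw [CharP.cast_eq_zero_iff K p] at this
    exact absurd (Nat.le_of_dvd (by norm_num) this) (by omega)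
  have hζ0 : ζ ≠ 0 := hζ.ne_zero (by positivity)
  have he0 : ∀ b, e b ≠ 0 := by
    intro b
    rw [he, AddChar.zmodChar_apply]
    exact pow_ne_zero _ hζ0
  set F : ZMod (3 ^ n) → K := fun a => ψ (e a) with hF
  have hFneg : ∀ a, F (-a) = - F a := by
    intro a
    have h2 : e (-a) = (e a)⁻¹ := by
      apply eq_inv_of_mul_eq_one_left
      rw [← AddChar.map_add_eq_mul, neg_add_cancel, AddChar.map_zero_eq_one]
    simp only [hF]
    rw [h2, hψ _ (he0 a)]
  have hR' : ∀ u : ZMod (3 ^ n), IsUnit u → ∑ a : ZMod (3 ^ n), cc (e (u * a)) * F a = 0 := by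
    intro u hu
    have h1 := SD_eq_sum hζ ψ u
    rw [← he] at h1
    have h2 := hR u.val (by
      have h3 : IsUnit ((u.val : ℕ) : ZMod (3 ^ n)) := by rwa [ZMod.natCast_zmod_val]
      exact (ZMod.isUnit_iff_coprime _ _).mp h3)
    rw [h1] at h2
    exact h2
  set y : ZMod (3 ^ n) := 3 ^ (n - 1) with hy
  have hyy : y * y = 0 := by
    rw [hy, ← pow_add]
    exact three_pow_ge (by omega)
  have hu : IsUnit (1 + y) := IsUnit.of_mul_eq_one (1 - y) (by linear_combination (-1 : ZMod (3 ^ n)) * hyy)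
  -- the Fourier coefficients of `F` at characters of full conductor vanish
  have hcoef : ∀ χ : DirichletCharacter K (3 ^ n), χ (1 + y) ≠ 1 →
      ∑ a : ZMod (3 ^ n), χ⁻¹ a * F a = 0 := by
    intro χ hχ
    have hsq : χ (-1) * χ (-1) = 1 := by
      rw [← map_mul]
      simp
    rcases mul_self_eq_one_iff.mp hsq with hpar | hpar
    · -- even
      have h1 := Equiv.sum_comp (Equiv.neg (ZMod (3 ^ n))) (fun a => χ⁻¹ a * F a)
      have h2 : ∀ a : ZMod (3 ^ n), χ⁻¹ (Equiv.neg (ZMod (3 ^ n)) a) * F (Equiv.neg (ZMod (3 ^ n)) a) =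
          - (χ⁻¹ a * F a) := by
        intro a
        rw [Equiv.neg_apply, hFneg, show -a = (-1) * a by ring, map_mul, MulChar.inv_apply_eq_inv' χ (-1),
          hpar]
        ring
      rw [sum_congr rfl fun a _ => h2 a, sum_neg_distrib] at h1
      have h3 : (2 : K) * ∑ a : ZMod (3 ^ n), χ⁻¹ a * F a = 0 := by linear_combination (-1 : K) * h1
      exact (mul_eq_zero.mp h3).resolve_left h20
    · -- odd
      have h1 : ∑ u : ZMod (3 ^ n), χ u * ∑ a : ZMod (3 ^ n), cc (e (u * a)) * F a = 0 := by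
        refine sum_eq_zero fun u _ => ?_
        by_cases hu : IsUnit u
        · rw [hR' u hu, mul_zero]
        · rw [χ.map_nonunit hu, zero_mul]
      have h2 : ∑ u : ZMod (3 ^ n), χ u * ∑ a : ZMod (3 ^ n), cc (e (u * a)) * F a =
          (∑ a : ZMod (3 ^ n), χ⁻¹ a * F a) * ∑ u : ZMod (3 ^ n), χ u * cc (e u) := by
        simp only [mul_sum]
        rw [sum_comm, ← mul_sum, sum_mul]
        refine sum_congr rfl fun a _ => ?_
        have h3 := shift_char (n := n) (by omega) χ hχ e a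
        calc ∑ u : ZMod (3 ^ n), χ u * (cc (e (u * a)) * F a)
            = (∑ u : ZMod (3 ^ n), χ u * cc (e (u * a))) * F a := by
              rw [sum_mul]
              exact sum_congr rfl fun u _ => by ring
          _ = χ⁻¹ a * F a * ∑ u : ZMod (3 ^ n), χ u * cc (e u) := by
              rw [h3]; ring
      rw [h2] at h1
      exact (mul_eq_zero.mp h1).resolve_right (charsum_ne_zero hp5 hv hvn hP hr χ hχ hpar hζ)
  -- the difference
  have hdiff : ∀ χ : DirichletCharacter K (3 ^ n),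
      ∑ a : ZMod (3 ^ n), χ⁻¹ a * (F a - F (a * (1 + y))) = 0 := by
    intro χ
    obtain ⟨w, hw⟩ := hu
    have h1 := Equiv.sum_comp (Units.mulRight w) (fun a : ZMod (3 ^ n) => χ⁻¹ a * F a)
    have h2 : ∀ a : ZMod (3 ^ n), χ⁻¹ (Units.mulRight w a) * F (Units.mulRight w a) =
        χ⁻¹ (1 + y) * (χ⁻¹ a * F (a * (1 + y))) := by
      intro a
      rw [Units.mulRight_apply, hw, map_mul]
      ring
    rw [sum_congr rfl fun a _ => h2 a, ← mul_sum] at h1
    by_cases hχ : χ (1 + y) = 1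
    · have h3 : χ⁻¹ (1 + y) = 1 := by rw [MulChar.inv_apply_eq_inv', hχ, inv_one]
      rw [h3, one_mul] at h1
      simp only [mul_sub, sum_sub_distrib]
      rw [h1, sub_self]
    · have h3 := hcoef χ hχ
      rw [h3] at h1
      have h4 : χ⁻¹ (1 + y) ≠ 0 := by
        rw [← hw]
        exact ((w.isUnit).map χ⁻¹).ne_zero
      have h5 := (mul_eq_zero.mp h1).resolve_left h4
      simp only [mul_sub, sum_sub_distrib]
      rw [h3, h5, sub_self]
  -- Fourier inversion
  have hinv : ∑ χ : DirichletCharacter K (3 ^ n), ∑ a : ZMod (3 ^ n),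
      χ⁻¹ a * (F a - F (a * (1 + y))) = ((3 ^ n).totient : K) * (F 1 - F (1 * (1 + y))) := by
    rw [sum_comm]
    have h1 : ∀ a : ZMod (3 ^ n), ∑ χ : DirichletCharacter K (3 ^ n), χ⁻¹ a * (F a - F (a * (1 + y))) =
        if a = 1 then ((3 ^ n).totient : K) * (F a - F (a * (1 + y))) else 0 := by
      intro a
      rw [← sum_mul]
      by_cases ha : IsUnit a
      · have h2 := DirichletCharacter.sum_char_inv_mul_char_eq K ha 1
        obtain ⟨w, rfl⟩ := ha
        have h3 : ∀ χ : DirichletCharacter K (3 ^ n), χ ((w : ZMod (3 ^ n))⁻¹) * χ 1 = χ⁻¹ (w : ZMod (3 ^ n)) := by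
          intro χ
          rw [map_one, mul_one, ← char_inv_unit, ZMod.inv_coe_unit]
        rw [sum_congr rfl fun χ _ => h3 χ] at h2
        rw [h2]
        split_ifs with h
        · rfl
        · rw [zero_mul]
      · have h2 : a ≠ 1 := by
          rintro rfl
          exact ha isUnit_one
        rw [if_neg h2, sum_eq_zero, zero_mul]
        intro χ _
        exact MulChar.map_nonunit _ ha
    rw [sum_congr rfl fun a _ => h1 a, sum_ite_eq' univ (1 : ZMod (3 ^ n)), if_pos (mem_univ _)]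
  rw [sum_eq_zero fun χ _ => hdiff χ] at hinv
  have htot : ((3 ^ n).totient : K) ≠ 0 := by
    rw [Nat.totient_prime_pow Nat.prime_three (by omega)]
    push_cast
    refine mul_ne_zero (pow_ne_zero _ h30) ?_
    norm_num
    exact h20
  have hfin := (mul_eq_zero.mp hinv.symm).resolve_left htot
  rw [one_mul, sub_eq_zero] at hfin
  simp only [hF] at hfin
  have he1 : e 1 = ζ := by
    have := AddChar.zmodChar_apply' hζ.pow_eq_one 1
    rw [Nat.cast_one, pow_one] at this
    exact this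
  have hey : e y = ζ ^ 3 ^ (n - 1) := by
    have := AddChar.zmodChar_apply' hζ.pow_eq_one (3 ^ (n - 1))
    push_cast at this
    exact this
  rw [AddChar.map_add_eq_mul, he1, hey] at hfin
  exact hfin

end Shift

end Pool.Agent.Lib.MP_a3a416_nt
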