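import Pool.Agent.Lib.MP_a3a416_nt.TwoSumPsi
import Pool.Agent.Lib.MP_a3a416_nt.TwoSumShift

/-!
Every even index `m`, `4 ≤ m ≤ p - 3`, is a sum of two regular indices (with `0` allowed); if `m` is
irregular it is a sum of two positive regular indices.
-/

open Finset

namespace Pool.Agent.Lib.MP_a3a416_nt

variable {p : ℕ} [hpF : Fact p.Prime]

lemma factor_three (hp5 : 5 ≤ p) : ∃ v r : ℕ, 1 ≤ v ∧ p ^ 2 = 2 * 3 ^ v * r + 1 ∧ ¬ 3 ∣ r := by
  have hodd : p % 2 = 1 := by
    rcases hpF.out.eq_two_or_odd with h | h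
    · omega
    · exact h
  have h3 : p % 3 ≠ 0 := by
    intro h
    have h1 : 3 ∣ p := Nat.dvd_of_mod_eq_zero h
    have h2 := (Nat.prime_dvd_prime_iff_eq Nat.prime_three hpF.out).mp h1
    omega
  obtain ⟨a, ha⟩ : ∃ a, p = 2 * a + 1 := ⟨p / 2, by omega⟩
  have h4 : p ^ 2 = 2 * (2 * a * (a + 1)) + 1 := by rw [ha]; ring
  have h5 : 3 ∣ 2 * a * (a + 1) := by
    have : p % 3 = 1 ∨ p % 3 = 2 := by omega
    rcases this with h | h
    · have : 3 ∣ a := by omega
      exact (this.mul_left 2).mul_right _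
    · have : 3 ∣ a + 1 := by omega
      exact this.mul_left _
  have h6 : 2 * a * (a + 1) ≠ 0 := by
    have : 0 < a := by omega
    positivity
  obtain ⟨v, r, hr, hvr⟩ := Nat.exists_eq_pow_mul_and_not_dvd h6 3 (by norm_num)
  refine ⟨v, r, ?_, ?_, hr⟩
  · by_contra h
    have hv : v = 0 := by omega
    subst hv
    rw [pow_zero, one_mul] at hvr
    rw [hvr] at h5
    exact hr h5
  · rw [h4, hvr]
    ring

lemma exists_prim (l : ℕ) (hl : ¬ p ∣ l) : ∃ z : AlgebraicClosure (ZMod p), IsPrimitiveRoot z l := by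
  have hmK : NeZero ((l : ℕ) : AlgebraicClosure (ZMod p)) := by
    refine ⟨?_⟩
    rw [Ne, CharP.cast_eq_zero_iff (AlgebraicClosure (ZMod p)) p]
    exact hl
  exact HasEnoughRootsOfUnity.exists_primitiveRoot (AlgebraicClosure (ZMod p)) l

lemma not_dvd_three_pow (hp5 : 5 ≤ p) (n : ℕ) : ¬ p ∣ 3 ^ n := by
  intro h
  have h1 := hpF.out.dvd_of_dvd_pow h
  have h2 := (Nat.prime_dvd_prime_iff_eq hpF.out Nat.prime_three).mp h1
  omega

/-- **Every even `m` between `4` and `p - 3` is a sum of two regular indices** (`0` allowed). -/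
theorem mem_XX_even (hp5 : 5 ≤ p) {m : ℕ} (hm4 : 4 ≤ m) (hme : Even m) (hmp : m + 3 ≤ p) :
    m ∈ XX p (m + 1) := by
  classical
  by_contra hnX
  set K := AlgebraicClosure (ZMod p) with hK
  have hSD := SD_eq_zero (p := p) (K := K) (psi p m) (fun l b hl hb hpl hpb hcop => by
    obtain ⟨ζ, hζ⟩ := exists_prim (p := p) l hpl
    obtain ⟨ξ, hξ⟩ := exists_prim (p := p) b hpb
    exact reciprocity hp5 hm4 hme hmp hnX hl hb hpl hpb hcop hζ hξ)
  obtain ⟨v, r, hv, hP, hr⟩ := factor_three (p := p) hp5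
  obtain ⟨ω, hω⟩ := exists_prim (p := p) 3 (by
    have := not_dvd_three_pow (p := p) hp5 1
    rwa [pow_one] at this)
  -- shifts
  have hshift : ∀ n : ℕ, 2 * v ≤ n → ∀ ζ : K, IsPrimitiveRoot ζ (3 ^ n) →
      psi p m ζ = psi p m (ζ * ζ ^ 3 ^ (n - 1)) := by
    intro n hn ζ hζ
    have hex : NeZero ((Monoid.exponent (ZMod (3 ^ n))ˣ : ℕ) : K) := by
      refine ⟨?_⟩
      rw [Ne, CharP.cast_eq_zero_iff K p]
      intro h
      have h1 := h.trans (Group.exponent_dvd_card (G := (ZMod (3 ^ n))ˣ))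
      rw [ZMod.card_units_eq_totient, Nat.totient_prime_pow Nat.prime_three (by omega)] at h1
      rcases (Nat.Prime.dvd_mul hpF.out).mp h1 with h2 | h2
      · exact not_dvd_three_pow hp5 _ h2
      · have := Nat.le_of_dvd (by norm_num) h2
        omega
    exact psi_shift hp5 hv hn hP hr hζ (psi p m)
      (fun z hz => psi_inv hp5 hm4 hme hmp hz)
      (fun b hb => hSD (3 ^ n) (by positivity) (not_dvd_three_pow hp5 n) b hb)
  -- a sequence of roots of unity
  have hseq : ∀ k : ℕ, ∃ ζ : K, IsPrimitiveRoot ζ (3 ^ (2 * v + k)) ∧ ζ ^ 3 ^ (2 * v + k - 1) = ω := by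
    intro k
    obtain ⟨ζ, hζ⟩ := exists_prim (p := p) (3 ^ (2 * v + k)) (not_dvd_three_pow hp5 _)
    have h1 : IsPrimitiveRoot (ζ ^ 3 ^ (2 * v + k - 1)) 3 := by
      apply hζ.pow (by positivity)
      rw [← pow_succ, Nat.sub_add_cancel (by omega)]
    obtain ⟨i, hi, hi2⟩ := h1.eq_pow_of_pow_eq_one hω.pow_eq_one
    refine ⟨ζ ^ i, ?_, ?_⟩
    · apply hζ.pow_of_coprime
      apply Nat.Coprime.pow_right
      have : i ≠ 0 := by
        rintro rfl
        rw [pow_zero] at hi2
        exact hω.ne_one (by norm_num) hi2.symm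
      interval_cases i
      · exact absurd rfl this
      · norm_num
      · norm_num
    · rw [← pow_mul, mul_comm, pow_mul, hi2]
  choose ζ hζ1 hζ2 using hseq
  have hζinj : Function.Injective ζ := by
    intro a b hab
    have h1 := (hζ1 a).eq_orderOf
    have h2 := (hζ1 b).eq_orderOf
    rw [hab, ← h2] at h1
    have := Nat.pow_right_injective (le_refl 3 |>.trans' (by norm_num)) h1
    omega
  -- the polynomial
  set Ps := PsiNum p K m with hPs
  set Q : Polynomial K := Ps * (1 - Polynomial.C ω * Polynomial.X) ^ (m - 1) -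
    Ps.comp (Polynomial.C ω * Polynomial.X) * (1 - Polynomial.X) ^ (m - 1) with hQ
  have hroot : ∀ k, Q.IsRoot (ζ k) := by
    intro k
    have hne : ∀ j : ℕ, IsPrimitiveRoot (ζ k) (3 ^ (2 * v + k)) := fun _ => hζ1 k
    have h1 : ζ k ≠ 1 := (hζ1 k).ne_one (Nat.one_lt_pow (by omega) (by norm_num))
    have h2 : ω * ζ k ≠ 1 := by
      intro h
      have h3 : ζ k ^ 3 = 1 := by
        have : (ω * ζ k) ^ 3 = 1 := by rw [h, one_pow]
        rw [mul_pow, hω.pow_eq_one, one_mul] at this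
        exact this
      have h4 := (hζ1 k).dvd_of_pow_eq_one 3 h3
      have h5 : 3 ^ 2 ∣ 3 ^ (2 * v + k) := pow_dvd_pow 3 (by omega)
      have := Nat.le_of_dvd (by norm_num) (h5.trans h4)
      omega
    have h3 := psi_eq (p := p) (K := K) hp5 hm4 h1
    have h4 := psi_eq (p := p) (K := K) hp5 hm4 h2
    have h5 := hshift (2 * v + k) (by omega) (ζ k) (hζ1 k)
    rw [hζ2 k, mul_comm (ζ k) ω] at h5
    rw [Polynomial.IsRoot.def, hQ]
    simp only [Polynomial.eval_sub, Polynomial.eval_mul, Polynomial.eval_pow, Polynomial.eval_one,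
      Polynomial.eval_X, Polynomial.eval_C, Polynomial.eval_comp]
    rw [hPs, ← h3, ← h4, h5]
    ring
  have hQ0 : Q = 0 := by
    apply Polynomial.eq_zero_of_infinite_isRoot
    exact Set.infinite_of_injective_forall_mem hζinj hroot
  have h1 := congrArg (Polynomial.eval 1) hQ0
  rw [hQ] at h1
  simp only [Polynomial.eval_sub, Polynomial.eval_mul, Polynomial.eval_pow, Polynomial.eval_one,
    Polynomial.eval_X, Polynomial.eval_C, Polynomial.eval_comp, sub_self, Polynomial.eval_zero] at h1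
  rw [zero_pow (by omega), mul_zero, sub_zero, mul_one] at h1
  rcases mul_eq_zero.mp h1 with h2 | h2
  · exact PsiNum_eval_one hm4 h2
  · have h3 := pow_eq_zero_iff (by omega) |>.mp h2
    exact hω.ne_one (by norm_num) (sub_eq_zero.mp h3).symm

end Pool.Agent.Lib.MP_a3a416_nt
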