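import Pool.Agent.Lib.MP_a3a416_nt.TwoSumRec

/-!
Non-vanishing modulo `p` of the character sums `∑ χ(a) c(ζ^a)` for odd characters of large
`3`-power conductor (Washington, Sinnott).
-/

open Finset

namespace Pool.Agent.Lib.MP_a3a416_nt

section W

variable {K : Type*} [Field K]

lemma geom_root {q : ℕ} {x : K} (hx : x ^ q = 1) (h1 : x ≠ 1) : ∑ t ∈ range q, x ^ t = 0 := by
  have h := geom_sum_mul x q
  rw [hx, sub_self] at h
  exact (mul_eq_zero.mp h).resolve_right (sub_ne_zero.mpr h1)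

lemma W_ne_zero {q : ℕ} (hq : (q : K) ≠ 0) (h2 : (2 : K) ≠ 0) {ζ ω θ : K} (hζ0 : ζ ≠ 0)
    (hζ : ζ ^ q ≠ 1) (hω : IsPrimitiveRoot ω q) (hθ : θ ^ q = 1) (hθ1 : θ ≠ 1) :
    ∑ t ∈ range q, θ ^ t * cc (ζ * ω ^ t) ≠ 0 := by
  intro hW
  have hq0 : 0 < q := by
    rcases Nat.eq_zero_or_pos q with h | h
    · subst h; simp at hq
    · exact h
  have hne : ζ ^ q - 1 ≠ 0 := sub_ne_zero.mpr hζ
  have hθ0 : θ ≠ 0 := by
    rintro rfl
    rw [zero_pow (by omega)] at hθ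
    exact zero_ne_one hθ
  have h1 : ∀ t ∈ range q, θ ^ t * cc (ζ * ω ^ t) * (ζ ^ q - 1) =
      (ζ ^ q - 1) / 2 * θ ^ t + ∑ j ∈ range q, ζ ^ j * (θ * ω ^ j) ^ t := by
    intro t _
    have hz : (ζ * ω ^ t) ^ q = ζ ^ q := by
      rw [mul_pow, ← pow_mul, mul_comm t q, pow_mul, hω.pow_eq_one, one_pow, mul_one]
    have hz1 : ζ * ω ^ t - 1 ≠ 0 := by
      intro h
      apply hζ
      rw [← hz, sub_eq_zero.mp h, one_pow]
    have hg := geom_sum_mul (ζ * ω ^ t) q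
    rw [hz] at hg
    have h3 : ∑ j ∈ range q, ζ ^ j * (θ * ω ^ j) ^ t = θ ^ t * ∑ j ∈ range q, (ζ * ω ^ t) ^ j := by
      rw [mul_sum]
      refine sum_congr rfl fun j _ => ?_
      rw [mul_pow, mul_pow, ← pow_mul, ← pow_mul, mul_comm j t]
      ring
    rw [h3, cc, ← hg]
    field_simp
    ring
  have h3 := congrArg (fun y => y * (ζ ^ q - 1)) hW
  simp only [zero_mul] at h3
  rw [sum_mul, sum_congr rfl h1, sum_add_distrib, ← mul_sum, geom_root hθ hθ1, mul_zero, zero_add,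
    sum_comm] at h3
  have : NeZero q := ⟨by omega⟩
  obtain ⟨j0, hj0, hj1⟩ := hω.eq_pow_of_pow_eq_one (ξ := θ⁻¹) (by rw [inv_pow, hθ, inv_one])
  have h4 : ∀ j ∈ range q, ∑ t ∈ range q, ζ ^ j * (θ * ω ^ j) ^ t =
      if j = j0 then ζ ^ j0 * (q : K) else 0 := by
    intro j hj
    rw [mem_range] at hj
    rw [← mul_sum]
    split_ifs with h
    · subst h
      rw [hj1, mul_inv_cancel₀ hθ0]
      simp
    · rw [geom_root, mul_zero]
      · rw [mul_pow, hθ, ← pow_mul, mul_comm j q, pow_mul, hω.pow_eq_one, one_pow, mul_one]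
      · intro h5
        apply h
        apply hω.pow_inj hj hj0
        rw [hj1]
        exact eq_inv_of_mul_eq_one_right h5
  rw [sum_congr rfl h4, sum_ite_eq' (range q) j0, if_pos (mem_range.mpr hj0)] at h3
  exact (mul_ne_zero (pow_ne_zero j0 hζ0) hq) h3

end W

section Three

/-- Lifting the exponent for `3`. -/
lemma lte_three {g : ℤ} (hg : (3 : ℤ) ∣ g - 1) (k : ℕ) :
    ∃ u : ℤ, (3 : ℤ) ∣ u - 1 ∧ g ^ 3 ^ k - 1 = 3 ^ k * (g - 1) * u := by
  induction k with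
  | zero => exact ⟨1, by simp, by simp⟩
  | succ k ih =>
    obtain ⟨u, hu, he⟩ := ih
    obtain ⟨s, hs⟩ : (3 : ℤ) ∣ g ^ 3 ^ k - 1 := by
      rw [he]
      exact (hg.mul_left _).mul_right _
    obtain ⟨r, hr⟩ := hu
    refine ⟨u * (1 + 3 * s + 3 * s ^ 2), ⟨r * (1 + 3 * s + 3 * s ^ 2) + s + s ^ 2, ?_⟩, ?_⟩
    · linear_combination (1 + 3 * s + 3 * s ^ 2) * hr
    · have e : g ^ 3 ^ (k + 1) = (g ^ 3 ^ k) ^ 3 := by rw [pow_succ, pow_mul]
      have e2 : g ^ 3 ^ k = 1 + 3 * s := by linarith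
      rw [e, e2]
      rw [e2] at he
      linear_combination (3 * (1 + 3 * s + 3 * s ^ 2)) * he

lemma cube_sub_one (h : ℕ) (h3 : 3 ∣ h - 1) (h1 : 1 ≤ h) :
    ∃ u : ℕ, Nat.Coprime u 6 ∧ h ^ 3 - 1 = (h - 1) * 3 * u := by
  obtain ⟨s, hs⟩ := h3
  have hh : h = 3 * s + 1 := by omega
  subst hh
  refine ⟨1 + 3 * s + 3 * s ^ 2, ?_, ?_⟩
  · have e : 1 + 3 * s + 3 * s ^ 2 = 1 + 3 * (s * (s + 1)) := by ring
    obtain ⟨r, hr⟩ : 2 ∣ s * (s + 1) := (Nat.even_mul_succ_self s).two_dvd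
    rw [e, hr, show 1 + 3 * (2 * r) = 1 + 6 * r by ring]
    simp
  · rw [Nat.add_sub_cancel]
    have e : (3 * s + 1) ^ 3 = 3 * s * 3 * (1 + 3 * s + 3 * s ^ 2) + 1 := by ring
    rw [e, Nat.add_sub_cancel]

lemma three_pow_dvd {P : ℕ} (hP3 : 3 ∣ P - 1) (hP1 : 1 ≤ P) (k : ℕ) :
    3 ^ (k + 1) ∣ P ^ 3 ^ k - 1 := by
  have h1 : (3 : ℤ) ∣ (P : ℤ) - 1 := by
    have := Int.natCast_dvd_natCast.mpr hP3
    rw [Nat.cast_sub hP1] at this
    exact_mod_cast this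
  obtain ⟨u, -, hu⟩ := lte_three h1 k
  have h2 : ((3 ^ (k + 1) : ℕ) : ℤ) ∣ ((P ^ 3 ^ k - 1 : ℕ) : ℤ) := by
    rw [Nat.cast_sub (Nat.one_le_pow _ _ hP1)]
    push_cast
    rw [hu, pow_succ]
    exact (mul_dvd_mul_left _ h1).mul_right _
  exact Int.natCast_dvd_natCast.mp h2

lemma two_three_pow_dvd {P : ℕ} (hP3 : 3 ∣ P - 1) (hodd : Odd P) (k : ℕ) :
    2 * 3 ^ (k + 1) ∣ P ^ 3 ^ k - 1 := by
  apply Nat.Coprime.mul_dvd_of_dvd_of_dvd
  · exact Nat.Coprime.pow_right _ (by norm_num)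
  · have h1 : Odd (P ^ 3 ^ k) := hodd.pow
    obtain ⟨r, hr⟩ := h1
    rw [hr, Nat.add_sub_cancel]
    exact dvd_mul_right _ _
  · exact three_pow_dvd hP3 hodd.pos k

end Three

section Frob

variable {p : ℕ} [hpF : Fact p.Prime] {K : Type*} [Field K] [CharP K p]

/-- The trace-like sum vanishes at the roots of unity of `3`-power order (times `±1`) which do not lie
in the field with `p^2` elements. -/
lemma frob_sum_zero (h3 : 3 ∣ p ^ 2 - 1) (hodd : Odd p) {n : ℕ} {z : K} (hz : z ^ (2 * 3 ^ n) = 1)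
    (hzP : z ^ p ^ 2 ≠ z) : ∑ i ∈ range (3 ^ n), z ^ (p ^ 2) ^ i = 0 := by
  have hp1 : 1 ≤ p := hodd.pos
  set P := p ^ 2 with hP
  have hPodd : Odd P := hodd.pow
  have hP1 : 1 ≤ P := hPodd.pos
  have hz0 : z ≠ 0 := by
    rintro rfl
    rw [zero_pow (by positivity)] at hz
    exact zero_ne_one hz
  have hpow : ∀ k : ℕ, z ^ (P ^ k) = z ↔ z ^ (P ^ k - 1) = 1 := by
    intro k
    have h1 : z ^ (P ^ k) = z ^ (P ^ k - 1) * z := by
      rw [← pow_succ, Nat.sub_add_cancel (Nat.one_le_pow _ _ hP1)]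
    rw [h1]
    constructor
    · intro h
      exact mul_right_cancel₀ hz0 (by rw [h, one_mul])
    · intro h
      rw [h, one_mul]
  have hn : z ^ (P ^ 3 ^ n) = z := by
    rw [hpow]
    obtain ⟨r, hr⟩ := two_three_pow_dvd h3 hPodd n
    rw [hr, show 2 * 3 ^ (n + 1) * r = (2 * 3 ^ n) * (3 * r) by rw [pow_succ]; ring, pow_mul, hz, one_pow]
  classical
  have hex : ∃ k, z ^ (P ^ 3 ^ k) = z := ⟨n, hn⟩
  set k := Nat.find hex with hk
  have hk1 : z ^ (P ^ 3 ^ k) = z := Nat.find_spec hex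
  have hk0 : k ≠ 0 := by
    intro h
    rw [h, pow_zero, pow_one] at hk1
    exact hzP hk1
  obtain ⟨j, hj⟩ : ∃ j, k = j + 1 := ⟨k - 1, by omega⟩
  have hjn : z ^ (P ^ 3 ^ j) ≠ z := Nat.find_min hex (by rw [← hk]; omega)
  set h := P ^ 3 ^ j with hh
  have hh1 : 1 ≤ h := Nat.one_le_pow _ _ hP1
  have hh3 : 3 ∣ h - 1 := (dvd_pow_self 3 (Nat.succ_ne_zero j)).trans (three_pow_dvd h3 hP1 j)
  obtain ⟨u, hu, hu2⟩ := cube_sub_one h hh3 hh1
  have ho1 : orderOf z ∣ 2 * 3 ^ n := orderOf_dvd_of_pow_eq_one hz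
  have ho2 : orderOf z ∣ (h - 1) * 3 * u := by
    rw [← hu2]
    apply orderOf_dvd_of_pow_eq_one
    have h4 := (hpow (3 ^ k)).mp hk1
    rw [hj, pow_succ, pow_mul] at h4
    exact h4
  have hcop : (orderOf z).Coprime u := by
    apply Nat.Coprime.coprime_dvd_left ho1
    apply Nat.Coprime.mul_left
    · exact Nat.Coprime.coprime_dvd_left (by norm_num : 2 ∣ 6) hu.symm
    · exact Nat.Coprime.pow_left _ (Nat.Coprime.coprime_dvd_left (by norm_num : 3 ∣ 6) hu.symm)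
  have ho3 : orderOf z ∣ (h - 1) * 3 := hcop.dvd_of_dvd_mul_right ho2
  set w := z ^ (h - 1) with hw
  have hw3 : w ^ 3 = 1 := by
    rw [hw, ← pow_mul]
    exact orderOf_dvd_iff_pow_eq_one.mp ho3
  have hw1 : w ≠ 1 := by
    intro h5
    exact hjn ((hpow (3 ^ j)).mpr h5)
  have hzh : z ^ h = z * w := by
    rw [hw, ← pow_succ', Nat.sub_add_cancel hh1]
  have hwP : ∀ i : ℕ, w ^ P ^ i = w := by
    intro i
    have h6 : 3 ∣ P ^ i - 1 := h3.trans (by simpa using Nat.sub_dvd_pow_sub_pow P 1 i)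
    obtain ⟨r, hr⟩ := h6
    have h7 : P ^ i = 3 * r + 1 := by
      have := Nat.one_le_pow i P hP1
      omega
    rw [h7, pow_succ, pow_mul, hw3, one_pow, one_mul]
  set S := ∑ i ∈ range (3 ^ n), z ^ P ^ i with hS
  have hSP : S ^ P = S := by
    have e1 : S ^ P = ∑ i ∈ range (3 ^ n), z ^ P ^ (i + 1) := by
      rw [hS, hP, sum_pow_char_pow]
      refine sum_congr rfl fun i _ => ?_
      rw [← pow_mul, pow_succ (p ^ 2) i]
    have e2 := sum_range_succ (fun i => z ^ P ^ i) (3 ^ n)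
    have e3 := sum_range_succ' (fun i => z ^ P ^ i) (3 ^ n)
    rw [e2, hn, pow_zero, pow_one] at e3
    rw [e1, hS]
    exact (add_right_cancel e3).symm
  have hSPi : ∀ i : ℕ, S ^ P ^ i = S := by
    intro i
    induction i with
    | zero => simp
    | succ i ih => rw [pow_succ, pow_mul, ih, hSP]
  have hSh : S ^ h = w * S := by
    have e0 : h = p ^ (2 * 3 ^ j) := by rw [hh, hP, ← pow_mul]
    have e1 : S ^ h = ∑ i ∈ range (3 ^ n), (z ^ h) ^ P ^ i := by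
      conv_lhs => rw [e0, hS, sum_pow_char_pow]
      refine sum_congr rfl fun i _ => ?_
      rw [← e0]
      exact pow_right_comm _ _ _
    rw [e1, hS, mul_sum]
    refine sum_congr rfl fun i _ => ?_
    rw [hzh, mul_pow, hwP]
    ring
  have h8 : (w - 1) * S = 0 := by
    rw [sub_mul, one_mul, ← hSh, hh, hSPi, sub_self]
  exact (mul_eq_zero.mp h8).resolve_left (sub_ne_zero.mpr hw1)

end Frob

end Pool.Agent.Lib.MP_a3a416_nt
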