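import Pool.Agent.Lib.MP_a3a416_nt.TwoSum
import Pool.Agent.Lib.MP_a3a416_nt.ThreeTerm
import Pool.Agent.Lib.MP_a3a416_nt.ThreeQuarters

/-!
Every even `m` with `4 ≤ m ≤ p - 3` is a sum of two positive regular indices in at least `√(m/11)`
ways, and the number of regular indices up to `K` is at least `K^(3/4) / 2`.
-/

open Finset

namespace Pool.Agent.Lib.MP_a3a416_nt

section RegPeriod

open Polynomial

variable {F : Type*} [Field F]

/-- The regular case of the zero estimate. -/
theorem reg_period_bound {P : ℕ}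
    (hP : ∀ a b : ℕ, a < P → b < P → (a : F) = (b : F) → a = b) {n : ℕ} (hn : n + 1 < P)
    (hn1 : 1 ≤ n) (S : Finset ℕ) (hS : ∀ i ∈ S, 1 ≤ i ∧ i ≤ n) (a : ℕ → F) (a0 : F) (ha0 : a0 ≠ 0)
    (hrel : ∑ i ∈ S, a i • ((1 + X : F[X]) * X ^ i - (1 + X) ^ i * (X ^ (n - i) + X)) +
      a0 • (1 + X ^ (n + 1) - (1 + X) ^ (n + 1)) = 0) :
    2 * n ≤ (3 * S.card + 2) * (3 * S.card + 1) := by
  classical
  by_contra hcon
  push Not at hcon
  set α : (Fin 3 × S) ⊕ Fin 3 → ℕ := Sum.elim
    (fun q => if q.1 = 0 then (q.2 : ℕ) else if q.1 = 1 then 1 else n - q.2)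
    (fun g => if g = 1 then n + 1 else 0) with hα
  set β : (Fin 3 × S) ⊕ Fin 3 → ℕ := Sum.elim
    (fun q => if q.1 = 0 then 1 else (q.2 : ℕ)) (fun g => if g = 2 then n + 1 else 0) with hβ
  set f : (Fin 3 × S) ⊕ Fin 3 → F[X] := fun i => mon F (α i) (β i) with hf
  set v : (Fin 3 × S) ⊕ Fin 3 → F := Sum.elim
    (fun q => if q.1 = 0 then a q.2 else - a q.2) (fun g => if g = 2 then - a0 else a0) with hv
  have hcard : Fintype.card ((Fin 3 × S) ⊕ Fin 3) = 3 * S.card + 3 := by
    rw [Fintype.card_sum, Fintype.card_prod, Fintype.card_fin, Fintype.card_coe]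
  have hdeg : ∀ q, α q + β q < P := by
    rintro (⟨g, i, hi⟩ | g)
    · have := hS i hi
      simp only [hα, hβ, Sum.elim_inl]
      split_ifs <;> omega
    · simp only [hα, hβ, Sum.elim_inr]
      fin_cases g <;> simp <;> omega
  have hsplit : ∀ (u : (Fin 3 × S) ⊕ Fin 3 → F), ∑ q, u q • f q =
      (∑ i : S, u (.inl (0, i)) • ((X : F[X]) ^ (i : ℕ) * (1 + X)) +
        ∑ i : S, u (.inl (1, i)) • (X * (1 + X : F[X]) ^ (i : ℕ)) +
        ∑ i : S, u (.inl (2, i)) • ((X : F[X]) ^ (n - (i : ℕ)) * (1 + X) ^ (i : ℕ))) +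
        (u (.inr 0) • (1 : F[X]) + u (.inr 1) • (X : F[X]) ^ (n + 1) +
          u (.inr 2) • (1 + X : F[X]) ^ (n + 1)) := by
    intro u
    rw [Fintype.sum_sum_type, Fintype.sum_prod_type, Fin.sum_univ_three, Fin.sum_univ_three]
    simp [hf, mon, hα, hβ]
  have hvrel : ∑ q, v q • f q = 0 := by
    rw [hsplit v, ← hrel]
    simp only [hv, Sum.elim_inl, Sum.elim_inr]
    rw [← Finset.sum_coe_sort S
      (fun i => a i • ((1 + X : F[X]) * X ^ i - (1 + X) ^ i * (X ^ (n - i) + X)))]
    rw [← sum_add_distrib, ← sum_add_distrib]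
    congr 1
    · refine sum_congr rfl fun i _ => ?_
      simp only [if_true, one_ne_zero, if_false, Fin.reduceEq, smul_eq_C_mul, map_neg]
      ring
    · simp only [if_true, if_false, Fin.reduceEq, smul_eq_C_mul, map_neg]
      ring
  have hzero : ∀ u : (Fin 3 × S) ⊕ Fin 3 → F, IsMinRel f u → u (.inr 0) = 0 := by
    intro u hu
    by_contra h0
    have hht : ∀ i, u i ≠ 0 → 2 * (α i + β i) < 2 * n := by
      intro i hi
      have := min_height hP α β hdeg u hu i (.inr 0) (.inr 0) hi h0 h0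
      rw [hcard] at this
      have e1 : α (.inr 0) = 0 := by simp [hα]
      have e2 : β (.inr 0) = 0 := by simp [hβ]
      rw [e1, e2, show 3 * S.card + 3 - 1 = 3 * S.card + 2 by omega,
        show 3 * S.card + 3 - 2 = 3 * S.card + 1 by omega] at this
      omega
    have h2 : ∀ i : S, u (.inl (2, i)) = 0 := by
      intro i
      by_contra h
      have h1 := hht _ h
      have h3 := hS i i.2
      simp only [hα, hβ, Sum.elim_inl, if_false, Fin.reduceEq] at h1
      omega
    have h3 : u (.inr 1) = 0 := by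
      by_contra h
      have h1 := hht _ h
      simp [hα, hβ] at h1
    have h4 : u (.inr 2) = 0 := by
      by_contra h
      have h1 := hht _ h
      simp [hα, hβ] at h1
    have h5 := hu.1
    rw [hsplit u] at h5
    simp only [h2, h3, h4, zero_smul, sum_const_zero, add_zero] at h5
    have h6 := congrArg (fun q => q.eval 0) h5
    simp only [eval_add, eval_finsetSum, eval_smul, eval_mul, eval_pow, eval_X, eval_one, zero_mul,
      smul_eq_mul, mul_zero, sum_const_zero, add_zero, mul_one, eval_zero] at h6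
    rw [sum_eq_zero, zero_add] at h6
    · exact h0 h6
    · intro i _
      rw [zero_pow (by have := hS i i.2; omega), mul_zero]
  have hres := restrict_relation f {.inr 0} (fun u hu => Or.inr (by
    intro i hi
    rw [mem_singleton] at hi
    rw [hi]
    exact hzero u hu)) v hvrel
  rw [sum_singleton] at hres
  have e1 : f (.inr 0) = 1 := by simp [hf, mon, hα, hβ]
  have e2 : v (.inr 0) = a0 := by simp [hv]
  rw [e1, e2, smul_eq_C_mul, mul_one] at hres
  exact ha0 (C_eq_zero.mp hres)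

end RegPeriod

section Reps

open Polynomial

variable {p : ℕ} [hpF : Fact p.Prime]

/-- The number of representations of a regular index. -/
theorem reps_regular (hp5 : 5 ≤ p) {n : ℕ} (hn4 : 4 ≤ n) (hev : Even n) (hnp : n + 2 ≤ p)
    (hreg : ¬ (p : ℤ) ∣ cB p n) : 2 * n ≤ (3 * (SS p n).card + 2) * (3 * (SS p n).card + 1) := by
  classical
  set a : ℕ → ZMod p := fun i => (n.choose i : ZMod p) * ((cB p i : ZMod p) * (cB p (n - i) : ZMod p))
    with ha
  have hZ : ∀ z : ℤ, (z : ZMod p) = 0 ↔ (p : ℤ) ∣ z := fun z => ZMod.intCast_zmod_eq_zero_iff_dvd z p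
  have h1 : (1 + X : (ZMod p)[X]) * ∑ i ∈ range (n + 1), a i • X ^ i =
      ∑ i ∈ range (n + 1), a i • ((1 + X) ^ i * (X ^ (n - i) + X)) := by
    have := congrArg (Polynomial.map (Int.castRingHom (ZMod p))) (three_term_int hp5 hn4 hev hnp)
    simp only [Polynomial.map_mul, Polynomial.map_add, Polynomial.map_one, map_X, Polynomial.map_sum,
      Polynomial.map_pow, map_C, Int.coe_castRingHom, Int.cast_mul, Int.cast_natCast] at this
    simp only [ha, smul_eq_C_mul]
    exact this
  have hz : ∀ i ∈ range (n + 1), i ∉ insert 0 (insert n (SS p n)) → a i = 0 := by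
    intro i hi hiS
    rw [mem_range] at hi
    rw [mem_insert, mem_insert] at hiS
    push Not at hiS
    simp only [ha]
    by_cases hi2 : 2 ≤ i ∧ i ≤ n - 2
    · have : (p : ℤ) ∣ cB p i ∨ (p : ℤ) ∣ cB p (n - i) := by
        by_contra hcon
        push Not at hcon
        exact hiS.2.2 (mem_filter.mpr ⟨mem_Icc.mpr hi2, hcon⟩)
      rcases this with h | h
      · rw [(hZ _).mpr h, zero_mul, mul_zero]
      · rw [(hZ _).mpr h, mul_zero, mul_zero]
    · have : i = 1 ∨ i = n - 1 := by omega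
      have hodd : Odd (n - 1) := by
        obtain ⟨j, hj⟩ := hev
        exact ⟨j - 1, by omega⟩
      have hB : cB p (n - 1) = 0 := cB_odd hp5 (by omega) hodd (by omega)
      rcases this with rfl | rfl
      · rw [hB, Int.cast_zero, mul_zero, mul_zero]
      · rw [hB, Int.cast_zero, zero_mul, mul_zero]
  have hmem : ∀ i ∈ SS p n, 2 ≤ i ∧ i ≤ n - 2 := fun i hi => mem_Icc.mp (mem_filter.mp hi).1
  have hsub : insert 0 (insert n (SS p n)) ⊆ range (n + 1) := by
    intro i hi
    rw [mem_insert, mem_insert] at hi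
    rw [mem_range]
    rcases hi with h | h | h
    · omega
    · omega
    · have := hmem i h
      omega
  have h0 : (0 : ℕ) ∉ insert n (SS p n) := by
    rw [mem_insert]
    rintro (h | h)
    · omega
    · have := hmem 0 h
      omega
  have hn : n ∉ SS p n := by
    intro h
    have := hmem n h
    omega
  have hsum : ∀ g : ℕ → (ZMod p)[X], ∑ i ∈ range (n + 1), a i • g i =
      a 0 • g 0 + (a n • g n + ∑ i ∈ SS p n, a i • g i) := by
    intro g
    rw [← sum_insert (f := fun i => a i • g i) hn, ← sum_insert (f := fun i => a i • g i) h0]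
    symm
    refine sum_subset hsub fun i hi hiS => ?_
    rw [hz i hi hiS, zero_smul]
  rw [hsum, hsum] at h1
  have ha0 : a 0 = (primorial (p - 1) : ZMod p) * (cB p n : ZMod p) := by
    have h3 : cB p 0 = (primorial (p - 1) : ℤ) := by
      have := cB_spec hp5 (n := 0) (by omega)
      rw [_root_.bernoulli_zero, mul_one] at this
      exact_mod_cast this
    simp only [ha]
    rw [Nat.choose_zero_right, Nat.sub_zero, h3]
    push_cast
    ring
  have han : a n = a 0 := by
    simp only [ha]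
    rw [Nat.choose_zero_right, Nat.choose_self, Nat.sub_zero, Nat.sub_self]
    ring
  have ha00 : a 0 ≠ 0 := by
    rw [ha0]
    apply mul_ne_zero
    · rw [Ne, ZMod.natCast_eq_zero_iff]
      exact not_dvd_primorial hpF.out
    · rw [Ne, hZ]
      exact hreg
  apply reg_period_bound (F := ZMod p) (P := p) (fun a b ha hb h => natCast_inj_of_lt ha hb h)
    (by omega) (by omega) (SS p n) (fun i hi => by have := hmem i hi; omega) a (a 0) ha00
  rw [han] at h1
  simp only [smul_sub, mul_add, smul_add, sum_sub_distrib, sum_add_distrib] at h1 ⊢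
  simp only [smul_eq_C_mul, pow_zero, Nat.sub_zero, Nat.sub_self] at h1 ⊢
  rw [mul_sum] at h1
  have e1 : ∑ i ∈ SS p n, (1 + X) * (C (a i) * X ^ i) = ∑ i ∈ SS p n, C (a i) * ((1 + X) * X ^ i) :=
    sum_congr rfl fun i _ => by ring
  rw [e1] at h1
  linear_combination h1

/-- **Every even `m`, `4 ≤ m ≤ p - 3`, is a sum of two positive regular indices in at least
`√(m/11)` ways.** -/
theorem reps_all (hp5 : 5 ≤ p) {m : ℕ} (hm4 : 4 ≤ m) (hme : Even m) (hmp : m + 3 ≤ p) :
    m ≤ 11 * (SS p m).card ^ 2 := by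
  by_cases hirr : (p : ℤ) ∣ cB p m
  · have hne : (SS p m).Nonempty := by
      obtain ⟨-, i, hi, he1, he2, h1, h2⟩ := mem_XX.mp (mem_XX_even hp5 hm4 hme hmp)
      have hi0 : i ≠ 0 := by
        rintro rfl
        rw [Nat.sub_zero] at h2
        exact h2 hirr
      have hin : i ≠ m := by
        rintro rfl
        exact h1 hirr
      have hi2 : 2 ≤ i := by
        obtain ⟨j, hj⟩ := he1
        omega
      have hni2 : 2 ≤ m - i := by
        obtain ⟨j, hj⟩ := he2
        omega
      exact ⟨i, mem_filter.mpr ⟨mem_Icc.mpr (by omega), h1, h2⟩⟩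
    have h3 := many_representations (p := p) hp5 hm4 hme (by omega) hirr hne
    have h4 : 1 ≤ (SS p m).card := hne.card_pos
    nlinarith
  · have h3 := reps_regular (p := p) hp5 hm4 hme (by omega) hirr
    have h4 : 1 ≤ (SS p m).card := by
      by_contra h
      have : (SS p m).card = 0 := by omega
      rw [this] at h3
      omega
    nlinarith

end Reps

section Count

variable {p : ℕ} [hpF : Fact p.Prime]

lemma sum_sqrt_ge (K : ℕ) : (2 / 3 : ℝ) * √(K : ℝ) ^ 3 ≤ ∑ k ∈ range K, √((k : ℝ) + 1) := by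
  induction K with
  | zero => simp
  | succ K ih =>
    rw [sum_range_succ]
    set u := √((K : ℝ) + 1) with hu
    set w := √(K : ℝ) with hw
    have hu0 : 0 ≤ u := Real.sqrt_nonneg _
    have hw0 : 0 ≤ w := Real.sqrt_nonneg _
    have hu2 : u ^ 2 = (K : ℝ) + 1 := Real.sq_sqrt (by positivity)
    have hw2 : w ^ 2 = (K : ℝ) := Real.sq_sqrt (by positivity)
    have h1 : u ^ 2 - w ^ 2 = 1 := by rw [hu2, hw2]; ring
    have h2 : 3 * u - 2 * (u ^ 3 - w ^ 3) = (u - w) ^ 2 * (u + 2 * w) := by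
      linear_combination (-3 * u) * h1
    have h3 : 0 ≤ (u - w) ^ 2 * (u + 2 * w) := by positivity
    have h4 : √(((K + 1 : ℕ) : ℝ)) = u := by rw [hu]; push_cast; rfl
    rw [h4]
    linarith

lemma sum_reps_le (hp5 : 5 ≤ p) {K : ℕ} (hK : 2 * K + 3 ≤ p) :
    ∑ k ∈ Icc 2 K, (SS p (2 * k)).card ≤ (regIdx p K).card ^ 2 := by
  classical
  rw [← card_sigma, pow_two, ← card_regular_cB hp5 (by omega : 2 * K + 2 ≤ p), ← card_product]
  apply card_le_card_of_injOn (fun x => (x.2, 2 * x.1 - x.2))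
  · rintro ⟨k, i⟩ hx
    have hx := mem_sigma.mp (mem_coe.mp hx)
    simp only at hx
    obtain ⟨hk, hi⟩ := hx
    rw [mem_Icc] at hk
    rw [SS, mem_filter, mem_Icc] at hi
    rw [mem_coe, mem_product, mem_filter, mem_filter, mem_Icc, mem_Icc]
    simp only
    refine ⟨⟨by omega, hi.2.1⟩, ⟨by omega, hi.2.2⟩⟩
  · rintro ⟨k, i⟩ hx ⟨m, j⟩ hy hxy
    have hx := (mem_sigma.mp (mem_coe.mp hx)).2
    have hy := (mem_sigma.mp (mem_coe.mp hy)).2
    simp only at hx hy
    rw [SS, mem_filter, mem_Icc] at hx hy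
    simp only [Prod.mk.injEq] at hxy
    obtain ⟨rfl, h2⟩ := hxy
    have : k = m := by omega
    subst this
    rfl

/-- **Main count.** -/
theorem count_three_quarters (hp5 : 5 ≤ p) {K : ℕ} (hK1 : 1 ≤ K) (hK : 2 * K + 3 ≤ p) :
    (K : ℝ) ^ (3 / 4 : ℝ) / 2 ≤ ((regIdx p K).card : ℝ) := by
  set R : ℝ := ((regIdx p K).card : ℝ) with hR
  have hRn : 1 ≤ (regIdx p K).card := by
    rw [Nat.one_le_iff_ne_zero, ← Nat.pos_iff_ne_zero, card_pos]
    exact ⟨1, mem_regIdx.mpr ⟨⟨le_rfl, hK1⟩, not_dvd_bernoulli_two hp5⟩⟩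
  have hR1 : (1 : ℝ) ≤ R := by rw [hR]; exact_mod_cast hRn
  set s : ℝ := √(K : ℝ) with hs
  have hs0 : 0 ≤ s := Real.sqrt_nonneg _
  have hs2 : s ^ 2 = (K : ℝ) := Real.sq_sqrt (by positivity)
  have hrep : ∀ k ∈ Icc 2 K, (213 / 500 : ℝ) * √(k : ℝ) ≤ ((SS p (2 * k)).card : ℝ) := by
    intro k hk
    rw [mem_Icc] at hk
    have h1 := reps_all (p := p) hp5 (m := 2 * k) (by omega) (even_two_mul k) (by omega)
    have h2 : (2 * (k : ℝ)) ≤ 11 * ((SS p (2 * k)).card : ℝ) ^ 2 := by exact_mod_cast h1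
    have h3 : ((213 / 500 : ℝ) * √(k : ℝ)) ^ 2 ≤ ((SS p (2 * k)).card : ℝ) ^ 2 := by
      rw [mul_pow, Real.sq_sqrt (by positivity)]
      have : (0 : ℝ) ≤ k := by positivity
      nlinarith
    exact (pow_le_pow_iff_left₀ (by positivity) (by positivity) two_ne_zero).mp h3
  have hsum := sum_reps_le (p := p) hp5 hK
  have hsumR : ∑ k ∈ Icc 2 K, ((SS p (2 * k)).card : ℝ) ≤ R ^ 2 := by
    rw [hR]
    exact_mod_cast hsum
  have hkey : s ^ 3 ≤ 4 * R ^ 2 := by
    rcases Nat.lt_or_ge K 6 with h6 | h6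
    · rcases Nat.lt_or_ge K 3 with h3 | h3
      · have h4 : (K : ℝ) ≤ 2 := by exact_mod_cast (by omega : K ≤ 2)
        have h5 : s ≤ 3 / 2 := by
          rw [hs, Real.sqrt_le_left (by norm_num)]
          linarith
        nlinarith
      · have h4 : (K : ℝ) ≤ 5 := by exact_mod_cast (by omega : K ≤ 5)
        have h5 : s ≤ 5 / 2 := by
          rw [hs, Real.sqrt_le_left (by norm_num)]
          linarith
        have h7 : 2 ≤ (regIdx p K).card := by
          by_contra hcon
          have h8 : (regIdx p K).card = 1 := by omega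
          rw [h8] at hsum
          have h9 : ∑ k ∈ Icc 2 K, 1 ≤ ∑ k ∈ Icc 2 K, (SS p (2 * k)).card := by
            refine sum_le_sum fun k hk => ?_
            rw [mem_Icc] at hk
            have h1 := reps_all (p := p) hp5 (m := 2 * k) (by omega) (even_two_mul k) (by omega)
            by_contra h10
            have h11 : (SS p (2 * k)).card = 0 := by omega
            rw [h11] at h1
            omega
          rw [sum_const, Nat.card_Icc, smul_eq_mul, mul_one] at h9
          omega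
        have h8 : (2 : ℝ) ≤ R := by rw [hR]; exact_mod_cast h7
        nlinarith
    · have h1 := sum_sqrt_ge K
      have h2 : ∑ k ∈ range K, √((k : ℝ) + 1) = 1 + ∑ k ∈ Icc 2 K, √(k : ℝ) := by
        obtain ⟨L, rfl⟩ : ∃ L, K = L + 1 := ⟨K - 1, by omega⟩
        rw [sum_range_succ']
        have h3 : ∑ k ∈ Icc 2 (L + 1), √(k : ℝ) = ∑ k ∈ range L, √(((k + 1 : ℕ) : ℝ) + 1) := by
          have h4 : Icc 2 (L + 1) = Ico 2 (L + 2) := by
            ext k
            rw [mem_Icc, mem_Ico]
            omega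
          rw [h4, Finset.sum_Ico_eq_sum_range, Nat.add_sub_cancel]
          refine sum_congr rfl fun k _ => ?_
          congr 1
          push_cast
          ring
        rw [h3]
        simp
        ring
      have h3 : (213 / 500 : ℝ) * ∑ k ∈ Icc 2 K, √(k : ℝ) ≤ R ^ 2 := by
        rw [mul_sum]
        exact (sum_le_sum hrep).trans hsumR
      rw [h2, ← hs] at h1
      have h6' : (6 : ℝ) ≤ K := by exact_mod_cast h6
      have h7 : (12 / 5 : ℝ) ≤ s := by
        rw [hs]
        apply Real.le_sqrt_of_sq_le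
        linarith
      have h8 : (72 / 5 : ℝ) ≤ s ^ 3 := by nlinarith
      linarith
  have ht0 : 0 ≤ (K : ℝ) ^ (3 / 4 : ℝ) := Real.rpow_nonneg (by positivity) _
  have ht : ((K : ℝ) ^ (3 / 4 : ℝ)) ^ 2 = s ^ 3 := by
    rw [hs, Real.sqrt_eq_rpow, ← Real.rpow_natCast, ← Real.rpow_natCast, ← Real.rpow_mul (by positivity),
      ← Real.rpow_mul (by positivity)]
    norm_num
  have hfin : (K : ℝ) ^ (3 / 4 : ℝ) ≤ 2 * R := by
    apply (pow_le_pow_iff_left₀ ht0 (by linarith) two_ne_zero).mp
    rw [ht]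
    linarith
  linarith

end Count

end Pool.Agent.Lib.MP_a3a416_nt
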