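import Pool.Agent.Lib.MP_a3a416_nt.TwoSumUnits

/-!
Non-vanishing modulo `p` of the character sums `∑ χ(a) c(ζ^a)` for odd characters of large
`3`-power conductor.
-/

open Finset

namespace Pool.Agent.Lib.MP_a3a416_nt

section Frob2

variable {p : ℕ} [hpF : Fact p.Prime] {K : Type*} [Field K] [CharP K p]

omit hpF in
lemma cc_frob [hpF : Fact p.Prime] (i : ℕ) (z : K) : (cc z) ^ p ^ i = cc (z ^ p ^ i) := by
  have h : ∀ y : K, iterateFrobenius K p i y = y ^ p ^ i := fun y => iterateFrobenius_def ..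
  rw [← h, ← h, cc, cc, map_div₀, map_div₀, map_add, map_sub, map_one, map_ofNat]

/-- Frobenius acts on the relations `∑ χ(b) c(ζ^b) = 0`. -/
lemma frob_char {N : ℕ} [NeZero N] (hcop : p.Coprime N) (χ : DirichletCharacter K N)
    (e : AddChar (ZMod N) K) (h : ∑ b : ZMod N, χ b * cc (e b) = 0) (i : ℕ) :
    ∑ b : ZMod N, χ b ^ p ^ i * cc (e b) = 0 := by
  have h1 := congrArg (fun y => y ^ p ^ i) h
  rw [sum_pow_char_pow, zero_pow (pow_ne_zero _ hpF.out.ne_zero)] at h1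
  set u : (ZMod N)ˣ := ZMod.unitOfCoprime (p ^ i) (hcop.pow_left i) with hu
  have hu' : (u : ZMod N) = ((p ^ i : ℕ) : ZMod N) := ZMod.coe_unitOfCoprime _ _
  have h2 : ∀ b : ZMod N, (χ b * cc (e b)) ^ p ^ i = χ b ^ p ^ i * cc (e (u * b)) := by
    intro b
    rw [mul_pow, cc_frob, hu', ← nsmul_eq_mul, AddChar.map_nsmul_eq_pow]
  rw [sum_congr rfl fun b _ => h2 b] at h1
  have h3 : ∑ b : ZMod N, χ b ^ p ^ i * cc (e b) =
      ∑ b : ZMod N, χ (u * b) ^ p ^ i * cc (e (u * b)) :=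
    (Equiv.sum_comp (Units.mulLeft u) (fun b => χ b ^ p ^ i * cc (e b))).symm
  rw [h3]
  have h4 : ∀ b : ZMod N, χ (u * b) ^ p ^ i * cc (e (u * b)) =
      χ u ^ p ^ i * (χ b ^ p ^ i * cc (e (u * b))) := by
    intro b
    rw [map_mul, mul_pow, mul_assoc]
  rw [sum_congr rfl fun b _ => h4 b, ← mul_sum, h1, mul_zero]

open Classical in
/-- Only the `b` with `χ(b)` in the field with `p^2` elements matter. -/
lemma fixed_sum (h3 : 3 ∣ p ^ 2 - 1) (hodd : Odd p) {n : ℕ} (hn : 1 ≤ n) (h3K : (3 : K) ≠ 0)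
    (hcop : p.Coprime (3 ^ n)) (χ : DirichletCharacter K (3 ^ n)) (e : AddChar (ZMod (3 ^ n)) K)
    (h : ∑ b : ZMod (3 ^ n), χ b * cc (e b) = 0) :
    ∑ b : ZMod (3 ^ n) with χ b ^ p ^ 2 = χ b, χ b * cc (e b) = 0 := by
  classical
  have h1 : ∑ i ∈ range (3 ^ n), ∑ b : ZMod (3 ^ n), χ b ^ (p ^ 2) ^ i * cc (e b) = 0 := by
    refine sum_eq_zero fun i _ => ?_
    have := frob_char hcop χ e h (2 * i)
    rw [pow_mul] at this
    exact this
  rw [sum_comm] at h1
  have h2 : ∀ b : ZMod (3 ^ n), ∑ i ∈ range (3 ^ n), χ b ^ (p ^ 2) ^ i * cc (e b) =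
      (3 : K) ^ n * (if χ b ^ p ^ 2 = χ b then χ b * cc (e b) else 0) := by
    intro b
    rw [← sum_mul]
    split_ifs with hb
    · have hi : ∀ i : ℕ, χ b ^ (p ^ 2) ^ i = χ b := by
        intro i
        induction i with
        | zero => simp
        | succ i ih => rw [pow_succ, pow_mul, ih, hb]
      rw [sum_congr rfl fun i _ => hi i, sum_const, card_range, nsmul_eq_mul]
      push_cast
      ring
    · have hbu : IsUnit b := by
        by_contra hnu
        rw [χ.map_nonunit hnu] at hb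
        apply hb
        rw [zero_pow (pow_ne_zero _ hpF.out.ne_zero)]
      rw [frob_sum_zero h3 hodd ?_ hb, zero_mul, mul_zero]
      obtain ⟨u, rfl⟩ := hbu
      rw [← map_pow]
      have h4 := ZMod.pow_totient u
      rw [Nat.totient_prime_pow Nat.prime_three (by omega)] at h4
      have h5 : (2 * 3 ^ n) = (3 ^ (n - 1) * (3 - 1)) * 3 := by
        obtain ⟨k, rfl⟩ : ∃ k, n = k + 1 := ⟨n - 1, by omega⟩
        rw [Nat.add_sub_cancel, pow_succ]
        ring
      rw [h5, pow_mul, ← Units.val_pow_eq_pow_val, h4]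
      simp
  rw [sum_congr rfl fun b _ => h2 b, ← mul_sum, ← sum_filter] at h1
  exact (mul_eq_zero.mp h1).resolve_left (pow_ne_zero n h3K)

/-- **Non-vanishing** of the character sums. -/
theorem charsum_ne_zero (hp5 : 5 ≤ p) {n v r : ℕ} (hv : 1 ≤ v) (hvn : 2 * v ≤ n)
    (hP : p ^ 2 = 2 * 3 ^ v * r + 1) (hr : ¬ 3 ∣ r) (χ : DirichletCharacter K (3 ^ n))
    (hχ : χ (1 + 3 ^ (n - 1)) ≠ 1) (hχodd : χ (-1) = -1) {ζ : K} (hζ : IsPrimitiveRoot ζ (3 ^ n)) :
    ∑ b : ZMod (3 ^ n), χ b * cc (AddChar.zmodChar (3 ^ n) hζ.pow_eq_one b) ≠ 0 := by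
  classical
  intro hzero
  set e := AddChar.zmodChar (3 ^ n) hζ.pow_eq_one with he
  have hodd : Odd p := hpF.out.odd_of_ne_two (by omega)
  have hcop : p.Coprime (3 ^ n) := by
    apply Nat.Coprime.pow_right
    rw [Nat.coprime_primes hpF.out Nat.prime_three]
    omega
  have h20 : (2 : K) ≠ 0 := by
    intro h
    have : ((2 : ℕ) : K) = 0 := by exact_mod_cast h
    rw [CharP.cast_eq_zero_iff K p] at this
    exact absurd (Nat.le_of_dvd (by norm_num) this) (by omega)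
  have h30 : (3 : K) ≠ 0 := by
    intro h
    have : ((3 : ℕ) : K) = 0 := by exact_mod_cast h
    rw [CharP.cast_eq_zero_iff K p] at this
    exact absurd (Nat.le_of_dvd (by norm_num) this) (by omega)
  have h3P : 3 ∣ p ^ 2 - 1 := by
    rw [hP, Nat.add_sub_cancel]
    obtain ⟨w, rfl⟩ : ∃ w, v = w + 1 := ⟨v - 1, by omega⟩
    exact ⟨2 * 3 ^ w * r, by rw [pow_succ]; ring⟩
  have hfix := fixed_sum h3P hodd (by omega) h30 hcop χ e hzero
  have hfix' : ∑ b : ZMod (3 ^ n) with (IsUnit b ∧ χ b ^ p ^ 2 = χ b), χ b * cc (e b) = 0 := by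
    rw [← hfix]
    refine sum_subset ?_ ?_
    · intro b hb
      rw [mem_filter] at hb ⊢
      exact ⟨hb.1, hb.2.2⟩
    · intro b hb hb2
      rw [mem_filter] at hb hb2
      have : ¬ IsUnit b := fun h => hb2 ⟨hb.1, h, hb.2⟩
      rw [χ.map_nonunit this, zero_mul]
  -- the element `x`
  set x : ZMod (3 ^ n) := 3 ^ (n - v) with hx
  have hxx : x * x = 0 := by
    rw [hx, ← pow_add]
    exact three_pow_ge (by omega)
  have h3x : (3 : ZMod (3 ^ n)) ^ v * x = 0 := by
    rw [hx, ← pow_add]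
    exact three_pow_ge (by omega)
  have hpowx : ∀ t : ℕ, (1 + x) ^ t = 1 + t * x := by
    intro t
    induction t with
    | zero => simp
    | succ t ih =>
      rw [pow_succ, ih]
      push_cast
      linear_combination (t : ZMod (3 ^ n)) * hxx
  have hux : IsUnit (1 + x) := IsUnit.of_mul_eq_one (1 - x) (by linear_combination (-1 : ZMod (3 ^ n)) * hxx)
  set θ : K := χ (1 + x) with hθ
  have hθq : θ ^ 3 ^ v = 1 := by
    rw [hθ, ← map_pow, hpowx]
    push_cast
    rw [h3x, add_zero, map_one]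
  have hθ1 : θ ≠ 1 := by
    intro h
    apply hχ
    have h1 : θ ^ 3 ^ (v - 1) = χ (1 + 3 ^ (n - 1)) := by
      rw [hθ, ← map_pow, hpowx, hx]
      push_cast
      rw [← pow_add, show v - 1 + (n - v) = n - 1 by omega]
    rw [← h1, h, one_pow]
  have hχt : ∀ t : ℕ, χ (1 + t * x) = θ ^ t := by
    intro t
    rw [← hpowx, map_pow]
  -- the additive character
  have he1 : e 1 = ζ := by
    have := AddChar.zmodChar_apply' hζ.pow_eq_one 1
    rw [Nat.cast_one, pow_one] at this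
    exact this
  have hex : e x = ζ ^ 3 ^ (n - v) := by
    have := AddChar.zmodChar_apply' hζ.pow_eq_one (3 ^ (n - v))
    push_cast at this
    exact this
  set ω : K := ζ ^ 3 ^ (n - v) with hω
  have hωprim : IsPrimitiveRoot ω (3 ^ v) := by
    apply hζ.pow (by positivity)
    rw [← pow_add, Nat.sub_add_cancel (by omega)]
  have het : ∀ t : ℕ, e (1 + t * x) = ζ * ω ^ t := by
    intro t
    rw [AddChar.map_add_eq_mul, he1, ← nsmul_eq_mul, AddChar.map_nsmul_eq_pow, hex]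
  have hζ0 : ζ ≠ 0 := hζ.ne_zero (by positivity)
  have he0 : ∀ b, e b ≠ 0 := by
    intro b
    rw [he, AddChar.zmodChar_apply]
    exact pow_ne_zero _ hζ0
  -- evenness
  have heven : ∀ b, χ (-b) * cc (e (-b)) = χ b * cc (e b) := by
    intro b
    have h1 : χ (-b) = - χ b := by
      rw [show -b = (-1) * b by ring, map_mul, hχodd]
      ring
    have h2 : e (-b) = (e b)⁻¹ := by
      apply eq_inv_of_mul_eq_one_left
      rw [← AddChar.map_add_eq_mul, neg_add_cancel, AddChar.map_zero_eq_one]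
    rw [h1, h2, cc_inv (he0 b)]
    ring
  -- the two halves
  set A1 : Finset (ZMod (3 ^ n)) := (range (3 ^ v)).image (fun t : ℕ => 1 + (t : ZMod (3 ^ n)) * x) with hA1
  set A2 : Finset (ZMod (3 ^ n)) := (range (3 ^ v)).image (fun t : ℕ => - (1 + (t : ZMod (3 ^ n)) * x)) with hA2
  have hinj1 : ∀ t ∈ range (3 ^ v), ∀ s ∈ range (3 ^ v), 1 + (t : ZMod (3 ^ n)) * x = 1 + (s : ZMod (3 ^ n)) * x →
      t = s := by
    intro t ht s hs hts
    have h1 := congrArg e hts
    rw [het, het] at h1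
    exact hωprim.pow_inj (mem_range.mp ht) (mem_range.mp hs) (mul_left_cancel₀ hζ0 h1)
  have hdisj : Disjoint A1 A2 := by
    rw [Finset.disjoint_left]
    intro b hb1 hb2
    rw [hA1, mem_image] at hb1
    rw [hA2, mem_image] at hb2
    obtain ⟨t, -, rfl⟩ := hb1
    obtain ⟨s, -, hs⟩ := hb2
    have hc : ZMod.castHom (dvd_pow_self 3 (by omega : n ≠ 0)) (ZMod 3) x = 0 := by
      rw [hx, map_pow, map_ofNat]
      have : (3 : ZMod 3) = 0 := rfl
      rw [show (OfNat.ofNat 3 : ZMod 3) = 0 from rfl, zero_pow (by omega)]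
    have h1 := congrArg (ZMod.castHom (dvd_pow_self 3 (by omega : n ≠ 0)) (ZMod 3)) hs
    rw [map_neg, map_add, map_add, map_mul, map_mul, hc, map_one, mul_zero, mul_zero] at h1
    revert h1
    decide
  have hset : (univ.filter fun b : ZMod (3 ^ n) => IsUnit b ∧ χ b ^ p ^ 2 = χ b) = A1 ∪ A2 := by
    have hθP : θ ^ p ^ 2 = θ := by
      rw [hP, pow_succ, show 2 * 3 ^ v * r = 3 ^ v * (2 * r) by ring, pow_mul, hθq, one_pow, one_mul]
    have hoddP : Odd (p ^ 2) := hodd.pow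
    ext b
    rw [mem_filter, mem_union]
    constructor
    · rintro ⟨-, hb, hbP⟩
      obtain ⟨w, hw⟩ := fixed_units (n := n) (v := v) (r := r) (P := p ^ 2) (by omega) (by omega) hP hr χ hχ hb hbP
      have hw3 : (3 : ZMod (3 ^ n)) ^ (n - v) * (w : ZMod (3 ^ n)) =
          (((w % (3 ^ v : ℤ)).toNat : ℕ) : ZMod (3 ^ n)) * x := by
        have h1 : (((w % (3 ^ v : ℤ)).toNat : ℕ) : ℤ) = w % 3 ^ v := Int.toNat_of_nonneg (Int.emod_nonneg _ (by positivity))
        have h2 : (((w % (3 ^ v : ℤ)).toNat : ℕ) : ZMod (3 ^ n)) = ((w % (3 ^ v : ℤ) : ℤ) : ZMod (3 ^ n)) := by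
          rw [← h1]
          simp
        have h3 : (w : ZMod (3 ^ n)) = ((w % (3 ^ v : ℤ) : ℤ) : ZMod (3 ^ n)) +
            3 ^ v * ((w / (3 ^ v : ℤ) : ℤ) : ZMod (3 ^ n)) := by
          have := Int.emod_add_mul_ediv w (3 ^ v)
          exact_mod_cast congrArg (Int.cast : ℤ → ZMod (3 ^ n)) this.symm
        rw [h2, ← hx]
        linear_combination x * h3 + ((w / (3 ^ v : ℤ) : ℤ) : ZMod (3 ^ n)) * h3x
      have hlt : (w % (3 ^ v : ℤ)).toNat < 3 ^ v := by
        have h1 : w % (3 ^ v : ℤ) < 3 ^ v := Int.emod_lt_of_pos _ (by positivity)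
        have h2 : (((w % (3 ^ v : ℤ)).toNat : ℕ) : ℤ) = w % 3 ^ v := Int.toNat_of_nonneg (Int.emod_nonneg _ (by positivity))
        have h3 : (((w % (3 ^ v : ℤ)).toNat : ℕ) : ℤ) < ((3 ^ v : ℕ) : ℤ) := by
          rw [h2]; push_cast; exact h1
        exact_mod_cast h3
      rw [hw3] at hw
      rcases hw with h | h
      · left
        rw [hA1, mem_image]
        exact ⟨_, mem_range.mpr hlt, h.symm⟩
      · right
        rw [hA2, mem_image]
        exact ⟨_, mem_range.mpr hlt, h.symm⟩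
    · intro h
      rcases h with h | h
      · rw [hA1, mem_image] at h
        obtain ⟨t, -, rfl⟩ := h
        refine ⟨mem_univ _, ?_, ?_⟩
        · rw [← hpowx]; exact hux.pow t
        · rw [hχt, ← pow_mul, mul_comm, pow_mul, hθP]
      · rw [hA2, mem_image] at h
        obtain ⟨t, -, rfl⟩ := h
        refine ⟨mem_univ _, ?_, ?_⟩
        · rw [IsUnit.neg_iff, ← hpowx]; exact hux.pow t
        · have h1 : χ (-(1 + (t : ZMod (3 ^ n)) * x)) = - θ ^ t := by
            rw [show -(1 + (t : ZMod (3 ^ n)) * x) = (-1) * (1 + (t : ZMod (3 ^ n)) * x) by ring, map_mul,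
              hχodd, hχt]
            ring
          rw [h1, hoddP.neg_pow, ← pow_mul, mul_comm, pow_mul, hθP]
  rw [hset, sum_union hdisj, hA1, hA2, sum_image hinj1, sum_image (fun t ht s hs h =>
    hinj1 t ht s hs (neg_injective h))] at hfix'
  have h6 : ∀ t ∈ range (3 ^ v), χ (-(1 + (t : ZMod (3 ^ n)) * x)) * cc (e (-(1 + (t : ZMod (3 ^ n)) * x))) =
      θ ^ t * cc (ζ * ω ^ t) := by
    intro t _
    rw [heven, hχt, het]
  have h7 : ∀ t ∈ range (3 ^ v), χ ((1 + (t : ZMod (3 ^ n)) * x)) * cc (e ((1 + (t : ZMod (3 ^ n)) * x))) =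
      θ ^ t * cc (ζ * ω ^ t) := by
    intro t _
    rw [hχt, het]
  rw [sum_congr rfl h6, sum_congr rfl h7, ← two_mul] at hfix'
  have h8 := (mul_eq_zero.mp hfix').resolve_left h20
  refine W_ne_zero (q := 3 ^ v) ?_ h20 hζ0 ?_ hωprim hθq hθ1 h8
  · push_cast
    exact pow_ne_zero v h30
  · intro h
    have h9 := (hζ.pow_eq_one_iff_dvd (3 ^ v)).mp h
    rw [Nat.pow_dvd_pow_iff_le_right (by norm_num)] at h9
    omega

end Frob2

end Pool.Agent.Lib.MP_a3a416_nt
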