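import Pool.Agent.Lib.MP_a3a416_nt.TwoSumRec

/-!
The function `ψ(z)`: parity, and the formula as a rational function with a pole of exact order `m-1`
at `z = 1`.
-/

open Finset

namespace Pool.Agent.Lib.MP_a3a416_nt

section Parity

open PowerSeries

variable {p : ℕ} [hpF : Fact p.Prime] {K : Type*} [Field K] [Algebra (ZMod p) K]

lemma rescale_EK_neg : (X ^ p : K⟦X⟧) ∣ rescale (-1) (EK p K) * EK p K - 1 := by
  have h := map_dvd (PowerSeries.map (algebraMap (ZMod p) K)) (rescale_EE_add (p := p) (-1) 1)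
  rw [map_pow, PowerSeries.map_X, map_sub, map_mul, neg_add_cancel, rescale_one, RingHom.id_apply] at h
  have h0 : PowerSeries.map (algebraMap (ZMod p) K) (rescale 0 (EE p)) = 1 := by
    ext n
    rw [coeff_map, coeff_rescale, coeff_one]
    rcases Nat.eq_zero_or_pos n with hn | hn
    · subst hn; simp [EE]
    · rw [zero_pow (by omega), zero_mul, map_zero, if_neg (by omega)]
  have h1 : PowerSeries.map (algebraMap (ZMod p) K) (rescale (-1) (EE p)) = rescale (-1) (EK p K) := by
    ext n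
    rw [coeff_map, coeff_rescale, coeff_rescale, EK, coeff_map, map_mul, map_pow, map_neg, map_one]
  rw [h0, h1] at h
  rw [← dvd_neg]
  refine h.trans (dvd_of_eq ?_)
  rw [EK]
  ring

/-- `ψ` is odd. -/
theorem psi_inv (hp5 : 5 ≤ p) {m : ℕ} (hm4 : 4 ≤ m) (hme : Even m) (hmp : m + 3 ≤ p) {z : K}
    (hz0 : z ≠ 0) : psi p m z⁻¹ = - psi p m z := by
  by_cases hz1 : z = 1
  · subst hz1
    rw [inv_one, psi_one hme hm4, neg_zero]
  have hz1' : z⁻¹ ≠ 1 := by
    intro h
    exact hz1 (inv_eq_one.mp h)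
  have r1 := congrArg (rescale (-1 : K)) (ww_rel_ne p hp5 hz1)
  have r2 := ww_rel_ne p hp5 hz1'
  have r3 := rescale_EK_neg (p := p) (K := K)
  have hC : ∀ x : K, rescale (-1 : K) (C x : K⟦X⟧) = C x := by
    intro x
    ext n
    rw [coeff_rescale, coeff_C]
    split_ifs with h
    · subst h; simp
    · simp
  rw [map_mul, map_mul, map_mul, map_sub, map_add, rescale_X, hC, map_ofNat] at r1
  set E := EK p K
  set E' := rescale (-1 : K) E
  set w := ww p z
  set w' := rescale (-1 : K) w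
  set W := ww p z⁻¹
  have hCz : (C z : K⟦X⟧) * C z⁻¹ = 1 := by
    rw [← map_mul, mul_inv_cancel₀ hz0, map_one]
  have hCm : (C (-1 : K) : K⟦X⟧) = -1 := by rw [map_neg, map_one]
  rw [hCm] at r1
  have hdvd : (X ^ p : K⟦X⟧) ∣ (E - C z⁻¹) * (w' - W) := by
    have h2u : IsUnit (2 * C z : K⟦X⟧) := by
      apply IsUnit.mul
      · rw [show (2 : K⟦X⟧) = C 2 from (map_ofNat C 2).symm]
        exact (IsUnit.mk0 (2 : K) (two_ne_zero_K p K hp5)).map C
      · exact (IsUnit.mk0 z hz0).map C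
    apply h2u.dvd_mul_left.mp
    obtain ⟨s, hs⟩ := r3
    refine ⟨s * (2 * w' + X), ?_⟩
    linear_combination (- E) * r1 - C z * r2 + (2 * w' + X) * hs - (2 * w' + X) * hCz
  have h1 : (X ^ (p - 1) : K⟦X⟧) ∣ w' - W := by
    apply cancel_X (EK_sub_order p z⁻¹)
    rw [Nat.sub_add_cancel (by omega)]
    exact hdvd
  rw [X_pow_dvd_iff] at h1
  have h2 := h1 (m - 1) (by omega)
  rw [map_sub, sub_eq_zero] at h2
  have hodd : Odd (m - 1) := by
    obtain ⟨j, hj⟩ := hme
    exact ⟨j - 1, by omega⟩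
  change coeff (m - 1) W = - coeff (m - 1) w
  rw [← h2, coeff_rescale, hodd.neg_one_pow]
  ring

end Parity

section Rational

variable (p : ℕ) [hpF : Fact p.Prime] (K : Type*) [Field K] [Algebra (ZMod p) K]

open Polynomial in
/-- The numerator of the rational function `ψ`. -/
noncomputable def PsiNum (m : ℕ) : K[X] :=
  X * ∑ i ∈ range (m - 1), C (PowerSeries.coeff (m - 2) ((1 - EK p K) ^ i)) * (1 - X) ^ (m - 2 - i)

variable {p K}

open PowerSeries in
lemma psi_eq (hp5 : 5 ≤ p) {m : ℕ} (hm4 : 4 ≤ m) {z : K} (hz1 : z ≠ 1) :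
    psi p m z * (1 - z) ^ (m - 1) = (PsiNum p K m).eval z := by
  obtain ⟨N, rfl⟩ : ∃ N, m = N + 2 := ⟨m - 2, by omega⟩
  simp only [PsiNum, psi, show N + 2 - 1 = N + 1 by omega, show N + 2 - 2 = N by omega]
  have r := ww_rel_ne p hp5 hz1
  set E := EK p K with hE
  set w := ww p z with hw
  set G : K⟦X⟧ := ∑ i ∈ range (N + 1), (1 - E) ^ i * (1 - C z) ^ (N - i) with hG
  have hgeom : G * ((1 - E) - (1 - C z)) = (1 - E) ^ (N + 1) - (1 - C z) ^ (N + 1) := by
    have := (Commute.all (1 - E) (1 - C z : K⟦X⟧)).geom_sum₂_mul (N + 1)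
    rw [← this, hG]
    rfl
  have hXE : (X : K⟦X⟧) ∣ 1 - E := by
    rw [X_dvd_iff, map_sub, map_one, hE, constantCoeff_EK, sub_self]
  have hXw : (X : K⟦X⟧) ∣ 2 * w - X := by
    have : (X : K⟦X⟧) ∣ w := by
      rw [hw, ww, if_neg hz1, mul_assoc, mul_assoc]
      exact dvd_mul_right _ _
    exact dvd_sub (this.mul_left 2) dvd_rfl
  have h1 : ((1 - C z) ^ (N + 1) - (1 - E) ^ (N + 1)) * (2 * w - X) = 2 * C z * X * G := by
    linear_combination (2 * w - X) * hgeom + G * r
  have h2 := congrArg (coeff (N + 1)) h1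
  have h3 : coeff (N + 1) ((1 - E) ^ (N + 1) * (2 * w - X)) = 0 := by
    have h4 : (X ^ (N + 1 + 1) : K⟦X⟧) ∣ (1 - E) ^ (N + 1) * (2 * w - X) := by
      rw [pow_succ]
      exact mul_dvd_mul (pow_dvd_pow_of_dvd hXE _) hXw
    rw [X_pow_dvd_iff] at h4
    exact h4 (N + 1) (by omega)
  have e2 : (2 : K⟦X⟧) = C 2 := (map_ofNat C 2).symm
  have h5 : (1 - C z : K⟦X⟧) ^ (N + 1) = C ((1 - z) ^ (N + 1)) := by
    rw [map_pow, map_sub, map_one]
  rw [sub_mul, map_sub, h3, sub_zero, h5, coeff_C_mul, map_sub, e2, coeff_C_mul, coeff_X,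
    if_neg (by omega), sub_zero, ← map_mul, mul_assoc, coeff_C_mul, coeff_succ_X_mul] at h2
  have h6 : coeff N G = ∑ i ∈ range (N + 1), coeff N ((1 - E) ^ i) * (1 - z) ^ (N - i) := by
    rw [hG, map_sum]
    refine sum_congr rfl fun i _ => ?_
    have : (1 - C z : K⟦X⟧) ^ (N - i) = C ((1 - z) ^ (N - i)) := by
      rw [map_pow, map_sub, map_one]
    rw [this, coeff_mul_C]
  have h20 := two_ne_zero_K p K hp5
  have h7 : (Polynomial.X * ∑ i ∈ range (N + 1), Polynomial.C (coeff N ((1 - E) ^ i)) *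
      (1 - Polynomial.X) ^ (N - i) : Polynomial K).eval z = z * coeff N G := by
    rw [h6, Polynomial.eval_mul, Polynomial.eval_X, Polynomial.eval_finsetSum]
    simp only [Polynomial.eval_mul, Polynomial.eval_C, Polynomial.eval_pow, Polynomial.eval_sub,
      Polynomial.eval_one, Polynomial.eval_X]
  rw [h7]
  apply mul_left_cancel₀ h20
  linear_combination h2

open PowerSeries in
lemma PsiNum_eval_one {m : ℕ} (hm4 : 4 ≤ m) : (PsiNum p K m).eval 1 ≠ 0 := by
  obtain ⟨N, rfl⟩ : ∃ N, m = N + 2 := ⟨m - 2, by omega⟩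
  simp only [PsiNum, show N + 2 - 1 = N + 1 by omega, show N + 2 - 2 = N by omega]
  rw [Polynomial.eval_mul, Polynomial.eval_X, Polynomial.eval_finsetSum, one_mul]
  simp only [Polynomial.eval_mul, Polynomial.eval_C, Polynomial.eval_pow, Polynomial.eval_sub,
    Polynomial.eval_one, Polynomial.eval_X, sub_self]
  rw [sum_range_succ, Nat.sub_self, pow_zero, mul_one, sum_eq_zero, zero_add]
  · have h1 : (1 - EK p K) = X * (PowerSeries.mk fun i => - coeff (i + 1) (EK p K)) := by
      ext n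
      cases n with
      | zero =>
        rw [coeff_zero_X_mul, coeff_zero_eq_constantCoeff_apply, map_sub, constantCoeff_EK, map_one,
          sub_self]
      | succ n =>
        rw [coeff_succ_X_mul, coeff_mk, map_sub, coeff_one, if_neg (by omega), zero_sub]
    have h2 : coeff N ((1 - EK p K) ^ N) = (-1) ^ N := by
      rw [h1, mul_pow]
      have := coeff_X_pow_mul ((PowerSeries.mk fun i => - coeff (i + 1) (EK p K)) ^ N) N 0
      rw [zero_add] at this
      rw [this, coeff_zero_eq_constantCoeff_apply, map_pow, ← coeff_zero_eq_constantCoeff_apply,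
        coeff_mk, zero_add, coeff_one_EK]
    rw [h2]
    exact pow_ne_zero _ (by norm_num)
  · intro i hi
    rw [mem_range] at hi
    rw [zero_pow (by omega), mul_zero]

end Rational

end Pool.Agent.Lib.MP_a3a416_nt
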