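import Pool.Agent.Lib.MP_a3a416_nt.TwoSumSeries

/-!
The reciprocity law, and its consequence: all the sums `∑_{z^l=1} c(z^b) ψ(z)` vanish if the index is
not a sum of two regular indices.
-/

open Finset

namespace Pool.Agent.Lib.MP_a3a416_nt

section Rec

open PowerSeries

variable (p : ℕ) [hpF : Fact p.Prime] {K : Type*} [Field K] [Algebra (ZMod p) K]

/-- `ψ(z)`: the coefficient of `x^(m-2)` of `(1/2) (e^x + z) / (e^x - z)`. -/
noncomputable def psi (m : ℕ) (z : K) : K := coeff (m - 1) (ww p z)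

/-- The sum of `c(z^b) ψ(z)` over the `l`-th roots of unity. -/
noncomputable def SD (ψ : K → K) (b l : ℕ) : K :=
  ∑ z ∈ Polynomial.nthRootsFinset l (1 : K), cc (z ^ b) * ψ z

variable {p}

lemma coeff_RR {m : ℕ} (hnX : m ∉ XX p (m + 1)) (l b : ZMod p) :
    coeff m ((C (DK p K)⁻¹ * PowerSeries.map (algebraMap (ZMod p) K) (rescale l (CC p))) *
      (C (DK p K)⁻¹ * PowerSeries.map (algebraMap (ZMod p) K) (rescale b (CC p)))) = 0 := by
  have h := coeff_CC_mul (p := p) (n := m) (N := m + 1) (by omega) hnX l b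
  have e : (C (DK p K)⁻¹ * PowerSeries.map (algebraMap (ZMod p) K) (rescale l (CC p))) *
      (C (DK p K)⁻¹ * PowerSeries.map (algebraMap (ZMod p) K) (rescale b (CC p))) =
      C ((DK p K)⁻¹ * (DK p K)⁻¹) *
        PowerSeries.map (algebraMap (ZMod p) K) (rescale l (CC p) * rescale b (CC p)) := by
    rw [map_mul, map_mul]
    ring
  rw [e, coeff_C_mul, coeff_map, h, map_zero, mul_zero]

lemma psi_one {m : ℕ} (hme : Even m) (hm4 : 4 ≤ m) : psi p m (1 : K) = 0 := by
  rw [psi, ww_one, coeff_C_mul, CK, coeff_map, CC, coeff_mk, if_neg, map_zero, mul_zero]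
  rintro ⟨h, -⟩
  obtain ⟨a, ha⟩ := hme
  obtain ⟨b, hb⟩ := h
  omega

lemma coeff_ww_mul (hp5 : 5 ≤ p) {m : ℕ} (hm4 : 4 ≤ m) (hmp : m + 3 ≤ p) {z y : K} (hy : y ≠ 0)
    (hzy : z ≠ y) :
    coeff m (ww p z * ww p y) = cc (z / y) * (psi p m z - psi p m y) := by
  have h := ww_mul p hp5 hy hzy
  rw [X_pow_dvd_iff] at h
  have h1 := h m (by omega)
  obtain ⟨k, rfl⟩ : ∃ k, m = k + 1 := ⟨m - 1, by omega⟩
  rw [map_sub, sub_eq_zero, map_add, coeff_C_mul, coeff_X_pow, if_neg (by omega), mul_zero, zero_add,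
    mul_assoc, coeff_C_mul, coeff_succ_X_mul, map_sub] at h1
  rw [h1, psi, psi, Nat.add_sub_cancel]

theorem reciprocity (hp5 : 5 ≤ p) {m : ℕ} (hm4 : 4 ≤ m) (hme : Even m) (hmp : m + 3 ≤ p)
    (hnX : m ∉ XX p (m + 1)) {l b : ℕ} (hl : 0 < l) (hb : 0 < b) (hpl : ¬ p ∣ l) (hpb : ¬ p ∣ b)
    (hcop : b.Coprime l) {ζ ξ : K} (hζ : IsPrimitiveRoot ζ l) (hξ : IsPrimitiveRoot ξ b) :
    (b : K) * SD (psi p m) b l + (l : K) * SD (psi p m) l b = 0 := by
  classical
  have e1 := sum_ww p hp5 hl hpl hζ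
  have e2 := sum_ww p hp5 hb hpb hξ
  have e3 := coeff_RR (K := K) hnX (l : ZMod p) (b : ZMod p)
  set Rl := C (DK p K)⁻¹ * PowerSeries.map (algebraMap (ZMod p) K) (rescale (l : ZMod p) (CC p))
  set Rb := C (DK p K)⁻¹ * PowerSeries.map (algebraMap (ZMod p) K) (rescale (b : ZMod p) (CC p))
  set Wl := ∑ z ∈ Polynomial.nthRootsFinset l (1 : K), ww p z with hWl
  set Wb := ∑ z ∈ Polynomial.nthRootsFinset b (1 : K), ww p z with hWb
  have e4 : (X ^ (p - 1) : K⟦X⟧) ∣ Rl * Rb - Wl * Wb := by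
    refine (dvd_add (e1.mul_left Rb) (e2.mul_left Wl)).trans (dvd_of_eq ?_)
    ring
  rw [X_pow_dvd_iff] at e4
  have e5 := e4 m (by omega)
  rw [map_sub, e3, zero_sub, neg_eq_zero, hWl, hWb, sum_mul_sum, map_sum] at e5
  have hterm : ∀ z ∈ Polynomial.nthRootsFinset l (1 : K), ∀ y ∈ Polynomial.nthRootsFinset b (1 : K),
      coeff m (ww p z * ww p y) = cc (z / y) * (psi p m z - psi p m y) := by
    intro z hz y hy
    have hy0 : y ≠ 0 := Polynomial.ne_zero_of_mem_nthRootsFinset one_ne_zero hy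
    by_cases hzy : z = y
    · subst hzy
      rw [Polynomial.mem_nthRootsFinset hl] at hz
      rw [Polynomial.mem_nthRootsFinset hb] at hy
      have h1 : z = 1 := by
        have h2 : z ^ (Nat.gcd b l) = 1 := pow_gcd_eq_one.mpr ⟨hy, hz⟩
        rw [hcop.gcd_eq_one, pow_one] at h2
        exact h2
      subst h1
      have h3 := coeff_RR (K := K) hnX (1 : ZMod p) (1 : ZMod p)
      rw [rescale_one, RingHom.id_apply] at h3
      rw [ww_one, sub_self, mul_zero]
      exact h3
    · exact coeff_ww_mul hp5 hm4 hmp hy0 hzy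
  have e6 : ∑ z ∈ Polynomial.nthRootsFinset l (1 : K), ∑ y ∈ Polynomial.nthRootsFinset b (1 : K),
      (cc (z / y) * psi p m z - cc (z / y) * psi p m y) = 0 := by
    rw [← e5]
    refine sum_congr rfl fun z hz => ?_
    rw [map_sum]
    refine sum_congr rfl fun y hy => ?_
    rw [hterm z hz y hy]
    ring
  simp only [sum_sub_distrib] at e6
  have e7 : ∑ z ∈ Polynomial.nthRootsFinset l (1 : K), ∑ y ∈ Polynomial.nthRootsFinset b (1 : K),
      cc (z / y) * psi p m z = (b : K) * SD (psi p m) b l := by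
    rw [SD, mul_sum]
    refine sum_congr rfl fun z hz => ?_
    rw [← sum_mul]
    by_cases hz1 : z = 1
    · subst hz1
      rw [psi_one hme hm4]
      ring
    · have h1 : z ^ b ≠ 1 := by
        intro h
        apply hz1
        rw [Polynomial.mem_nthRootsFinset hl] at hz
        have h2 : z ^ (Nat.gcd b l) = 1 := pow_gcd_eq_one.mpr ⟨h, hz⟩
        rw [hcop.gcd_eq_one, pow_one] at h2
        exact h2
      rw [sum_cc_div hb hξ h1]
      ring
  have e8 : ∑ z ∈ Polynomial.nthRootsFinset l (1 : K), ∑ y ∈ Polynomial.nthRootsFinset b (1 : K),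
      cc (z / y) * psi p m y = - ((l : K) * SD (psi p m) l b) := by
    rw [sum_comm, SD, mul_sum, ← sum_neg_distrib]
    refine sum_congr rfl fun y hy => ?_
    rw [← sum_mul]
    have hy0 : y ≠ 0 := Polynomial.ne_zero_of_mem_nthRootsFinset one_ne_zero hy
    by_cases hy1 : y = 1
    · subst hy1
      rw [psi_one hme hm4]
      ring
    · have h1 : y ^ l ≠ 1 := by
        intro h
        apply hy1
        rw [Polynomial.mem_nthRootsFinset hb] at hy
        have h2 : y ^ (Nat.gcd b l) = 1 := pow_gcd_eq_one.mpr ⟨hy, h⟩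
        rw [hcop.gcd_eq_one, pow_one] at h2
        exact h2
      have h3 : ∑ z ∈ Polynomial.nthRootsFinset l (1 : K), cc (z / y) =
          - ∑ z ∈ Polynomial.nthRootsFinset l (1 : K), cc (y / z) := by
        rw [← sum_neg_distrib]
        refine sum_congr rfl fun z hz => ?_
        have hz0 : z ≠ 0 := Polynomial.ne_zero_of_mem_nthRootsFinset one_ne_zero hz
        rw [← cc_inv (div_ne_zero hy0 hz0), inv_div]
      rw [h3, sum_cc_div hl hζ h1]
      ring
  rw [e7, e8, sub_neg_eq_add] at e6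
  exact e6

end Rec

section Euclid

variable {p : ℕ} [hpF : Fact p.Prime] {K : Type*} [Field K] [Algebra (ZMod p) K]

lemma SD_mod (ψ : K → K) {l : ℕ} (hl : 0 < l) (b : ℕ) : SD ψ (b % l) l = SD ψ b l := by
  rw [SD, SD]
  refine sum_congr rfl fun z hz => ?_
  rw [Polynomial.mem_nthRootsFinset hl] at hz
  rw [← pow_eq_pow_mod b hz]

lemma SD_sub (ψ : K → K) {l : ℕ} (hl : 0 < l) {b : ℕ} (hb : b ≤ l) : SD ψ (l - b) l = - SD ψ b l := by
  rw [SD, SD, ← sum_neg_distrib]
  refine sum_congr rfl fun z hz => ?_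
  have hz0 : z ≠ 0 := Polynomial.ne_zero_of_mem_nthRootsFinset one_ne_zero hz
  rw [Polynomial.mem_nthRootsFinset hl] at hz
  have h1 : z ^ (l - b) = (z ^ b)⁻¹ := by
    apply eq_inv_of_mul_eq_one_left
    rw [← pow_add, Nat.sub_add_cancel hb, hz]
  rw [h1, cc_inv (pow_ne_zero b hz0)]
  ring

/-- Euclid's algorithm: the reciprocity law makes all the sums vanish. -/
theorem SD_eq_zero (ψ : K → K)
    (hrec : ∀ l b : ℕ, 0 < l → 0 < b → ¬ p ∣ l → ¬ p ∣ b → b.Coprime l →
      (b : K) * SD ψ b l + (l : K) * SD ψ l b = 0) :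
    ∀ l : ℕ, 0 < l → ¬ p ∣ l → ∀ b : ℕ, b.Coprime l → SD ψ b l = 0 := by
  intro l
  induction l using Nat.strong_induction_on with
  | _ l ih =>
    intro hl hpl b hb
    rcases Nat.lt_or_ge 1 l with h1 | h1
    · -- the key step
      have key : ∀ b' : ℕ, 0 < b' → b' < l → ¬ p ∣ b' → b'.Coprime l → SD ψ b' l = 0 := by
        intro b' h2 h3 h4 h5
        have h6 := hrec l b' hl h2 hpl h4 h5
        rw [ih b' h3 h2 h4 l h5.symm, mul_zero, add_zero] at h6
        refine (mul_eq_zero.mp h6).resolve_left ?_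
        have h7 : ((b' : ZMod p)) ≠ 0 := by
          rw [Ne, ZMod.natCast_eq_zero_iff]; exact h4
        have h8 : algebraMap (ZMod p) K (b' : ZMod p) ≠ 0 := by
          rw [Ne, _root_.map_eq_zero]; exact h7
        rwa [map_natCast] at h8
      have hmod : b % l < l := Nat.mod_lt _ hl
      have hcop : (b % l).Coprime l := by
        have : Nat.gcd (b % l) l = Nat.gcd b l := by
          rw [Nat.gcd_comm b l, Nat.gcd_rec l b]
        rw [Nat.coprime_iff_gcd_eq_one, this]
        exact hb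
      have hpos : 0 < b % l := by
        rcases Nat.eq_zero_or_pos (b % l) with h | h
        · rw [h, Nat.coprime_zero_left] at hcop
          omega
        · exact h
      rw [← SD_mod ψ hl b]
      by_cases hd : p ∣ b % l
      · have h2 : ¬ p ∣ l - b % l := by
          intro h
          apply hpl
          have := dvd_add h hd
          rwa [Nat.sub_add_cancel hmod.le] at this
        have h3 : (l - b % l).Coprime l := (Nat.coprime_self_sub_left hmod.le).mpr hcop
        have h4 := key (l - b % l) (by omega) (by omega) h2 h3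
        rw [SD_sub ψ hl hmod.le, neg_eq_zero] at h4
        exact h4
      · exact key _ hpos hmod hd hcop
    · have : l = 1 := by omega
      subst this
      rw [SD]
      refine sum_eq_zero fun z hz => ?_
      rw [Polynomial.mem_nthRootsFinset one_pos, pow_one] at hz
      subst hz
      rw [one_pow, cc_one, zero_mul]

end Euclid

end Pool.Agent.Lib.MP_a3a416_nt
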