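import Pool.Agent.Lib.MP_a3a416_nt.SumsetDim

/-!
Cotangent functions with poles at roots of unity, as power series modulo `x^(p-1)`, and the
reciprocity law between the sums `∑_{z^l=1} c(z^b) ψ(z)` and `∑_{z^b=1} c(z^l) ψ(z)`.
-/

open Finset

namespace Pool.Agent.Lib.MP_a3a416_nt

section Cot

open Polynomial

variable {K : Type*} [Field K]

/-- `cc z = (1/2) (z+1)/(z-1)`, with value `0` at `z = 1`. -/
noncomputable def cc (z : K) : K := (z + 1) / (z - 1) / 2

lemma cc_one : cc (1 : K) = 0 := by simp [cc]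

lemma cc_inv {z : K} (hz : z ≠ 0) : cc z⁻¹ = - cc z := by
  by_cases h1 : z = 1
  · subst h1; simp [cc]
  · have h2 : z - 1 ≠ 0 := sub_ne_zero.mpr h1
    have h3 : z⁻¹ - 1 ≠ 0 := by
      intro h
      apply h1
      have := sub_eq_zero.mp h
      exact inv_eq_one.mp this
    have h4 : (z⁻¹ + 1) / (z⁻¹ - 1) = - ((z + 1) / (z - 1)) := by
      rw [← neg_div, div_eq_div_iff h3 h2]
      field_simp
      ring
    rw [cc, cc, h4]
    ring

lemma sum_roots_poly [DecidableEq K] {l : ℕ} (hl : 0 < l) {ζ : K} (hζ : IsPrimitiveRoot ζ l) :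
    ∑ z ∈ nthRootsFinset l (1 : K), (∏ y ∈ (nthRootsFinset l (1 : K)).erase z, (X - C y)) * (X + C z)
      = C (l : K) * (X ^ l + 1) := by
  have h1 := X_pow_sub_one_eq_prod hl hζ
  have h2 := congrArg derivative h1
  rw [derivative_prod_finset] at h2
  simp only [derivative_sub, derivative_X_pow, derivative_one, sub_zero, derivative_X, derivative_C,
    mul_one] at h2
  have h3 : ∀ z ∈ nthRootsFinset l (1 : K),
      (∏ y ∈ (nthRootsFinset l (1 : K)).erase z, (X - C y)) * (X + C z) =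
        2 * X * (∏ y ∈ (nthRootsFinset l (1 : K)).erase z, (X - C y)) - (X ^ l - 1) := by
    intro z hz
    have h := prod_erase_mul _ (fun y => (X - C y : K[X])) hz
    rw [h1, ← h]
    ring
  rw [sum_congr rfl h3, sum_sub_distrib, ← mul_sum, ← h2, sum_const, hζ.card_nthRootsFinset,
    nsmul_eq_mul]
  obtain ⟨k, rfl⟩ : ∃ k, l = k + 1 := ⟨l - 1, by omega⟩
  rw [Nat.add_sub_cancel]
  simp only [map_natCast]
  ring

lemma sum_cc_div {l : ℕ} (hl : 0 < l) {ζ : K} (hζ : IsPrimitiveRoot ζ l) {z : K} (hz : z ^ l ≠ 1) :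
    ∑ y ∈ nthRootsFinset l (1 : K), cc (z / y) = l * cc (z ^ l) := by
  classical
  have h0 := congrArg (eval z) (sum_roots_poly hl hζ)
  have h1 := congrArg (eval z) (X_pow_sub_one_eq_prod hl hζ)
  rw [eval_finsetSum] at h0
  simp only [eval_mul, eval_prod, eval_sub, eval_add, eval_X, eval_C, eval_pow, eval_one] at h0 h1
  have hne : z ^ l - 1 ≠ 0 := sub_ne_zero.mpr hz
  have h2 : ∀ y ∈ nthRootsFinset l (1 : K), cc (z / y) =
      ((∏ e ∈ (nthRootsFinset l (1 : K)).erase y, (z - e)) * (z + y)) * ((z ^ l - 1)⁻¹ / 2) := by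
    intro y hy
    have hy0 : y ≠ 0 := ne_zero_of_mem_nthRootsFinset one_ne_zero hy
    have h3 := prod_erase_mul _ (fun y => (z - y : K)) hy
    rw [← h1] at h3
    have h4 : z - y ≠ 0 := by
      intro h
      rw [h, mul_zero] at h3
      exact hne h3.symm
    have h5 : (∏ e ∈ (nthRootsFinset l (1 : K)).erase y, (z - e)) ≠ 0 := by
      intro h
      rw [h, zero_mul] at h3
      exact hne h3.symm
    have h6 : (z / y + 1) / (z / y - 1) = (z + y) / (z - y) := by
      have h7 : z / y - 1 ≠ 0 := by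
        intro h
        apply h4
        rw [sub_eq_zero, div_eq_one_iff_eq hy0] at h
        rw [h, sub_self]
      rw [div_eq_div_iff h7 h4]
      field_simp
    rw [cc, h6, ← h3]
    field_simp
  rw [sum_congr rfl h2, ← sum_mul, h0, cc]
  field_simp

end Cot

section Series

open PowerSeries

variable {K : Type*} [Field K]

lemma cancel_X {ψ φ : K⟦X⟧} {k : ℕ} (h : constantCoeff ψ ≠ 0 ∨ coeff 1 ψ ≠ 0)
    (hd : (X ^ (k + 1) : K⟦X⟧) ∣ ψ * φ) : (X ^ k : K⟦X⟧) ∣ φ := by
  by_cases h0 : constantCoeff ψ = 0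
  · have h1 : coeff 1 ψ ≠ 0 := h.resolve_left (fun h => h h0)
    obtain ⟨θ, hθ⟩ := X_dvd_iff.mpr h0
    have h2 : constantCoeff θ ≠ 0 := by
      rw [hθ, show (1 : ℕ) = 0 + 1 from rfl, coeff_succ_X_mul, coeff_zero_eq_constantCoeff_apply] at h1
      exact h1
    rw [hθ, pow_succ', mul_assoc, mul_dvd_mul_iff_left X_ne_zero] at hd
    have h3 : φ = θ⁻¹ * (θ * φ) := by
      rw [← mul_assoc, PowerSeries.inv_mul_cancel _ h2, one_mul]
    rw [h3]
    exact hd.mul_left _
  · have h3 : φ = ψ⁻¹ * (ψ * φ) := by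
      rw [← mul_assoc, PowerSeries.inv_mul_cancel _ h0, one_mul]
    rw [h3]
    exact ((pow_dvd_pow X (Nat.le_succ k)).trans hd).mul_left _

end Series

section Series

open PowerSeries

variable (p : ℕ) [hpF : Fact p.Prime] (K : Type*) [Field K] [Algebra (ZMod p) K]

/-- The truncated exponential over `K`. -/
noncomputable def EK : K⟦X⟧ := PowerSeries.map (algebraMap (ZMod p) K) (EE p)

/-- The even Bernoulli series over `K`. -/
noncomputable def CK : K⟦X⟧ := PowerSeries.map (algebraMap (ZMod p) K) (CC p)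

/-- The factor `D`. -/
noncomputable def DK : K := algebraMap (ZMod p) K (primorial (p - 1) : ZMod p)

lemma DK_ne_zero : DK p K ≠ 0 := by
  rw [DK, Ne, _root_.map_eq_zero, ZMod.natCast_eq_zero_iff]
  exact not_dvd_primorial hpF.out

lemma constantCoeff_EK : constantCoeff (EK p K) = 1 := by
  rw [EK, ← coeff_zero_eq_constantCoeff_apply, coeff_map, EE, coeff_mk]
  simp

lemma coeff_one_EK : coeff 1 (EK p K) = 1 := by
  rw [EK, coeff_map, EE, coeff_mk]
  simp

lemma two_ne_zero_K (hp5 : 5 ≤ p) : (2 : K) ≠ 0 := by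
  have h : (2 : ZMod p) ≠ 0 := by
    have : ((2 : ℕ) : ZMod p) ≠ 0 := by
      rw [Ne, ZMod.natCast_eq_zero_iff]
      intro h
      exact absurd (Nat.le_of_dvd (by omega) h) (by omega)
    exact_mod_cast this
  have h' : algebraMap (ZMod p) K 2 ≠ 0 := by
    rw [Ne, _root_.map_eq_zero]; exact h
  rwa [map_ofNat] at h'

variable {K}

open Classical in
/-- `x` times the function `(1/2) (e^x + z) / (e^x - z)`. -/
noncomputable def ww (z : K) : K⟦X⟧ :=
  if z = 1 then C (DK p K)⁻¹ * CK p K else X * C (2⁻¹ : K) * (EK p K + C z) * (EK p K - C z)⁻¹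

lemma ww_one : ww p (1 : K) = C (DK p K)⁻¹ * CK p K := by rw [ww, if_pos rfl]

lemma ww_rel_ne (hp5 : 5 ≤ p) {z : K} (hz : z ≠ 1) :
    2 * (EK p K - C z) * ww p z = X * (EK p K + C z) := by
  rw [ww, if_neg hz]
  have h1 : constantCoeff (EK p K - C z) ≠ 0 := by
    rw [map_sub, constantCoeff_EK, constantCoeff_C]
    exact sub_ne_zero.mpr (Ne.symm hz)
  have h2 : (2 : K⟦X⟧) * C (2⁻¹ : K) = 1 := by
    rw [show (2 : K⟦X⟧) = C 2 from (map_ofNat C 2).symm, ← map_mul,
      mul_inv_cancel₀ (two_ne_zero_K p K hp5), map_one]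
  have h3 := PowerSeries.mul_inv_cancel _ h1
  linear_combination (X * (EK p K + C z)) * (2 * C (2⁻¹ : K)) * h3 + (X * (EK p K + C z)) * h2

lemma CK_rel (hp5 : 5 ≤ p) :
    (X ^ p : K⟦X⟧) ∣ 2 * CK p K * (EK p K - 1) - C (DK p K) * X * (EK p K + 1) := by
  have h := map_dvd (PowerSeries.map (algebraMap (ZMod p) K)) (CC_rel (p := p) hp5)
  simp only [map_sub, map_mul, map_add, map_pow, map_one, map_ofNat, PowerSeries.map_X,
    PowerSeries.map_C] at h
  exact h

lemma ww_rel (hp5 : 5 ≤ p) (z : K) :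
    (X ^ p : K⟦X⟧) ∣ 2 * (EK p K - C z) * ww p z - X * (EK p K + C z) := by
  by_cases hz : z = 1
  · subst hz
    rw [ww_one, map_one]
    have h := (CK_rel (K := K) p hp5).mul_left (C (DK p K)⁻¹)
    refine h.trans (dvd_of_eq ?_)
    have h2 : (C (DK p K)⁻¹ : K⟦X⟧) * C (DK p K) = 1 := by
      rw [← map_mul, inv_mul_cancel₀ (DK_ne_zero p K), map_one]
    linear_combination (- X * (EK p K + 1)) * h2
  · rw [ww_rel_ne p hp5 hz, sub_self]
    exact dvd_zero _

lemma EK_sub_order (z : K) : constantCoeff (EK p K - C z) ≠ 0 ∨ coeff 1 (EK p K - C z) ≠ 0 := by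
  right
  rw [map_sub, coeff_one_EK, coeff_C, if_neg (by norm_num), sub_zero]
  exact one_ne_zero

/-- The product formula. -/
lemma ww_mul (hp5 : 5 ≤ p) {z y : K} (hy : y ≠ 0) (hzy : z ≠ y) :
    (X ^ (p - 2) : K⟦X⟧) ∣ ww p z * ww p y -
      (C (4⁻¹ : K) * X ^ 2 + C (cc (z / y)) * X * (ww p z - ww p y)) := by
  set c := cc (z / y) with hc
  have hzy' : z - y ≠ 0 := sub_ne_zero.mpr hzy
  have h20 := two_ne_zero_K p K hp5
  have hcv : 2 * c * (z - y) = z + y := by
    have h6 : (z / y + 1) / (z / y - 1) = (z + y) / (z - y) := by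
      have h7 : z / y - 1 ≠ 0 := by
        intro h
        apply hzy'
        rw [sub_eq_zero, div_eq_one_iff_eq hy] at h
        rw [h, sub_self]
      rw [div_eq_div_iff h7 hzy']
      field_simp
    rw [hc, cc, h6]
    field_simp
  have h2K : (C (4⁻¹ : K) : K⟦X⟧) * 4 = 1 := by
    rw [show (4 : K⟦X⟧) = C 4 from (map_ofNat C 4).symm, ← map_mul, inv_mul_cancel₀, map_one]
    have : (4 : K) = 2 * 2 := by norm_num
    rw [this]
    exact mul_ne_zero h20 h20
  have hcC : (2 : K⟦X⟧) * C c * (C z - C y) = C z + C y := by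
    rw [show (2 : K⟦X⟧) = C 2 from (map_ofNat C 2).symm, ← map_mul, ← map_sub, ← map_mul, hcv, map_add]
  have r1 := ww_rel p hp5 z
  have r2 := ww_rel p hp5 y
  set E := EK p K
  set a := ww p z
  set b := ww p y
  obtain ⟨s, hs⟩ := r1
  obtain ⟨t, ht⟩ := r2
  have h4u : IsUnit (4 : K⟦X⟧) := IsUnit.of_mul_eq_one (C (4⁻¹ : K)) (by rw [mul_comm]; exact h2K)
  have hk : (X ^ p : K⟦X⟧) ∣ (E - C z) * ((E - C y) *
      (a * b - (C (4⁻¹ : K) * X ^ 2 + C c * X * (a - b)))) := by
    have h5 : (X ^ p : K⟦X⟧) ∣ 4 * ((E - C z) * ((E - C y) *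
      (a * b - (C (4⁻¹ : K) * X ^ 2 + C c * X * (a - b))))) := by
      refine ⟨s * (2 * (E - C y) * b) + t * (X * (E + C z)) - 2 * C c * X * ((E - C y) * s - (E - C z) * t), ?_⟩
      linear_combination (2 * (E - C y) * b - 2 * C c * X * (E - C y)) * hs +
        (X * (E + C z) + 2 * C c * X * (E - C z)) * ht - (X ^ 2 * (E - C z) * (E - C y)) * h2K
        - (2 * X ^ 2 * E) * hcC
    exact h4u.dvd_mul_left.mp h5
  have hk2 : (X ^ (p - 1) : K⟦X⟧) ∣ ((E - C y) *
      (a * b - (C (4⁻¹ : K) * X ^ 2 + C c * X * (a - b)))) := by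
    apply cancel_X (EK_sub_order p z)
    rw [Nat.sub_add_cancel (by omega)]
    exact hk
  apply cancel_X (EK_sub_order p y)
  rw [show p - 2 + 1 = p - 1 by omega]
  exact hk2

/-- The Bernoulli series at `l x` is the sum of the cotangent functions over the `l`-th roots of
unity. -/
lemma sum_ww (hp5 : 5 ≤ p) {l : ℕ} (hl : 0 < l) (hpl : ¬ p ∣ l) {ζ : K} (hζ : IsPrimitiveRoot ζ l) :
    (X ^ (p - 1) : K⟦X⟧) ∣ C (DK p K)⁻¹ * PowerSeries.map (algebraMap (ZMod p) K)
      (rescale (l : ZMod p) (CC p)) - ∑ z ∈ Polynomial.nthRootsFinset l (1 : K), ww p z := by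
  classical
  set R := PowerSeries.map (algebraMap (ZMod p) K) (rescale (l : ZMod p) (CC p)) with hR
  have h := map_dvd (PowerSeries.map (algebraMap (ZMod p) K)) (CC_rel_rescale (p := p) hp5 l)
  simp only [map_sub, map_mul, map_add, map_pow, map_one, map_ofNat, PowerSeries.map_X,
    map_natCast] at h
  have h' : (X ^ p : K⟦X⟧) ∣ 2 * R * (EK p K ^ l - 1) - C (DK p K) * (l : K⟦X⟧) * X * (EK p K ^ l + 1) := by
    refine h.trans (dvd_of_eq ?_)
    have hD : (C (DK p K) : K⟦X⟧) = (primorial (p - 1) : K⟦X⟧) := by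
      rw [DK, map_natCast, map_natCast]
    rw [hD, hR, EK]
  set E := EK p K with hE
  set W := ∑ z ∈ Polynomial.nthRootsFinset l (1 : K), ww p z with hW
  -- the other side
  have hpoly := sum_roots_poly hl hζ
  have hprod := Polynomial.X_pow_sub_one_eq_prod hl hζ
  have hpoly' := congrArg (Polynomial.aeval E) hpoly
  have hprod' := congrArg (Polynomial.aeval E) hprod
  have hC : ∀ x : K, Polynomial.aeval E (Polynomial.C x) = (C x : K⟦X⟧) := by
    intro x
    rw [Polynomial.aeval_C]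
    rfl
  simp only [map_sum, map_mul, map_prod, map_sub, map_add, map_pow, Polynomial.aeval_X, map_one, hC,
    map_natCast] at hpoly' hprod'
  have hsum : (X ^ p : K⟦X⟧) ∣ 2 * (E ^ l - 1) * W - (l : K⟦X⟧) * X * (E ^ l + 1) := by
    have h1 : ∀ z ∈ Polynomial.nthRootsFinset l (1 : K), (X ^ p : K⟦X⟧) ∣
        2 * (E ^ l - 1) * ww p z -
          X * ((∏ y ∈ (Polynomial.nthRootsFinset l (1 : K)).erase z, (E - C y)) * (E + C z)) := by
      intro z hz
      have h2 := (ww_rel p hp5 z).mul_left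
        (∏ y ∈ (Polynomial.nthRootsFinset l (1 : K)).erase z, (E - C y))
      refine h2.trans (dvd_of_eq ?_)
      have h3 := prod_erase_mul _ (fun y => (E - C y : K⟦X⟧)) hz
      rw [← hprod'] at h3
      rw [← h3, ← hE]
      ring
    have h2 := dvd_sum h1
    refine h2.trans (dvd_of_eq ?_)
    rw [sum_sub_distrib, ← mul_sum, ← mul_sum, hpoly', hW]
    ring
  have h2 : (C (DK p K)⁻¹ : K⟦X⟧) * C (DK p K) = 1 := by
    rw [← map_mul, inv_mul_cancel₀ (DK_ne_zero p K), map_one]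
  have h3 : (X ^ p : K⟦X⟧) ∣ (E ^ l - 1) * (C (DK p K)⁻¹ * R - W) := by
    have h4 : (X ^ p : K⟦X⟧) ∣ 2 * ((E ^ l - 1) * (C (DK p K)⁻¹ * R - W)) := by
      refine (dvd_sub (h'.mul_left (C (DK p K)⁻¹)) hsum).trans (dvd_of_eq ?_)
      linear_combination (- (l : K⟦X⟧) * X * (E ^ l + 1)) * h2
    have h2u : IsUnit (2 : K⟦X⟧) := by
      rw [show (2 : K⟦X⟧) = C 2 from (map_ofNat C 2).symm]
      exact (IsUnit.mk0 (2 : K) (two_ne_zero_K p K hp5)).map C
    exact h2u.dvd_mul_left.mp h4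
  apply cancel_X (ψ := E ^ l - 1)
  · right
    have h5 : coeff 1 (E ^ l) = (l : K) := by
      have h6 : ∀ k : ℕ, coeff 1 (E ^ k) = (k : K) := by
        intro k
        induction k with
        | zero => simp [coeff_one]
        | succ k ih =>
          rw [pow_succ, coeff_mul, Nat.sum_antidiagonal_eq_sum_range_succ_mk]
          simp only [sum_range_succ, range_zero, sum_empty, zero_add, Nat.sub_zero, Nat.sub_self]
          rw [ih, coeff_zero_eq_constantCoeff_apply, coeff_zero_eq_constantCoeff_apply, map_pow,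
            hE, constantCoeff_EK, coeff_one_EK]
          push_cast
          ring
      exact h6 l
    rw [map_sub, h5, coeff_one, if_neg (by norm_num), sub_zero]
    have : ((l : ZMod p)) ≠ 0 := by
      rw [Ne, ZMod.natCast_eq_zero_iff]; exact hpl
    have h7 : algebraMap (ZMod p) K (l : ZMod p) ≠ 0 := by
      rw [Ne, _root_.map_eq_zero]; exact this
    rwa [map_natCast] at h7
  · rw [Nat.sub_add_cancel (by omega)]
    exact h3

end Series

end Pool.Agent.Lib.MP_a3a416_nt
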