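import Pool.Agent.Lib.MP_a3a416_nt.TwoSumChar

/-!
Non-vanishing modulo `p` of the character sums `∑ χ(a) c(ζ^a)` for odd characters of large
`3`-power conductor: the arithmetic of `(ZMod (3^n))ˣ` and the theorem.
-/

open Finset

namespace Pool.Agent.Lib.MP_a3a416_nt

section Arith

variable {K : Type*} [Field K]

lemma int_dvd_cancel {a b : ℤ} {n v : ℕ} (hv : v ≤ n) (hb : ¬ (3 : ℤ) ∣ b)
    (h : (3 : ℤ) ^ n ∣ 3 ^ v * a * b) : (3 : ℤ) ^ (n - v) ∣ a := by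
  have h1 : IsCoprime ((3 : ℤ) ^ n) b := by
    apply IsCoprime.pow_left
    exact (Int.prime_three.coprime_iff_not_dvd).mpr hb
  have h2 : (3 : ℤ) ^ n ∣ 3 ^ v * a := h1.dvd_of_dvd_mul_right h
  have h3 : (3 : ℤ) ^ n = 3 ^ v * 3 ^ (n - v) := by
    rw [← pow_add, Nat.add_sub_cancel' hv]
  rw [h3] at h2
  exact (mul_dvd_mul_iff_left (by positivity)).mp h2

lemma cast_eq_one_iff {n : ℕ} (c : ℤ) : (c : ZMod (3 ^ n)) = 1 ↔ (3 : ℤ) ^ n ∣ c - 1 := by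
  have h := ZMod.intCast_zmod_eq_zero_iff_dvd (c - 1) (3 ^ n)
  push_cast at h
  rw [← h, sub_eq_zero]

lemma three_not_dvd_of_dvd_sub {u : ℤ} (hu : (3 : ℤ) ∣ u - 1) : ¬ (3 : ℤ) ∣ u := by
  intro h
  omega

lemma three_pow_self (n : ℕ) : ((3 : ZMod (3 ^ n))) ^ n = 0 := by
  have h : ((3 ^ n : ℕ) : ZMod (3 ^ n)) = 0 := ZMod.natCast_self _
  push_cast at h
  exact h

lemma three_pow_ge {n k : ℕ} (h : n ≤ k) : ((3 : ZMod (3 ^ n))) ^ k = 0 := by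
  rw [← Nat.sub_add_cancel h, pow_add, three_pow_self, mul_zero]

/-- A character with `χ(1 + 3^(n-1)) ≠ 1` is faithful on `1 + 3 ℤ`. -/
lemma char_faithful {n : ℕ} (hn : 2 ≤ n) (χ : DirichletCharacter K (3 ^ n))
    (hχ : χ (1 + 3 ^ (n - 1)) ≠ 1) {c : ℤ} (hc : (3 : ℤ) ∣ c - 1) (h1 : χ (c : ZMod (3 ^ n)) = 1) :
    (c : ZMod (3 ^ n)) = 1 := by
  classical
  by_contra hcon
  have hex : ∃ k : ℕ, ((c : ZMod (3 ^ n))) ^ 3 ^ k = 1 := by
    refine ⟨n, ?_⟩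
    obtain ⟨u, -, hu⟩ := lte_three hc n
    have : ((c ^ 3 ^ n : ℤ) : ZMod (3 ^ n)) = 1 := by
      rw [cast_eq_one_iff, hu]
      exact (dvd_mul_right _ _).mul_right _
    push_cast at this
    exact this
  have hk := Nat.find_spec hex
  set k := Nat.find hex with hkdef
  have hk0 : k ≠ 0 := by
    intro h
    rw [h, pow_zero, pow_one] at hk
    exact hcon hk
  obtain ⟨j, hj⟩ : ∃ j, k = j + 1 := ⟨k - 1, by omega⟩
  have hmin : ((c : ZMod (3 ^ n))) ^ 3 ^ j ≠ 1 := Nat.find_min hex (by rw [← hkdef]; omega)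
  set d : ℤ := c ^ 3 ^ j with hd
  have hdc : (d : ZMod (3 ^ n)) = (c : ZMod (3 ^ n)) ^ 3 ^ j := by rw [hd]; push_cast; rfl
  have hd3 : (3 : ℤ) ∣ d - 1 := by
    obtain ⟨u, -, hu⟩ := lte_three hc j
    rw [hd, hu]
    exact (hc.mul_left _).mul_right _
  obtain ⟨u, hu1, hu⟩ := lte_three hd3 1
  have h2 : ((d ^ 3 : ℤ) : ZMod (3 ^ n)) = 1 := by
    push_cast
    rw [hdc, ← pow_mul, ← pow_succ, ← hj]
    exact hk
  rw [cast_eq_one_iff] at h2
  rw [pow_one] at hu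
  rw [hu] at h2
  have h3 := int_dvd_cancel (v := 1) (by omega) (three_not_dvd_of_dvd_sub hu1) h2
  obtain ⟨w, hw⟩ := h3
  have hyy : ((3 : ZMod (3 ^ n)) ^ (n - 1)) * 3 ^ (n - 1) = 0 := by
    rw [← pow_add]
    exact three_pow_ge (by omega)
  have h3y : (3 : ZMod (3 ^ n)) * 3 ^ (n - 1) = 0 := by
    rw [← pow_succ']
    exact three_pow_ge (by omega)
  set y : ZMod (3 ^ n) := 3 ^ (n - 1) with hy
  have hdw : (d : ZMod (3 ^ n)) = 1 + y * w := by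
    have : d = 1 + 3 ^ (n - 1) * w := by linarith
    rw [this]
    push_cast
    rfl
  have hχd : χ (d : ZMod (3 ^ n)) = 1 := by
    rw [hdc, map_pow, h1, one_pow]
  have hθ3 : χ (1 + y) ^ 3 = 1 := by
    rw [← map_pow]
    have : (1 + y) ^ 3 = 1 := by linear_combination (3 + y) * hyy + h3y
    rw [this, map_one]
  -- cases on `w mod 3`
  have hw3 : w % 3 = 0 ∨ w % 3 = 1 ∨ w % 3 = 2 := by omega
  have hwm : (w : ZMod (3 ^ n)) = ((w % 3 : ℤ) : ZMod (3 ^ n)) + 3 * ((w / 3 : ℤ) : ZMod (3 ^ n)) := by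
    have := Int.emod_add_mul_ediv w 3
    exact_mod_cast congrArg (Int.cast : ℤ → ZMod (3 ^ n)) this.symm
  have hyw : y * (w : ZMod (3 ^ n)) = y * ((w % 3 : ℤ) : ZMod (3 ^ n)) := by
    rw [hwm]
    linear_combination (((w / 3 : ℤ) : ZMod (3 ^ n))) * h3y
  rw [hyw] at hdw
  rcases hw3 with h | h | h
  · rw [h] at hdw
    apply hmin
    rw [← hdc, hdw]
    simp
  · rw [h] at hdw
    apply hχ
    rw [← hχd, hdw]
    simp
  · rw [h] at hdw
    have h5 : (d : ZMod (3 ^ n)) = (1 + y) ^ 2 := by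
      rw [hdw]
      push_cast
      linear_combination (-1 : ZMod (3 ^ n)) * hyy
    rw [h5, map_pow] at hχd
    apply hχ
    rw [pow_succ, hχd, one_mul] at hθ3
    exact hθ3

/-- The elements `b` with `χ(b)` in the field with `P` elements, `P - 1 = 2 * 3^v * r`. -/
lemma fixed_units {n v r P : ℕ} (hvn : v ≤ n) (hn : 2 ≤ n) (hP : P = 2 * 3 ^ v * r + 1) (hr : ¬ 3 ∣ r)
    (χ : DirichletCharacter K (3 ^ n)) (hχ : χ (1 + 3 ^ (n - 1)) ≠ 1) {b : ZMod (3 ^ n)}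
    (hb : IsUnit b) (hbP : χ b ^ P = χ b) :
    ∃ w : ℤ, b = 1 + 3 ^ (n - v) * (w : ZMod (3 ^ n)) ∨ b = - (1 + 3 ^ (n - v) * (w : ZMod (3 ^ n))) := by
  have hχb : χ b ≠ 0 := (hb.map χ).ne_zero
  obtain ⟨B, hB⟩ : ∃ B : ℤ, (B : ZMod (3 ^ n)) = b := ZMod.intCast_surjective b
  have hB3 : ¬ (3 : ℤ) ∣ B := by
    intro h
    obtain ⟨s, hs⟩ := h
    have h1 : b ^ n = 0 := by
      rw [← hB, hs]
      push_cast
      rw [mul_pow, three_pow_self, zero_mul]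
    have h2 := (hb.pow n)
    rw [h1, isUnit_zero_iff] at h2
    have h3 : Fact (1 < 3 ^ n) := ⟨Nat.one_lt_pow (by omega) (by norm_num)⟩
    exact zero_ne_one h2
  have h1 : χ b ^ (2 * 3 ^ v * r) = 1 := by
    rw [hP, pow_succ] at hbP
    exact mul_right_cancel₀ hχb (by rw [hbP, one_mul])
  have hB2 : (3 : ℤ) ∣ B ^ 2 - 1 := by
    have : B % 3 = 1 ∨ B % 3 = 2 := by omega
    rcases this with h | h
    · obtain ⟨k, hk⟩ : ∃ k, B = 3 * k + 1 := ⟨B / 3, by omega⟩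
      exact ⟨3 * k ^ 2 + 2 * k, by rw [hk]; ring⟩
    · obtain ⟨k, hk⟩ : ∃ k, B = 3 * k + 2 := ⟨B / 3, by omega⟩
      exact ⟨3 * k ^ 2 + 4 * k + 1, by rw [hk]; ring⟩
  have hg3 : (3 : ℤ) ∣ (B ^ 2) ^ r - 1 := by
    refine hB2.trans ?_
    simpa using sub_dvd_pow_sub_pow (B ^ 2) 1 r
  have hc3 : (3 : ℤ) ∣ ((B ^ 2) ^ r) ^ 3 ^ v - 1 := by
    refine hg3.trans ?_
    simpa using sub_dvd_pow_sub_pow ((B ^ 2) ^ r) 1 (3 ^ v)
  have hc : (((((B ^ 2) ^ r) ^ 3 ^ v : ℤ)) : ZMod (3 ^ n)) = 1 := by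
    apply char_faithful hn χ hχ hc3
    push_cast
    rw [hB, ← pow_mul, ← pow_mul, map_pow, ← h1]
    congr 1
    ring
  rw [cast_eq_one_iff] at hc
  obtain ⟨u, hu, hlte⟩ := lte_three hg3 v
  rw [hlte] at hc
  have h2 := int_dvd_cancel hvn (three_not_dvd_of_dvd_sub hu) hc
  -- now `3^(n-v) ∣ B^2 - 1`
  have h3 : (3 : ℤ) ^ (n - v) ∣ B ^ 2 - 1 := by
    have h4 : (B ^ 2) ^ r - 1 = (B ^ 2 - 1) * ∑ i ∈ range r, (B ^ 2) ^ i := (mul_geom_sum (B ^ 2) r).symm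
    have h5 : ¬ (3 : ℤ) ∣ ∑ i ∈ range r, (B ^ 2) ^ i := by
      have h6 : (3 : ℤ) ∣ (∑ i ∈ range r, (B ^ 2) ^ i) - r := by
        have h7 : (∑ i ∈ range r, (B ^ 2) ^ i) - r = ∑ i ∈ range r, ((B ^ 2) ^ i - 1) := by
          rw [sum_sub_distrib]
          simp
        rw [h7]
        refine dvd_sum fun i _ => hB2.trans ?_
        simpa using sub_dvd_pow_sub_pow (B ^ 2) 1 i
      intro h
      have h8 := (dvd_sub_right h).mp h6
      exact hr (by exact_mod_cast h8)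
    rw [h4] at h2
    have h9 := int_dvd_cancel (a := B ^ 2 - 1) (b := ∑ i ∈ range r, (B ^ 2) ^ i) (n := n - v) (v := 0)
      (Nat.zero_le _) h5 (by rw [pow_zero, one_mul]; exact h2)
    rwa [Nat.sub_zero] at h9
  have h4 : B % 3 = 1 ∨ B % 3 = 2 := by omega
  rcases h4 with h | h
  · have h5 : ¬ (3 : ℤ) ∣ B + 1 := by omega
    have h6 := int_dvd_cancel (a := B - 1) (b := B + 1) (n := n - v) (v := 0) (Nat.zero_le _) h5
      (by
        rw [pow_zero, one_mul]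
        refine h3.trans (dvd_of_eq ?_)
        ring)
    rw [Nat.sub_zero] at h6
    obtain ⟨w, hw⟩ := h6
    refine ⟨w, Or.inl ?_⟩
    rw [← hB, show B = 1 + 3 ^ (n - v) * w by linarith]
    push_cast
    rfl
  · have h5 : ¬ (3 : ℤ) ∣ B - 1 := by omega
    have h6 := int_dvd_cancel (a := B + 1) (b := B - 1) (n := n - v) (v := 0) (Nat.zero_le _) h5
      (by
        rw [pow_zero, one_mul]
        refine h3.trans (dvd_of_eq ?_)
        ring)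
    rw [Nat.sub_zero] at h6
    obtain ⟨w, hw⟩ := h6
    refine ⟨-w, Or.inr ?_⟩
    rw [← hB, show B = -1 + 3 ^ (n - v) * w by linarith]
    push_cast
    ring

end Arith

end Pool.Agent.Lib.MP_a3a416_nt
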